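import Pool.Agent.Lib.MP_b685ef_ag.ASX.Spec

/-!
# MP_b685ef_ag, theorem LFP (the leading form principle, every Newton polytope): definitions

Paper: /team-store/b685_LFP_paper.txt (helper3).  Folder `ASE`, namespace `ASE`.  The namespaces
`ASur` (folder `AS`), `AST`, `ASX` are reused: `rd`, `KK`, `IsSplit`, `IsTeich`, `Pmat`, `revP`,
`Edge`, `cyc`; `ST`, `sumT`, `FT`, `GT`, `AT`, `evC`.
Exponents are the elements of `Fin n → ℤ`.  A cone is a predicate `K : (Fin n → ℤ) → Prop`, a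
weight is a function `e : (Fin n → ℤ) → ℕ` (only its values on `K` matter).
Multisets over a normed field: `ps` (power sums), `dc` (number of elements in the disc
`{‖x - z‖ < ‖z‖}`), `cc` (number of elements of norm `r`), `gc` (norm `> r`), `ge` (norm `≥ r`).
-/

set_option linter.all false

namespace ASE

open Finset ASur AST

/-! ## Weights -/

/-- `K` is a saturated submonoid of `ℤ^n`, `e` is homogeneous and subadditive on `K`, with finite
level sets. -/
structure Wgt {n : ℕ} (K : (Fin n → ℤ) → Prop) (e : (Fin n → ℤ) → ℕ) : Prop where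
  zero : K 0
  add : ∀ u v, K u → K v → K (u + v)
  sat : ∀ (m : ℕ) u, 1 ≤ m → K (m • u) → K u
  smul : ∀ (m : ℕ) u, K u → e (m • u) = m * e u
  sub : ∀ u v, K u → K v → e (u + v) ≤ e u + e v
  fin : ∀ L : ℕ, {u | K u ∧ e u ≤ L}.Finite

/-- `f`, `f'` have all exponents in `{u ∈ K : e(u) ≤ D}` and the same coefficients on
`{u ∈ K : e(u) = D}` (the same leading form). -/
structure Pair {n : ℕ} {k : Type} [Field k] (D : ℕ) (K : (Fin n → ℤ) → Prop)
    (e : (Fin n → ℤ) → ℕ) (f f' : (Fin n → ℤ) →₀ k) : Prop where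
  mem : ∀ u ∈ f.support, K u ∧ e u ≤ D
  mem' : ∀ u ∈ f'.support, K u ∧ e u ≤ D
  lead : ∀ u, K u → e u = D → f u = f' u

/-- `S` is the level set `{u ∈ K : e(u) ≤ L}`. -/
def IsLev {n : ℕ} (K : (Fin n → ℤ) → Prop) (e : (Fin n → ℤ) → ℕ) (L : ℕ)
    (S : Finset (Fin n → ℤ)) : Prop :=
  ∀ u, u ∈ S ↔ K u ∧ e u ≤ L

/-- The support of `F` lies in `{u ∈ K : e(u) ≤ B}`. -/
def InK {n : ℕ} {C : Type} [Semiring C] (K : (Fin n → ℤ) → Prop) (e : (Fin n → ℤ) → ℕ) (B : ℕ)
    (F : AddMonoidAlgebra C (Fin n → ℤ)) : Prop :=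
  ∀ u, F.coeff u ≠ 0 → K u ∧ e u ≤ B

/-- `h(m) = #{u ∈ K : e(u) = m}`. -/
noncomputable def hh {n : ℕ} (K : (Fin n → ℤ) → Prop) (e : (Fin n → ℤ) → ℕ) (m : ℕ) : ℕ :=
  Set.ncard {u : Fin n → ℤ | K u ∧ e u = m}

/-- `H(m) = ∑_i (-1)^i binom(n,i) #{u ∈ K : e(u) + D i = m}`. -/
noncomputable def HH {n : ℕ} (D : ℕ) (K : (Fin n → ℤ) → Prop) (e : (Fin n → ℤ) → ℕ) (m : ℕ) : ℤ :=
  ∑ i ∈ range (n + 1), (-1) ^ i * (n.choose i : ℤ) *
    (Set.ncard {u : Fin n → ℤ | K u ∧ e u + D * i = m} : ℤ)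

/-- `s(m) = ∑_{j < m} (m - j) W(j)`. -/
def ss (W : ℕ → ℕ) (m : ℕ) : ℕ := ∑ j ∈ range m, (m - j) * W j

theorem Wgt.smulK {n : ℕ} {K : (Fin n → ℤ) → Prop} {e : (Fin n → ℤ) → ℕ} (h : Wgt K e) (m : ℕ)
    (u : Fin n → ℤ) (hu : K u) : K (m • u) := by
  induction m with
  | zero => simpa using h.zero
  | succ m ih =>
    rw [succ_nsmul]
    exact h.add _ _ ih hu

theorem Wgt.e_zero {n : ℕ} {K : (Fin n → ℤ) → Prop} {e : (Fin n → ℤ) → ℕ} (h : Wgt K e) :
    e 0 = 0 := by
  have := h.smul 0 0 h.zero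
  simpa using this

theorem Wgt.lev {n : ℕ} {K : (Fin n → ℤ) → Prop} {e : (Fin n → ℤ) → ℕ} (h : Wgt K e) (L : ℕ) :
    ∃ S : Finset (Fin n → ℤ), IsLev K e L S :=
  ⟨(h.fin L).toFinset, fun u => by simp⟩

/-! ## Multisets over a normed field -/

/-- The power sum `∑_{x ∈ μ} x^j`. -/
noncomputable def ps {C : Type*} [Field C] (μ : Multiset C) (j : ℕ) : C :=
  (μ.map fun x => x ^ j).sum

open Classical in
/-- The number of the elements of `μ` with `‖x - z‖ < ‖z‖`. -/
noncomputable def dc {C : Type} [NormedField C] (μ : Multiset C) (z : C) : ℕ :=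
  Multiset.countP (fun x => ‖x - z‖ < ‖z‖) μ

open Classical in
/-- The number of the elements of `μ` of norm `r`. -/
noncomputable def cc {C : Type} [NormedField C] (μ : Multiset C) (r : ℝ) : ℕ :=
  Multiset.countP (fun x => ‖x‖ = r) μ

open Classical in
/-- The number of the elements of `μ` of norm `> r`. -/
noncomputable def gc {C : Type} [NormedField C] (μ : Multiset C) (r : ℝ) : ℕ :=
  Multiset.countP (fun x => r < ‖x‖) μ

open Classical in
/-- The number of the elements of `μ` of norm `≥ r`. -/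
noncomputable def ge {C : Type} [NormedField C] (μ : Multiset C) (r : ℝ) : ℕ :=
  Multiset.countP (fun x => r ≤ ‖x‖) μ

section multisets
variable {C : Type} [NormedField C]

@[simp] theorem ps_zero (j : ℕ) : ps (0 : Multiset C) j = 0 := by simp [ps]
@[simp] theorem dc_zero (z : C) : dc (0 : Multiset C) z = 0 := by simp [dc]
@[simp] theorem cc_zero (r : ℝ) : cc (0 : Multiset C) r = 0 := by simp [cc]
@[simp] theorem gc_zero (r : ℝ) : gc (0 : Multiset C) r = 0 := by simp [gc]
@[simp] theorem ge_zero (r : ℝ) : ge (0 : Multiset C) r = 0 := by simp [ge]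

theorem ps_add (μ ν : Multiset C) (j : ℕ) : ps (μ + ν) j = ps μ j + ps ν j := by simp [ps]
theorem dc_add (μ ν : Multiset C) (z : C) : dc (μ + ν) z = dc μ z + dc ν z := by
  simp [dc, Multiset.countP_add]
theorem cc_add (μ ν : Multiset C) (r : ℝ) : cc (μ + ν) r = cc μ r + cc ν r := by
  simp [cc, Multiset.countP_add]
theorem gc_add (μ ν : Multiset C) (r : ℝ) : gc (μ + ν) r = gc μ r + gc ν r := by
  simp [gc, Multiset.countP_add]
theorem ge_add (μ ν : Multiset C) (r : ℝ) : ge (μ + ν) r = ge μ r + ge ν r := by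
  simp [ge, Multiset.countP_add]

theorem ps_nsmul (a : ℕ) (μ : Multiset C) (j : ℕ) : ps (a • μ) j = a * ps μ j := by
  induction a with
  | zero => simp
  | succ a ih => rw [succ_nsmul, ps_add, ih]; push_cast; ring
theorem dc_nsmul (a : ℕ) (μ : Multiset C) (z : C) : dc (a • μ) z = a * dc μ z := by
  induction a with
  | zero => simp
  | succ a ih => rw [succ_nsmul, dc_add, ih]; ring
theorem cc_nsmul (a : ℕ) (μ : Multiset C) (r : ℝ) : cc (a • μ) r = a * cc μ r := by
  induction a with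
  | zero => simp
  | succ a ih => rw [succ_nsmul, cc_add, ih]; ring
theorem ge_nsmul (a : ℕ) (μ : Multiset C) (r : ℝ) : ge (a • μ) r = a * ge μ r := by
  induction a with
  | zero => simp
  | succ a ih => rw [succ_nsmul, ge_add, ih]; ring

theorem ps_sum {I : Type*} (s : Finset I) (μ : I → Multiset C) (j : ℕ) :
    ps (∑ i ∈ s, μ i) j = ∑ i ∈ s, ps (μ i) j := by
  classical
  induction s using Finset.induction_on with
  | empty => simp
  | insert a s ha ih => rw [Finset.sum_insert ha, Finset.sum_insert ha, ps_add, ih]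
theorem dc_sum {I : Type*} (s : Finset I) (μ : I → Multiset C) (z : C) :
    dc (∑ i ∈ s, μ i) z = ∑ i ∈ s, dc (μ i) z := by
  classical
  induction s using Finset.induction_on with
  | empty => simp
  | insert a s ha ih => rw [Finset.sum_insert ha, Finset.sum_insert ha, dc_add, ih]
theorem cc_sum {I : Type*} (s : Finset I) (μ : I → Multiset C) (r : ℝ) :
    cc (∑ i ∈ s, μ i) r = ∑ i ∈ s, cc (μ i) r := by
  classical
  induction s using Finset.induction_on with
  | empty => simp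
  | insert a s ha ih => rw [Finset.sum_insert ha, Finset.sum_insert ha, cc_add, ih]
theorem ge_sum {I : Type*} (s : Finset I) (μ : I → Multiset C) (r : ℝ) :
    ge (∑ i ∈ s, μ i) r = ∑ i ∈ s, ge (μ i) r := by
  classical
  induction s using Finset.induction_on with
  | empty => simp
  | insert a s ha ih => rw [Finset.sum_insert ha, Finset.sum_insert ha, ge_add, ih]

theorem norm_eq_of_sub_lt [IsUltrametricDist C] {x z : C} (h : ‖x - z‖ < ‖z‖) : ‖x‖ = ‖z‖ := by
  have h1 := IsUltrametricDist.norm_add_eq_max_of_norm_ne_norm (x := x - z) (y := z) h.ne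
  rw [sub_add_cancel, max_eq_right h.le] at h1
  exact h1

end multisets

/-- The coefficients of `∏ (1 - xX)` lie on or above the polygon of `W` at the levels `≤ M`. -/
def Above {C : Type} [NormedField C] (μ : Multiset C) (t : ℝ) (W : ℕ → ℕ) (M : ℕ) : Prop :=
  ∀ m, m ≤ M → ∀ r, ‖(revP μ).coeff r‖ * t ^ ss W m ≤ t ^ (m * r)

/-- The coefficients of `∏_{μ} (1 - xX)` and `∏_{ν} (1 - xX)` are congruent at the levels
`≤ M`. -/
def Near {C : Type} [NormedField C] (μ ν : Multiset C) (t : ℝ) (W : ℕ → ℕ) (M : ℕ) : Prop :=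
  ∀ m, m ≤ M → ∀ r, ‖(revP μ).coeff r - (revP ν).coeff r‖ * t ^ ss W m < t ^ (m * r)

/-- The multiset of the `q^s x`, `x ∈ γ`. -/
noncomputable def tw {C : Type} [NormedField C] (q : C) (s : ℕ) (γ : Multiset C) : Multiset C :=
  γ.map fun x => q ^ s * x

/-- `∑_{s even} binom(n,s) q^s γ`. -/
noncomputable def gev {C : Type} [NormedField C] (n : ℕ) (q : C) (γ : Multiset C) : Multiset C :=
  ∑ s ∈ (range (n + 1)).filter (fun s => s % 2 = 0), n.choose s • tw q s γ

/-- `∑_{s odd} binom(n,s) q^s γ`. -/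
noncomputable def god {C : Type} [NormedField C] (n : ℕ) (q : C) (γ : Multiset C) : Multiset C :=
  ∑ s ∈ (range (n + 1)).filter (fun s => s % 2 = 1), n.choose s • tw q s γ

end ASE
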