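import Pool.Agent.Lib.MP_b685ef_ag.ASE.Spec

/-!
# MP_b685ef_ag, theorem LFP, part (A): explicit residues for every ordinary exponential sum
# Definitions

`E_l` are the coefficients of the Artin-Hasse exponential `exp(∑ t^{p^i}/p^i)`, rational numbers
without `p` in the denominator; their images in a field of characteristic `p` are the casts
`((E l : ℚ) : k)`.
-/

set_option linter.all false

namespace ASE

open Finset ASur AST

/-- The recursion `t E' = (∑ t^{p^i}) E`, `E_0 = 1`, of the Artin-Hasse exponential. -/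
def IsAHQ (p : ℕ) (E : ℕ → ℚ) : Prop :=
  E 0 = 1 ∧ ∀ l : ℕ, 1 ≤ l → (l : ℚ) * E l =
    ∑ i ∈ range (l + 1), if p ^ i ≤ l then E (l - p ^ i) else 0

open Classical in
/-- `∑_l ∏_x E_{l_x} f(x)^{l_x}` over all `l : supp f → ℕ` which vanish outside `{e(x) = D}`, with
`∑_x l_x x = w` and `D ∑_x l_x = a`. -/
noncomputable def gH {n : ℕ} {k : Type} [Field k] (D : ℕ) (e : (Fin n → ℤ) → ℕ) (E : ℕ → ℚ)
    (f : (Fin n → ℤ) →₀ k) (w : Fin n → ℤ) (a : ℕ) : k :=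
  ∑ l ∈ (Fintype.piFinset (fun _ : f.support => range (a + 1))).filter
      (fun l => (∀ x, l x ≠ 0 → e x.1 = D) ∧ ∑ x, (l x : ℤ) • x.1 = w ∧ D * ∑ x, l x = a),
    ∏ x : f.support, ((E (l x) : ℚ) : k) * f x.1 ^ l x

/-- `c(u,v)`: the sum over the `l` with `∑_x l_x x = p u - v`, `D ∑_x l_x = p e(u) - e(v)`. -/
noncomputable def cH {n : ℕ} {k : Type} [Field k] (p D : ℕ) (e : (Fin n → ℤ) → ℕ) (E : ℕ → ℚ)
    (f : (Fin n → ℤ) →₀ k) (u v : Fin n → ℤ) : k :=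
  if e v ≤ p * e u then gH D e E f (p • u - v) (p * e u - e v) else 0

open Classical in
/-- The set of the `u ∈ K` with `Q(e(u))`, as a `Finset` (if it is finite). -/
noncomputable def lset {n : ℕ} (K : (Fin n → ℤ) → Prop) (e : (Fin n → ℤ) → ℕ) (Q : ℕ → Prop) :
    Finset (Fin n → ℤ) :=
  if h : {u | K u ∧ Q (e u)}.Finite then h.toFinset else ∅

/-- The matrix `(c(u,v))`, `Q(e(u))`, `Q'(e(v))`. -/
noncomputable def bH {n : ℕ} {k : Type} [Field k] (p D : ℕ) (K : (Fin n → ℤ) → Prop)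
    (e : (Fin n → ℤ) → ℕ) (E : ℕ → ℚ) (f : (Fin n → ℤ) →₀ k) (Q Q' : ℕ → Prop) :
    Matrix (lset K e Q) (lset K e Q') k :=
  Matrix.of fun u v => cH p D e E f u.1 v.1

/-- `det (c(u,v))_{e(u), e(v) < m}`. -/
noncomputable def dH {n : ℕ} {k : Type} [Field k] (p D : ℕ) (K : (Fin n → ℤ) → Prop)
    (e : (Fin n → ℤ) → ℕ) (E : ℕ → ℚ) (f : (Fin n → ℤ) →₀ k) (m : ℕ) : k :=
  (bH p D K e E f (fun j => j < m) (fun j => j < m)).det

/-- The Schur complement of the block `{e < m}` in the matrix `(c(u,v))_{e(u), e(v) ≤ m}`. -/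
noncomputable def sH {n : ℕ} {k : Type} [Field k] (p D : ℕ) (K : (Fin n → ℤ) → Prop)
    (e : (Fin n → ℤ) → ℕ) (E : ℕ → ℚ) (f : (Fin n → ℤ) →₀ k) (m : ℕ) :
    Matrix (lset K e (fun j => j = m)) (lset K e (fun j => j = m)) k :=
  bH p D K e E f (fun j => j = m) (fun j => j = m) -
    bH p D K e E f (fun j => j = m) (fun j => j < m) *
      (bH p D K e E f (fun j => j < m) (fun j => j < m))⁻¹ *
      bH p D K e E f (fun j => j < m) (fun j => j = m)

/-- `N_m = S_m^{(p^{h-1})} ⋯ S_m^{(p)} S_m` (entrywise powers). -/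
noncomputable def NmH {n : ℕ} {k : Type} [Field k] (p D h : ℕ) (K : (Fin n → ℤ) → Prop)
    (e : (Fin n → ℤ) → ℕ) (E : ℕ → ℚ) (f : (Fin n → ℤ) →₀ k) (m : ℕ) :
    Matrix (lset K e (fun j => j = m)) (lset K e (fun j => j = m)) k :=
  Fprod p (sH p D K e E f m) h

/-- The multiplicity of `v` as an eigenvalue of `N_m`. -/
noncomputable def muH {n : ℕ} {k κ : Type} [Field k] [Field κ] (ι : k →+* κ) (p D h : ℕ)
    (K : (Fin n → ℤ) → Prop) (e : (Fin n → ℤ) → ℕ) (E : ℕ → ℚ) (f : (Fin n → ℤ) →₀ k) (m : ℕ)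
    (v : κ) : ℕ :=
  ((NmH p D h K e E f m).charpoly.map ι).rootMultiplicity v

/-- `N(m,v) = ∑_s (-1)^s binom(n,s) mult_{m - D s}(v (-1)^{h s})`. -/
noncomputable def NH {n : ℕ} {k κ : Type} [Field k] [Field κ] (ι : k →+* κ) (p D h : ℕ)
    (K : (Fin n → ℤ) → Prop) (e : (Fin n → ℤ) → ℕ) (E : ℕ → ℚ) (f : (Fin n → ℤ) →₀ k) (m : ℕ)
    (v : κ) : ℤ :=
  ∑ s ∈ range (n + 1), (-1) ^ s * (n.choose s : ℤ) *
    (if D * s ≤ m then (muH ι p D h K e E f (m - D * s) (v * (-1) ^ (h * s)) : ℤ) else 0)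

/-- Block of a matrix. -/
def blkM {I κ : Type} (e : I → ℕ) (Q Q' : ℕ → Prop) (Z : Matrix I I κ) :
    Matrix {u : I // Q (e u)} {v : I // Q' (e v)} κ :=
  Matrix.of fun u v => Z u.1 v.1

open Classical in
/-- The Schur complement of the block `{e < m}` in the block `{e ≤ m}`. -/
noncomputable def schM {I κ : Type} [Fintype I] [Field κ] (e : I → ℕ) (m : ℕ) (Z : Matrix I I κ) :
    Matrix {u : I // e u = m} {u : I // e u = m} κ :=
  blkM e (fun j => j = m) (fun j => j = m) Z -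
    blkM e (fun j => j = m) (fun j => j < m) Z * (blkM e (fun j => j < m) (fun j => j < m) Z)⁻¹ *
      blkM e (fun j => j < m) (fun j => j = m) Z

theorem Wgt.mem_lset {n : ℕ} {K : (Fin n → ℤ) → Prop} {e : (Fin n → ℤ) → ℕ} (h : Wgt K e)
    (Q : ℕ → Prop) (L : ℕ) (hQ : ∀ j, Q j → j ≤ L) (u : Fin n → ℤ) :
    u ∈ lset K e Q ↔ K u ∧ Q (e u) := by
  have hf : {u | K u ∧ Q (e u)}.Finite :=
    (h.fin L).subset fun u hu => ⟨hu.1, hQ _ hu.2⟩
  unfold lset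
  rw [dif_pos hf]
  simp

end ASE
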