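import Pool.Agent.Lib.MP_b685ef_ag.ASE.SUBE

/-! # MP_b685ef_ag, ASE, module FINE (helper9) -/

set_option linter.all false

namespace ASE

open Finset ASur AST

universe u v

namespace FINEaux

theorem norm_card (p : ℕ) [Fact p.Prime] (k : Type) [Field k] [Fintype k] [Algebra (ZMod p) k] :
    ‖(Fintype.card k : PadicAlgCl p)‖ < 1 := by
  have hp : ‖(p : PadicAlgCl p)‖ < 1 := by
    have h2 := PadicAlgCl.norm_extends p (p : ℚ_[p])
    have h3 : ‖(p : PadicAlgCl p)‖ = ‖(p : ℚ_[p])‖ := by
      rw [← h2]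
      congr 1
    rw [h3]
    exact Padic.norm_p_lt_one
  have : CharP k p := charP_of_injective_algebraMap (algebraMap (ZMod p) k).injective p
  obtain ⟨n, _, h⟩ := FiniteField.card k p
  rw [h]
  push_cast
  rw [norm_pow]
  exact pow_lt_one₀ (norm_nonneg _) hp n.pos.ne'

end FINEaux

open FINEaux in
theorem fine_thm (hMAINC : StmtMAINC) (hK2D : StmtK2D.{u}) (hMULT : StmtMULT.{u, v})
    (hLINALG : StmtLINALG.{u, v}) (hEXT : StmtEXT) : StmtFINE.{u, v} := by
  classical
  intro p _ D hD k _ _ _ I _ n K e f f' a hW hP ψ hψ α β hαβ hcc b hb F _ _ _ ψ' hψ' W _ _ _ φ hT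
  have hp : ‖(p : PadicAlgCl p)‖ < 1 := by
    have h2 := PadicAlgCl.norm_extends p (p : ℚ_[p])
    have h3 : ‖(p : PadicAlgCl p)‖ = ‖(p : ℚ_[p])‖ := by
      rw [← h2]
      congr 1
    rw [h3]
    exact Padic.norm_p_lt_one
  let j : ℤ_[p] →+* PadicAlgCl p := (algebraMap ℚ_[p] (PadicAlgCl p)).comp PadicInt.Coe.ringHom
  have hj : ∀ x, ‖j x‖ ≤ 1 := by
    intro x
    have h2 := PadicAlgCl.norm_extends p (x : ℚ_[p])
    exact h2.trans_le x.norm_le_one
  refine klev_thm hK2D hMULT hLINALG hEXT p k I n f a ψ hψ b 0 ?_ F ψ' hψ' W φ hT ?_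
  · intro A hA0 hA x
    by_cases hx : x = 0
    · have h0 : Multiset.countP (fun y => y = x) A = 0 := by
        rw [Multiset.countP_eq_zero]
        intro y hy h
        exact (hA0 y hy).1 (h.trans hx)
      rw [h0]
      exact Nat.zero_le _
    · have hxD : 0 < ‖x‖ ^ D := pow_pos (norm_pos_iff.2 hx) D
      obtain ⟨M, hM⟩ := exists_pow_lt_of_lt_one hxD (norm_card p k)
      have h1 := hMAINC p D hD (PadicAlgCl p) hp j hj k I n K e f f' a hW hP ψ hψ α β hαβ A 0
        (by
          intro E _ _ _ _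
          rw [ps_zero, sub_zero]
          exact hA E) M (fun i m _ r hr h => hcc i m r hr h) x hx hM.le
      rw [dc_zero] at h1
      have h2 := hb x hx
      rw [← h1] at h2
      have h3 : dc A x ≤ b := by
        have h4 : (dc A x : ℤ) ≤ b := by simpa using h2
        exact_mod_cast h4
      refine le_trans ?_ h3
      unfold dc
      have h5 : Multiset.countP (fun y => y = x) A ≤ Multiset.countP (fun y => ‖y - x‖ < ‖x‖) A := by
        rw [Multiset.countP_eq_card_filter, Multiset.countP_eq_card_filter]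
        refine Multiset.card_le_card (Multiset.monotone_filter_right A ?_)
        intro y hy
        have h6 : y = x := hy
        subst h6
        simpa using hx
      convert h5
  · intro x _
    rw [Nat.cast_zero, zero_mul]
    exact isIntegral_zero

end ASE
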