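import Pool.Agent.Lib.MP_b685ef_ag.ASE.Defs

/-!
# MP_b685ef_ag, theorem LFP: statements of all modules

Paper: /team-store/b685_LFP_paper.txt .  Module NAME proves `StmtNAME` in
`Pool/Agent/Lib/MP_b685ef_ag/ASE/NAME.lean` (import `...ASE.Spec`, `namespace ASE`), as
`theorem name_thm (dependencies as hypotheses) : StmtNAME` (auxiliary lemmas in a namespace of
their own, `namespace NAMEaux`).  Dependencies `ASur.StmtXXX`, `AST.StmtXXX`, `ASX.StmtXXX` are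
proved in the folders `AS`, `AST`, `ASX`; take them as hypotheses (or import the file and use the
lemma named in the docstring).  `copy of ASX/FOO` means: open that file and replace `Cone V` by
`K`, `ee y` by `e`, `Geo D V y` by `Wgt K e`; nothing else changes.

Norms of real numbers: `t ∈ (0,1)` with `t^D = ‖q‖`; the level `m` is the circle `‖x‖ = t^m`.
-/

set_option linter.all false

namespace ASE

open Finset ASur AST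

universe u v

/-! ## Part A: weights and the trace formula (adaptations of ASX) -/

/-- **SUBE** (copy of `ASX/SUBX.lean`): induction over `T` with `add`, `sub`, `smul`. -/
def StmtSUBE : Prop := ∀ (n : ℕ) (K : (Fin n → ℤ) → Prop) (e : (Fin n → ℤ) → ℕ), Wgt K e →
  ∀ (σ : Type) (T : Finset σ) (l : σ → ℕ) (x : σ → Fin n → ℤ), (∀ i ∈ T, K (x i)) →
  K (∑ i ∈ T, (l i : ℤ) • x i) ∧ e (∑ i ∈ T, (l i : ℤ) • x i) ≤ ∑ i ∈ T, l i * e (x i)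

/-- **PATHE** (copy of `ASX/PATHX.lean`; uses `sat`, `smul`, `sub`, `Wgt.smulK`). -/
def StmtPATHE : Prop := ∀ (p : ℕ), 1 ≤ p → ∀ (C : Type) [Field C] (n : ℕ)
  (K : (Fin n → ℤ) → Prop) (e : (Fin n → ℤ) → ℕ), Wgt K e →
  ∀ (L : ℕ) (S : Finset (Fin n → ℤ)), IsLev K e L S →
  ∀ (F : ℕ → AddMonoidAlgebra C (Fin n → ℤ)), (∀ i, InK K e ((p - 1) * L) (F i)) →
  ∀ m : ℕ, InK K e ((p ^ m - 1) * L) (GT p F m) ∧
    Matrix.trace (Pmat (fun i => AT p S (F i)) m) =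
      ∑ u ∈ S, (GT p F m).coeff ((p ^ m - 1) • u)

/-- **SUME** (copy of `ASX/SUMX.lean`). -/
def StmtSUME : Prop := ∀ (C : Type) [NormedField C] [IsUltrametricDist C]
  (E : Type) [Field E] [Fintype E] (ι : E →+* KK C) (τ : E →*₀ C), IsTeich ι τ →
  ∀ (n : ℕ) (K : (Fin n → ℤ) → Prop) (e : (Fin n → ℤ) → ℕ), Wgt K e →
  ∀ (L : ℕ) (S : Finset (Fin n → ℤ)), IsLev K e L S →
  ∀ (G : AddMonoidAlgebra C (Fin n → ℤ)), InK K e ((Fintype.card E - 1) * L) G →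
  sumT (fun x : Fin n → Eˣ => evC τ x G) =
    ((Fintype.card E : C) - 1) ^ n * ∑ u ∈ S, G.coeff ((Fintype.card E - 1) • u)

/-- **TRFE** (from `ASur.StmtTEXT`, `AST.StmtCHST`, SUME, PATHE, `ASur.StmtPER`; copy of
`ASX/TRFX.lean`). -/
def StmtTRFE : Prop := ∀ (p : ℕ) [Fact p.Prime] (C : Type) [NormedField C]
  [IsUltrametricDist C] [CharZero C] [IsAlgClosed C], ‖(p : C)‖ < 1 →
  ∀ (ψ : AddChar (ZMod p) C) (ε : ℝ) (Θ : Polynomial C), 0 < ε → IsSplit p (ψ 1) ε Θ →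
  ∀ (k : Type) [Field k] [Fintype k] [Algebra (ZMod p) k] (ι : k →+* KK C) (τ : k →*₀ C),
  IsTeich ι τ → ∀ (n : ℕ) (K : (Fin n → ℤ) → Prop) (e : (Fin n → ℤ) → ℕ), Wgt K e →
  ∀ (f : (Fin n → ℤ) →₀ k) (L : ℕ) (S : Finset (Fin n → ℤ)), IsLev K e L S →
  (∀ i, InK K e ((p - 1) * L) (FT p τ Θ f i)) →
  ∀ (E : Type) [Field E] [Fintype E] [Algebra (ZMod p) E] [Algebra k E],
  ‖ST ψ f E - ((Fintype.card k : C) ^ Module.finrank k E - 1) ^ n *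
    Matrix.trace ((Pmat (fun i => AT p S (FT p τ Θ f i)) (Module.finrank (ZMod p) k)) ^
      Module.finrank k E)‖ ≤ ε

/-- **DEGE** (from `ASX.StmtEXPX`, SUBE; copy of `ASX/DEGX.lean`). -/
def StmtDEGE : Prop := ∀ (p : ℕ), 2 ≤ p → ∀ (C : Type) [Field C] (k : Type) [Field k]
  (τ : k → C) (Θ : Polynomial C) (n : ℕ) (K : (Fin n → ℤ) → Prop) (e : (Fin n → ℤ) → ℕ),
  Wgt K e → ∀ (f : (Fin n → ℤ) →₀ k), (∀ u ∈ f.support, K u) →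
  ∃ L0 : ℕ, ∀ L, L0 ≤ L → ∀ i, InK K e ((p - 1) * L) (FT p τ Θ f i)

/-- **WGTE** (from `ASX.StmtEXPX`, SUBE; copy of `ASX/WGTX.lean`). -/
def StmtWGTE : Prop := ∀ (p : ℕ) [Fact p.Prime] (D : ℕ),
  ∀ (C : Type) [NormedField C] [IsUltrametricDist C] (ζ ρ : C) (ε : ℝ) (Θ : Polynomial C),
  IsSplit p ζ ε Θ → ρ ^ D = ζ - 1 → ρ ≠ 0 → ‖ρ‖ < 1 →
  ∀ (k : Type) [Field k] (ι : k →+* KK C) (τ : k →*₀ C), IsTeich ι τ →
  ∀ (n : ℕ) (K : (Fin n → ℤ) → Prop) (e : (Fin n → ℤ) → ℕ),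
  Wgt K e → ∀ (f : (Fin n → ℤ) →₀ k), (∀ u ∈ f.support, K u ∧ e u ≤ D) →
  ∀ (i : ℕ) (w : Fin n → ℤ), (¬ K w → (FT p τ Θ f i).coeff w = 0) ∧
    ‖(FT p τ Θ f i).coeff w‖ ≤ ‖ρ‖ ^ e w

/-! ## Part B: the same reduction -/

/-- **LEADE** (from WGTE or directly). Only the leading form matters modulo the maximal ideal.
For `F, G : AddMonoidAlgebra C (Fin n → ℤ)` write `P F` for
`(∀ w, ¬ K w → F_w = 0) ∧ ∀ w, ‖F_w‖ ≤ ‖ρ‖^{e(w)}` and `F ~ G` for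
`P F ∧ P G ∧ ∀ w, K w → ‖F_w - G_w‖ < ‖ρ‖^{e(w)}`. These are stable under products: a term
`F_a G_b` of the coefficient at `w = a + b`, `a, b ∈ K`, has norm
`≤ ‖ρ‖^{e(a)+e(b)} ≤ ‖ρ‖^{e(w)}` by `sub` (`AddMonoidAlgebra.mul_apply`-type formula, finite
sum, ultrametric inequality), strictly if one factor is a strict difference; and
`FG - F'G' = (F-F')G + F'(G-G')`. The factor of `u` in `F_i = ∏_u ∑_l Θ_l c_u^l x^{lu}`,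
`‖Θ_l c_u^l‖ ≤ ‖ζ-1‖^l = ‖ρ‖^{Dl}` (`IsSplit.bound`, `‖τ x‖ ≤ 1`), satisfies `P`
(`e(lu) = l e(u) ≤ D l`), and it is `~ 1` if `e(u) < D`: for `u ≠ 0` the coefficient at `0` is
`Θ_0 = 1` and the others are `≤ ‖ρ‖^{Dl} < ‖ρ‖^{l e(u)}` (`l ≥ 1`); for `u = 0` it is the constant
`∑_l Θ_l c^l`, congruent to `Θ_0 = 1`. So `F_i(f) ~ ∏_{u ∈ supp f, e(u) = D} (...)`, and this
product is the same for `f'` (`Pair.lead`: same `u`, same coefficients). -/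
def StmtLEADE : Prop := ∀ (p : ℕ) [Fact p.Prime] (D : ℕ), 1 ≤ D →
  ∀ (C : Type) [NormedField C] [IsUltrametricDist C] (ζ ρ : C) (ε : ℝ) (Θ : Polynomial C),
  IsSplit p ζ ε Θ → ρ ^ D = ζ - 1 → ρ ≠ 0 → ‖ρ‖ < 1 →
  ∀ (k : Type) [Field k] (ι : k →+* KK C) (τ : k →*₀ C), IsTeich ι τ →
  ∀ (n : ℕ) (K : (Fin n → ℤ) → Prop) (e : (Fin n → ℤ) → ℕ), Wgt K e →
  ∀ (f f' : (Fin n → ℤ) →₀ k), Pair D K e f f' → ∀ (i : ℕ) (w : Fin n → ℤ), K w →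
  ‖(FT p τ Θ f i).coeff w - (FT p τ Θ f' i).coeff w‖ < ‖ρ‖ ^ e w

/-- **REDE** (from WGTE, LEADE). `Cm i u v = A_i(u,v) ρ^{e(v)} / ρ^{p e(u)}`. If `pu - v ∉ K` then
`A_i(u,v) = 0` (WGTE), else `‖A_i(u,v)‖ ≤ ‖ρ‖^{e(pu-v)}` and
`e(pu - v) + e(v) ≥ e(pu) = p e(u)` (`sub`, `smul`; `v ∈ K`). The same for the differences,
strictly (LEADE). -/
def StmtREDE : Prop := ∀ (p : ℕ) [Fact p.Prime] (D : ℕ), 1 ≤ D →
  ∀ (C : Type) [NormedField C] [IsUltrametricDist C] (ζ ρ : C) (ε : ℝ) (Θ : Polynomial C),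
  IsSplit p ζ ε Θ → ρ ^ D = ζ - 1 → ρ ≠ 0 → ‖ρ‖ < 1 →
  ∀ (k : Type) [Field k] (ι : k →+* KK C) (τ : k →*₀ C), IsTeich ι τ →
  ∀ (n : ℕ) (K : (Fin n → ℤ) → Prop) (e : (Fin n → ℤ) → ℕ), Wgt K e →
  ∀ (f f' : (Fin n → ℤ) →₀ k), Pair D K e f f' →
  ∀ (S : Finset (Fin n → ℤ)), (∀ u ∈ S, K u) →
  ∃ Cm Cm' : ℕ → Matrix S S C, (∀ i u v, ‖Cm i u v‖ ≤ 1) ∧ (∀ i u v, ‖Cm' i u v‖ ≤ 1) ∧
    (∀ i (u v : S), AT p S (FT p τ Θ f i) u v * ρ ^ e v.1 = ρ ^ (p * e u.1) * Cm i u v) ∧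
    (∀ i (u v : S), AT p S (FT p τ Θ f' i) u v * ρ ^ e v.1 = ρ ^ (p * e u.1) * Cm' i u v) ∧
    ∀ i u v, ‖Cm i u v - Cm' i u v‖ < 1

/-- **REDET** (from `ASur.StmtCYC1`; the first half of `AS/EDGEM.lean` / `AST/EDGELU.lean`).
Fix `m`, `π = ρ^{(p-1)m}`, `w = π^h`, `s_u = ρ^{(p-1)(m - e(u))}` (natural subtraction, `1` if
`e(u) ≥ m`), `E_i(u,v) = ρ^{(p-1)(e(u) - m)} C_i(u,v)` (natural subtraction). With
`W = diag(ρ^{e(u)})`, `Δ = diag(ρ^{(p-1)e(u)})`: `A_i = W (Δ C_i) W⁻¹`, so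
`det(1 - X Pmat A h) = det(1 - X Pmat (Δ C) h)`; `S Δ C_i / π = E_i`, and by CYC1 (with `X` in
the factor `i = 0`)
`det(S)^h det(1 - (X/w) Pmat (Δ C) h) = det(diag(S,...,S)) det(cyc h 1 (XΔC_0/π, ΔC_1/π, ...)) =
det(cyc h S (X E_0, E_1, ...))`. All entries of the last matrix are integral, and those for `C`
and `C'` are congruent modulo the maximal ideal (work with polynomials over `OO C`, map to
`KK C`). `‖det(S)^h‖ = (‖ρ‖^{(p-1)h})^{∑_u (m - e(u))}`. -/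
def StmtREDET : Prop := ∀ (C : Type) [NormedField C] [IsUltrametricDist C]
  (ι : Type) [Fintype ι] [DecidableEq ι] (e : ι → ℕ) (p h : ℕ) (ρ : C)
  (A A' Cm Cm' : ℕ → Matrix ι ι C), 2 ≤ p → 1 ≤ h → ρ ≠ 0 → ‖ρ‖ < 1 →
  (∀ i u v, ‖Cm i u v‖ ≤ 1) → (∀ i u v, ‖Cm' i u v‖ ≤ 1) →
  (∀ i u v, A i u v * ρ ^ e v = ρ ^ (p * e u) * Cm i u v) →
  (∀ i u v, A' i u v * ρ ^ e v = ρ ^ (p * e u) * Cm' i u v) →
  (∀ i u v, ‖Cm i u v - Cm' i u v‖ < 1) → ∀ m r : ℕ,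
  ‖(Pmat A h).charpolyRev.coeff r‖ * (‖ρ‖ ^ ((p - 1) * h)) ^ (∑ u, (m - e u)) ≤
    (‖ρ‖ ^ ((p - 1) * h)) ^ (m * r) ∧
  ‖(Pmat A h).charpolyRev.coeff r - (Pmat A' h).charpolyRev.coeff r‖ *
    (‖ρ‖ ^ ((p - 1) * h)) ^ (∑ u, (m - e u)) < (‖ρ‖ ^ ((p - 1) * h)) ^ (m * r)

/-- **PAIR** (from `ASur.StmtTHETA`, `ASur.StmtZETA`, `ASur.StmtTEMB`, `ASur.StmtTEX`, TRFE, DEGE,
REDE, REDET, and the lemmas `nrb_charpolyRev`, `nrb_trace_pow` of `AS/NRB.lean`). `ρ^D = ψ(1) - 1`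
(algebraically closed), `Θ` for `ε`, `ι`, `τ`; `L ≥ M`, `L ≥ L0` for `f` and `f'`, `S` the level set
of `L` (`Wgt.lev`), `B = Pmat (AT ..) h`, `γ` = roots of the charpoly of `B`. `t = ‖ρ‖^{(p-1)h}`
since both have the same `D`-th power: `‖ρ‖^{(p-1)hD} = ‖p‖^h = ‖q‖`, `q = card k = p^h`
(`Module.card_eq_pow_finrank`). `∑_{u ∈ S} (m - e(u)) = ss (hh K e) m` for `m ≤ M ≤ L` (group by
`e(u) = j < m`). -/
def StmtPAIR : Prop := ∀ (p : ℕ) [Fact p.Prime] (D : ℕ), 1 ≤ D → ∀ (C : Type) [NormedField C]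
  [IsUltrametricDist C] [CharZero C] [IsAlgClosed C], ‖(p : C)‖ < 1 →
  ∀ j : ℤ_[p] →+* C, (∀ x, ‖j x‖ ≤ 1) →
  ∀ (k : Type) [Field k] [Fintype k] [Algebra (ZMod p) k]
    (n : ℕ) (K : (Fin n → ℤ) → Prop) (e : (Fin n → ℤ) → ℕ), Wgt K e →
  ∀ (f f' : (Fin n → ℤ) →₀ k), Pair D K e f f' → ∀ (ψ : AddChar (ZMod p) C), ψ ≠ 1 →
  ∀ t : ℝ, 0 < t → t ^ D = ‖(Fintype.card k : C)‖ → ∀ ε : ℝ, 0 < ε → ∀ M : ℕ,
  ∃ γ γ' : Multiset C, Above γ t (hh K e) M ∧ Above γ' t (hh K e) M ∧ Near γ γ' t (hh K e) M ∧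
    ∀ (E : Type) [Field E] [Fintype E] [Algebra (ZMod p) E] [Algebra k E],
      ‖ST ψ f E - ((Fintype.card k : C) ^ Module.finrank k E - 1) ^ n *
        ps γ (Module.finrank k E)‖ ≤ ε ∧
      ‖ST ψ f' E - ((Fintype.card k : C) ^ Module.finrank k E - 1) ^ n *
        ps γ' (Module.finrank k E)‖ ≤ ε

/-! ## Part C: multisets over a nonarchimedean field -/

/-- **CMP** (from `AST.StmtEPROD` (uniqueness) and the lemma `em_step` in `AST/EMULT.lean`, which is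
private: copy it; see also `ASX/MSX.lean` for all the steps). Comparison. By `em_step` for `ν`:
`c ≠ 0`, `‖c‖ ≤ 1` and `c ν_r/w^r` integral with reduction `X^{gc ν} ∏ (1 - rd(x/w) X)`
(`ν_r` = coefficient of `revP ν`; nothing needs `‖w‖ ≤ 1`). At `n0`:
`‖c‖ ‖w‖^{n0} ≤ ‖c‖ ‖s0 ν_{n0}‖ = ‖s0‖ ‖c ν_{n0}‖ ≤ ‖s0‖ ‖w‖^{n0}`, so `‖c‖ ≤ ‖s0‖`, and
`‖c (μ_r - ν_r)/w^r‖ < 1` for `r ≤ m0`: so `Edge (revP μ) w (gc ν) χ_ν m0`. And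
`Edge (revP μ) w (gc μ) χ_μ m0` by `em_step` for `μ`. Uniqueness (`gc + natDegree χ = ge ≤ m0`):
`gc μ = gc ν`, `χ_μ = χ_ν`; degrees: `cc μ = cc ν`; two multisets of nonzero elements with the same
`∏ (1 - rX)` are equal (`AST/ERES.lean`, `ASX/MSX.lean`); count the element `1`:
`rd(x/w) = 1` iff `‖x - w‖ < ‖w‖`. -/
def StmtCMP : Prop := ∀ (C : Type) [NormedField C] [IsUltrametricDist C] (μ ν : Multiset C)
  (w s0 : C) (m0 n0 : ℕ), w ≠ 0 → s0 ≠ 0 → ge μ ‖w‖ ≤ m0 → ge ν ‖w‖ ≤ m0 →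
  (∀ r, r ≤ m0 → ‖s0 * ((revP μ).coeff r - (revP ν).coeff r)‖ < ‖w‖ ^ r) → n0 ≤ m0 →
  ‖w‖ ^ n0 ≤ ‖s0 * (revP ν).coeff n0‖ →
  gc μ ‖w‖ = gc ν ‖w‖ ∧ cc μ ‖w‖ = cc ν ‖w‖ ∧ dc μ w = dc ν w

open Classical in
/-- **ESYM.** The largest elements. `μ = μ_1 + μ_2` with `‖x‖ > r` (or `≥ r`) on `μ_1`, else on
`μ_2`; `revP μ = revP μ_1 · revP μ_2`; `N = card μ_1`: `‖(revP μ_1)_N‖ = ∏ ‖x‖`,
`‖(revP μ_1)_i‖ r^{N-i} < ∏ ‖x‖` (first case; `≤` in the second) for `i < N`,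
`‖(revP μ_2)_j‖ ≤ r^j` (`< r^j` for `j ≥ 1` in the second case). Both by induction over the
multiset. -/
def StmtESYM : Prop := ∀ (C : Type) [NormedField C] [IsUltrametricDist C] (μ : Multiset C)
  (r : ℝ), 0 < r →
  ‖(revP μ).coeff (gc μ r)‖ = ((μ.filter fun x => r < ‖x‖).map fun x => ‖x‖).prod ∧
  ‖(revP μ).coeff (ge μ r)‖ = ((μ.filter fun x => r ≤ ‖x‖).map fun x => ‖x‖).prod

/-- **NPB** (from ESYM). Newton above Hodge. (1) `Above` at `m = 0`: all coefficients have norm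
`≤ 1`; `‖(revP μ)_N‖ = ∏_{‖x‖ > 1} ‖x‖`, `N = gc μ 1`, so `N = 0`. (2) `N = ge μ (t^m)`:
`t^{mN} t^{s(m+1)} ≤ ∏_{‖x‖ ≥ t^m} ‖x‖ · t^{s(m+1)} ≤ t^{(m+1)N}` (`Above` at level `m + 1`, `r = N`),
so `t^{s(m+1)} ≤ t^N`, `N ≤ s(m+1)`. (3) `N = gc μ (t^m)`:
`∏_{‖x‖ > t^m} (‖x‖/t^m) · t^{s(m)} ≤ 1` (`Above` at level `m`, `r = N`); the elements on the circles
`t^j`, `j < m`, contribute `∏_j t^{(j-m) W(j)} = t^{-s(m)}`, every further `x` a factor `> 1`: so there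
is no further one. Then `N = ∑_{j<m} W(j)` and the coefficient has norm
`∏_j t^{j W(j)} = t^{mN - s(m)}`. -/
def StmtNPB : Prop := ∀ (C : Type) [NormedField C] [IsUltrametricDist C] (μ : Multiset C)
  (t : ℝ) (W : ℕ → ℕ) (M : ℕ), 0 < t → t < 1 → Above μ t W M →
  (∀ x ∈ μ, ‖x‖ ≤ 1) ∧
  (∀ m, m + 1 ≤ M → ge μ (t ^ m) ≤ ss W (m + 1)) ∧
  (∀ m, m ≤ M → (∀ j, j < m → cc μ (t ^ j) = W j) →
    gc μ (t ^ m) = ∑ j ∈ range m, W j ∧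
    t ^ (m * ∑ j ∈ range m, W j) ≤
      ‖(revP μ).coeff (∑ j ∈ range m, W j)‖ * t ^ ss W m)

/-- **ALLW** (from CMP, NPB). (a) For `m ≤ M` and `‖w‖ = ‖ϖ‖^m`: CMP with `s0 = ϖ^{s(m)}`,
`n0 = ∑_{j<m} W(j)` (NPB (3) for `γ'`), `m0` large: `gc`, `cc`, `dc` of `γ`, `γ'` at `w` agree.
(b) If `‖w‖ > ‖ϖ‖^M` is not one of the `‖ϖ‖^m`, `m < M`, both `dc` are `0`: the elements of norm
`> ‖ϖ‖^M` number `∑_{m<M} W(m) = ∑_{m<M} cc (‖ϖ‖^m)` for `γ'` (NPB (3)) and for `γ` (by (a)), so all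
of them are on these circles; `‖x - w‖ < ‖w‖` implies `‖x‖ = ‖w‖` (`norm_eq_of_sub_lt`). -/
def StmtALLW : Prop := ∀ (C : Type) [NormedField C] [IsUltrametricDist C] (γ γ' : Multiset C)
  (ϖ : C) (W : ℕ → ℕ) (M : ℕ), ϖ ≠ 0 → ‖ϖ‖ < 1 → Above γ ‖ϖ‖ W M → Above γ' ‖ϖ‖ W M →
  Near γ γ' ‖ϖ‖ W M → (∀ m, m ≤ M → cc γ' (‖ϖ‖ ^ m) = W m) →
  ∀ w : C, w ≠ 0 → ‖ϖ‖ ^ M ≤ ‖w‖ → dc γ w = dc γ' w

/-- **NCLG** (from `ASur.StmtNRB`, first part: Newton's identities for `revP`). Induction on `m`: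
`(m+1)(μ_{m+1} - ν_{m+1}) = -∑_{i≤m} (s_{i+1}(μ_{m-i} - ν_{m-i}) + (s_{i+1} - s'_{i+1}) ν_{m-i})`,
`‖s_{i+1}‖ ≤ r^{i+1}`, `‖ν_{m-i}‖ ≤ r^{m-i}`, `‖m!‖ ≤ ‖(m-i)!‖ ≤ 1`, `r ≥ 1`. (Compare
`AS/NCL.lean`.) -/
def StmtNCLG : Prop := ∀ (C : Type) [NormedField C] [IsUltrametricDist C] [CharZero C]
  (μ ν : Multiset C) (r ε : ℝ), 1 ≤ r → 0 ≤ ε → (∀ x ∈ μ, ‖x‖ ≤ r) → (∀ x ∈ ν, ‖x‖ ≤ r) →
  (∀ j, 1 ≤ j → ‖ps μ j - ps ν j‖ ≤ ε) →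
  ∀ m, ‖(revP μ).coeff m - (revP ν).coeff m‖ ≤ ε * r ^ m / ‖(m.factorial : C)‖

/-- **PWR.** The multisets `gev`, `god`: `ps (tw q s γ) j = q^{sj} ps γ j` and the binomial
theorem; `dc (tw q s γ) w = dc γ (w/q^s)`, `cc (tw q s γ) r = cc γ (r/‖q‖^s)`;
`ge (tw q s γ) r ≤ ge γ r` (`‖q‖ ≤ 1`), `∑_s binom(n,s) = 2^n`. -/
def StmtPWR : Prop := ∀ (C : Type) [NormedField C] [IsUltrametricDist C] (n : ℕ) (q : C)
  (γ : Multiset C), q ≠ 0 → ‖q‖ ≤ 1 →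
  (∀ j, ps (gev n q γ) j - ps (god n q γ) j = (1 - q ^ j) ^ n * ps γ j) ∧
  (∀ w, w ≠ 0 → (dc (gev n q γ) w : ℤ) - dc (god n q γ) w =
    ∑ s ∈ range (n + 1), (-1) ^ s * (n.choose s : ℤ) * (dc γ (w / q ^ s) : ℤ)) ∧
  (∀ r : ℝ, (cc (gev n q γ) r : ℤ) - cc (god n q γ) r =
    ∑ s ∈ range (n + 1), (-1) ^ s * (n.choose s : ℤ) * (cc γ (r / ‖q‖ ^ s) : ℤ)) ∧
  (∀ r : ℝ, ge (gev n q γ) r + ge (god n q γ) r ≤ 2 ^ n * ge γ r) ∧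
  ((∀ x ∈ γ, ‖x‖ ≤ 1) → (∀ x ∈ gev n q γ, ‖x‖ ≤ 1) ∧ ∀ x ∈ god n q γ, ‖x‖ ≤ 1)

/-- **FORM** (from PWR, NCLG, CMP). `a^+ = a.toNat`, `a^- = (-a).toNat`,
`μ = A + ∑_i (a_i^+ god_i + a_i^- gev_i)`, `ν = B + ∑_i (a_i^+ gev_i + a_i^- god_i)`. The power
sums of `μ`, `ν` differ by `≤ ε`, so by NCLG `‖μ_m - ν_m‖ ≤ ε r^m/‖m!‖ < ‖w‖^m` for `m ≤ m0`, and
CMP with `s0 = 1`, `n0 = 0` gives `dc μ w = dc ν w`, `cc μ ‖w‖ = cc ν ‖w‖`; rearrange with PWR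
(`dc_add`, `dc_sum`, `dc_nsmul` and `a = a^+ - a^-`). `ge μ ‖w‖ + ge ν ‖w‖ ≤ m0`:
`ge A ≤ card A`, `a^+ + a^- = |a|`. -/
def StmtFORM : Prop := ∀ (C : Type) [NormedField C] [IsUltrametricDist C] [CharZero C]
  (I : Type) [Fintype I] (n : I → ℕ) (a : I → ℤ) (q w : C) (r ε : ℝ) (m0 : ℕ)
  (A B : Multiset C) (γ : I → Multiset C), q ≠ 0 → ‖q‖ ≤ 1 → w ≠ 0 → 1 ≤ r → 0 ≤ ε →
  (∀ x ∈ A, ‖x‖ ≤ r) → (∀ x ∈ B, ‖x‖ ≤ r) → (∀ i, ∀ x ∈ γ i, ‖x‖ ≤ 1) →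
  Multiset.card A + Multiset.card B + ∑ i, (a i).natAbs * (2 ^ n i * ge (γ i) ‖w‖) ≤ m0 →
  (∀ m, m ≤ m0 → ε * r ^ m < ‖w‖ ^ m * ‖(m.factorial : C)‖) →
  (∀ j, 1 ≤ j → ‖ps A j - ps B j - ∑ i, (a i : C) * ((1 - q ^ j) ^ n i * ps (γ i) j)‖ ≤ ε) →
  ((dc A w : ℤ) - dc B w = ∑ i, a i * ∑ s ∈ range (n i + 1),
    (-1) ^ s * ((n i).choose s : ℤ) * (dc (γ i) (w / q ^ s) : ℤ)) ∧
  ((cc A ‖w‖ : ℤ) - cc B ‖w‖ = ∑ i, a i * ∑ s ∈ range (n i + 1),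
    (-1) ^ s * ((n i).choose s : ℤ) * (cc (γ i) (‖w‖ / ‖q‖ ^ s) : ℤ))

/-- **ORDI.** Strong induction on `m`: in the hypothesis the terms `s ≥ 1` with `D s ≤ m` agree by
induction (`t^m/(t^D)^s = t^{m - Ds}`), those with `D s > m` are `0` (`t^m/(t^D)^s > 1`, no element
of norm `> 1`); the term `s = 0` is the claim. -/
def StmtORDI : Prop := ∀ (C : Type) [NormedField C] (γ : Multiset C) (t : ℝ)
  (D n M : ℕ) (W : ℕ → ℕ), 0 < t → t < 1 → 1 ≤ D → (∀ x ∈ γ, ‖x‖ ≤ 1) →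
  (∀ m, m ≤ M → ∑ s ∈ range (n + 1), (-1) ^ s * (n.choose s : ℤ) *
      (cc γ (t ^ m / (t ^ D) ^ s) : ℤ) =
    ∑ s ∈ range (n + 1), (-1) ^ s * (n.choose s : ℤ) *
      (if D * s ≤ m then (W (m - D * s) : ℤ) else 0)) →
  ∀ m, m ≤ M → cc γ (t ^ m) = W m

/-- **HHE.** `#{u ∈ K : e(u) + D s = m} = h(m - D s)` if `D s ≤ m`, else `0`. -/
def StmtHHE : Prop := ∀ (n D : ℕ) (K : (Fin n → ℤ) → Prop) (e : (Fin n → ℤ) → ℕ) (m : ℕ),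
  HH D K e m = ∑ s ∈ range (n + 1), (-1) ^ s * (n.choose s : ℤ) *
    (if D * s ≤ m then (hh K e (m - D * s) : ℤ) else 0)

/-! ## Part D: the theorem over `C` -/

/-- **MAINC** (from PAIR, NPB, FORM, ORDI, HHE, ALLW, `ASur.StmtEXT`). `q = card k`,
`t = ‖q‖^{1/D}` (real), `ϖ` with `ϖ^D = q` (so `‖ϖ‖ = t`, `0 < t < 1`). `‖z‖ ≥ t^M` (from
`‖z‖^D ≥ ‖q‖^M = t^{DM}`).
Choose `r ≥ 1` bounding the norms of all elements of `A`, `B`, `α_i`, `β_i`;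
`m0 = card A + card B + ∑_i ((card α_i + card β_i) + (|a_i| + 1) 2^{n_i} s_i(M + 1))`,
`s_i = ss (hh K_i e_i)`; `ε > 0` with `ε r^m < ‖z‖^m ‖m!‖` and `ε r^m < (t^l)^m ‖m!‖` for all
`m ≤ m0`, `l ≤ M` (finitely many conditions). PAIR for every `i` with this `ε` and `M + 1`:
`γ_i`, `γ'_i` of norm `≤ 1`, `ge γ_i (t^l) ≤ s_i(l+1) ≤ s_i(M+1)` for `l ≤ M` (NPB; `ss` is
monotone), so also `ge γ_i ‖w‖ ≤ s_i(M+1)` for `‖w‖ ≥ t^M`.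
(1) For every `i` and `l ≤ M`: FORM with `I = Unit`, `a = (-1)^{n_i}`, `A, B = α_i, β_i`,
`w = ϖ^l` (`‖w‖ / ‖q‖^s = t^l/(t^D)^s`): `(-1)^{n_i} ∑_s (-1)^s binom cc γ'_i (t^l/(t^D)^s) =
cc α_i (t^l) - cc β_i (t^l) = (-1)^{n_i} HH` by the hypothesis (`‖x‖^D = ‖q‖^l` iff `‖x‖ = t^l`);
so by HHE, ORDI: `cc γ'_i (t^l) = hh l` for `l ≤ M`. (Hypothesis of FORM: for `j ≥ 1` take `E` of
degree `j` (`ASur.StmtEXT`); `(q^j - 1)^n = (-1)^n (1 - q^j)^n`.)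
(2) ALLW (at `M`): `dc γ_i w = dc γ'_i w` for `‖w‖ ≥ t^M`.
(3) FORM for the family at `w = z`, `a_i' = (-1)^{n_i} a_i`, with the `γ_i`; then
`dc γ_i (z/q^s) = dc γ'_i (z/q^s)` (`‖z/q^s‖ ≥ ‖z‖`), and FORM for every single `i` (`γ'_i`,
`α_i`, `β_i`, `w = z`) gives the claim. -/
def StmtMAINC : Prop := ∀ (p : ℕ) [Fact p.Prime] (D : ℕ), 1 ≤ D → ∀ (C : Type) [NormedField C]
  [IsUltrametricDist C] [CharZero C] [IsAlgClosed C], ‖(p : C)‖ < 1 →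
  ∀ j : ℤ_[p] →+* C, (∀ x, ‖j x‖ ≤ 1) →
  ∀ (k : Type) [Field k] [Fintype k] [Algebra (ZMod p) k] (I : Type) [Fintype I] (n : I → ℕ)
    (K : ∀ i, (Fin (n i) → ℤ) → Prop) (e : ∀ i, (Fin (n i) → ℤ) → ℕ)
    (f f' : ∀ i, (Fin (n i) → ℤ) →₀ k) (a : I → ℤ),
  (∀ i, Wgt (K i) (e i)) → (∀ i, Pair D (K i) (e i) (f i) (f' i)) →
  ∀ (ψ : AddChar (ZMod p) C), ψ ≠ 1 → ∀ (α β : I → Multiset C),
  (∀ i, ∀ (E : Type) [Field E] [Fintype E] [Algebra (ZMod p) E] [Algebra k E],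
    ps (α i) (Module.finrank k E) - ps (β i) (Module.finrank k E) = ST ψ (f' i) E) →
  ∀ (A B : Multiset C),
  (∀ (E : Type) [Field E] [Fintype E] [Algebra (ZMod p) E] [Algebra k E],
    ps A (Module.finrank k E) - ps B (Module.finrank k E) = ∑ i, (a i : C) * ST ψ (f i) E) →
  ∀ M : ℕ,
  (∀ i, ∀ m, m ≤ M → ∀ r : ℝ, 0 ≤ r → r ^ D = ‖(Fintype.card k : C)‖ ^ m →
    (cc (α i) r : ℤ) - cc (β i) r = (-1) ^ n i * HH D (K i) (e i) m) →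
  ∀ z : C, z ≠ 0 → ‖(Fintype.card k : C)‖ ^ M ≤ ‖z‖ ^ D →
  (dc A z : ℤ) - dc B z = ∑ i, a i * ((dc (α i) z : ℤ) - dc (β i) z)

/-! ## Part E: arbitrary fields -/

/-- **K2D** (from `ASur.StmtK2C`, or adapt `AS/K2C.lean`). `A` = the algebraic closure of `ℚ` in `F`;
`ζ ∈ A`; both `ζ`, `ζ'` are roots of the `p`-th cyclotomic polynomial, the minimal polynomial of `ζ`
over `ℚ`; `A/ℚ` is algebraic, so there is an embedding `g : A → C` with `g(ζ) = ζ'`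
(`IntermediateField.exists_algHom_of_splits_of_aeval` or similar). -/
def StmtK2D : Prop := ∀ (F : Type u) [Field F] [IsAlgClosed F] [CharZero F] (C : Type) [Field C]
  [IsAlgClosed C] [CharZero C] (p : ℕ) [Fact p.Prime] (ζ : F) (ζ' : C), IsPrimitiveRoot ζ p →
  IsPrimitiveRoot ζ' p → ∀ β : Multiset F,
  (∀ j, 1 ≤ j → IsAlgebraic ℚ (β.map fun x => x ^ j).sum) →
  ∃ (A : Subfield F) (g : A →+* C) (hζ : ζ ∈ A), g ⟨ζ, hζ⟩ = ζ' ∧ ∀ x ∈ β, x ∈ A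

/-- **MULT.** Linear algebra: the generalized eigenspace of `x` has dimension equal to the
multiplicity (Mathlib: `LinearMap.finrank_maxGenEigenspace_eq` or similar), and the chain
`ker (φ-x)^i` is strictly increasing until it is stationary; so it is stationary at
`i = multiplicity ≤ b`. `b = 1`: over an algebraically closed field the charpoly splits, without
multiple roots it is separable; it kills `φ` (Cayley-Hamilton), so `φ` is semisimple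
(`Module.End.isSemisimple_of_squarefree_aeval_eq_zero`). -/
def StmtMULT : Prop := ∀ (F : Type u) [Field F] [IsAlgClosed F] (W : Type v) [AddCommGroup W]
  [Module F W] [FiniteDimensional F W] (φ : W →ₗ[F] W) (b : ℕ),
  (∀ x : F, (LinearMap.charpoly φ).rootMultiplicity x ≤ b) →
  (∀ x : F, Module.End.maxGenEigenspace φ x = Module.End.genEigenspace φ x b) ∧
  (b = 1 → (LinearMap.charpoly φ).Separable ∧ Module.End.IsSemisimple φ)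

/-- **FINE** (from MAINC, K2D, MULT, `ASur.StmtLINALG`, `ASur.StmtEXT`): adapt `AST/FINT.lean`,
`ASX/FINX.lean`. `C = PadicAlgCl p`. `β0` = roots of the charpoly of `φ` (all `≠ 0`), power sums =
traces = sums of roots of unity, algebraic; K2D with `ζ = ψ'(1)`, `ζ' = ψ(1)`: `g ∘ ψ' = ψ`; the
multiset `A = g(β0)` and `B = 0` satisfy the hypothesis of MAINC for `ψ`. For `x ∈ β0`, `z = g(x)`:
the multiplicity of `x` in `β0` is `≤ dc A z ≤ b` (`M` with `‖q‖^M ≤ ‖z‖^D`). The last two parts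
are module MULT. -/
def StmtFINE : Prop := ∀ (p : ℕ) [Fact p.Prime] (D : ℕ), 1 ≤ D →
  ∀ (k : Type) [Field k] [Fintype k] [Algebra (ZMod p) k] (I : Type) [Fintype I] (n : I → ℕ)
    (K : ∀ i, (Fin (n i) → ℤ) → Prop) (e : ∀ i, (Fin (n i) → ℤ) → ℕ)
    (f f' : ∀ i, (Fin (n i) → ℤ) →₀ k) (a : I → ℤ),
  (∀ i, Wgt (K i) (e i)) → (∀ i, Pair D (K i) (e i) (f i) (f' i)) →
  ∀ (ψ : AddChar (ZMod p) (PadicAlgCl p)), ψ ≠ 1 → ∀ (α β : I → Multiset (PadicAlgCl p)),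
  (∀ i, ∀ (E : Type) [Field E] [Fintype E] [Algebra (ZMod p) E] [Algebra k E],
    ps (α i) (Module.finrank k E) - ps (β i) (Module.finrank k E) = ST ψ (f' i) E) →
  (∀ i, ∀ m, ∀ r : ℝ, 0 ≤ r → r ^ D = ‖(Fintype.card k : PadicAlgCl p)‖ ^ m →
    (cc (α i) r : ℤ) - cc (β i) r = (-1) ^ n i * HH D (K i) (e i) m) →
  ∀ b : ℕ, (∀ z, z ≠ 0 → ∑ i, a i * ((dc (α i) z : ℤ) - dc (β i) z) ≤ b) →
  ∀ (F : Type u) [Field F] [IsAlgClosed F] [CharZero F] (ψ' : AddChar (ZMod p) F), ψ' ≠ 1 →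
  ∀ (W : Type v) [AddCommGroup W] [Module F W] [FiniteDimensional F W] (φ : W ≃ₗ[F] W),
  (∀ (E : Type) [Field E] [Fintype E] [Algebra (ZMod p) E] [Algebra k E],
    LinearMap.trace F W ((φ : W →ₗ[F] W) ^ Module.finrank k E) =
      ∑ i, (a i : F) * ST ψ' (f i) E) →
  (∀ x : F, (LinearMap.charpoly (φ : W →ₗ[F] W)).rootMultiplicity x ≤ b) ∧
  (∀ x : F, Module.End.maxGenEigenspace (φ : W →ₗ[F] W) x =
    Module.End.genEigenspace (φ : W →ₗ[F] W) x b) ∧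
  (b = 1 → (LinearMap.charpoly (φ : W →ₗ[F] W)).Separable ∧
    Module.End.IsSemisimple (φ : W →ₗ[F] W))

end ASE
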