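import Pool.Agent.Lib.MP_b685ef_ag.ASE.Spec2
import Pool.Agent.Lib.MP_b685ef_ag.ASE.Spec
import Pool.Agent.Lib.MP_b685ef_ag.AST.SUMT

section
/-!
# MP_b685ef_ag, theorem LFP: module ACL, multiplicities and extension of the field (helper20)
-/
set_option linter.all false

namespace ASE

open Finset ASur AST

namespace ACLaux

lemma muH_map {k κ κ' : Type} [Field k] [Field κ] [Field κ'] (ι : k →+* κ) (σ : κ →+* κ')
    (p D h n : ℕ) (K : (Fin n → ℤ) → Prop) (e : (Fin n → ℤ) → ℕ) (E : ℕ → ℚ)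
    (f : (Fin n → ℤ) →₀ k) (m : ℕ) (v : κ) :
    muH (σ.comp ι) p D h K e E f m (σ v) = muH ι p D h K e E f m v := by
  unfold muH
  rw [← Polynomial.map_map]
  exact (Polynomial.eq_rootMultiplicity_map σ.injective v).symm

lemma muH_out {k κ κ' : Type} [Field k] [Field κ] [IsAlgClosed κ] [Field κ'] (ι : k →+* κ)
    (σ : κ →+* κ') (p D h n : ℕ) (K : (Fin n → ℤ) → Prop) (e : (Fin n → ℤ) → ℕ) (E : ℕ → ℚ)
    (f : (Fin n → ℤ) →₀ k) (m : ℕ) (v : κ') (hv : ∀ v' : κ, σ v' ≠ v) :
    muH (σ.comp ι) p D h K e E f m v = 0 := by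
  unfold muH
  rw [← Polynomial.map_map]
  refine Polynomial.rootMultiplicity_eq_zero fun hr => ?_
  have hne : (NmH p D h K e E f m).charpoly.map ι ≠ 0 :=
    ((Matrix.charpoly_monic _).map ι).ne_zero
  have hs : ((NmH p D h K e E f m).charpoly.map ι).Splits := IsAlgClosed.splits _
  obtain ⟨v', h2⟩ := hs.mem_range_of_isRoot hne hr
  exact hv v' h2

end ACLaux

open ACLaux in
theorem acl_thm : StmtACL := by
  classical
  intro k κ κ' _ _ _ _ ι σ p D h n K e E f m
  constructor
  · intro v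
    unfold NH
    refine Finset.sum_congr rfl fun s _ => ?_
    have h1 : σ v * (-1) ^ (h * s) = σ (v * (-1) ^ (h * s)) := by
      rw [map_mul, map_pow, map_neg, map_one]
    rw [h1, muH_map]
  · intro v hv
    unfold NH
    refine Finset.sum_eq_zero fun s _ => ?_
    have h1 : ∀ v' : κ, σ v' ≠ v * (-1) ^ (h * s) := by
      intro v' h2
      apply hv (v' * (-1) ^ (h * s))
      rw [map_mul, map_pow, map_neg, map_one, h2, mul_assoc, ← mul_pow]
      norm_num
    rw [muH_out ι σ p D h n K e E f _ _ h1]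
    simp

end ASE
end

section
/-!
# MP_b685ef_ag, theorem LFP, part (A), module AHC: the splitting polynomial with the
# Artin-Hasse coefficients

Adapted from `AST/THETA2.lean`.
-/
set_option linter.all false

namespace ASE

open Finset ASur AST

private theorem ahc_add {C : Type} [NormedField C] [IsUltrametricDist C] {x y : C} {r : ℝ}
    (hx : ‖x‖ ≤ r) (hy : ‖y‖ ≤ r) : ‖x + y‖ ≤ r :=
  (IsUltrametricDist.norm_add_le_max x y).trans (max_le hx hy)

private theorem ahc_sub {C : Type} [NormedField C] [IsUltrametricDist C] {x y : C} {r : ℝ}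
    (hx : ‖x‖ ≤ r) (hy : ‖y‖ ≤ r) : ‖x - y‖ ≤ r := by
  rw [sub_eq_add_neg]
  exact ahc_add hx (by rwa [norm_neg])

private theorem ahc_sum {C : Type} [NormedField C] [IsUltrametricDist C] {ι : Type*}
    {s : Finset ι} {f : ι → C} {r : ℝ} (hr : 0 ≤ r) (h : ∀ i ∈ s, ‖f i‖ ≤ r) :
    ‖∑ i ∈ s, f i‖ ≤ r :=
  IsUltrametricDist.norm_sum_le_of_forall_le_of_nonneg hr h

/-- The residue of a Teichmüller trace is in the prime field. -/
private theorem ahc_c0 (p : ℕ) [Fact p.Prime] {C : Type} [NormedField C]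
    [IsUltrametricDist C] (hp : ‖(p : C)‖ < 1) (n : ℕ) (t : C) (ht : ‖t‖ ≤ 1)
    (htn : t ^ (p ^ n) = t) :
    ∃ c : ℕ, c < p ∧ ‖∑ i ∈ range n, t ^ (p ^ i) - (c : C)‖ < 1 := by
  haveI : CharP (KK C) p := charP_KK hp
  have hs1 : ∀ i ∈ range n, ‖t ^ (p ^ i)‖ ≤ 1 := fun i _ => by
    rw [norm_pow]
    exact pow_le_one₀ (norm_nonneg _) ht
  have hs : ‖∑ i ∈ range n, t ^ (p ^ i)‖ ≤ 1 := norm_sum_le_one _ hs1
  have hrd : rd (∑ i ∈ range n, t ^ (p ^ i)) = ∑ i ∈ range n, rd t ^ (p ^ i) := by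
    rw [rd_sum _ hs1]
    exact sum_congr rfl fun i _ => rd_pow ht _
  have hfix : (rd (∑ i ∈ range n, t ^ (p ^ i))) ^ p = rd (∑ i ∈ range n, t ^ (p ^ i)) := by
    rw [hrd, sum_pow_char p]
    have h1 : ∀ i ∈ range n, (rd t ^ (p ^ i)) ^ p = rd t ^ (p ^ (i + 1)) := fun i _ => by
      rw [← pow_mul, pow_succ]
    rw [sum_congr rfl h1]
    have h2 : rd t ^ (p ^ n) = rd t ^ (p ^ 0) := by
      rw [← rd_pow ht, htn, pow_zero, pow_one]
    have h3 := Finset.sum_range_succ (fun i => rd t ^ (p ^ i)) n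
    have h4 := Finset.sum_range_succ' (fun i => rd t ^ (p ^ i)) n
    rw [h3] at h4
    simp only [h2] at h4
    exact (add_right_cancel h4).symm
  have hbot : rd (∑ i ∈ range n, t ^ (p ^ i)) ∈ (⊥ : Subfield (KK C)) :=
    (Subfield.mem_bot_iff_pow_eq_self (KK C) p).2 hfix
  rw [← ZMod.fieldRange_castHom_eq_bot p] at hbot
  obtain ⟨c, hc⟩ := hbot
  refine ⟨c.val, ZMod.val_lt c, ?_⟩
  have hc' : rd (∑ i ∈ range n, t ^ (p ^ i)) = ((c.val : ℕ) : KK C) := by
    rw [← hc, ZMod.castHom_apply, ZMod.cast_eq_val]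
  rw [← rd_natCast (C := C)] at hc'
  exact (rd_eq_iff hs (norm_natCast_le _)).1 hc'

section
variable {C : Type} [NormedField C] [IsUltrametricDist C]

private theorem ahc_ev_X (J : ℕ) (lam : C) (k : ℕ) (hk : k < J) :
    ev J lam (PowerSeries.X ^ k : PowerSeries C) = lam ^ k := by
  rw [ev, sum_eq_single k]
  · simp [PowerSeries.coeff_X_pow]
  · intro n _ hn
    simp [PowerSeries.coeff_X_pow, hn]
  · intro h
    exact absurd (mem_range.2 hk) h

private theorem ahc_ev_add (J : ℕ) (lam : C) (f g : PowerSeries C) :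
    ev J lam (f + g) = ev J lam f + ev J lam g := by
  simp only [ev, map_add, add_mul, sum_add_distrib]

private theorem ahc_ev_sub (J : ℕ) (lam : C) (f g : PowerSeries C) :
    ev J lam (f - g) = ev J lam f - ev J lam g := by
  simp only [ev, map_sub, sub_mul, sum_sub_distrib]

private theorem ahc_ev_poly (J : ℕ) (lam : C) (P : Polynomial C) (hP : P.natDegree < J) :
    ev J lam (P : PowerSeries C) = P.eval lam := by
  rw [ev, Polynomial.eval_eq_sum_range' hP]
  exact sum_congr rfl fun n _ => by rw [Polynomial.coeff_coe]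

end

/-- The recursion over `ℤ_p` determines the Artin-Hasse coefficients. -/
private theorem ahc_rat {p : ℕ} [Fact p.Prime] {E : ℕ → ℚ} (hE : IsAHQ p E) (G : ℕ → ℤ_[p])
    (hG0 : G 0 = 1) (hG : ∀ l : ℕ, 1 ≤ l → (l : ℤ_[p]) * G l =
      ∑ i ∈ range (l + 1), if p ^ i ≤ l then G (l - p ^ i) else 0) (l : ℕ) :
    ((G l : ℤ_[p]) : ℚ_[p]) = ((E l : ℚ) : ℚ_[p]) := by
  induction l using Nat.strong_induction_on with
  | _ l ih =>
    rcases Nat.eq_zero_or_pos l with rfl | hl
    · rw [hG0, hE.1]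
      simp
    · have hl0 : ((l : ℕ) : ℚ_[p]) ≠ 0 := Nat.cast_ne_zero.2 (by omega)
      have h1 : ((l : ℕ) : ℚ_[p]) * ((G l : ℤ_[p]) : ℚ_[p]) =
          ∑ i ∈ range (l + 1), if p ^ i ≤ l then ((E (l - p ^ i) : ℚ) : ℚ_[p]) else 0 := by
        have h2 := congrArg (fun x : ℤ_[p] => (x : ℚ_[p])) (hG l hl)
        simp only [PadicInt.coe_mul, PadicInt.coe_natCast, PadicInt.coe_sum] at h2
        rw [h2]
        refine sum_congr rfl fun i _ => ?_
        split_ifs with hi
        · have hpi : 0 < p ^ i := pow_pos (Fact.out : p.Prime).pos i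
          exact ih (l - p ^ i) (by omega)
        · exact PadicInt.coe_zero
      have h3 : ((l : ℕ) : ℚ_[p]) * ((E l : ℚ) : ℚ_[p]) =
          ∑ i ∈ range (l + 1), if p ^ i ≤ l then ((E (l - p ^ i) : ℚ) : ℚ_[p]) else 0 := by
        have h2 := congrArg (fun x : ℚ => (x : ℚ_[p])) (hE.2 l hl)
        simp only [Rat.cast_mul, Rat.cast_natCast, Rat.cast_sum] at h2
        rw [h2]
        refine sum_congr rfl fun i _ => ?_
        split_ifs with hi
        · rfl
        · exact Rat.cast_zero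
      exact mul_left_cancel₀ hl0 (h1.trans h3.symm)

/-- The reduction of a rational `p`-adic integer. -/
private theorem ahc_red {p : ℕ} [Fact p.Prime] {C : Type} [NormedField C]
    [IsUltrametricDist C] (hp : ‖(p : C)‖ < 1) (j : ℤ_[p] →+* C) (hj : ∀ x, ‖j x‖ ≤ 1)
    (g : ℤ_[p]) (r : ℚ) (h : (g : ℚ_[p]) = (r : ℚ_[p])) : rd (j g) = ((r : ℚ) : KK C) := by
  haveI : CharP (KK C) p := charP_KK hp
  have hden : ((r.den : ℕ) : ℚ_[p]) ≠ 0 := Nat.cast_ne_zero.2 r.den_nz
  have h1 : ((r.den : ℕ) : ℤ_[p]) * g = ((r.num : ℤ) : ℤ_[p]) := by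
    apply PadicInt.ext
    rw [PadicInt.coe_mul, PadicInt.coe_natCast, PadicInt.coe_intCast, h]
    conv_lhs => rw [Rat.cast_def]
    field_simp
  have hdvd : ¬ p ∣ r.den := by
    intro hd
    obtain ⟨d, hd⟩ := hd
    have h2 : ((p : ℕ) : ℤ_[p]) ∣ ((r.num : ℤ) : ℤ_[p]) := by
      rw [← h1, hd]
      push_cast
      exact ⟨(d : ℤ_[p]) * g, by ring⟩
    have h3 : (p : ℤ) ∣ r.num := by
      have h4 := (PadicInt.norm_lt_one_iff_dvd _).2 h2
      exact (PadicInt.norm_intCast_lt_one_iff).1 h4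
    have h5 : p ∣ r.num.natAbs := Int.natCast_dvd.1 h3
    have h6 : p ∣ 1 := by
      rw [← r.reduced.gcd_eq_one]
      exact Nat.dvd_gcd h5 ⟨d, hd⟩
    exact (Fact.out : p.Prime).one_lt.ne' (Nat.dvd_one.1 h6)
  have hdK : ((r.den : ℕ) : KK C) ≠ 0 := by
    intro h0
    exact hdvd ((CharP.cast_eq_zero_iff (KK C) p _).1 h0)
  have h2 : ((r.den : ℕ) : KK C) * rd (j g) = ((r.num : ℤ) : KK C) := by
    have h3 := congrArg (fun x => rd (j x)) h1
    simp only [map_mul, map_natCast, map_intCast] at h3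
    rw [rd_mul (norm_natCast_le _) (hj _), rd_natCast] at h3
    rw [h3]
    rcases Int.eq_nat_or_neg r.num with ⟨a, ha | ha⟩
    · rw [ha, Int.cast_natCast, Int.cast_natCast, rd_natCast]
    · rw [ha, Int.cast_neg, Int.cast_neg, Int.cast_natCast, Int.cast_natCast, rd_neg, rd_natCast]
  rw [Rat.cast_def, eq_div_iff hdK, mul_comm]
  exact h2

private theorem ahc_aux (hTOPG : AST.StmtTOPG) (hDWL : StmtDWL) (hGSER : StmtGSER)
    (hPSI : StmtPSI) (hPRODF : StmtPRODF)
    (hLOW : StmtLOW) (hEVJ : StmtEVJ) (hZETA : StmtZETA) : StmtAHC := by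
  intro p hpp C _ _ _ _ hp j hj ζ hζ E hE ε hε J1
  have hp2 : 2 ≤ p := (Fact.out : p.Prime).two_le
  obtain ⟨hlam0, hlam1, hlamp, hlast⟩ := hZETA p C hp ζ hζ
  obtain ⟨g, hg0, hgp, hgdeg, hgnat⟩ := hGSER p
  obtain ⟨F, hF0, hFdeg, hFeq⟩ := hDWL p g hg0 hgp hgdeg
  have hDS : DSer p g F := ⟨hgnat, hF0, hFdeg, hFeq⟩
  obtain ⟨hlow1, hlow2⟩ := hLOW p g F hDS C j
  set lam : C := ζ - 1 with hlam
  have hlampos : 0 < ‖lam‖ := norm_pos_iff.2 hlam0
  have hlamle : ‖lam‖ ≤ 1 := hlam1.le
  -- the choice of `J`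
  obtain ⟨J0, hJ0⟩ : ∃ J0 : ℕ, ‖lam‖ ^ J0 < ε * ‖lam‖ ^ (p - 1) :=
    exists_pow_lt_of_lt_one (mul_pos hε (pow_pos hlampos _)) hlam1
  obtain ⟨J, hJ1, hJ2, hJ3⟩ : ∃ J, J0 ≤ J ∧ p < J ∧ J1 ≤ J :=
    ⟨J0 + p + 1 + J1, by omega, by omega, by omega⟩
  have hJε : ‖lam‖ ^ J / ‖lam‖ ^ (p - 1) ≤ ε := by
    rw [div_le_iff₀ (pow_pos hlampos _)]
    exact (pow_le_pow_of_le_one (norm_nonneg _) hlamle hJ1).trans hJ0.le
  have hJε' : ‖lam‖ ^ J ≤ ε := by
    refine le_trans ?_ hJε
    rw [le_div_iff₀ (pow_pos hlampos _)]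
    exact mul_le_of_le_one_right (pow_nonneg (norm_nonneg _) _)
      (pow_le_one₀ (norm_nonneg _) hlamle)
  -- the polynomial
  set Θ : Polynomial C := ∑ m ∈ range J,
    Polynomial.C (lam ^ m) * (PowerSeries.coeff m F).map j with hΘ
  have hcoeff : ∀ k, Θ.coeff k = ∑ m ∈ range J, lam ^ m * j ((PowerSeries.coeff m F).coeff k) := by
    intro k
    rw [hΘ, Polynomial.finsetSum_coeff]
    exact sum_congr rfl fun m _ => by rw [Polynomial.coeff_C_mul, Polynomial.coeff_map]
  have hzero : ∀ m k, m < k → (PowerSeries.coeff m F).coeff k = 0 := fun m k h =>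
    Polynomial.coeff_eq_zero_of_natDegree_lt ((hFdeg m).trans_lt h)
  have hterm : ∀ m k, k ≤ m → ‖lam ^ m * j ((PowerSeries.coeff m F).coeff k)‖ ≤ ‖lam‖ ^ k := by
    intro m k h
    rw [norm_mul, norm_pow]
    exact (mul_le_of_le_one_right (pow_nonneg (norm_nonneg _) _) (hj _)).trans
      (pow_le_pow_of_le_one (norm_nonneg _) hlamle h)
  have hEE : ∀ l, l < J → EE ζ Θ l = rd (j ((PowerSeries.coeff l F).coeff l)) := by
    intro l hl
    have hll : lam ^ l ≠ 0 := pow_ne_zero _ hlam0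
    have hlpos : 0 < ‖lam‖ ^ l := pow_pos hlampos _
    have h1 : Θ.coeff l - lam ^ l * j ((PowerSeries.coeff l F).coeff l) =
        ∑ m ∈ (range J).erase l, lam ^ m * j ((PowerSeries.coeff m F).coeff l) := by
      rw [hcoeff, ← Finset.add_sum_erase _ _ (mem_range.2 hl), add_sub_cancel_left]
    have h2 : ‖Θ.coeff l - lam ^ l * j ((PowerSeries.coeff l F).coeff l)‖ ≤
        ‖lam‖ ^ (l + 1) := by
      rw [h1]
      refine ahc_sum (pow_nonneg (norm_nonneg _) _) fun m hm => ?_
      rw [mem_erase] at hm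
      rcases Nat.lt_or_ge m l with h | h
      · rw [hzero m l h, map_zero, mul_zero, norm_zero]
        exact pow_nonneg (norm_nonneg _) _
      · have h2 : l + 1 ≤ m := by
          have := hm.1
          omega
        rw [norm_mul, norm_pow]
        exact (mul_le_of_le_one_right (pow_nonneg (norm_nonneg _) _) (hj _)).trans
          (pow_le_pow_of_le_one (norm_nonneg _) hlamle h2)
    have h3 : ‖Θ.coeff l / lam ^ l - j ((PowerSeries.coeff l F).coeff l)‖ < 1 := by
      have h4 : Θ.coeff l / lam ^ l - j ((PowerSeries.coeff l F).coeff l) =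
          (Θ.coeff l - lam ^ l * j ((PowerSeries.coeff l F).coeff l)) / lam ^ l := by
        rw [sub_div, mul_div_cancel_left₀ _ hll]
      rw [h4, norm_div, norm_pow, div_lt_one hlpos]
      refine h2.trans_lt ?_
      rw [pow_succ]
      exact mul_lt_of_lt_one_right hlpos hlam1
    have h5 : ‖Θ.coeff l / lam ^ l‖ ≤ 1 := by
      have h6 : Θ.coeff l / lam ^ l = (Θ.coeff l / lam ^ l -
          j ((PowerSeries.coeff l F).coeff l)) + j ((PowerSeries.coeff l F).coeff l) := by ring
      rw [h6]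
      exact ahc_add h3.le (hj _)
    rw [EE, ← hlam]
    exact (rd_eq_iff h5 (hj _)).2 h3
  refine ⟨Θ, ⟨?_, ?_, ?_, ?_⟩, ?_⟩
  · -- constant coefficient
    rw [hcoeff, sum_eq_single 0]
    · rw [pow_zero, one_mul, PowerSeries.coeff_zero_eq_constantCoeff_apply, hF0,
        Polynomial.coeff_one_zero, map_one]
    · intro m _ hm
      rw [hlow2 m (Nat.one_le_iff_ne_zero.2 hm), mul_zero]
    · intro h
      exact absurd (mem_range.2 (by omega)) h
  · -- bound
    intro k
    rw [hcoeff]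
    refine ahc_sum (pow_nonneg (norm_nonneg _) _) fun m _ => ?_
    rcases Nat.lt_or_ge m k with h | h
    · rw [hzero m k h, map_zero, mul_zero, norm_zero]
      exact pow_nonneg (norm_nonneg _) _
    · exact hterm m k h
  · -- low coefficients
    intro k hk
    have hfac : ((k.factorial : ℕ) : C) ≠ 0 := Nat.cast_ne_zero.2 (Nat.factorial_ne_zero k)
    have hkJ : k ∈ range J := mem_range.2 (by omega)
    rw [hcoeff, ← Finset.add_sum_erase _ _ hkJ]
    have h1 : j ((PowerSeries.coeff k F).coeff k) = 1 / (k.factorial : C) := by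
      rw [eq_div_iff hfac]
      exact hlow1 k hk
    rw [h1, mul_one_div, add_sub_cancel_left]
    refine ahc_sum (pow_nonneg (norm_nonneg _) _) fun m hm => ?_
    rw [mem_erase] at hm
    rcases Nat.lt_or_ge m k with h | h
    · rw [hzero m k h, map_zero, mul_zero, norm_zero]
      exact pow_nonneg (norm_nonneg _) _
    · have h2 : k + 1 ≤ m := by
        have := hm.1
        omega
      rw [norm_mul, norm_pow]
      exact (mul_le_of_le_one_right (pow_nonneg (norm_nonneg _) _) (hj _)).trans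
        (pow_le_pow_of_le_one (norm_nonneg _) hlamle h2)
  · -- splitting
    intro n t htn
    rcases Nat.eq_zero_or_pos n with rfl | hn
    · refine ⟨0, by omega, ?_, ?_⟩
      · simp
      · simp [hε.le]
    have ht : ‖t‖ ≤ 1 := by
      by_contra hcon
      rw [not_le] at hcon
      have h1 : ‖t‖ ^ (p ^ n) = ‖t‖ := by rw [← norm_pow, htn]
      have h2 : 1 < p ^ n := Nat.one_lt_pow (by omega) (by omega)
      have h3 : ‖t‖ ^ 1 < ‖t‖ ^ (p ^ n) := pow_lt_pow_right₀ hcon h2
      rw [h1, pow_one] at h3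
      exact lt_irrefl _ h3
    obtain ⟨c, hc, hcs⟩ := ahc_c0 p hp n t ht htn
    refine ⟨c, hc, hcs, ?_⟩
    set s : C := ∑ i ∈ range n, t ^ (p ^ i) with hs
    have hti : ∀ i : ℕ, ‖t ^ (p ^ i)‖ ≤ 1 := fun i => by
      rw [norm_pow]
      exact pow_le_one₀ (norm_nonneg _) ht
    -- the series `F(t^{p^i}, Y)`
    have hFi : ∀ i ∈ range n, ∀ m, ‖PowerSeries.coeff m
        (PowerSeries.map (Polynomial.eval₂RingHom j (t ^ (p ^ i))) F)‖ ≤ 1 := by
      intro i _ m
      rw [PowerSeries.coeff_map, Polynomial.coe_eval₂RingHom, Polynomial.eval₂_eq_sum_range]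
      refine norm_sum_le_one _ fun l _ => ?_
      rw [norm_mul, norm_pow]
      exact mul_le_one₀ (hj _) (pow_nonneg (norm_nonneg _) _)
        (pow_le_one₀ (norm_nonneg _) (hti i))
    obtain ⟨hb1, hb2⟩ := hEVJ C J lam hlamle ℕ (range n) _ hFi
    rw [hPRODF p g F hDS C j n t htn] at hb1 hb2
    have heval : ∀ i, ev J lam (PowerSeries.map (Polynomial.eval₂RingHom j (t ^ (p ^ i))) F) =
        Θ.eval (t ^ (p ^ i)) := by
      intro i
      rw [ev, hΘ, Polynomial.eval_finsetSum]
      refine sum_congr rfl fun m _ => ?_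
      rw [PowerSeries.coeff_map, Polynomial.coe_eval₂RingHom, Polynomial.eval_mul,
        Polynomial.eval_C, Polynomial.eval_map, mul_comm]
    simp only [heval] at hb2
    set b : PowerSeries C := PowerSeries.binomialSeries C s with hb
    have hbc : ∀ k, PowerSeries.coeff k b = Ring.choose s k := fun k => by
      rw [hb, PowerSeries.binomialSeries_coeff, smul_eq_mul, mul_one]
    have hch : ∀ k, ‖Ring.choose s k‖ ≤ 1 := fun k => by
      rw [← hbc]
      exact hb1 k
    set z' : C := ev J lam b with hz'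
    -- `z' = 1 + s λ mod λ²`
    have h12 : ‖z' - (1 + s * (ζ - 1))‖ ≤ ‖ζ - 1‖ ^ 2 := by
      rw [← hlam, hz', ev]
      obtain ⟨J', rfl⟩ : ∃ J', J = J' + 2 := ⟨J - 2, by omega⟩
      rw [sum_range_succ', sum_range_succ', hbc, hbc]
      simp only [zero_add, Ring.choose_zero_right, Ring.choose_one_right, pow_zero, pow_one,
        mul_one]
      have : ∀ x : C, x + s * lam + 1 - (1 + s * lam) = x := fun x => by ring
      rw [this]
      refine ahc_sum (pow_nonneg (norm_nonneg _) _) fun m _ => ?_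
      rw [norm_mul, norm_pow, hbc]
      exact (mul_le_of_le_one_left (pow_nonneg (norm_nonneg _) _) (hch _)).trans
        (pow_le_pow_of_le_one (norm_nonneg _) hlamle (by omega))
    -- `z'^p` is close to `1`
    have hzp : ‖z' ^ p - 1‖ ≤ ‖lam‖ ^ J := by
      have h1 := (hEVJ C J lam hlamle ℕ (range p) (fun _ => b) (fun _ _ => hb1)).2
      rw [prod_const, card_range, prod_const, card_range, ← hz'] at h1
      -- the polynomial `Ψ`
      set Ψ : Polynomial C := (1 + Polynomial.X) ^ p - 1 with hΨ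
      have hΨc : ((Ψ : Polynomial C) : PowerSeries C) = (1 + PowerSeries.X) ^ p - 1 := by
        rw [hΨ, Polynomial.coe_sub, Polynomial.coe_pow, Polynomial.coe_add, Polynomial.coe_one,
          Polynomial.coe_X]
      have hΨint : ∀ m, ‖PowerSeries.coeff m (Ψ : PowerSeries C)‖ ≤ 1 := by
        intro m
        rw [Polynomial.coeff_coe, hΨ, Polynomial.coeff_sub, Polynomial.coeff_one_add_X_pow,
          Polynomial.coeff_one]
        refine ahc_sub (norm_natCast_le _) ?_
        split_ifs <;> simp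
      have hΨ0 : ev J lam (Ψ : PowerSeries C) = 0 := by
        rw [ahc_ev_poly]
        · rw [hΨ]
          simp only [Polynomial.eval_sub, Polynomial.eval_pow, Polynomial.eval_add,
            Polynomial.eval_one, Polynomial.eval_X]
          rw [hlam, add_sub_cancel, hζ.pow_eq_one, sub_self]
        · refine lt_of_le_of_lt ?_ hJ2
          rw [hΨ]
          refine (Polynomial.natDegree_sub_le _ _).trans (max_le ?_ (by simp))
          refine (Polynomial.natDegree_pow_le).trans ?_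
          have : (1 + Polynomial.X : Polynomial C).natDegree ≤ 1 :=
            (Polynomial.natDegree_add_le _ _).trans (by simp)
          calc p * (1 + Polynomial.X : Polynomial C).natDegree ≤ p * 1 :=
            Nat.mul_le_mul_left _ this
            _ = p := mul_one p
      have hk : ∀ k, 1 ≤ k → ‖ev J lam ((Ψ : PowerSeries C) ^ k)‖ ≤ ‖lam‖ ^ J := by
        intro k hk
        have := (hEVJ C J lam hlamle ℕ (range k) (fun _ => (Ψ : PowerSeries C))
          (fun _ _ => hΨint)).2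
        rw [prod_const, card_range, prod_const, card_range, hΨ0, zero_pow (by omega),
          sub_zero] at this
        exact this
      have hlow : ∀ k m, m < k → PowerSeries.coeff m ((Ψ : PowerSeries C) ^ k) = 0 := by
        intro k m hm
        have hdvd : (PowerSeries.X : PowerSeries C) ∣ (Ψ : PowerSeries C) := by
          rw [PowerSeries.X_dvd_iff, hΨc]
          simp
        have h2 : (PowerSeries.X : PowerSeries C) ^ k ∣ (Ψ : PowerSeries C) ^ k :=
          pow_dvd_pow_of_dvd hdvd k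
        exact PowerSeries.X_pow_dvd_iff.1 h2 m hm
      have h2 : ev J lam (b ^ p) = ∑ k ∈ range J, Ring.choose s k *
          ev J lam ((Ψ : PowerSeries C) ^ k) := by
        rw [ev]
        have h3 : ∀ m ∈ range J, PowerSeries.coeff m (b ^ p) * lam ^ m =
            ∑ k ∈ range J, Ring.choose s k *
              (PowerSeries.coeff m ((Ψ : PowerSeries C) ^ k) * lam ^ m) := by
          intro m hm
          rw [hb, hPSI C p s m, sum_mul, hΨc]
          rw [mem_range] at hm
          rw [← Finset.sum_subset (Finset.range_mono (show m + 1 ≤ J by omega))]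
          · exact sum_congr rfl fun k _ => by ring
          · intro k _ hk2
            rw [← hΨc, hlow k m (by rw [mem_range] at hk2; omega), zero_mul, mul_zero]
        rw [sum_congr rfl h3, sum_comm]
        refine sum_congr rfl fun k _ => ?_
        rw [ev, mul_sum]
      have h4 : ‖ev J lam (b ^ p) - 1‖ ≤ ‖lam‖ ^ J := by
        rw [h2]
        obtain ⟨J', hJ'⟩ : ∃ J', J = J' + 1 := ⟨J - 1, by omega⟩
        have h5 : ∑ k ∈ range J, Ring.choose s k * ev J lam ((Ψ : PowerSeries C) ^ k) - 1 =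
            ∑ k ∈ range J', Ring.choose s (k + 1) *
              ev J lam ((Ψ : PowerSeries C) ^ (k + 1)) := by
          conv_lhs => rw [show range J = range (J' + 1) by rw [hJ']]
          rw [sum_range_succ']
          have h6 : ev J lam ((Ψ : PowerSeries C) ^ 0) = 1 := by
            have := ahc_ev_X J lam 0 (by omega)
            rw [pow_zero] at this ⊢
            rw [this, pow_zero]
          rw [h6, Ring.choose_zero_right]
          ring
        rw [h5]
        refine ahc_sum (pow_nonneg (norm_nonneg _) _) fun k _ => ?_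
        rw [norm_mul]
        exact (mul_le_of_le_one_left (norm_nonneg _) (hch _)).trans (hk _ (by omega))
      have h7 : z' ^ p - 1 = (ev J lam (b ^ p) - 1) - (ev J lam (b ^ p) - z' ^ p) := by ring
      rw [h7]
      exact ahc_sub h4 h1
    have hfin := hlast z' s c (‖lam‖ ^ J) hc hcs h12 hzp
    have h8 : ∏ i ∈ range n, Θ.eval (t ^ (p ^ i)) - ζ ^ c =
        (z' - ζ ^ c) - (z' - ∏ i ∈ range n, Θ.eval (t ^ (p ^ i))) := by ring
    rw [h8]
    exact ahc_sub (hfin.trans hJε) (hb2.trans hJε')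
  · -- the coefficients
    intro l hl
    rw [hEE l (by omega)]
    refine ahc_red hp j hj _ _ (ahc_rat hE (fun l => (PowerSeries.coeff l F).coeff l) ?_ ?_ l)
    · show (PowerSeries.coeff 0 F).coeff 0 = 1
      rw [PowerSeries.coeff_zero_eq_constantCoeff_apply, hF0, Polynomial.coeff_one_zero]
    · intro l hl1
      exact hTOPG p g F hDS hgdeg l hl1

/-- **AHC.** -/
theorem ahc_thm (hTOPG : AST.StmtTOPG) : StmtAHC :=
  ahc_aux hTOPG DWL_thm gser_thm PSI_thm main_PRODF (LOW_thm main_PRODF) EVJ_thm zeta_thm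

end ASE
end

section
/-!
# MP_b685ef_ag, theorem LFP: comparison of multisets (CMP)
-/
set_option linter.all false

namespace ASE

open Finset ASur AST

namespace CMPaux

section eres

variable {κ : Type} [Field κ]

theorem cm_lin (r : κ) (hr : r ≠ 0) :
    (1 - Polynomial.C r * Polynomial.X : Polynomial κ).roots = {r⁻¹} := by
  have h : (1 - Polynomial.C r * Polynomial.X : Polynomial κ) =
      Polynomial.C (-r) * (Polynomial.X - Polynomial.C r⁻¹) := by
    rw [mul_sub, ← Polynomial.C_mul, neg_mul, mul_inv_cancel₀ hr, Polynomial.C_neg,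
      Polynomial.C_neg, Polynomial.C_1]
    ring
  rw [h, Polynomial.roots_C_mul _ (neg_ne_zero.2 hr), Polynomial.roots_X_sub_C]

theorem cm_ne (r : κ) : (1 - Polynomial.C r * Polynomial.X : Polynomial κ) ≠ 0 := by
  intro h
  have h2 := congrArg (Polynomial.eval 0) h
  simp at h2

theorem cm_roots (R : Multiset κ) (hR : ∀ r ∈ R, r ≠ 0) :
    ((R.map fun r => (1 - Polynomial.C r * Polynomial.X : Polynomial κ)).prod).roots =
      R.map fun r => r⁻¹ := by
  induction R using Multiset.induction_on with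
  | empty => simp
  | cons r R ih =>
    have h1 : (R.map fun r => (1 - Polynomial.C r * Polynomial.X : Polynomial κ)).prod ≠ 0 := by
      intro h0
      rw [Multiset.prod_eq_zero_iff, Multiset.mem_map] at h0
      obtain ⟨x, _, hx⟩ := h0
      exact cm_ne x hx
    rw [Multiset.map_cons, Multiset.prod_cons, Polynomial.roots_mul (mul_ne_zero (cm_ne r) h1),
      ih (fun x hx => hR x (Multiset.mem_cons_of_mem hx)),
      cm_lin r (hR r (Multiset.mem_cons_self r R)), Multiset.map_cons, Multiset.singleton_add]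

theorem cm_inj (R T : Multiset κ) (hR : ∀ r ∈ R, r ≠ 0) (hT : ∀ r ∈ T, r ≠ 0)
    (h : (R.map fun r => (1 - Polynomial.C r * Polynomial.X : Polynomial κ)).prod =
      (T.map fun r => (1 - Polynomial.C r * Polynomial.X : Polynomial κ)).prod) : R = T := by
  have h2 := congrArg Polynomial.roots h
  rw [cm_roots R hR, cm_roots T hT] at h2
  exact Multiset.map_injective inv_injective h2

theorem cm_deg (R : Multiset κ) :
    ((R.map fun r => (1 - Polynomial.C r * Polynomial.X : Polynomial κ)).prod).natDegree ≤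
      Multiset.card R := by
  refine (Polynomial.natDegree_multiset_prod_le _).trans ?_
  rw [Multiset.map_map]
  have : ∀ x ∈ R, (Polynomial.natDegree ∘ fun x : κ =>
      (1 - Polynomial.C x * Polynomial.X : Polynomial κ)) x ≤ 1 := by
    intro x _
    simp only [Function.comp_apply]
    refine (Polynomial.natDegree_sub_le _ _).trans ?_
    rw [Polynomial.natDegree_one]
    exact max_le (by norm_num) ((Polynomial.natDegree_C_mul_le _ _).trans Polynomial.natDegree_X_le)
  calc (R.map (Polynomial.natDegree ∘ fun x : κ =>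
      (1 - Polynomial.C x * Polynomial.X : Polynomial κ))).sum ≤ (R.map fun _ => 1).sum :=
        Multiset.sum_map_le_sum_map _ _ this
    _ = Multiset.card R := by simp

theorem cm_zero (R : Multiset κ) :
    ((R.map fun r => (1 - Polynomial.C r * Polynomial.X : Polynomial κ)).prod).coeff 0 = 1 := by
  rw [Polynomial.coeff_zero_eq_eval_zero, Polynomial.eval_multiset_prod, Multiset.map_map]
  apply Multiset.prod_eq_one
  intro x hx
  rw [Multiset.mem_map] at hx
  obtain ⟨y, _, rfl⟩ := hx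
  simp

end eres

section emult

variable {C : Type} [NormedField C] [IsUltrametricDist C]

theorem cm_scale (β : Multiset C) (ϖ : C) (n : ℕ) :
    ((β.map fun x => 1 - Polynomial.C (x / ϖ) * Polynomial.X).prod).coeff n =
      (revP β).coeff n / ϖ ^ n := by
  have h : (β.map fun x => 1 - Polynomial.C (x / ϖ) * Polynomial.X).prod =
      (revP β).comp (Polynomial.C ϖ⁻¹ * Polynomial.X) := by
    unfold revP
    rw [Polynomial.multiset_prod_comp, Multiset.map_map]
    congr 1
    refine Multiset.map_congr rfl fun x _ => ?_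
    simp only [Function.comp_apply, Polynomial.sub_comp, Polynomial.one_comp, Polynomial.mul_comp,
      Polynomial.C_comp, Polynomial.X_comp]
    rw [div_eq_mul_inv, Polynomial.C_mul, mul_assoc]
  rw [h, Polynomial.comp_C_mul_X_coeff, inv_pow, div_eq_mul_inv]

open Classical in
theorem cm_step (w : C) (hw : w ≠ 0) (β : Multiset C) :
    ∃ (c : C) (R : Polynomial (OO C)), c ≠ 0 ∧ ‖c‖ ≤ 1 ∧
      R.map (OO C).subtype =
        Polynomial.C c * (β.map fun x => 1 - Polynomial.C (x / w) * Polynomial.X).prod ∧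
      R.map (IsLocalRing.residue (OO C)) =
        Polynomial.X ^ (Multiset.card (β.filter fun x => ‖w‖ < ‖x‖)) *
          ((β.filter fun x => ‖x‖ = ‖w‖).map fun x =>
            (1 - Polynomial.C (rd (x / w)) * Polynomial.X : Polynomial (KK C))).prod := by
  have hwn : 0 < ‖w‖ := norm_pos_iff.2 hw
  induction β using Multiset.induction_on with
  | empty => exact ⟨1, 1, one_ne_zero, by simp, by simp, by simp⟩
  | cons x β ih =>
    obtain ⟨c, R, hc0, hc1, h1, h2⟩ := ih
    rcases lt_or_ge ‖w‖ ‖x‖ with h | h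
    · have hx : x ≠ 0 := norm_pos_iff.1 (hwn.trans h)
      have hi : ‖w / x‖ < 1 := by
        rw [norm_div]
        exact (div_lt_one (hwn.trans h)).2 h
      refine ⟨-(w / x) * c, (Polynomial.X - Polynomial.C ⟨w / x, mem_OO.2 hi.le⟩) * R,
        mul_ne_zero (neg_ne_zero.2 (div_ne_zero hw hx)) hc0, ?_, ?_, ?_⟩
      · rw [norm_mul, norm_neg]
        exact mul_le_one₀ hi.le (norm_nonneg _) hc1
      · rw [Polynomial.map_mul, h1, Multiset.map_cons, Multiset.prod_cons, Polynomial.map_sub,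
          Polynomial.map_X, Polynomial.map_C]
        have e : (Polynomial.X - Polynomial.C ((OO C).subtype ⟨w / x, mem_OO.2 hi.le⟩) :
            Polynomial C) =
            Polynomial.C (-(w / x)) * (1 - Polynomial.C (x / w) * Polynomial.X) := by
          have e1 : ((OO C).subtype ⟨w / x, mem_OO.2 hi.le⟩ : C) = w / x := rfl
          rw [e1, mul_sub, mul_one, ← mul_assoc, ← Polynomial.C_mul]
          have e2 : -(w / x) * (x / w) = -1 := by
            field_simp
          rw [e2, Polynomial.C_neg, Polynomial.C_neg, Polynomial.C_1]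
          ring
        rw [e, Polynomial.C_mul]
        ring
      · rw [Polynomial.map_mul, h2, Multiset.filter_cons_of_pos (p := fun x : C => ‖w‖ < ‖x‖) _ h,
          Multiset.filter_cons_of_neg (p := fun x : C => ‖x‖ = ‖w‖) _ h.ne', Multiset.card_cons,
          Polynomial.map_sub, Polynomial.map_X, Polynomial.map_C, ← rd_of_le hi.le, rd_of_lt hi,
          Polynomial.C_0, sub_zero]
        ring
    · have hi : ‖x / w‖ ≤ 1 := by
        rw [norm_div]
        exact (div_le_one hwn).2 h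
      refine ⟨c, (1 - Polynomial.C ⟨x / w, mem_OO.2 hi⟩ * Polynomial.X) * R, hc0, hc1, ?_, ?_⟩
      · rw [Polynomial.map_mul, h1, Multiset.map_cons, Multiset.prod_cons, Polynomial.map_sub,
          Polynomial.map_mul, Polynomial.map_X, Polynomial.map_C, Polynomial.map_one]
        have e1 : ((OO C).subtype ⟨x / w, mem_OO.2 hi⟩ : C) = x / w := rfl
        rw [e1]
        ring
      · rw [Polynomial.map_mul, h2,
          Multiset.filter_cons_of_neg (p := fun x : C => ‖w‖ < ‖x‖) _ (not_lt.2 h),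
          Polynomial.map_sub, Polynomial.map_mul, Polynomial.map_X, Polynomial.map_C,
          Polynomial.map_one, ← rd_of_le hi]
        rcases h.lt_or_eq with h' | h'
        · rw [Multiset.filter_cons_of_neg (p := fun x : C => ‖x‖ = ‖w‖) _ h'.ne,
            rd_of_lt (by rw [norm_div]; exact (div_lt_one hwn).2 h'), Polynomial.C_0, zero_mul,
            sub_zero, one_mul]
        · rw [Multiset.filter_cons_of_pos (p := fun x : C => ‖x‖ = ‖w‖) _ h', Multiset.map_cons,
            Multiset.prod_cons]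
          ring

open Classical in
/-- the reductions of the elements on the circle of `w` -/
noncomputable def TT (w : C) (β : Multiset C) : Multiset (KK C) :=
  (β.filter fun x => ‖x‖ = ‖w‖).map fun x => rd (x / w)

open Classical in
theorem cm_edge (w : C) (hw : w ≠ 0) (β : Multiset C) :
    ∃ c : C, c ≠ 0 ∧ ‖c‖ ≤ 1 ∧ ∀ n : ℕ, ‖c * (revP β).coeff n / w ^ n‖ ≤ 1 ∧
      rd (c * (revP β).coeff n / w ^ n) = (Polynomial.X ^ (gc β ‖w‖) *
        ((TT w β).map fun r => (1 - Polynomial.C r * Polynomial.X : Polynomial (KK C))).prod).coeff n := by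
  obtain ⟨c, R, hc0, hc1, h1, h2⟩ := cm_step w hw β
  refine ⟨c, hc0, hc1, fun n => ?_⟩
  have h3 : c * (revP β).coeff n / w ^ n = ((R.coeff n : OO C) : C) := by
    have e1 : ((R.coeff n : OO C) : C) = (R.map (OO C).subtype).coeff n := by
      rw [Polynomial.coeff_map]; rfl
    rw [e1, h1, Polynomial.coeff_C_mul, cm_scale, mul_div_assoc]
  rw [h3]
  refine ⟨norm_coe_le _, ?_⟩
  rw [rd_coe, ← Polynomial.coeff_map, h2]
  unfold TT gc
  rw [Multiset.countP_eq_card_filter, Multiset.map_map]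
  rfl

open Classical in
theorem cm_T_card (w : C) (β : Multiset C) : Multiset.card (TT w β) = cc β ‖w‖ := by
  unfold TT cc
  rw [Multiset.card_map, Multiset.countP_eq_card_filter]

open Classical in
theorem cm_T_ne (w : C) (hw : w ≠ 0) (β : Multiset C) : ∀ r ∈ TT w β, r ≠ 0 := by
  intro r hr
  unfold TT at hr
  rw [Multiset.mem_map] at hr
  obtain ⟨x, hx, rfl⟩ := hr
  rw [Multiset.mem_filter] at hx
  have hn : ‖x / w‖ = 1 := by
    rw [norm_div, hx.2, div_self (norm_ne_zero_iff.2 hw)]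
  rw [Ne, rd_eq_zero_iff hn.le]
  intro h; linarith

open Classical in
theorem cm_T_count (w : C) (hw : w ≠ 0) (β : Multiset C) :
    Multiset.countP (fun r => r = 1) (TT w β) = dc β w := by
  have hwn : 0 < ‖w‖ := norm_pos_iff.2 hw
  unfold TT dc
  rw [Multiset.countP_map, ← Multiset.countP_eq_card_filter, Multiset.countP_filter]
  refine Multiset.countP_congr rfl fun x _ => ?_
  have key : (rd (x / w) = 1 ∧ ‖x‖ = ‖w‖) ↔ ‖x - w‖ < ‖w‖ := by
    have hiff : ‖x‖ = ‖w‖ → (rd (x / w) = 1 ↔ ‖x - w‖ < ‖w‖) := by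
      intro hx
      have hn : ‖x / w‖ = 1 := by
        rw [norm_div, hx, div_self hwn.ne']
      have e1 : x / w - 1 = (x - w) / w := by field_simp
      rw [← rd_one (C := C), rd_eq_iff hn.le (by simp), e1, norm_div, div_lt_one hwn]
    constructor
    · rintro ⟨a, b⟩
      exact (hiff b).1 a
    · intro h
      have hx := norm_eq_of_sub_lt h
      exact ⟨(hiff hx).2 h, hx⟩
  simpa using key

theorem cm_ge (β : Multiset C) (r : ℝ) : gc β r + cc β r = ge β r := by
  induction β using Multiset.induction_on with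
  | empty => simp
  | cons b β ih =>
    unfold gc cc ge at ih ⊢
    rcases lt_trichotomy ‖b‖ r with h | h | h
    · rw [Multiset.countP_cons_of_neg (p := fun x : C => r < ‖x‖) _ (not_lt.2 h.le),
        Multiset.countP_cons_of_neg (p := fun x : C => ‖x‖ = r) _ h.ne,
        Multiset.countP_cons_of_neg (p := fun x : C => r ≤ ‖x‖) _ (not_le.2 h)]
      exact ih
    · rw [Multiset.countP_cons_of_neg (p := fun x : C => r < ‖x‖) _ (not_lt.2 h.le),
        Multiset.countP_cons_of_pos (p := fun x : C => ‖x‖ = r) _ h,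
        Multiset.countP_cons_of_pos (p := fun x : C => r ≤ ‖x‖) _ h.ge]
      omega
    · rw [Multiset.countP_cons_of_pos (p := fun x : C => r < ‖x‖) _ h,
        Multiset.countP_cons_of_neg (p := fun x : C => ‖x‖ = r) _ h.ne',
        Multiset.countP_cons_of_pos (p := fun x : C => r ≤ ‖x‖) _ h.le]
      omega

end emult

end CMPaux

open CMPaux

theorem cmp_thm (hEPROD : AST.StmtEPROD) : StmtCMP := by
  classical
  intro C _ _ μ ν w s0 m0 n0 hw hs0 hμ hν hclose hn0 hbig
  have hwn : 0 < ‖w‖ := norm_pos_iff.2 hw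
  obtain ⟨c, hc0, hc1, hc⟩ := cm_edge w hw ν
  obtain ⟨d, hd0, hd1, hd⟩ := cm_edge w hw μ
  -- ‖c‖ ≤ ‖s0‖
  have hcs : ‖c‖ ≤ ‖s0‖ := by
    have h1 := (hc n0).1
    rw [norm_div, norm_pow, norm_mul, div_le_one (pow_pos hwn n0)] at h1
    have h2 : ‖c‖ * ‖w‖ ^ n0 ≤ ‖s0‖ * ‖w‖ ^ n0 := by
      calc ‖c‖ * ‖w‖ ^ n0 ≤ ‖c‖ * ‖s0 * (revP ν).coeff n0‖ :=
            mul_le_mul_of_nonneg_left hbig (norm_nonneg c)
        _ = ‖s0‖ * (‖c‖ * ‖(revP ν).coeff n0‖) := by rw [norm_mul]; ring
        _ ≤ ‖s0‖ * ‖w‖ ^ n0 := mul_le_mul_of_nonneg_left h1 (norm_nonneg s0)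
    exact le_of_mul_le_mul_right h2 (pow_pos hwn n0)
  have e1 : Edge (revP μ : PowerSeries C) w (gc μ ‖w‖)
      ((TT w μ).map fun r => (1 - Polynomial.C r * Polynomial.X : Polynomial (KK C))).prod m0 := by
    refine ⟨d, hd0, hd1, fun n _ => ?_⟩
    rw [Polynomial.coeff_coe]
    exact hd n
  have e2 : Edge (revP μ : PowerSeries C) w (gc ν ‖w‖)
      ((TT w ν).map fun r => (1 - Polynomial.C r * Polynomial.X : Polynomial (KK C))).prod m0 := by
    refine ⟨c, hc0, hc1, fun n hn => ?_⟩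
    rw [Polynomial.coeff_coe]
    have h1 : ‖c * ((revP μ).coeff n - (revP ν).coeff n) / w ^ n‖ < 1 := by
      rw [norm_div, norm_pow, div_lt_one (pow_pos hwn n), norm_mul]
      refine lt_of_le_of_lt ?_ (hclose n hn)
      rw [norm_mul]
      exact mul_le_mul_of_nonneg_right hcs (norm_nonneg _)
    have h2 : c * (revP μ).coeff n / w ^ n = c * ((revP μ).coeff n - (revP ν).coeff n) / w ^ n +
        c * (revP ν).coeff n / w ^ n := by ring
    obtain ⟨h3, h4⟩ := hc n
    rw [h2, rd_add h1.le h3, rd_of_lt h1, zero_add]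
    exact ⟨(IsUltrametricDist.norm_add_le_max _ _).trans (max_le h1.le h3), h4⟩
  obtain ⟨f1, f2⟩ := (hEPROD C (revP μ : PowerSeries C) (revP μ : PowerSeries C) w
    (gc μ ‖w‖) (gc ν ‖w‖) _ _ m0 hw).2 e1 e2 (cm_zero _) (cm_zero _)
    (by
      have h4 := cm_deg (TT w μ)
      rw [cm_T_card] at h4
      have := cm_ge μ ‖w‖
      omega)
    (by
      have h4 := cm_deg (TT w ν)
      rw [cm_T_card] at h4
      have := cm_ge ν ‖w‖
      omega)
  have f3 := cm_inj (TT w μ) (TT w ν) (cm_T_ne w hw μ) (cm_T_ne w hw ν) f2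
  refine ⟨f1, ?_, ?_⟩
  · rw [← cm_T_card, ← cm_T_card, f3]
  · rw [← cm_T_count w hw, ← cm_T_count w hw, f3]

end ASE
end

section
/-!
# MP_b685ef_ag, theorem LFP: module DEGE

The supports of the `F_i` are bounded, uniformly in `i`.
-/
set_option linter.all false

namespace ASE

open Finset ASur AST

theorem dege_thm (hE : ASX.StmtEXPX) (hS : StmtSUBE) : StmtDEGE := by
  classical
  intro p hp C _ k _ τ Θ n K e hG f hf
  refine ⟨∑ u : f.support, Θ.natDegree * e u.1, fun L hL i w hw => ?_⟩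
  rw [hE p C k τ Θ n f i w] at hw
  obtain ⟨l, hl, hne⟩ := Finset.exists_ne_zero_of_sum_ne_zero hw
  have hlw : ∑ u : f.support, (l u : ℤ) • u.1 = w := by
    by_contra h
    exact hne (if_neg h)
  have hl' : ∀ u, l u ≤ Θ.natDegree := fun u =>
    Nat.lt_succ_iff.1 (Finset.mem_range.1 (Fintype.mem_piFinset.1 hl u))
  obtain ⟨h1, h2⟩ := hS n K e hG f.support univ l (fun u => u.1) (fun u _ => hf u.1 u.2)
  rw [hlw] at h1 h2
  refine ⟨h1, h2.trans ?_⟩
  calc ∑ u : f.support, l u * e u.1 ≤ ∑ u : f.support, Θ.natDegree * e u.1 :=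
        Finset.sum_le_sum fun u _ => Nat.mul_le_mul_right _ (hl' u)
    _ ≤ L := hL
    _ = 1 * L := (one_mul L).symm
    _ ≤ (p - 1) * L := Nat.mul_le_mul_right _ (by omega)

end ASE
end

section
/-!
# MP_b685ef_ag, theorem LFP, module DEPH (helper87)

`c(u,v)` depends only on the leading form.
-/
set_option linter.all false

namespace ASE

open Finset ASur AST

namespace DEPHM

/-- A product over `S` of factors which are `1` outside `T ⊆ S`. -/
theorem prod_res {α : Type} {M : Type} [CommMonoid M] (S T : Finset α) (hTS : T ⊆ S)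
    (l : S → ℕ) (hl : ∀ x : S, l x ≠ 0 → x.1 ∈ T) (F : ℕ → α → M) (hF : ∀ x, F 0 x = 1) :
    ∏ x : T, F (l ⟨x.1, hTS x.2⟩) x.1 = ∏ x : S, F (l x) x.1 := by
  refine Fintype.prod_of_injective (fun x : T => (⟨x.1, hTS x.2⟩ : S)) ?_ _ _ ?_ ?_
  · intro x y hxy
    exact Subtype.ext (congrArg (fun z : S => z.1) hxy)
  · intro x hx
    by_cases h : l x = 0
    · rw [h, hF]
    · exact absurd ⟨⟨x.1, hl x h⟩, rfl⟩ hx
  · intro x
    rfl

theorem sum_res {α : Type} {M : Type} [AddCommMonoid M] (S T : Finset α) (hTS : T ⊆ S)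
    (l : S → ℕ) (hl : ∀ x : S, l x ≠ 0 → x.1 ∈ T) (F : ℕ → α → M) (hF : ∀ x, F 0 x = 0) :
    ∑ x : T, F (l ⟨x.1, hTS x.2⟩) x.1 = ∑ x : S, F (l x) x.1 := by
  refine Fintype.sum_of_injective (fun x : T => (⟨x.1, hTS x.2⟩ : S)) ?_ _ _ ?_ ?_
  · intro x y hxy
    exact Subtype.ext (congrArg (fun z : S => z.1) hxy)
  · intro x hx
    by_cases h : l x = 0
    · rw [h, hF]
    · exact absurd ⟨⟨x.1, hl x h⟩, rfl⟩ hx
  · intro x
    rfl

open Classical in
/-- The sum over the functions on the finite set `T`. -/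
noncomputable def GT' {n : ℕ} {k : Type} [Field k] (D : ℕ) (E : ℕ → ℚ) (T : Finset (Fin n → ℤ))
    (g : (Fin n → ℤ) → k) (w : Fin n → ℤ) (a : ℕ) : k :=
  ∑ l ∈ (Fintype.piFinset (fun _ : T => range (a + 1))).filter
      (fun l => ∑ x, (l x : ℤ) • x.1 = w ∧ D * ∑ x, l x = a),
    ∏ x : T, ((E (l x) : ℚ) : k) * g x.1 ^ l x

open Classical in
theorem gH_eq {n : ℕ} {k : Type} [Field k] (D : ℕ) (e : (Fin n → ℤ) → ℕ) (E : ℕ → ℚ)
    (hE : E 0 = 1) (f : (Fin n → ℤ) →₀ k) (T : Finset (Fin n → ℤ))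
    (hT : ∀ x, x ∈ T ↔ x ∈ f.support ∧ e x = D) (w : Fin n → ℤ) (a : ℕ) :
    gH D e E f w a = GT' D E T (fun x => f x) w a := by
  have hTS : T ⊆ f.support := fun x hx => ((hT x).1 hx).1
  have hle : ∀ (l : f.support → ℕ), (∀ x, l x ≠ 0 → e x.1 = D) → ∀ x : f.support, l x ≠ 0 →
      x.1 ∈ T := fun l hl x hx => (hT x.1).2 ⟨x.2, hl x hx⟩
  unfold gH GT'
  refine Finset.sum_nbij' (i := fun (l : f.support → ℕ) (x : T) => l ⟨x.1, hTS x.2⟩)
    (j := fun (l : T → ℕ) (x : f.support) => if h : x.1 ∈ T then l ⟨x.1, h⟩ else 0) ?_ ?_ ?_ ?_ ?_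
  · intro l hl
    rw [Finset.mem_filter, Fintype.mem_piFinset] at hl ⊢
    obtain ⟨h1, h2, h3, h4⟩ := hl
    refine ⟨fun x => h1 _, ?_, ?_⟩
    · rw [← h3]
      exact sum_res f.support T hTS l (hle l h2) (fun m x => (m : ℤ) • x) (fun x => by simp)
    · rw [← h4]
      exact congrArg (fun z => D * z)
        (sum_res f.support T hTS l (hle l h2) (fun m x => m) (fun x => rfl))
  · intro l hl
    rw [Finset.mem_filter, Fintype.mem_piFinset] at hl ⊢
    obtain ⟨h1, h3, h4⟩ := hl
    have h2 : ∀ x : f.support, (if h : x.1 ∈ T then l ⟨x.1, h⟩ else 0) ≠ 0 → x.1 ∈ T := by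
      intro x hx
      by_contra h
      exact hx (dif_neg h)
    refine ⟨?_, ?_, ?_, ?_⟩
    · intro x
      by_cases h : x.1 ∈ T
      · simp only [dif_pos h]
        exact h1 _
      · simp [dif_neg h]
    · intro x hx
      exact ((hT x.1).1 (h2 x hx)).2
    · rw [← h3]
      refine (sum_res f.support T hTS _ h2 (fun m x => (m : ℤ) • x) (fun x => by simp)).symm.trans ?_
      refine Finset.sum_congr rfl fun x _ => ?_
      simp only [dif_pos x.2]
    · rw [← h4]
      refine congrArg (fun z => D * z) ?_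
      refine (sum_res f.support T hTS _ h2 (fun m x => m) (fun x => rfl)).symm.trans ?_
      refine Finset.sum_congr rfl fun x _ => ?_
      simp only [dif_pos x.2]
  · intro l hl
    rw [Finset.mem_filter, Fintype.mem_piFinset] at hl
    obtain ⟨h1, h2, h3, h4⟩ := hl
    funext x
    by_cases h : x.1 ∈ T
    · simp only [dif_pos h]
    · simp only [dif_neg h]
      by_contra h0
      exact h (hle l h2 x (Ne.symm h0))
  · intro l hl
    funext x
    simp only [dif_pos x.2]
  · intro l hl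
    rw [Finset.mem_filter, Fintype.mem_piFinset] at hl
    obtain ⟨h1, h2, h3, h4⟩ := hl
    exact (prod_res f.support T hTS l (hle l h2)
      (fun m x => ((E m : ℚ) : k) * f x ^ m) (fun x => by simp [hE])).symm

end DEPHM

theorem deph_thm : StmtDEPH := by
  classical
  intro n D K e k _ E hE f f' hP w a
  have key : ∀ x, (x ∈ f.support ∧ e x = D) ↔ (x ∈ f'.support ∧ e x = D) := by
    intro x
    constructor
    · rintro ⟨h1, h2⟩
      have h3 := hP.lead x (hP.mem x h1).1 h2
      refine ⟨?_, h2⟩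
      rw [Finsupp.mem_support_iff] at h1 ⊢
      rwa [← h3]
    · rintro ⟨h1, h2⟩
      have h3 := hP.lead x (hP.mem' x h1).1 h2
      refine ⟨?_, h2⟩
      rw [Finsupp.mem_support_iff] at h1 ⊢
      rwa [h3]
  set T : Finset (Fin n → ℤ) := f.support.filter (fun x => e x = D) with hTdef
  have hT : ∀ x, x ∈ T ↔ x ∈ f.support ∧ e x = D := fun x => by rw [hTdef, Finset.mem_filter]
  have hT' : ∀ x, x ∈ T ↔ x ∈ f'.support ∧ e x = D := fun x => (hT x).trans (key x)
  rw [DEPHM.gH_eq D e E hE f T hT, DEPHM.gH_eq D e E hE f' T hT']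
  unfold DEPHM.GT'
  refine Finset.sum_congr rfl fun l _ => Finset.prod_congr rfl fun x _ => ?_
  have h3 := hP.lead x.1 (hP.mem x.1 ((hT x.1).1 x.2).1).1 ((hT x.1).1 x.2).2
  simp only [h3]

end ASE
end

section
/-!
# MP_b685ef_ag, leading form principle: module REDET, the reduction of `det (1 - X B)`
-/
set_option linter.all false

namespace ASE

open Finset ASur AST Matrix Polynomial

namespace REDETaux

open ASur.EDGEMAux AST.EDGELUAux

/-- Degree bound: only the columns of the block `0` contain `X`. -/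
theorem deg_det {κ J : Type} [Field κ] [Fintype J] [DecidableEq J] (n : ℕ)
    (M : Matrix (Fin (n + 1) × J) (Fin (n + 1) × J) κ[X])
    (hM : ∀ x y, (M x y).natDegree ≤ if y.1 = 0 then 1 else 0) :
    M.det.natDegree ≤ Fintype.card J := by
  rw [Matrix.det_apply]
  refine Polynomial.natDegree_sum_le_of_forall_le _ _ fun σ _ => ?_
  have h1 : (Equiv.Perm.sign σ • ∏ x, M (σ x) x).natDegree ≤ (∏ x, M (σ x) x).natDegree := by
    rcases Int.units_eq_one_or (Equiv.Perm.sign σ) with h | h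
    · rw [h, one_smul]
    · rw [h, Units.neg_smul, one_smul, Polynomial.natDegree_neg]
  refine h1.trans ((Polynomial.natDegree_prod_le _ _).trans ?_)
  calc ∑ x, (M (σ x) x).natDegree ≤ ∑ x : Fin (n + 1) × J, (if x.1 = 0 then 1 else 0) :=
        Finset.sum_le_sum fun x _ => hM _ _
    _ = Fintype.card J := by
        rw [Fintype.sum_prod_type, Finset.sum_eq_single 0]
        · simp
        · intro k _ hk
          simp [hk]
        · simp

/-- The reduction polynomial. -/
noncomputable def Rpol {κ I : Type} [Field κ] [Fintype I] [DecidableEq I] (e : I → ℕ) (m n : ℕ)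
    (Ct : ℕ → Matrix {u // e u ≤ m} {u // e u ≤ m} κ) : κ[X] :=
  (cyc (n + 1) (Sb (fun u : {u // e u ≤ m} => e u.1) m κ[X]) (Eb Ct)).det

theorem Rpol_deg {κ I : Type} [Field κ] [Fintype I] [DecidableEq I] (e : I → ℕ) (m n : ℕ)
    (Ct : ℕ → Matrix {u // e u ≤ m} {u // e u ≤ m} κ) :
    (Rpol e m n Ct).natDegree ≤ Fintype.card {u // e u ≤ m} := by
  refine deg_det n _ fun x y => ?_
  rw [cyc_apply]
  refine (Polynomial.natDegree_sub_le _ _).trans (max_le ?_ ?_)
  · split_ifs with h1 h2 h2 <;> simp [Sb, Matrix.diagonal_apply] <;> split_ifs <;> simp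
  · by_cases h1 : (x.1 : ℕ) = ((y.1 : ℕ) + 1) % (n + 1)
    · rw [if_pos h1, Eb_apply]
      by_cases hy : y.1 = 0
      · rw [if_pos hy, hy]
        simp only [Fin.val_zero, if_true]
        refine (Polynomial.natDegree_mul_le).trans ?_
        simp
      · have hy' : ¬ ((y.1 : ℕ) = 0) := fun h => hy (Fin.ext h)
        rw [if_neg hy]
        simp [hy']
    · rw [if_neg h1]
      simp

/-- The integral form of `det (1 - X B)` and its reduction. -/
theorem one {C : Type} [NormedField C] [IsUltrametricDist C] {ι : Type} [Fintype ι]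
    [DecidableEq ι] (e : ι → ℕ) (p n m : ℕ) (ρ : C) (A Cm : ℕ → Matrix ι ι C) (hp : 2 ≤ p)
    (hρ : ρ ≠ 0) (hρ1 : ‖ρ‖ < 1) (hC : ∀ i u v, ‖Cm i u v‖ ≤ 1)
    (hA : ∀ i u v, A i u v * ρ ^ e v = ρ ^ (p * e u) * Cm i u v) (hCYC1 : StmtCYC1) (k : ℕ) :
    ‖(∏ u ∈ univ.filter (fun u => e u < m), ρ ^ ((p - 1) * (m - e u))) ^ (n + 1) *
        (Pmat A (n + 1)).charpolyRev.coeff k / (ρ ^ ((p - 1) * m * (n + 1))) ^ k‖ ≤ 1 ∧
    rd ((∏ u ∈ univ.filter (fun u => e u < m), ρ ^ ((p - 1) * (m - e u))) ^ (n + 1) *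
        (Pmat A (n + 1)).charpolyRev.coeff k / (ρ ^ ((p - 1) * m * (n + 1))) ^ k) =
      (Rpol e m n fun i => Matrix.of fun u v => rd (Cm i u.1 v.1)).coeff k := by
  classical
  set π : C := ρ ^ ((p - 1) * m) with hπ
  have hπ0 : π ≠ 0 := pow_ne_zero _ hρ
  -- integral lifts
  let s : ι → OO C := fun u => ⟨if e u < m then ρ ^ ((p - 1) * (m - e u)) else 1, by
    rw [mem_OO]
    split_ifs
    · rw [norm_pow]; exact pow_le_one₀ (norm_nonneg _) hρ1.le
    · simp⟩
  have hs : ∀ u, ((s u : OO C) : C) = if e u < m then ρ ^ ((p - 1) * (m - e u)) else 1 :=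
    fun u => rfl
  let EO : ℕ → Matrix ι ι (OO C) := fun i u v =>
    ⟨(if e u ≤ m then 1 else ρ ^ ((p - 1) * (e u - m))) * Cm i u v, by
      rw [mem_OO, norm_mul]
      refine mul_le_one₀ ?_ (norm_nonneg _) (hC i u v)
      split_ifs
      · simp
      · rw [norm_pow]; exact pow_le_one₀ (norm_nonneg _) hρ1.le⟩
  have hEO : ∀ i u v, ((EO i u v : OO C) : C) =
      (if e u ≤ m then 1 else ρ ^ ((p - 1) * (e u - m))) * Cm i u v := fun i u v => rfl
  let Es : ℕ → Matrix ι ι C := fun i => Matrix.of fun u v => ρ ^ ((p - 1) * e u) * Cm i u v / π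
  have hEs : ∀ i u v, Es i u v = ρ ^ ((p - 1) * e u) * Cm i u v / π := fun i u v => rfl
  have hsE : ∀ i u v, ((EO i u v : OO C) : C) = (s u : C) * Es i u v := by
    intro i u v
    rw [hEO, hs, hEs]
    rcases lt_trichotomy (e u) m with hlt | heq | hgt
    · rw [if_pos hlt.le, if_pos hlt]
      have : ρ ^ ((p - 1) * (m - e u)) * ρ ^ ((p - 1) * e u) = π := by
        rw [hπ, ← pow_add, ← mul_add]
        congr 2
        omega
      field_simp
      rw [← this]
      ring
    · rw [if_pos heq.le, if_neg (by omega), heq, ← hπ]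
      field_simp
    · rw [if_neg (by omega), if_neg (by omega)]
      have : ρ ^ ((p - 1) * (e u - m)) * π = ρ ^ ((p - 1) * e u) := by
        rw [hπ, ← pow_add, ← mul_add]
        congr 2
        omega
      rw [← this]
      field_simp
  -- the determinant over `O[X]`
  set MO : Matrix (Fin (n + 1) × ι) (Fin (n + 1) × ι) (OO C)[X] :=
    cyc (n + 1) (Matrix.diagonal fun u => Polynomial.C (s u)) (Eb EO) with hMO
  -- (a) in `C[X]`
  have hsub : MO.det.map (OO C).subtype =
      Polynomial.C ((∏ u, (s u : C)) ^ (n + 1)) * (Pmat Es (n + 1)).charpolyRev := by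
    have h1 := RingHom.map_det (Polynomial.mapRingHom (OO C).subtype) MO
    rw [Polynomial.coe_mapRingHom] at h1
    rw [h1, RingHom.mapMatrix_apply, hMO, cyc_map]
    have h2 : (fun i => (Eb EO i).map (Polynomial.mapRingHom (OO C).subtype)) = fun i =>
        (Matrix.diagonal fun u => (Polynomial.C ((s u : OO C) : C) : C[X])) * Eb Es i := by
      funext i
      ext1 u v
      rw [Matrix.map_apply, Matrix.diagonal_mul, Eb_apply, Eb_apply, map_mul]
      have h3 : (Polynomial.mapRingHom (OO C).subtype) (Polynomial.C (EO i u v)) =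
          Polynomial.C ((s u : C) * Es i u v) := by
        rw [Polynomial.coe_mapRingHom, Polynomial.map_C, ← hsE i u v]
        rfl
      rw [h3, map_mul]
      split_ifs
      · rw [Polynomial.coe_mapRingHom, Polynomial.map_X]; ring
      · rw [map_one]; ring
    have h4 : (Matrix.diagonal fun u => (Polynomial.C (s u) : (OO C)[X])).map
        (Polynomial.mapRingHom (OO C).subtype) =
        Matrix.diagonal fun u => (Polynomial.C ((s u : OO C) : C) : C[X]) := by
      rw [Matrix.diagonal_map (map_zero _)]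
      congr 1
      funext u
      rw [Polynomial.coe_mapRingHom, Polynomial.map_C]
      rfl
    rw [h2, h4, det_cyc_mul hCYC1 (n + 1) (by omega), Matrix.det_diagonal, Pmat_Eb,
      ← map_prod, ← map_pow]
    rfl
  -- (b) the reduction
  set r : OO C →+* KK C := IsLocalRing.residue (OO C) with hr
  have hrc : ∀ x : OO C, r x = rd (x : C) := fun x => (rd_coe x).symm
  set Ct : ℕ → Matrix ι ι (KK C) := fun i => (EO i).map r with hCt
  have hCtle : ∀ i u v, e u ≤ m → Ct i u v = rd (Cm i u v) := by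
    intro i u v hu
    show r (EO i u v) = _
    rw [hrc, hEO, if_pos hu, one_mul]
  have hCt0 : ∀ i, i < n + 1 → ∀ u v, m < e u → Ct i u v = 0 := by
    intro i _ u v hu
    show r (EO i u v) = _
    rw [hrc, hEO, if_neg (by omega)]
    apply rd_of_lt
    rw [norm_mul, norm_pow]
    have h1 : ‖ρ‖ ^ ((p - 1) * (e u - m)) < 1 := by
      apply pow_lt_one₀ (norm_nonneg _) hρ1
      have : 0 < (p - 1) * (e u - m) := Nat.mul_pos (by omega) (by omega)
      omega
    calc ‖ρ‖ ^ ((p - 1) * (e u - m)) * ‖Cm i u v‖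
        ≤ ‖ρ‖ ^ ((p - 1) * (e u - m)) * 1 :=
          mul_le_mul_of_nonneg_left (hC i u v) (by positivity)
      _ < 1 := by rw [mul_one]; exact h1
  have hred : MO.det.map r = (cyc (n + 1) (Sb e m (KK C)[X]) (Eb Ct)).det := by
    have h1 := RingHom.map_det (Polynomial.mapRingHom r) MO
    rw [Polynomial.coe_mapRingHom] at h1
    rw [h1, RingHom.mapMatrix_apply, hMO, cyc_map]
    congr 1
    congr 1
    · rw [Matrix.diagonal_map (map_zero _), Sb]
      congr 1
      funext u
      rw [Polynomial.coe_mapRingHom, Polynomial.map_C, hrc, hs]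
      split_ifs with hu
      · rw [rd_of_lt, Polynomial.C_0]
        rw [norm_pow]
        apply pow_lt_one₀ (norm_nonneg _) hρ1
        have : 0 < (p - 1) * (m - e u) := Nat.mul_pos (by omega) (by omega)
        omega
      · rw [rd_one, Polynomial.C_1]
    · funext i
      ext1 u v
      rw [Matrix.map_apply, Eb_apply, Eb_apply, map_mul, Polynomial.coe_mapRingHom,
        Polynomial.map_C]
      congr 1
      split_ifs
      · rw [Polynomial.map_X]
      · rw [Polynomial.map_one]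
  have hRR : MO.det.map r = Rpol e m n fun i => Matrix.of fun u v => rd (Cm i u.1 v.1) := by
    rw [hred, restrict e m n Ct hCt0]
    unfold Rpol
    congr 2
    funext i
    ext1 u v
    rw [Eb_apply, Eb_apply]
    congr 2
    exact hCtle i u.1 v.1 u.2
  -- (c) conjugation
  have hconj : (Pmat A (n + 1)).charpolyRev.coeff k =
      (π ^ (n + 1)) ^ k * (Pmat Es (n + 1)).charpolyRev.coeff k := by
    let W : Matrix ι ι C := Matrix.diagonal fun u => ρ ^ e u
    have hW : IsUnit W.det := by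
      rw [Matrix.det_diagonal, isUnit_iff_ne_zero, Finset.prod_ne_zero_iff]
      intro u _
      exact pow_ne_zero _ hρ
    have hstep : ∀ i, A i * W = W * (π • Es i) := by
      intro i
      ext1 u v
      rw [Matrix.mul_diagonal, Matrix.diagonal_mul, hA, Matrix.smul_apply, hEs, smul_eq_mul,
        mul_div_cancel₀ _ hπ0, ← mul_assoc, ← pow_add]
      congr 2
      have : p * e u = e u + (p - 1) * e u := by
        obtain ⟨q, rfl⟩ : ∃ q, p = q + 1 := ⟨p - 1, by omega⟩
        rw [Nat.add_sub_cancel]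
        ring
      exact this
    have hP : ∀ j, Pmat A j * W = W * (π ^ j • Pmat Es j) := by
      intro j
      induction j with
      | zero =>
        show 1 * W = W * (π ^ 0 • (1 : Matrix ι ι C))
        rw [pow_zero, one_smul, one_mul, mul_one]
      | succ j ih =>
        show A j * Pmat A j * W = W * (π ^ (j + 1) • (Es j * Pmat Es j))
        rw [mul_assoc, ih, ← mul_assoc, hstep, mul_assoc]
        simp only [Matrix.smul_mul, Matrix.mul_smul, smul_smul, pow_succ]
    rw [charpolyRev_conj W _ _ hW (hP (n + 1)), coeff_charpolyRev_smul]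
  have hprod : (∏ u, (s u : C)) =
      ∏ u ∈ univ.filter (fun u => e u < m), ρ ^ ((p - 1) * (m - e u)) := by
    rw [Finset.prod_filter]
  have hϖ : ρ ^ ((p - 1) * m * (n + 1)) = π ^ (n + 1) := by rw [hπ, ← pow_mul]
  have hkey : (∏ u ∈ univ.filter (fun u => e u < m), ρ ^ ((p - 1) * (m - e u))) ^ (n + 1) *
      (Pmat A (n + 1)).charpolyRev.coeff k / (ρ ^ ((p - 1) * m * (n + 1))) ^ k =
      ((MO.det.coeff k : OO C) : C) := by
    rw [hconj, hϖ, ← hprod]
    have h1 := congrArg (fun q => Polynomial.coeff q k) hsub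
    simp only [Polynomial.coeff_map, Polynomial.coeff_C_mul] at h1
    have h2 : ((MO.det.coeff k : OO C) : C) =
        (∏ u, (s u : C)) ^ (n + 1) * (Pmat Es (n + 1)).charpolyRev.coeff k := h1
    rw [h2]
    have h3 : (π ^ (n + 1)) ^ k ≠ 0 := pow_ne_zero _ (pow_ne_zero _ hπ0)
    field_simp
  rw [hkey]
  refine ⟨norm_coe_le _, ?_⟩
  rw [rd_coe, ← hRR, Polynomial.coeff_map]

end REDETaux

open REDETaux in
theorem redet_thm (hCYC1 : ASur.StmtCYC1) : StmtREDET := by
  classical
  intro C _ _ ι _ _ e p h ρ A A' Cm Cm' hp hh hρ hρ1 hC hC' hA hA' hE m r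
  obtain ⟨n, rfl⟩ : ∃ n, h = n + 1 := ⟨h - 1, by omega⟩
  have h1 := one e p n m ρ A Cm hp hρ hρ1 hC hA hCYC1 r
  have h2 := one e p n m ρ A' Cm' hp hρ hρ1 hC' hA' hCYC1 r
  have hR : (Rpol e m n fun i => Matrix.of fun u v => rd (Cm i u.1 v.1)) =
      Rpol e m n fun i => Matrix.of fun u v => rd (Cm' i u.1 v.1) := by
    congr 1
    funext i
    ext1 u v
    exact (rd_eq_iff (hC i u.1 v.1) (hC' i u.1 v.1)).2 (hE i u.1 v.1)
  rw [← hR, ← h1.2] at h2
  set c : C := (∏ u ∈ univ.filter (fun u => e u < m), ρ ^ ((p - 1) * (m - e u))) ^ (n + 1)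
    with hc
  set w : C := ρ ^ ((p - 1) * m * (n + 1)) with hw
  set a := (Pmat A (n + 1)).charpolyRev.coeff r with ha
  set a' := (Pmat A' (n + 1)).charpolyRev.coeff r with ha'
  have hw0 : w ≠ 0 := pow_ne_zero _ hρ
  have hwr : ‖w ^ r‖ = (‖ρ‖ ^ ((p - 1) * (n + 1))) ^ (m * r) := by
    rw [hw, ← pow_mul, norm_pow, ← pow_mul]
    congr 1
    ring
  have hwp : 0 < ‖w ^ r‖ := norm_pos_iff.2 (pow_ne_zero _ hw0)
  have hcn : ‖c‖ = (‖ρ‖ ^ ((p - 1) * (n + 1))) ^ (∑ u, (m - e u)) := by
    rw [hc, norm_pow, norm_prod, ← Finset.prod_pow]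
    have e1 : ∀ u ∈ univ.filter (fun u => e u < m), ‖ρ ^ ((p - 1) * (m - e u))‖ ^ (n + 1) =
        (‖ρ‖ ^ ((p - 1) * (n + 1))) ^ (m - e u) := by
      intro u _
      rw [norm_pow, ← pow_mul, ← pow_mul]
      congr 1
      ring
    rw [Finset.prod_congr rfl e1, Finset.prod_pow_eq_pow_sum]
    congr 1
    rw [Finset.sum_filter]
    refine Finset.sum_congr rfl fun u _ => ?_
    split_ifs with h
    · rfl
    · omega
  constructor
  · have h3 := h1.1
    rw [norm_div, div_le_one hwp, norm_mul, hcn, hwr] at h3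
    rw [mul_comm]
    exact h3
  · have h3 := (rd_eq_iff h1.1 h2.1).1 h2.2.symm
    rw [← sub_div, ← mul_sub, norm_div, div_lt_one hwp, norm_mul, hcn, hwr] at h3
    rw [mul_comm]
    exact h3

end ASE
end

section
/-!
# MP_b685ef_ag, leading form principle, part (A): module EDGEH, the edge of `det (1 - X B)`
-/
set_option linter.all false

namespace ASE

open Finset ASur AST Matrix Polynomial

namespace EDGEHaux

open ASur.EDGEMAux AST.EDGELUAux REDETaux

section lu

variable {κ I : Type} [Field κ] [Fintype I] [DecidableEq I] (e : I → ℕ) (m : ℕ)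

theorem sumJ (f : {u : I // e u < m} → κ) (g : {u : I // e u ≤ m} → κ)
    (h1 : ∀ w : {u : I // e u < m}, f w = g ⟨w.1, w.2.le⟩)
    (h2 : ∀ w : {u : I // e u ≤ m}, ¬ e w.1 < m → g w = 0) :
    ∑ w, g w = ∑ w, f w := by
  refine (Fintype.sum_of_injective (fun w : {u : I // e u < m} =>
    (⟨w.1, w.2.le⟩ : {u : I // e u ≤ m})) ?_ f g ?_ h1).symm
  · intro a b h
    exact Subtype.ext (congrArg (fun x : {u : I // e u ≤ m} => x.1) h)
  · intro w hw
    exact h2 w fun h => hw ⟨⟨w.1, h⟩, rfl⟩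

/-- Lower unitriangular matrix. -/
def Lm (Y : Matrix {u : I // e u = m} {u : I // e u < m} κ) :
    Matrix {u : I // e u ≤ m} {u : I // e u ≤ m} κ :=
  Matrix.of fun u w => (if u = w then 1 else 0) -
    if h : e u.1 = m ∧ e w.1 < m then Y ⟨u.1, h.1⟩ ⟨w.1, h.2⟩ else 0

/-- Upper unitriangular matrix. -/
def Um (Y : Matrix {u : I // e u < m} {u : I // e u = m} κ) :
    Matrix {u : I // e u ≤ m} {u : I // e u ≤ m} κ :=
  Matrix.of fun u w => (if u = w then 1 else 0) -
    if h : e u.1 < m ∧ e w.1 = m then Y ⟨u.1, h.1⟩ ⟨w.1, h.2⟩ else 0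

theorem Lm_apply (Y : Matrix {u : I // e u = m} {u : I // e u < m} κ)
    (u w : {u : I // e u ≤ m}) : Lm e m Y u w = (if u = w then 1 else 0) -
    if h : e u.1 = m ∧ e w.1 < m then Y ⟨u.1, h.1⟩ ⟨w.1, h.2⟩ else 0 := rfl

theorem Um_apply (Y : Matrix {u : I // e u < m} {u : I // e u = m} κ)
    (u w : {u : I // e u ≤ m}) : Um e m Y u w = (if u = w then 1 else 0) -
    if h : e u.1 < m ∧ e w.1 = m then Y ⟨u.1, h.1⟩ ⟨w.1, h.2⟩ else 0 := rfl

theorem Lm_ne (Y : Matrix {u : I // e u = m} {u : I // e u < m} κ)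
    (u w : {u : I // e u ≤ m}) (h : Lm e m Y u w ≠ 0) : u = w ∨ e w.1 < e u.1 := by
  by_contra hc
  push Not at hc
  apply h
  rw [Lm_apply, if_neg hc.1, dif_neg, sub_zero]
  rintro ⟨h1, h2⟩
  omega

theorem Um_ne (Y : Matrix {u : I // e u < m} {u : I // e u = m} κ)
    (u w : {u : I // e u ≤ m}) (h : Um e m Y u w ≠ 0) : u = w ∨ e u.1 < e w.1 := by
  by_contra hc
  push Not at hc
  apply h
  rw [Um_apply, if_neg hc.1, dif_neg, sub_zero]
  rintro ⟨h1, h2⟩
  omega

theorem Lm_diag (Y : Matrix {u : I // e u = m} {u : I // e u < m} κ)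
    (u : {u : I // e u ≤ m}) : Lm e m Y u u = 1 := by
  rw [Lm_apply, if_pos rfl, dif_neg, sub_zero]
  rintro ⟨h1, h2⟩
  omega

theorem Um_diag (Y : Matrix {u : I // e u < m} {u : I // e u = m} κ)
    (u : {u : I // e u ≤ m}) : Um e m Y u u = 1 := by
  rw [Um_apply, if_pos rfl, dif_neg, sub_zero]
  rintro ⟨h1, h2⟩
  omega

theorem Lm_mul (Y : Matrix {u : I // e u = m} {u : I // e u < m} κ)
    (N : Matrix {u : I // e u ≤ m} {u : I // e u ≤ m} κ) (u v : {u : I // e u ≤ m}) :
    (Lm e m Y * N) u v = N u v - if h : e u.1 = m then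
      ∑ w : {u : I // e u < m}, Y ⟨u.1, h⟩ w * N ⟨w.1, w.2.le⟩ v else 0 := by
  rw [Matrix.mul_apply]
  have h1 : ∀ w, Lm e m Y u w * N w v = (if u = w then N w v else 0) -
      (if h : e u.1 = m ∧ e w.1 < m then Y ⟨u.1, h.1⟩ ⟨w.1, h.2⟩ else 0) * N w v := by
    intro w
    rw [Lm_apply, sub_mul]
    congr 1
    split_ifs
    · rw [one_mul]
    · rw [zero_mul]
  rw [Finset.sum_congr rfl fun w _ => h1 w, Finset.sum_sub_distrib, Finset.sum_ite_eq,
    if_pos (Finset.mem_univ _)]
  congr 1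
  by_cases hu : e u.1 = m
  · rw [dif_pos hu]
    refine sumJ e m _ _ ?_ ?_
    · intro w
      rw [dif_pos ⟨hu, w.2⟩]
    · intro w hw
      rw [dif_neg (fun h => hw h.2), zero_mul]
  · rw [dif_neg hu]
    refine Finset.sum_eq_zero fun w _ => ?_
    rw [dif_neg (fun h => hu h.1), zero_mul]

theorem mul_Um (Y : Matrix {u : I // e u < m} {u : I // e u = m} κ)
    (N : Matrix {u : I // e u ≤ m} {u : I // e u ≤ m} κ) (u v : {u : I // e u ≤ m}) :
    (N * Um e m Y) u v = N u v - if h : e v.1 = m then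
      ∑ w : {u : I // e u < m}, N u ⟨w.1, w.2.le⟩ * Y w ⟨v.1, h⟩ else 0 := by
  rw [Matrix.mul_apply]
  have h1 : ∀ w, N u w * Um e m Y w v = (if w = v then N u w else 0) -
      N u w * (if h : e w.1 < m ∧ e v.1 = m then Y ⟨w.1, h.1⟩ ⟨v.1, h.2⟩ else 0) := by
    intro w
    rw [Um_apply, mul_sub]
    congr 1
    split_ifs
    · rw [mul_one]
    · rw [mul_zero]
  rw [Finset.sum_congr rfl fun w _ => h1 w, Finset.sum_sub_distrib, Finset.sum_ite_eq',
    if_pos (Finset.mem_univ _)]
  congr 1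
  by_cases hv : e v.1 = m
  · rw [dif_pos hv]
    refine sumJ e m _ _ ?_ ?_
    · intro w
      rw [dif_pos ⟨w.2, hv⟩]
    · intro w hw
      rw [dif_neg (fun h => hw h.1), mul_zero]
  · rw [dif_neg hv]
    refine Finset.sum_eq_zero fun w _ => ?_
    rw [dif_neg (fun h => hv h.2), mul_zero]

/-- The block diagonal matrix. -/
def Nm (Z : Matrix I I κ) (S : Matrix {u : I // e u = m} {u : I // e u = m} κ) :
    Matrix {u : I // e u ≤ m} {u : I // e u ≤ m} κ :=
  Matrix.of fun u v => if h : e u.1 = m ∧ e v.1 = m then S ⟨u.1, h.1⟩ ⟨v.1, h.2⟩ else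
    if e u.1 < m ∧ e v.1 < m then Z u.1 v.1 else 0

theorem Nm_apply (Z : Matrix I I κ) (S : Matrix {u : I // e u = m} {u : I // e u = m} κ)
    (u v : {u : I // e u ≤ m}) : Nm e m Z S u v =
    if h : e u.1 = m ∧ e v.1 = m then S ⟨u.1, h.1⟩ ⟨v.1, h.2⟩ else
    if e u.1 < m ∧ e v.1 < m then Z u.1 v.1 else 0 := rfl

theorem LU (Z : Matrix I I κ) (Ti : Matrix {u : I // e u < m} {u : I // e u < m} κ)
    (h1 : (Matrix.of fun (u v : {u : I // e u < m}) => Z u.1 v.1) * Ti = 1)
    (h2 : Ti * (Matrix.of fun (u v : {u : I // e u < m}) => Z u.1 v.1) = 1) :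
    Lm e m ((Matrix.of fun (u : {u : I // e u = m}) (v : {u : I // e u < m}) => Z u.1 v.1) * Ti) *
      (Matrix.of fun (u v : {u : I // e u ≤ m}) => Z u.1 v.1) *
      Um e m (Ti * (Matrix.of fun (u : {u : I // e u < m}) (v : {u : I // e u = m}) =>
        Z u.1 v.1)) =
    Nm e m Z ((Matrix.of fun (u v : {u : I // e u = m}) => Z u.1 v.1) -
      (Matrix.of fun (u : {u : I // e u = m}) (v : {u : I // e u < m}) => Z u.1 v.1) * Ti *
      (Matrix.of fun (u : {u : I // e u < m}) (v : {u : I // e u = m}) => Z u.1 v.1)) := by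
  set T : Matrix {u : I // e u < m} {u : I // e u < m} κ := Matrix.of fun u v => Z u.1 v.1
    with hT
  set B : Matrix {u : I // e u < m} {u : I // e u = m} κ := Matrix.of fun u v => Z u.1 v.1
    with hB
  set Cc : Matrix {u : I // e u = m} {u : I // e u < m} κ := Matrix.of fun u v => Z u.1 v.1
    with hCc
  set D : Matrix {u : I // e u = m} {u : I // e u = m} κ := Matrix.of fun u v => Z u.1 v.1
    with hD
  set ZJ : Matrix {u : I // e u ≤ m} {u : I // e u ≤ m} κ := Matrix.of fun u v => Z u.1 v.1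
    with hZJ
  -- the rows
  have hN1 : ∀ u v : {u : I // e u ≤ m}, e u.1 < m → (Lm e m (Cc * Ti) * ZJ) u v = Z u.1 v.1 := by
    intro u v hu
    rw [Lm_mul, dif_neg (by omega), sub_zero]
    rfl
  have hN2 : ∀ (u v : {u : I // e u ≤ m}) (hu : e u.1 = m) (hv : e v.1 < m),
      (Lm e m (Cc * Ti) * ZJ) u v = 0 := by
    intro u v hu hv
    rw [Lm_mul, dif_pos hu]
    have h3 : ∑ w : {u : I // e u < m}, (Cc * Ti) ⟨u.1, hu⟩ w * ZJ ⟨w.1, w.2.le⟩ v =
        ((Cc * Ti) * T) ⟨u.1, hu⟩ ⟨v.1, hv⟩ := by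
      rw [Matrix.mul_apply]
      rfl
    rw [h3, Matrix.mul_assoc, h2, Matrix.mul_one]
    exact sub_self _
  have hN3 : ∀ (u v : {u : I // e u ≤ m}) (hu : e u.1 = m) (hv : e v.1 = m),
      (Lm e m (Cc * Ti) * ZJ) u v = (D - Cc * Ti * B) ⟨u.1, hu⟩ ⟨v.1, hv⟩ := by
    intro u v hu hv
    rw [Lm_mul, dif_pos hu]
    have h3 : ∑ w : {u : I // e u < m}, (Cc * Ti) ⟨u.1, hu⟩ w * ZJ ⟨w.1, w.2.le⟩ v =
        ((Cc * Ti) * B) ⟨u.1, hu⟩ ⟨v.1, hv⟩ := by
      rw [Matrix.mul_apply]
      rfl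
    rw [h3]
    rfl
  refine Matrix.ext fun u v => ?_
  rw [mul_Um, Nm_apply]
  rcases lt_or_eq_of_le u.2 with hu | hu
  · rcases lt_or_eq_of_le v.2 with hv | hv
    · have h4 : ¬ e v.1 = m := by omega
      have h5 : ¬ (e u.1 = m ∧ e v.1 = m) := by omega
      rw [hN1 u v hu, dif_neg h4, dif_neg h5, if_pos ⟨hu, hv⟩, sub_zero]
    · have h5 : ¬ (e u.1 = m ∧ e v.1 = m) := by omega
      have h6 : ¬ (e u.1 < m ∧ e v.1 < m) := by omega
      rw [hN1 u v hu, dif_pos hv, dif_neg h5, if_neg h6]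
      have h3 : ∑ w : {u : I // e u < m}, (Lm e m (Cc * Ti) * ZJ) u ⟨w.1, w.2.le⟩ *
          (Ti * B) w ⟨v.1, hv⟩ = (T * (Ti * B)) ⟨u.1, hu⟩ ⟨v.1, hv⟩ := by
        rw [Matrix.mul_apply]
        refine Finset.sum_congr rfl fun w _ => ?_
        rw [hN1 u _ hu]
        rfl
      rw [h3, ← Matrix.mul_assoc, h1, Matrix.one_mul]
      exact sub_self _
  · rcases lt_or_eq_of_le v.2 with hv | hv
    · have h4 : ¬ e v.1 = m := by omega
      have h5 : ¬ (e u.1 = m ∧ e v.1 = m) := by omega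
      have h6 : ¬ (e u.1 < m ∧ e v.1 < m) := by omega
      rw [hN2 u v hu hv, dif_neg h4, dif_neg h5, if_neg h6, sub_zero]
    · rw [hN3 u v hu hv, dif_pos hv, dif_pos ⟨hu, hv⟩, Finset.sum_eq_zero, sub_zero]
      intro w _
      rw [hN2 u _ hu w.2, zero_mul]

theorem charpolyRev_sub {R J J' : Type} [CommRing R] [Fintype J] [DecidableEq J] [Fintype J']
    [DecidableEq J'] (f : J' ≃ J) (M : Matrix J J R) :
    (M.submatrix f f).charpolyRev = M.charpolyRev := by
  unfold Matrix.charpolyRev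
  rw [← Matrix.det_submatrix_equiv_self f (1 - (X : R[X]) • M.map C)]
  congr 1
  refine Matrix.ext fun u v => ?_
  simp [Matrix.one_apply]

theorem Pmat_sub {R J J' : Type} [CommRing R] [Fintype J] [DecidableEq J] [Fintype J']
    [DecidableEq J'] (f : J' ≃ J) (M : ℕ → Matrix J J R) (n : ℕ) :
    Pmat (fun i => (M i).submatrix f f) n = (Pmat M n).submatrix f f := by
  induction n with
  | zero => exact (Matrix.submatrix_one_equiv f).symm
  | succ n ih =>
    show (M n).submatrix f f * Pmat (fun i => (M i).submatrix f f) n =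
      (M n * Pmat M n).submatrix f f
    rw [ih, Matrix.submatrix_mul_equiv]

theorem Pmat_congr {R J : Type} [CommRing R] [Fintype J] [DecidableEq J]
    (M N : ℕ → Matrix J J R) (n : ℕ) (h : ∀ i, i < n → M i = N i) : Pmat M n = Pmat N n := by
  induction n with
  | zero => rfl
  | succ n ih =>
    show M n * Pmat M n = N n * Pmat N n
    rw [ih fun i hi => h i (by omega), h n (by omega)]

/-- The reduction of the characteristic polynomial from the block `LU` decomposition. -/
theorem bar (hCYC1 : StmtCYC1) (hCYC3 : StmtCYC3) (n : ℕ) (Z : ℕ → Matrix I I κ)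
    (Ti : ℕ → Matrix {u : I // e u < m} {u : I // e u < m} κ)
    (h1 : ∀ i, i < n + 1 →
      (Matrix.of fun (u v : {u : I // e u < m}) => Z i u.1 v.1) * Ti i = 1)
    (h2 : ∀ i, i < n + 1 →
      Ti i * (Matrix.of fun (u v : {u : I // e u < m}) => Z i u.1 v.1) = 1) :
    ∃ c : κ, c ≠ 0 ∧ Rpol e m n (fun i => Matrix.of fun u v => Z i u.1 v.1) =
      C c * (X ^ Fintype.card {u // e u < m} *
        (Pmat (fun i => (Matrix.of fun (u v : {u : I // e u = m}) => Z i u.1 v.1) -
          (Matrix.of fun (u : {u : I // e u = m}) (v : {u : I // e u < m}) => Z i u.1 v.1) *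
            Ti i *
          (Matrix.of fun (u : {u : I // e u < m}) (v : {u : I // e u = m}) => Z i u.1 v.1))
        (n + 1)).charpolyRev) := by
  classical
  set Sh : ℕ → Matrix {u : I // e u = m} {u : I // e u = m} κ := fun i =>
    (Matrix.of fun (u v : {u : I // e u = m}) => Z i u.1 v.1) -
      (Matrix.of fun (u : {u : I // e u = m}) (v : {u : I // e u < m}) => Z i u.1 v.1) *
        Ti i *
      (Matrix.of fun (u : {u : I // e u < m}) (v : {u : I // e u = m}) => Z i u.1 v.1) with hSh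
  set eJ : {u // e u ≤ m} → ℕ := fun u => e u.1 with heJ
  have heJm : ∀ u : {u // e u ≤ m}, eJ u ≤ m := fun u => u.2
  set ZJ : ℕ → Matrix {u : I // e u ≤ m} {u : I // e u ≤ m} κ := fun i =>
    Matrix.of fun u v => Z i u.1 v.1 with hZJ
  set La : ℕ → Matrix {u : I // e u ≤ m} {u : I // e u ≤ m} κ := fun i =>
    Lm e m ((Matrix.of fun (u : {u : I // e u = m}) (v : {u : I // e u < m}) => Z i u.1 v.1) *
      Ti i) with hLa
  set Ua : ℕ → Matrix {u : I // e u ≤ m} {u : I // e u ≤ m} κ := fun i =>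
    Um e m (Ti i * (Matrix.of fun (u : {u : I // e u < m}) (v : {u : I // e u = m}) =>
      Z i u.1 v.1)) with hUa
  set Na : ℕ → Matrix {u : I // e u ≤ m} {u : I // e u ≤ m} κ := fun i =>
    Nm e m (Z i) (Sh i) with hNa
  have hfac : ∀ i, i < n + 1 → La i * ZJ i * Ua i = Na i := fun i hi =>
    LU e m (Z i) (Ti i) (h1 i hi) (h2 i hi)
  have hLd : ∀ i u, La i u u = 1 := fun i u => Lm_diag e m _ u
  have hUd : ∀ i u, Ua i u u = 1 := fun i u => Um_diag e m _ u
  have hsand : bd (n + 1) (fun k : Fin (n + 1) => (La ((k.1 + n) % (n + 1))).map (C : κ →+* κ[X])) *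
      cyc (n + 1) (Sb eJ m κ[X]) (Eb ZJ) *
      bd (n + 1) (fun k : Fin (n + 1) => (Ua k.1).map (C : κ →+* κ[X])) =
      cyc (n + 1) (Sb eJ m κ[X]) (fun j => if j < n + 1 then Eb Na j else 0) := by
    refine sandwich (n + 1) _ _ _ _ _ _ ?_ ?_
    · intro i
      refine Matrix.ext fun u v => ?_
      rw [Matrix.mul_apply, Finset.sum_eq_single u]
      · rw [Sb, Matrix.mul_diagonal, Matrix.map_apply, Matrix.map_apply, hLd, map_one,
          one_mul]
        by_cases huv : u = v
        · rw [← huv, hUd, map_one, mul_one, Matrix.diagonal_apply_eq]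
        · rw [Matrix.diagonal_apply_ne _ huv]
          by_cases hu : eJ u < m
          · rw [if_pos hu, zero_mul]
          · have h3 : Ua i.1 u v = 0 := by
              by_contra hne
              rcases Um_ne e m _ _ _ hne with h2 | h2
              · exact huv h2
              · have := heJm v
                have : eJ v = e v.1 := rfl
                have : eJ u = e u.1 := rfl
                omega
            rw [h3, map_zero, mul_zero]
      · intro w _ hw
        rw [Sb, Matrix.mul_diagonal, Matrix.map_apply]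
        by_cases hwm : eJ w < m
        · rw [if_pos hwm, mul_zero, zero_mul]
        · have h3 : La ((i.1 + n) % (n + 1)) u w = 0 := by
            by_contra hne
            rcases Lm_ne e m _ _ _ hne with h2 | h2
            · exact hw h2.symm
            · have := heJm u
              have : eJ w = e w.1 := rfl
              have : eJ u = e u.1 := rfl
              omega
          rw [h3, map_zero, zero_mul, zero_mul]
      · intro h
        exact absurd (Finset.mem_univ u) h
    · intro i j hij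
      have hj : (i.1 + n) % (n + 1) = j.1 := by
        rw [hij, Nat.mod_add_mod, add_assoc, add_comm 1 n, Nat.add_mod_right,
          Nat.mod_eq_of_lt j.2]
      simp only [hj]
      rw [if_pos j.2, Eb_eq, Eb_eq, ← hfac j.1 j.2, Matrix.mul_smul, Matrix.smul_mul]
      congr 1
      rw [← RingHom.mapMatrix_apply, ← RingHom.mapMatrix_apply, ← RingHom.mapMatrix_apply,
        ← RingHom.mapMatrix_apply, map_mul, map_mul]
  have hcyc : cyc (n + 1) (Sb eJ m κ[X]) (fun j => if j < n + 1 then Eb Na j else 0) =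
      cyc (n + 1) (Sb eJ m κ[X]) (Eb Na) := by
    refine Matrix.ext fun x y => ?_
    rw [cyc_apply, cyc_apply, if_pos y.1.2]
  have hP : (bd (n + 1) (fun k : Fin (n + 1) =>
      (La ((k.1 + n) % (n + 1))).map (C : κ →+* κ[X]))).det = 1 := by
    refine det_uni (fun x => eJ x.2) _ ?_ ?_
    · intro x y hxy
      rw [bd_apply] at hxy
      by_cases h1 : x.1 = y.1
      · rw [if_pos h1, Matrix.map_apply] at hxy
        have h2 : La ((x.1.1 + n) % (n + 1)) x.2 y.2 ≠ 0 := fun h => hxy (by rw [h, map_zero])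
        rcases Lm_ne e m _ _ _ h2 with h3 | h3
        · exact Or.inl (Prod.ext h1 h3)
        · exact Or.inr h3
      · rw [if_neg h1] at hxy
        exact absurd rfl hxy
    · intro x
      rw [bd_apply, if_pos rfl, Matrix.map_apply, hLd, map_one]
  have hQ : (bd (n + 1) (fun k : Fin (n + 1) => (Ua k.1).map (C : κ →+* κ[X]))).det = 1 := by
    refine det_uni' (fun x => eJ x.2) _ ?_ ?_
    · intro x y hxy
      rw [bd_apply] at hxy
      by_cases h1 : x.1 = y.1
      · rw [if_pos h1, Matrix.map_apply] at hxy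
        have h2 : Ua x.1.1 x.2 y.2 ≠ 0 := fun h => hxy (by rw [h, map_zero])
        rcases Um_ne e m _ _ _ h2 with h3 | h3
        · exact Or.inl (Prod.ext h1 h3)
        · exact Or.inr h3
      · rw [if_neg h1] at hxy
        exact absurd rfl hxy
    · intro x
      rw [bd_apply, if_pos rfl, Matrix.map_apply, hUd, map_one]
  have hdet := congrArg Matrix.det hsand
  rw [Matrix.det_mul, Matrix.det_mul, hP, hQ, one_mul, mul_one, hcyc] at hdet
  have hR : Rpol e m n (fun i => Matrix.of fun u v => Z i u.1 v.1) =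
      (cyc (n + 1) (Sb eJ m κ[X]) (Eb ZJ)).det := rfl
  rw [hR, hdet]
  -- the levels `< m` are one level
  set e' : {u // e u ≤ m} → ℕ := fun u => if e u.1 < m then 0 else 1 with he'
  have he0 : ∀ u : {u // e u ≤ m}, e' u < 1 ↔ e u.1 < m := by
    intro u
    show (if e u.1 < m then 0 else 1) < 1 ↔ _
    split_ifs with h <;> simp [h]
  have he1 : ∀ u : {u // e u ≤ m}, e' u = 1 ↔ e u.1 = m := by
    intro u
    have := u.2
    show (if e u.1 < m then 0 else 1) = 1 ↔ _
    split_ifs with h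
    · simp only [zero_ne_one, false_iff]; omega
    · simp only [true_iff]; omega
  have hSb : Sb eJ m κ[X] = Sb e' 1 κ[X] := by
    unfold Sb
    congr 1
    funext u
    by_cases h : e u.1 < m
    · rw [if_pos h, if_pos ((he0 u).2 h)]
    · rw [if_neg h, if_neg (fun h' => h ((he0 u).1 h'))]
  rw [hSb]
  obtain ⟨c, hc, hbar⟩ := edge_bar hCYC1 hCYC3 e' 1 n Na
    (fun i _ u v hu => by
      exfalso
      have h5 : (if e u.1 < m then 0 else 1) > 1 := hu
      split_ifs at h5 <;> omega)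
    (fun i _ u v _ _ huv => by
      show Nm e m (Z i) (Sh i) u v = 0
      rw [Nm_apply, dif_neg, if_neg]
      · rintro ⟨h3, h4⟩
        have h5 := (he0 u).2 h3
        have h6 := (he0 v).2 h4
        omega
      · rintro ⟨h3, h4⟩
        have h5 := (he1 u).2 h3
        have h6 := (he1 v).2 h4
        omega)
  rw [hbar]
  let e2 : {u : {u // e u ≤ m} // e' u < 1} ≃ {u // e u < m} :=
    ⟨fun u => ⟨u.1.1, (he0 u.1).1 u.2⟩, fun u => ⟨⟨u.1, u.2.le⟩, (he0 _).2 u.2⟩,
      fun u => rfl, fun u => rfl⟩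
  let e3 : {u : {u // e u ≤ m} // e' u = 1} ≃ {u // e u = m} :=
    ⟨fun u => ⟨u.1.1, (he1 u.1).1 u.2⟩, fun u => ⟨⟨u.1, u.2.le⟩, (he1 _).2 u.2⟩,
      fun u => rfl, fun u => rfl⟩
  have hr1 : ∀ i, rs (fun u => e' u < 1) (Na i) =
      (Matrix.of fun (u v : {u : I // e u < m}) => Z i u.1 v.1).submatrix e2 e2 := by
    intro i
    refine Matrix.ext fun u v => ?_
    show Nm e m (Z i) (Sh i) u.1 v.1 = Z i u.1.1 v.1.1
    have h3 := (he0 u.1).1 u.2
    have h4 := (he0 v.1).1 v.2
    rw [Nm_apply, dif_neg (by omega), if_pos ⟨h3, h4⟩]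
  have hr2 : (fun i => rs (fun u => e' u = 1) (Na i)) = fun i => (Sh i).submatrix e3 e3 := by
    funext i
    refine Matrix.ext fun u v => ?_
    show Nm e m (Z i) (Sh i) u.1 v.1 = Sh i (e3 u) (e3 v)
    have h3 := (he1 u.1).1 u.2
    have h4 := (he1 v.1).1 v.2
    rw [Nm_apply, dif_pos ⟨h3, h4⟩]
    rfl
  have hD0 : ∏ i ∈ Finset.range (n + 1), (rs (fun u => e' u < 1) (Na i)).det ≠ 0 := by
    rw [Finset.prod_ne_zero_iff]
    intro i hi
    rw [hr1, Matrix.det_submatrix_equiv_self]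
    intro h0
    have h3 := congrArg Matrix.det (h1 i (Finset.mem_range.1 hi))
    rw [Matrix.det_mul, Matrix.det_one, h0, zero_mul] at h3
    exact zero_ne_one h3
  refine ⟨_, mul_ne_zero hc hD0, ?_⟩
  rw [mul_assoc (C _), hr2, Pmat_sub e3 Sh, charpolyRev_sub]
  congr 2
  rw [Fintype.card_congr e2]

end lu

theorem det_inst {I k : Type} [CommRing k] {f1 f2 : Fintype I} {d1 d2 : DecidableEq I}
    (M : Matrix I I k) : @Matrix.det I d1 f1 k _ M = @Matrix.det I d2 f2 k _ M := by
  obtain rfl := Subsingleton.elim f1 f2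
  obtain rfl := Subsingleton.elim d1 d2
  rfl

theorem sch_inst {I J k : Type} [Field k] {f1 f2 : Fintype I} {d1 d2 : DecidableEq I}
    (A : Matrix J J k) (B : Matrix J I k) (Z : Matrix I I k) (D : Matrix I J k) :
    (letI := f1; letI := d1; A - B * Z⁻¹ * D) = (letI := f2; letI := d2; A - B * Z⁻¹ * D) := by
  obtain rfl := Subsingleton.elim f1 f2
  obtain rfl := Subsingleton.elim d1 d2
  rfl

end EDGEHaux

open EDGEHaux REDETaux in
theorem edgeh_thm (hCYC1 : ASur.StmtCYC1) (hCYC3 : ASur.StmtCYC3) : StmtEDGEH := by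
  classical
  intro C _ _ ι _ _ e p h m ρ A Cm hp hh hρ hρ1 hC hA hdet m0
  obtain ⟨n, rfl⟩ : ∃ n, h = n + 1 := ⟨h - 1, by omega⟩
  set Z : ℕ → Matrix ι ι (KK C) := fun i => Matrix.of fun u v => rd (Cm i u v) with hZ
  set Ti : ℕ → Matrix {u : ι // e u < m} {u : ι // e u < m} (KK C) := fun i =>
    (Matrix.of fun (u v : {u : ι // e u < m}) => Z i u.1 v.1)⁻¹ with hTi
  have hunit : ∀ i, i < n + 1 →
      IsUnit (Matrix.of fun (u v : {u : ι // e u < m}) => Z i u.1 v.1).det := by
    intro i hi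
    rw [isUnit_iff_ne_zero]
    have h1 := hdet i hi
    unfold blkM at h1
    intro h0
    exact h1 ((det_inst _).trans h0)
  obtain ⟨c0, hc0, hbar⟩ := bar e m hCYC1 hCYC3 n Z Ti
    (fun i hi => Matrix.mul_nonsing_inv _ (hunit i hi))
    (fun i hi => Matrix.nonsing_inv_mul _ (hunit i hi))
  have hsch : (fun i => (Matrix.of fun (u v : {u : ι // e u = m}) => Z i u.1 v.1) -
      (Matrix.of fun (u : {u : ι // e u = m}) (v : {u : ι // e u < m}) => Z i u.1 v.1) * Ti i *
      (Matrix.of fun (u : {u : ι // e u < m}) (v : {u : ι // e u = m}) => Z i u.1 v.1)) =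
      fun i => schM e m (fun u v => rd (Cm i u v)) := by
    funext i
    unfold schM
    simp only [hTi]
    exact sch_inst _ _ _ _
  rw [hsch] at hbar
  -- normalisation
  obtain ⟨γ, hγ⟩ := IsLocalRing.residue_surjective (R := OO C) c0⁻¹
  have hγ' : rd (γ : C) = c0⁻¹ := by rw [rd_coe]; exact hγ
  have hγ0 : (γ : C) ≠ 0 := by
    intro h0
    have h1 : γ = 0 := Subtype.ext h0
    rw [h1, map_zero] at hγ
    exact inv_ne_zero hc0 hγ.symm
  set s : C := (∏ u ∈ univ.filter (fun u => e u < m), ρ ^ ((p - 1) * (m - e u))) ^ (n + 1)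
    with hs
  have hs0 : s ≠ 0 := by
    rw [hs]
    refine pow_ne_zero _ (Finset.prod_ne_zero_iff.2 fun u _ => pow_ne_zero _ hρ)
  have hs1 : ‖s‖ ≤ 1 := by
    rw [hs, norm_pow, norm_prod]
    refine pow_le_one₀ (Finset.prod_nonneg fun _ _ => norm_nonneg _)
      (Finset.prod_le_one (fun _ _ => norm_nonneg _) fun u _ => ?_)
    rw [norm_pow]
    exact pow_le_one₀ (norm_nonneg _) hρ1.le
  refine ⟨(γ : C) * s, mul_ne_zero hγ0 hs0, ?_, ?_⟩
  · rw [norm_mul]
    exact mul_le_one₀ (norm_coe_le _) (norm_nonneg _) hs1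
  · intro k _
    have h1 := one e p n m ρ A Cm hp hρ hρ1 hC hA hCYC1 k
    have h2 : (γ : C) * s * PowerSeries.coeff k ((Pmat A (n + 1)).charpolyRev : PowerSeries C) /
        (ρ ^ ((p - 1) * m * (n + 1))) ^ k = (γ : C) * (s *
        (Pmat A (n + 1)).charpolyRev.coeff k / (ρ ^ ((p - 1) * m * (n + 1))) ^ k) := by
      rw [Polynomial.coeff_coe]
      ring
    rw [h2]
    refine ⟨?_, ?_⟩
    · rw [norm_mul]
      exact mul_le_one₀ (norm_coe_le _) (norm_nonneg _) h1.1
    · rw [rd_mul (norm_coe_le _) h1.1, h1.2, hγ']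
      have h3 : (Rpol e m n fun i => Matrix.of fun u v => rd (Cm i u.1 v.1)) =
          Rpol e m n (fun i => Matrix.of fun u v => Z i u.1 v.1) := rfl
      rw [h3, hbar, Polynomial.coeff_C_mul, ← mul_assoc, inv_mul_cancel₀ hc0, one_mul]

end ASE
end

section
/-!
# MP_b685ef_ag, theorem LFP, part (A): the criterion for ordinarity (EQUIVH)
-/
set_option linter.all false

namespace ASE

open Finset ASur AST

namespace EQUIVHaux

/-- a small number -/
theorem exists_eps (N : ℕ) (b c : ℕ → ℝ) (hb : ∀ m, 0 < b m) (hc : ∀ m, 0 < c m) :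
    ∃ ε : ℝ, 0 < ε ∧ ∀ m, m ≤ N → ε * b m < c m := by
  induction N with
  | zero =>
    refine ⟨c 0 / (2 * b 0), div_pos (hc 0) (mul_pos two_pos (hb 0)), ?_⟩
    intro m hm
    have hm0 : m = 0 := by omega
    subst hm0
    have h1 := hb 0
    have h2 := hc 0
    rw [div_mul_eq_mul_div, div_lt_iff₀ (by positivity)]
    nlinarith
  | succ N ih =>
    obtain ⟨ε, h1, h2⟩ := ih
    refine ⟨min ε (c (N + 1) / (2 * b (N + 1))), lt_min h1
      (div_pos (hc _) (mul_pos two_pos (hb _))), ?_⟩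
    intro m hm
    rcases Nat.lt_or_ge N m with h3 | h3
    · have hm1 : m = N + 1 := by omega
      subst hm1
      have h4 := hb (N + 1)
      have h5 := hc (N + 1)
      have h6 : min ε (c (N + 1) / (2 * b (N + 1))) ≤ c (N + 1) / (2 * b (N + 1)) := min_le_right _ _
      have h7 : c (N + 1) / (2 * b (N + 1)) * b (N + 1) < c (N + 1) := by
        rw [div_mul_eq_mul_div, div_lt_iff₀ (by positivity)]
        nlinarith
      exact (mul_le_mul_of_nonneg_right h6 h4.le).trans_lt h7
    · exact (mul_le_mul_of_nonneg_right (min_le_left _ _) (hb m).le).trans_lt (h2 m h3)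

/-- a common bound for the norms -/
theorem exists_bound {C : Type} [NormedField C] (μ : Multiset C) :
    ∃ r : ℝ, 1 ≤ r ∧ ∀ x ∈ μ, ‖x‖ ≤ r := by
  induction μ using Multiset.induction_on with
  | empty => exact ⟨1, le_rfl, by simp⟩
  | cons a μ ih =>
    obtain ⟨r, h1, h2⟩ := ih
    refine ⟨max r ‖a‖, h1.trans (le_max_left _ _), ?_⟩
    intro x hx
    rcases Multiset.mem_cons.1 hx with h | h
    · rw [h]
      exact le_max_right _ _
    · exact (h2 x h).trans (le_max_left _ _)

theorem ss_mono (W : ℕ → ℕ) {a b : ℕ} (h : a ≤ b) : ss W a ≤ ss W b := by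
  unfold ss
  calc ∑ j ∈ range a, (a - j) * W j ≤ ∑ j ∈ range a, (b - j) * W j :=
        Finset.sum_le_sum fun j _ => Nat.mul_le_mul_right _ (Nat.sub_le_sub_right h j)
    _ ≤ ∑ j ∈ range b, (b - j) * W j :=
        Finset.sum_le_sum_of_subset (Finset.range_mono h)

theorem cc_big {C : Type} [NormedField C] (γ : Multiset C) (hγ : ∀ x ∈ γ, ‖x‖ ≤ 1) (r : ℝ)
    (hr : 1 < r) : cc γ r = 0 := by
  classical
  unfold cc
  rw [Multiset.countP_eq_zero]
  intro x hx hx1
  have := hγ x hx
  rw [hx1] at this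
  linarith

theorem lset_empty {n : ℕ} (K : (Fin n → ℤ) → Prop) (e : (Fin n → ℤ) → ℕ) :
    lset K e (fun j => j < 0) = ∅ := by
  have hf : {u : Fin n → ℤ | K u ∧ e u < 0} = ∅ := by
    ext u
    simp
  unfold lset
  have hf' : {u : Fin n → ℤ | K u ∧ e u < 0}.Finite := by
    rw [hf]
    exact Set.finite_empty
  rw [dif_pos hf']
  rw [Finset.eq_empty_iff_forall_notMem]
  intro u hu
  rw [Set.Finite.mem_toFinset, hf] at hu
  exact hu

theorem dH_zero {n : ℕ} {k : Type} [Field k] (p D : ℕ) (K : (Fin n → ℤ) → Prop)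
    (e : (Fin n → ℤ) → ℕ) (E : ℕ → ℚ) (f : (Fin n → ℤ) →₀ k) : dH p D K e E f 0 ≠ 0 := by
  classical
  unfold dH
  haveI : IsEmpty (lset K e (fun j => j < 0)) := by
    refine ⟨fun u => ?_⟩
    obtain ⟨u, hu⟩ := u
    rw [lset_empty K e] at hu
    exact Finset.notMem_empty _ hu
  rw [Matrix.det_isEmpty]
  exact one_ne_zero

end EQUIVHaux

open EQUIVHaux

theorem equivh_thm (hPAIRH : StmtPAIRH) (hNPB : StmtNPB) (hFORM : StmtFORM) (hORDI : StmtORDI)
    (hHHE : StmtHHE) (hZETA : ASur.StmtZETA) (hEXT : ASur.StmtEXT) : StmtEQUIVH := by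
  intro p hpF D hD C _ _ _ _ hpC j hj E hE k _ _ _ ι n K e hW f hf ψ hψ A B hAB M
  have hp2 : 2 ≤ p := hpF.out.two_le
  obtain ⟨h, hh'⟩ : ∃ h, h = Module.finrank (ZMod p) k := ⟨_, rfl⟩
  have hh1 : 1 ≤ h := hh' ▸ Module.finrank_pos
  have hprim := prim_of_char ψ hψ
  obtain ⟨hz0, hz1, hz2, -⟩ := hZETA p C hpC (ψ 1) hprim
  obtain ⟨ρ, hρ⟩ := IsAlgClosed.exists_pow_nat_eq (ψ 1 - 1) hD
  have hρ0 : ρ ≠ 0 := by
    rintro rfl
    rw [zero_pow (by omega)] at hρ
    exact hz0 hρ.symm
  have hρ1 : ‖ρ‖ < 1 := by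
    by_contra hc
    have : 1 ≤ ‖ρ‖ ^ D := one_le_pow₀ (not_lt.1 hc)
    rw [← norm_pow, hρ] at this
    linarith
  have hρp : 0 < ‖ρ‖ := norm_pos_iff.2 hρ0
  have hcard : Fintype.card k = p ^ h := by
    rw [Module.card_eq_pow_finrank (K := ZMod p), ZMod.card, hh']
  obtain ⟨q, hq⟩ : ∃ q : C, q = (Fintype.card k : C) := ⟨_, rfl⟩
  obtain ⟨t, ht⟩ : ∃ t : ℝ, t = ‖ρ‖ ^ ((p - 1) * h) := ⟨_, rfl⟩
  have ht0 : 0 < t := ht ▸ pow_pos hρp _
  have ht1 : t < 1 := by
    rw [ht]
    refine pow_lt_one₀ hρp.le hρ1 ?_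
    have : 0 < (p - 1) * h := Nat.mul_pos (by omega) (by omega)
    omega
  have htD : t ^ D = ‖q‖ := by
    rw [hq, hcard, ht]
    push_cast
    rw [norm_pow, ← hz2, ← hρ, norm_pow, ← pow_mul, ← pow_mul, ← pow_mul]
    congr 1
    ring
  have hq0 : q ≠ 0 := by
    rw [← norm_pos_iff, ← htD]
    exact pow_pos ht0 _
  have hq1 : ‖q‖ ≤ 1 := by
    rw [← htD]
    exact pow_le_one₀ ht0.le ht1.le
  have hwn : ∀ m, ‖ρ ^ ((p - 1) * m * h)‖ = t ^ m := by
    intro m
    rw [norm_pow, ht, ← pow_mul]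
    congr 1
    ring
  -- the constants
  obtain ⟨r, hr1, hr⟩ := exists_bound (A + B)
  obtain ⟨m0, hm0⟩ : ∃ m0, m0 = Multiset.card A + Multiset.card B +
      2 ^ n * ss (hh K e) (M + 1) := ⟨_, rfl⟩
  obtain ⟨ε, hε, hεm⟩ := exists_eps m0 (fun m => r ^ m)
    (fun m => (t ^ M) ^ m * ‖(m.factorial : C)‖) (fun m => pow_pos (by linarith) m)
    (fun m => mul_pos (pow_pos (pow_pos ht0 _) _)
      (norm_pos_iff.2 (Nat.cast_ne_zero.2 m.factorial_ne_zero)))
  obtain ⟨γ, hAb, hlev, hsum⟩ := hPAIRH p D hD C hpC j hj E hE k ι n K e hW f hf ψ hψ ρ hρ ε hε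
    (M + 1)
  rw [← hh'] at hAb hlev
  rw [← ht] at hAb
  obtain ⟨hγ1, hγ2, -⟩ := hNPB C γ t (hh K e) (M + 1) ht0 ht1 hAb
  -- the formula
  have hform : ∀ m, m ≤ M → (cc A (t ^ m) : ℤ) - cc B (t ^ m) = (-1) ^ n *
      ∑ s ∈ range (n + 1), (-1) ^ s * (n.choose s : ℤ) * (cc γ (t ^ m / (t ^ D) ^ s) : ℤ) := by
    intro m hm
    have h1 := (hFORM C Unit (fun _ => n) (fun _ => (-1) ^ n) q (ρ ^ ((p - 1) * m * h)) r ε m0 A B
      (fun _ => γ) hq0 hq1 (pow_ne_zero _ hρ0) hr1 hε.le
      (fun x hx => hr x (Multiset.mem_add.2 (Or.inl hx)))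
      (fun x hx => hr x (Multiset.mem_add.2 (Or.inr hx))) (fun _ => hγ1) (by
        have h2 : ge γ (t ^ m) ≤ ss (hh K e) (M + 1) :=
          (hγ2 m (by omega)).trans (ss_mono _ (by omega))
        have h3 : ((-1 : ℤ) ^ n).natAbs = 1 := by
          rw [Int.natAbs_pow]
          simp
        rw [hwn m, hm0]
        simp only [Finset.univ_unique, Finset.sum_singleton]
        rw [h3, one_mul]
        have := Nat.mul_le_mul_left (2 ^ n) h2
        omega) (by
        intro m' hm'
        rw [hwn m]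
        refine (hεm m' hm').trans_le ?_
        refine mul_le_mul_of_nonneg_right ?_ (norm_nonneg _)
        exact pow_le_pow_left₀ (pow_nonneg ht0.le _) (pow_le_pow_of_le_one ht0.le ht1.le hm) _) (by
        intro j' hj'
        obtain ⟨E', i1, i2, i3, i4, hfin⟩ := hEXT p k j' hj'
        have h2 := hsum E'
        rw [← hAB E', hfin, ← hq] at h2
        simp only [Finset.univ_unique, Finset.sum_singleton]
        have h3 : (((-1 : ℤ) ^ n : ℤ) : C) * ((1 - q ^ j') ^ n * ps γ j') =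
            (q ^ j' - 1) ^ n * ps γ j' := by
          push_cast
          rw [← mul_assoc, ← mul_pow]
          congr 2
          ring
        rw [h3]
        exact h2)).2
    rw [hwn m, ← htD] at h1
    simpa using h1
  have hroot : ∀ m (r' : ℝ), 0 ≤ r' → (r' ^ D = ‖(Fintype.card k : C)‖ ^ m ↔ r' = t ^ m) := by
    intro m r' hr'
    rw [← hq, ← htD, ← pow_mul, mul_comm D m, pow_mul]
    exact pow_left_inj₀ hr' (pow_nonneg ht0.le _) (by omega)
  constructor
  · intro hH
    have hcc : ∀ m, m ≤ M → cc γ (t ^ m) = hh K e m := by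
      refine hORDI C γ t D n M (hh K e) ht0 ht1 hD hγ1 ?_
      intro m hm
      have h1 := hH m hm (t ^ m) (pow_nonneg ht0.le _)
        ((hroot m (t ^ m) (pow_nonneg ht0.le _)).2 rfl)
      rw [hform m hm, hHHE n D K e m] at h1
      have h2 : ((-1 : ℤ)) ^ n ≠ 0 := pow_ne_zero _ (by norm_num)
      exact mul_left_cancel₀ h2 h1
    intro m
    induction m with
    | zero =>
      intro _
      exact dH_zero p D K e E f
    | succ m ih =>
      intro hm
      have h1 := ih (by omega)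
      obtain ⟨_, h2, _⟩ := hlev m (by omega) h1
      refine h2.2 ?_
      rw [hwn m]
      exact hcc m (by omega)
  · intro hdH m hm r' hr' hr'D
    rw [(hroot m r' hr').1 hr'D, hform m hm, hHHE n D K e m]
    congr 1
    refine Finset.sum_congr rfl fun s _ => ?_
    congr 1
    by_cases hs : D * s ≤ m
    · rw [if_pos hs]
      have h1 : t ^ m / (t ^ D) ^ s = t ^ (m - D * s) := by
        rw [← pow_mul, pow_sub₀ t ht0.ne' hs, div_eq_mul_inv]
      have h2 := ((hlev (m - D * s) (by omega) (hdH _ (by omega))).2.1).1 (hdH _ (by omega))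
      rw [hwn] at h2
      rw [h1, h2]
    · rw [if_neg hs]
      have h1 : 1 < t ^ m / (t ^ D) ^ s := by
        rw [← pow_mul, lt_div_iff₀ (pow_pos ht0 _), one_mul]
        exact pow_lt_pow_right_of_lt_one₀ ht0 ht1 (by omega)
      rw [cc_big γ hγ1 _ h1]
      rfl

end ASE
end

section
/-!
# MP_b685ef_ag, theorem LFP, module ESYM: the largest elements of a multiset and the coefficients
of `∏ (1 - x X)`
-/
set_option linter.all false

namespace ASE

open Finset ASur AST

namespace ESYMaux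

variable {C : Type} [NormedField C] [IsUltrametricDist C]

theorem sub_le_max (a b : C) : ‖a - b‖ ≤ max ‖a‖ ‖b‖ := by
  have h := IsUltrametricDist.norm_add_le_max a (-b)
  rwa [norm_neg, ← sub_eq_add_neg] at h

theorem sc_le {a b : C} {c B : ℝ} (ha : ‖a‖ * c ≤ B) (hb : ‖b‖ * c ≤ B) (hc : 0 ≤ c) :
    ‖a - b‖ * c ≤ B := by
  rcases le_max_iff.1 (sub_le_max a b) with h | h
  · exact (mul_le_mul_of_nonneg_right h hc).trans ha
  · exact (mul_le_mul_of_nonneg_right h hc).trans hb

theorem sc_lt {a b : C} {c B : ℝ} (ha : ‖a‖ * c < B) (hb : ‖b‖ * c < B) (hc : 0 ≤ c) :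
    ‖a - b‖ * c < B := by
  rcases le_max_iff.1 (sub_le_max a b) with h | h
  · exact (mul_le_mul_of_nonneg_right h hc).trans_lt ha
  · exact (mul_le_mul_of_nonneg_right h hc).trans_lt hb

theorem sc_left {a b : C} {c : ℝ} (h : ‖b‖ * c < ‖a‖ * c) (hc : 0 ≤ c) :
    ‖a - b‖ * c = ‖a‖ * c := by
  have h1 : ‖b‖ < ‖a‖ := lt_of_mul_lt_mul_right h hc
  have h2 := IsUltrametricDist.norm_add_eq_max_of_norm_ne_norm (x := a) (y := -b)
    (by rw [norm_neg]; exact h1.ne')
  rw [norm_neg, max_eq_left h1.le, ← sub_eq_add_neg] at h2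
  rw [h2]

theorem sc_right {a b : C} {c : ℝ} (h : ‖a‖ * c < ‖b‖ * c) (hc : 0 ≤ c) :
    ‖a - b‖ * c = ‖b‖ * c := by
  rw [← norm_neg (a - b), neg_sub]
  exact sc_left h hc

theorem coeff_zero (x : C) (P : Polynomial C) :
    ((1 - Polynomial.C x * Polynomial.X) * P).coeff 0 = P.coeff 0 := by
  rw [Polynomial.mul_coeff_zero]
  simp

theorem coeff_succ (x : C) (P : Polynomial C) (n : ℕ) :
    ((1 - Polynomial.C x * Polynomial.X) * P).coeff (n + 1) = P.coeff (n + 1) - x * P.coeff n := by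
  rw [sub_mul, one_mul, Polynomial.coeff_sub, mul_assoc, Polynomial.coeff_C_mul,
    Polynomial.coeff_X_mul]

theorem sc_mul (x a : C) (ρ : ℝ) (n : ℕ) :
    ‖x * a‖ * ρ ^ (n + 1) = ‖x‖ * ρ * (‖a‖ * ρ ^ n) := by
  rw [norm_mul, pow_succ]
  ring

/-- `N` is the smallest index of a dominant coefficient -/
structure G1 (ρ : ℝ) (P : Polynomial C) (N : ℕ) (B : ℝ) : Prop where
  pos : 0 < B
  eq : ‖P.coeff N‖ * ρ ^ N = B
  lt : ∀ i < N, ‖P.coeff i‖ * ρ ^ i < B
  le : ∀ i, ‖P.coeff i‖ * ρ ^ i ≤ B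

/-- `N` is the largest index of a dominant coefficient -/
structure G2 (ρ : ℝ) (P : Polynomial C) (N : ℕ) (B : ℝ) : Prop where
  pos : 0 < B
  eq : ‖P.coeff N‖ * ρ ^ N = B
  gt : ∀ i, N < i → ‖P.coeff i‖ * ρ ^ i < B
  le : ∀ i, ‖P.coeff i‖ * ρ ^ i ≤ B

theorem g1_small {ρ : ℝ} (hρ : 0 < ρ) {P : Polynomial C} {N : ℕ} {B : ℝ} (h : G1 ρ P N B) {x : C}
    (hx : ‖x‖ * ρ ≤ 1) : G1 ρ ((1 - Polynomial.C x * Polynomial.X) * P) N B := by
  have key : ∀ n, ‖x * P.coeff n‖ * ρ ^ (n + 1) ≤ ‖P.coeff n‖ * ρ ^ n := by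
    intro n
    rw [sc_mul]
    exact mul_le_of_le_one_left (by positivity) hx
  refine ⟨h.pos, ?_, ?_, ?_⟩
  · rcases N with _ | n
    · rw [coeff_zero]
      exact h.eq
    · rw [coeff_succ, sc_left _ (by positivity)]
      · exact h.eq
      · rw [h.eq]
        exact (key n).trans_lt (h.lt n n.lt_succ_self)
  · intro i hi
    rcases i with _ | j
    · rw [coeff_zero]
      exact h.lt 0 hi
    · rw [coeff_succ]
      exact sc_lt (h.lt _ hi) ((key j).trans_lt (h.lt j (by omega))) (by positivity)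
  · intro i
    rcases i with _ | j
    · rw [coeff_zero]
      exact h.le 0
    · rw [coeff_succ]
      exact sc_le (h.le _) ((key j).trans (h.le j)) (by positivity)

theorem g1_large {ρ : ℝ} (hρ : 0 < ρ) {P : Polynomial C} {N : ℕ} {B : ℝ} (h : G1 ρ P N B) {x : C}
    (hx : 1 < ‖x‖ * ρ) :
    G1 ρ ((1 - Polynomial.C x * Polynomial.X) * P) (N + 1) (‖x‖ * ρ * B) := by
  have hu : 0 < ‖x‖ * ρ := zero_lt_one.trans hx
  have hB : B < ‖x‖ * ρ * B := lt_mul_of_one_lt_left h.pos hx
  refine ⟨mul_pos hu h.pos, ?_, ?_, ?_⟩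
  · rw [coeff_succ, sc_right _ (by positivity), sc_mul, h.eq]
    rw [sc_mul, h.eq]
    exact (h.le _).trans_lt hB
  · intro i hi
    rcases i with _ | j
    · rw [coeff_zero]
      exact (h.le 0).trans_lt hB
    · rw [coeff_succ]
      refine sc_lt ((h.le _).trans_lt hB) ?_ (by positivity)
      rw [sc_mul]
      exact mul_lt_mul_of_pos_left (h.lt j (by omega)) hu
  · intro i
    rcases i with _ | j
    · rw [coeff_zero]
      exact (h.le 0).trans hB.le
    · rw [coeff_succ]
      refine sc_le ((h.le _).trans hB.le) ?_ (by positivity)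
      rw [sc_mul]
      exact mul_le_mul_of_nonneg_left (h.le j) hu.le

theorem g2_small {ρ : ℝ} (hρ : 0 < ρ) {P : Polynomial C} {N : ℕ} {B : ℝ} (h : G2 ρ P N B) {x : C}
    (hx : ‖x‖ * ρ < 1) : G2 ρ ((1 - Polynomial.C x * Polynomial.X) * P) N B := by
  have hu : 0 ≤ ‖x‖ * ρ := by positivity
  have hB : ‖x‖ * ρ * B < B := mul_lt_of_lt_one_left h.pos hx
  have key : ∀ n, ‖x * P.coeff n‖ * ρ ^ (n + 1) < B := by
    intro n
    rw [sc_mul]
    exact (mul_le_mul_of_nonneg_left (h.le n) hu).trans_lt hB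
  refine ⟨h.pos, ?_, ?_, ?_⟩
  · rcases N with _ | n
    · rw [coeff_zero]
      exact h.eq
    · rw [coeff_succ, sc_left _ (by positivity)]
      · exact h.eq
      · rw [h.eq]
        exact key n
  · intro i hi
    rcases i with _ | j
    · exact absurd hi (by omega)
    · rw [coeff_succ]
      exact sc_lt (h.gt _ hi) (key j) (by positivity)
  · intro i
    rcases i with _ | j
    · rw [coeff_zero]
      exact h.le 0
    · rw [coeff_succ]
      exact sc_le (h.le _) (key j).le (by positivity)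

theorem g2_large {ρ : ℝ} (hρ : 0 < ρ) {P : Polynomial C} {N : ℕ} {B : ℝ} (h : G2 ρ P N B) {x : C}
    (hx : 1 ≤ ‖x‖ * ρ) :
    G2 ρ ((1 - Polynomial.C x * Polynomial.X) * P) (N + 1) (‖x‖ * ρ * B) := by
  have hu : 0 < ‖x‖ * ρ := zero_lt_one.trans_le hx
  have hB : B ≤ ‖x‖ * ρ * B := le_mul_of_one_le_left h.pos.le hx
  refine ⟨mul_pos hu h.pos, ?_, ?_, ?_⟩
  · rw [coeff_succ, sc_right _ (by positivity), sc_mul, h.eq]
    rw [sc_mul, h.eq]
    exact (h.gt _ N.lt_succ_self).trans_le hB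
  · intro i hi
    rcases i with _ | j
    · exact absurd hi (by omega)
    · rw [coeff_succ]
      refine sc_lt ((h.gt _ (by omega)).trans_le hB) ?_ (by positivity)
      rw [sc_mul]
      exact mul_lt_mul_of_pos_left (h.gt j (by omega)) hu
  · intro i
    rcases i with _ | j
    · rw [coeff_zero]
      exact (h.le 0).trans hB
    · rw [coeff_succ]
      refine sc_le ((h.le _).trans hB) ?_ (by positivity)
      rw [sc_mul]
      exact mul_le_mul_of_nonneg_left (h.le j) hu.le

theorem revP_zero : revP (0 : Multiset C) = 1 := by simp [revP]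

theorem revP_cons (x : C) (μ : Multiset C) :
    revP (x ::ₘ μ) = (1 - Polynomial.C x * Polynomial.X) * revP μ := by simp [revP]

theorem g1_one (ρ : ℝ) : G1 ρ (1 : Polynomial C) 0 1 := by
  refine ⟨one_pos, by simp, fun i hi => absurd hi (by omega), fun i => ?_⟩
  rcases i with _ | j
  · simp
  · simp [Polynomial.coeff_one]

theorem g2_one (ρ : ℝ) : G2 ρ (1 : Polynomial C) 0 1 := by
  refine ⟨one_pos, by simp, fun i hi => ?_, fun i => ?_⟩
  · rcases i with _ | j
    · exact absurd hi (by omega)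
    · simp [Polynomial.coeff_one]
  · rcases i with _ | j
    · simp
    · simp [Polynomial.coeff_one]

open Classical in
theorem first (μ : Multiset C) (r : ℝ) (hr : 0 < r) :
    G1 r⁻¹ (revP μ) (gc μ r)
      (((μ.filter fun x => r < ‖x‖).map fun x => ‖x‖).prod * r⁻¹ ^ gc μ r) := by
  have hρ : 0 < r⁻¹ := inv_pos.2 hr
  induction μ using Multiset.induction_on with
  | empty =>
    rw [revP_zero]
    simpa using g1_one (C := C) r⁻¹
  | cons a μ ih =>
    rw [revP_cons]
    by_cases ha : r < ‖a‖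
    · have h1 : gc (a ::ₘ μ) r = gc μ r + 1 := by
        unfold gc
        rw [Multiset.countP_cons_of_pos (p := fun x : C => r < ‖x‖) _ ha]
      have h2 : 1 < ‖a‖ * r⁻¹ := by
        rw [← div_eq_mul_inv, one_lt_div hr]
        exact ha
      rw [h1, Multiset.filter_cons_of_pos (p := fun x : C => r < ‖x‖) _ ha, Multiset.map_cons, Multiset.prod_cons]
      have h3 := g1_large hρ ih h2
      convert h3 using 1
      rw [pow_succ]
      ring
    · have h1 : gc (a ::ₘ μ) r = gc μ r := by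
        unfold gc
        rw [Multiset.countP_cons_of_neg (p := fun x : C => r < ‖x‖) _ ha]
      have h2 : ‖a‖ * r⁻¹ ≤ 1 := by
        rw [← div_eq_mul_inv, div_le_one hr]
        exact not_lt.1 ha
      rw [h1, Multiset.filter_cons_of_neg (p := fun x : C => r < ‖x‖) _ ha]
      exact g1_small hρ ih h2

open Classical in
theorem second (μ : Multiset C) (r : ℝ) (hr : 0 < r) :
    G2 r⁻¹ (revP μ) (ge μ r)
      (((μ.filter fun x => r ≤ ‖x‖).map fun x => ‖x‖).prod * r⁻¹ ^ ge μ r) := by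
  have hρ : 0 < r⁻¹ := inv_pos.2 hr
  induction μ using Multiset.induction_on with
  | empty =>
    rw [revP_zero]
    simpa using g2_one (C := C) r⁻¹
  | cons a μ ih =>
    rw [revP_cons]
    by_cases ha : r ≤ ‖a‖
    · have h1 : ge (a ::ₘ μ) r = ge μ r + 1 := by
        unfold ge
        rw [Multiset.countP_cons_of_pos (p := fun x : C => r ≤ ‖x‖) _ ha]
      have h2 : 1 ≤ ‖a‖ * r⁻¹ := by
        rw [← div_eq_mul_inv, one_le_div hr]
        exact ha
      rw [h1, Multiset.filter_cons_of_pos (p := fun x : C => r ≤ ‖x‖) _ ha, Multiset.map_cons, Multiset.prod_cons]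
      have h3 := g2_large hρ ih h2
      convert h3 using 1
      rw [pow_succ]
      ring
    · have h1 : ge (a ::ₘ μ) r = ge μ r := by
        unfold ge
        rw [Multiset.countP_cons_of_neg (p := fun x : C => r ≤ ‖x‖) _ ha]
      have h2 : ‖a‖ * r⁻¹ < 1 := by
        rw [← div_eq_mul_inv, div_lt_one hr]
        exact not_le.1 ha
      rw [h1, Multiset.filter_cons_of_neg (p := fun x : C => r ≤ ‖x‖) _ ha]
      exact g2_small hρ ih h2

end ESYMaux

open ESYMaux in
theorem esym_thm : StmtESYM := by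
  classical
  intro C _ _ μ r hr
  have h1 := (first μ r hr).eq
  have h2 := (second μ r hr).eq
  have h3 : (0 : ℝ) < r⁻¹ := inv_pos.2 hr
  exact ⟨mul_right_cancel₀ (pow_ne_zero _ h3.ne') h1, mul_right_cancel₀ (pow_ne_zero _ h3.ne') h2⟩

end ASE
end

section
/-! # MP_b685ef_ag, ASE, module KLEV (helper9): transfer to an arbitrary algebraically closed field -/
set_option linter.all false

namespace ASE

open Finset ASur AST

universe u v

open Classical in
/-- **KLEV.** A bound for the multiplicities in `PadicAlgCl p` gives one for every algebraically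
closed field of characteristic zero. -/
def StmtKLEV : Prop := ∀ (p : ℕ) [Fact p.Prime] (k : Type) [Field k] [Fintype k]
  [Algebra (ZMod p) k] (I : Type) [Fintype I] (n : I → ℕ) (f : ∀ i, (Fin (n i) → ℤ) →₀ k)
  (a : I → ℤ) (ψ : AddChar (ZMod p) (PadicAlgCl p)), ψ ≠ 1 → ∀ b c : ℕ,
  (∀ A : Multiset (PadicAlgCl p), (∀ x ∈ A, x ≠ 0 ∧ ‖(c : PadicAlgCl p)‖ ≤ ‖x‖) →
    (∀ (E : Type) [Field E] [Fintype E] [Algebra (ZMod p) E] [Algebra k E],
      ps A (Module.finrank k E) = ∑ i, (a i : PadicAlgCl p) * ST ψ (f i) E) →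
    ∀ x : PadicAlgCl p, Multiset.countP (fun y => y = x) A ≤ b) →
  ∀ (F : Type u) [Field F] [IsAlgClosed F] [CharZero F] (ψ' : AddChar (ZMod p) F), ψ' ≠ 1 →
  ∀ (W : Type v) [AddCommGroup W] [Module F W] [FiniteDimensional F W] (φ : W ≃ₗ[F] W),
  (∀ (E : Type) [Field E] [Fintype E] [Algebra (ZMod p) E] [Algebra k E],
    LinearMap.trace F W ((φ : W →ₗ[F] W) ^ Module.finrank k E) =
      ∑ i, (a i : F) * ST ψ' (f i) E) →
  (∀ x ∈ (LinearMap.charpoly (φ : W →ₗ[F] W)).roots, IsIntegral ℤ ((c : F) * x⁻¹)) →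
  (∀ x : F, (LinearMap.charpoly (φ : W →ₗ[F] W)).rootMultiplicity x ≤ b) ∧
  (∀ x : F, Module.End.maxGenEigenspace (φ : W →ₗ[F] W) x =
    Module.End.genEigenspace (φ : W →ₗ[F] W) x b) ∧
  (b = 1 → (LinearMap.charpoly (φ : W →ₗ[F] W)).Separable ∧
    Module.End.IsSemisimple (φ : W →ₗ[F] W))

namespace KLEVaux

theorem alg {p : ℕ} [Fact p.Prime] {K : Type*} [Field K] [CharZero K]
    (ψ : AddChar (ZMod p) K) (x : ZMod p) : IsIntegral ℚ (ψ x) := by
  have h1 : (ψ x) ^ p = 1 := by
    rw [← AddChar.map_nsmul_eq_pow]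
    simp
  refine IsIntegral.of_pow (Fact.out : p.Prime).pos ?_
  rw [h1]
  exact isIntegral_one

theorem alg_ST {p : ℕ} [Fact p.Prime] {K : Type*} [Field K] [CharZero K]
    (ψ : AddChar (ZMod p) K) {k : Type} [Field k] {n : ℕ} (f : (Fin n → ℤ) →₀ k)
    (E : Type) [Field E] [Fintype E] [Algebra (ZMod p) E] [Algebra k E] :
    IsIntegral ℚ (ST ψ f E) := by
  unfold AST.ST sumT
  exact IsIntegral.sum _ fun x _ => alg ψ _

theorem prim {p : ℕ} [Fact p.Prime] {K : Type*} [Field K] (ψ : AddChar (ZMod p) K) (hψ : ψ ≠ 1) :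
    IsPrimitiveRoot (ψ 1) p := by
  have h1 : (ψ 1) ^ p = 1 := by
    rw [← AddChar.map_nsmul_eq_pow]
    simp
  have h2 : ψ 1 ≠ 1 := by
    intro h
    apply hψ
    ext x
    have h3 : x = x.val • (1 : ZMod p) := by simp
    rw [h3, AddChar.map_nsmul_eq_pow, h, one_pow]
    rfl
  have h3 := IsPrimitiveRoot.orderOf (ψ 1)
  rwa [orderOf_eq_prime h1 h2] at h3

theorem val_pow {p : ℕ} [Fact p.Prime] {K : Type*} [Field K] (ψ : AddChar (ZMod p) K) (x : ZMod p) :
    ψ x = (ψ 1) ^ x.val := by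
  rw [← AddChar.map_nsmul_eq_pow]
  simp

/-- integral elements have norm at most 1 -/
theorem norm_int {C : Type} [NormedField C] [IsUltrametricDist C] {y : C} (h : IsIntegral ℤ y) :
    ‖y‖ ≤ 1 := by
  have h1 : IsIntegral (NormedField.valuation (K := C)).integer y := h.tower_top
  have h2 := (Valuation.integer.integers (NormedField.valuation (K := C))).mem_of_integral h1
  have h3 : NormedField.valuation y ≤ 1 := h2
  exact_mod_cast h3

open Classical in
theorem main (hK2D : StmtK2D.{u}) (hEXT : StmtEXT)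
    (p : ℕ) [Fact p.Prime] (k : Type) [Field k] [Fintype k]
    [Algebra (ZMod p) k] (I : Type) [Fintype I] (n : I → ℕ) (f : ∀ i, (Fin (n i) → ℤ) →₀ k)
    (a : I → ℤ) (ψ : AddChar (ZMod p) (PadicAlgCl p)) (hψ : ψ ≠ 1) (b c : ℕ)
    (hA : ∀ A : Multiset (PadicAlgCl p), (∀ x ∈ A, x ≠ 0 ∧ ‖(c : PadicAlgCl p)‖ ≤ ‖x‖) →
      (∀ (E : Type) [Field E] [Fintype E] [Algebra (ZMod p) E] [Algebra k E],
        ps A (Module.finrank k E) = ∑ i, (a i : PadicAlgCl p) * ST ψ (f i) E) →
      ∀ x : PadicAlgCl p, Multiset.countP (fun y => y = x) A ≤ b)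
    (F : Type u) [Field F] [IsAlgClosed F] [CharZero F] (ψ' : AddChar (ZMod p) F) (hψ' : ψ' ≠ 1)
    (β : Multiset F) (hβ0 : ∀ x ∈ β, x ≠ 0) (hβc : ∀ x ∈ β, IsIntegral ℤ ((c : F) * x⁻¹))
    (hT : ∀ (E : Type) [Field E] [Fintype E] [Algebra (ZMod p) E] [Algebra k E],
      (β.map fun x => x ^ Module.finrank k E).sum = ∑ i, (a i : F) * ST ψ' (f i) E) (x : F) :
    β.count x ≤ b := by
  by_cases hx : x ∈ β
  swap
  · rw [Multiset.count_eq_zero.2 hx]
    exact Nat.zero_le _
  obtain ⟨A, g, hζ, hg, hβA⟩ := hK2D F (PadicAlgCl p) p (ψ' 1) (ψ 1) (prim ψ' hψ') (prim ψ hψ) β (by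
    intro j hj
    obtain ⟨E, _, _, _, _, hE⟩ := hEXT p k j hj
    have h1 := hT E
    rw [hE] at h1
    rw [h1]
    refine (IsIntegral.sum _ fun i _ => ?_).isAlgebraic
    refine IsIntegral.mul ?_ (alg_ST ψ' (f i) E)
    have h2 : IsIntegral ℤ ((a i : ℤ) : F) := isIntegral_algebraMap (R := ℤ) (A := F) (x := a i)
    exact h2.tower_top)
  have hψA : ∀ y : ZMod p, ψ' y ∈ A := by
    intro y
    rw [val_pow ψ' y]
    exact A.pow_mem hζ _
  have hψg : ∀ y : ZMod p, g ⟨ψ' y, hψA y⟩ = ψ y := by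
    intro y
    rw [val_pow ψ y, ← hg, ← map_pow]
    congr 1
    apply Subtype.ext
    exact val_pow ψ' y
  have hginj : Function.Injective g := g.injective
  obtain ⟨βA, hβA'⟩ : ∃ βA : Multiset A, βA.map (fun x : A => (x : F)) = β := by
    refine ⟨β.attach.map fun x => ⟨x.1, hβA x.1 x.2⟩, ?_⟩
    simp only [Multiset.map_map, Function.comp]
    exact Multiset.attach_map_val β
  have hSf : ∀ (i : I) (E : Type) [Field E] [Fintype E] [Algebra (ZMod p) E]
      [Algebra k E], ∃ s : A, (s : F) = ST ψ' (f i) E ∧ g s = ST ψ (f i) E := by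
    intro i E _ _ _ _
    refine ⟨sumT fun x : Fin (n i) → Eˣ => ⟨ψ' (Algebra.trace (ZMod p) E (lval (f i) x)),
      hψA _⟩, ?_, ?_⟩
    · unfold AST.ST sumT
      push_cast
      rfl
    · unfold AST.ST sumT
      rw [map_sum]
      exact Finset.sum_congr rfl fun x _ => hψg _
  have hmem : ∀ y ∈ βA, (y : F) ∈ β := by
    intro y hy
    rw [← hβA']
    exact Multiset.mem_map_of_mem _ hy
  have key := hA (βA.map g) (by
      intro y hy
      obtain ⟨z, hz, rfl⟩ := Multiset.mem_map.1 hy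
      have hz0 : z ≠ 0 := by
        intro h0
        exact hβ0 _ (hmem z hz) (by rw [h0]; rfl)
      have hgz : g z ≠ 0 := (map_ne_zero g).2 hz0
      refine ⟨hgz, ?_⟩
      have h1 : IsIntegral ℤ ((c : A) * z⁻¹) := by
        have h2 := hβc _ (hmem z hz)
        have h3 : (c : F) * (z : F)⁻¹ = algebraMap A F ((c : A) * z⁻¹) := by
          rw [map_mul, map_inv₀, map_natCast]
          rfl
        rw [h3] at h2
        exact (isIntegral_algebraMap_iff (algebraMap A F).injective).1 h2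
      have h4 : IsIntegral ℤ (g ((c : A) * z⁻¹)) := h1.map (g : A →+* PadicAlgCl p).toIntAlgHom
      have h5 := norm_int h4
      rw [map_mul, map_inv₀, map_natCast, norm_mul, norm_inv, ← div_eq_mul_inv,
        div_le_one (norm_pos_iff.2 hgz)] at h5
      exact h5)
    (by
      intro E _ _ _ _
      choose s hs1 hs2 using fun i => hSf i E
      have t1 := hT E
      have hsumA : ∀ m : Multiset A, ((m.sum : A) : F) = (m.map fun x : A => (x : F)).sum :=
        fun m => map_multiset_sum (A.subtype) m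
      have e1 : (βA.map fun x => x ^ Module.finrank k E).sum = ∑ i, ((a i : ℤ) : A) * s i := by
        apply Subtype.ext
        rw [hsumA, Multiset.map_map]
        have e2 : (β.map fun x => x ^ Module.finrank k E) =
            βA.map ((fun x : A => (x : F)) ∘ fun x => x ^ Module.finrank k E) := by
          rw [← hβA', Multiset.map_map]
          rfl
        rw [← e2, t1]
        push_cast
        exact Finset.sum_congr rfl fun i _ => by rw [hs1]
      have e3 : ps (βA.map g) (Module.finrank k E) =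
          g (βA.map fun x => x ^ Module.finrank k E).sum := by
        unfold ps
        rw [map_multiset_sum, Multiset.map_map, Multiset.map_map]
        congr 1
        refine Multiset.map_congr rfl fun x _ => ?_
        simp only [Function.comp, map_pow]
      rw [e3, e1, map_sum]
      refine Finset.sum_congr rfl fun i _ => ?_
      rw [map_mul, map_intCast, hs2]) (g ⟨x, hβA x hx⟩)
  have h1 : Multiset.countP (fun y => y = g ⟨x, hβA x hx⟩) (βA.map g) =
      (βA.map g).count (g ⟨x, hβA x hx⟩) := by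
    unfold Multiset.count
    refine Multiset.countP_congr rfl ?_
    intro y _
    exact propext eq_comm
  have h2 : (βA.map g).count (g ⟨x, hβA x hx⟩) = βA.count ⟨x, hβA x hx⟩ :=
    Multiset.count_map_eq_count' g βA hginj _
  have h3 : β.count x = βA.count ⟨x, hβA x hx⟩ := by
    have h4 := Multiset.count_map_eq_count' (fun x : A => (x : F)) βA Subtype.val_injective ⟨x, hβA x hx⟩
    rw [hβA'] at h4
    exact h4
  rw [h3, ← h2, ← h1]
  exact key

end KLEVaux

open KLEVaux in
theorem klev_thm (hK2D : StmtK2D.{u}) (hMULT : StmtMULT.{u, v}) (hLINALG : StmtLINALG.{u, v})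
    (hEXT : StmtEXT) : StmtKLEV.{u, v} := by
  classical
  intro p _ k _ _ _ I _ n f a ψ hψ b c hA F _ _ _ ψ' hψ' W _ _ _ φ hT hc
  obtain ⟨L0, L1, L2, L3, L4⟩ := hLINALG F W φ
  have key : ∀ x : F, (LinearMap.charpoly (φ : W →ₗ[F] W)).rootMultiplicity x ≤ b := by
    intro x
    rw [← Polynomial.count_roots]
    refine main hK2D hEXT p k I n f a ψ hψ b c ?_ F ψ' hψ'
      (LinearMap.charpoly (φ : W →ₗ[F] W)).roots L0 hc ?_ x
    · intro A h1 h2 y
      convert hA A h1 h2 y
    · intro E _ _ _ _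
      rw [← L2]
      exact hT E
  exact ⟨key, hMULT F W (φ : W →ₗ[F] W) b key⟩

end ASE
end

section
/-!
# MP_b685ef_ag, theorem LFP: module SUBE
-/
set_option linter.all false

namespace ASE

open Finset ASur AST

theorem sube_thm : StmtSUBE := by
  classical
  intro n K e hG σ T l x
  induction T using Finset.induction_on with
  | empty =>
    intro _
    rw [Finset.sum_empty, Finset.sum_empty]
    exact ⟨hG.zero, hG.e_zero.le⟩
  | insert a T ha ih =>
    intro hx
    obtain ⟨h1, h2⟩ := ih fun i hi => hx i (Finset.mem_insert_of_mem hi)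
    have h3 := hx a (Finset.mem_insert_self a T)
    rw [Finset.sum_insert ha, Finset.sum_insert ha]
    have h4 : (l a : ℤ) • x a = l a • x a := natCast_zsmul _ _
    rw [h4]
    have h5 := hG.smulK (l a) (x a) h3
    refine ⟨hG.add _ _ h5 h1, (hG.sub _ _ h5 h1).trans ?_⟩
    rw [hG.smul _ _ h3]
    exact Nat.add_le_add_left h2 _

end ASE
end
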