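import Pool.Agent.Lib.MP_b685ef_ag.ASE.Spec2
import Pool.Agent.Lib.MP_b685ef_ag.ASE.SUBE
import Pool.Agent.Lib.MP_b685ef_ag.ASQ.Spec

section
/-! # MP_b685ef_ag, ASE, module FINH (helper6): the bound for the multiplicities -/
set_option linter.all false

namespace ASE

open Finset ASur AST

universe u v

namespace FINHaux

theorem norm_p (p : ℕ) [Fact p.Prime] : ‖(p : PadicAlgCl p)‖ < 1 := by
  have h2 := PadicAlgCl.norm_extends p (p : ℚ_[p])
  have h3 : ‖(p : PadicAlgCl p)‖ = ‖(p : ℚ_[p])‖ := by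
    rw [← h2]
    congr 1
  rw [h3]
  exact Padic.norm_p_lt_one

theorem exists_char (p : ℕ) [hp : Fact p.Prime] (C : Type) [Field C] [IsAlgClosed C] [CharZero C] :
    ∃ ψ : AddChar (ZMod p) C, ψ ≠ 1 ∧ IsPrimitiveRoot (ψ 1) p := by
  haveI : NeZero (p : C) := ⟨by exact_mod_cast hp.out.ne_zero⟩
  have hdeg : (Polynomial.cyclotomic p C).degree ≠ 0 := by
    rw [Polynomial.degree_cyclotomic]
    have := Nat.totient_pos.2 hp.out.pos
    exact_mod_cast this.ne'
  obtain ⟨ζ, hζ⟩ := IsAlgClosed.exists_root _ hdeg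
  have hprim : IsPrimitiveRoot ζ p := Polynomial.isRoot_cyclotomic_iff.1 hζ
  refine ⟨AddChar.zmodChar p hprim.pow_eq_one, ?_, ?_⟩
  · intro h
    have h1 : (AddChar.zmodChar p hprim.pow_eq_one) 1 = 1 := by
      rw [h]; rfl
    have h2 : (AddChar.zmodChar p hprim.pow_eq_one) ((1 : ℕ) : ZMod p) = ζ ^ 1 :=
      AddChar.zmodChar_apply' _ _
    rw [Nat.cast_one, h1, pow_one] at h2
    exact hprim.ne_one hp.out.one_lt h2.symm
  · have h2 : (AddChar.zmodChar p hprim.pow_eq_one) ((1 : ℕ) : ZMod p) = ζ ^ 1 :=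
      AddChar.zmodChar_apply' _ _
    rw [Nat.cast_one, pow_one] at h2
    rw [h2]
    exact hprim

end FINHaux

open FINHaux in
theorem finh_thm (hKLEV : StmtKLEV.{u, v}) (hMAINH : StmtMAINH) (hACL : StmtACL)
    (hKAC : StmtKAC) (hTEMB : StmtTEMB) (hZETA : StmtZETA) : StmtFINH.{u, v} := by
  classical
  intro p hpp D hD E hE k _ _ _ I _ n K e f a hW hf N0 hdet b hb F _ _ _ ψ' hψ' W _ _ _ φ hT hint
  have hp := norm_p p
  let j : ℤ_[p] →+* PadicAlgCl p := (algebraMap ℚ_[p] (PadicAlgCl p)).comp PadicInt.Coe.ringHom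
  have hj : ∀ x, ‖j x‖ ≤ 1 := by
    intro x
    have h2 := PadicAlgCl.norm_extends p (x : ℚ_[p])
    exact h2.trans_le x.norm_le_one
  obtain ⟨ψ, hψ, hprim⟩ := exists_char p (PadicAlgCl p)
  obtain ⟨ρ, hρ⟩ := IsAlgClosed.exists_pow_nat_eq (ψ 1 - 1) (by omega : 0 < D)
  obtain ⟨z1, z2, z3, -⟩ := hZETA p (PadicAlgCl p) hp (ψ 1) hprim
  haveI : IsAlgClosed (KK (PadicAlgCl p)) := hKAC (PadicAlgCl p)
  obtain ⟨ι0⟩ := hTEMB p (PadicAlgCl p) hp k
  obtain ⟨σ⟩ : Nonempty (AlgebraicClosure k →+* KK (PadicAlgCl p)) := by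
    letI : Algebra k (KK (PadicAlgCl p)) := ι0.toAlgebra
    exact ⟨(IsAlgClosed.lift : AlgebraicClosure k →ₐ[k] KK (PadicAlgCl p)).toRingHom⟩
  set h := Module.finrank (ZMod p) k with hh'
  have hcard : Fintype.card k = p ^ h := by
    rw [Module.card_eq_pow_finrank (K := ZMod p) (V := k), ZMod.card]
  have hρ0 : ρ ≠ 0 := by
    rintro rfl
    rw [zero_pow (by omega)] at hρ
    exact z1 hρ.symm
  have hnorm : ‖ρ ^ ((p - 1) * (D * N0) * h)‖ = ‖((Fintype.card k ^ N0 : ℕ) : PadicAlgCl p)‖ := by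
    have h1 : (p - 1) * (D * N0) * h = D * ((p - 1) * (h * N0)) := by ring
    rw [h1, pow_mul, hρ, pow_mul, norm_pow, norm_pow, z3, hcard]
    push_cast
    rw [norm_pow, norm_pow, ← pow_mul]
  refine hKLEV p k I n f a ψ hψ b (Fintype.card k ^ N0) ?_ F ψ' hψ' W φ hT ?_
  · intro A hA0 hA x
    by_cases hx : x ∈ A
    swap
    · have h0 : Multiset.countP (fun y => y = x) A = 0 := by
        rw [Multiset.countP_eq_zero]
        intro y hy h
        exact hx (h ▸ hy)
      rw [h0]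
      exact Nat.zero_le _
    obtain ⟨hx0, hxc⟩ := hA0 x hx
    obtain ⟨m1, m2⟩ := hMAINH p D hD (PadicAlgCl p) hp j hj E hE k
      (σ.comp (algebraMap k (AlgebraicClosure k))) I n K e f a hW hf ψ hψ ρ hρ A 0
      (by
        intro E' _ _ _ _
        rw [ps_zero, sub_zero]
        exact hA E') (D * N0) hdet
    have h3 : (dc A x : ℤ) ≤ b := by
      by_cases hm : ∃ m, m ≤ D * N0 ∧ ‖x‖ = ‖ρ ^ ((p - 1) * m * h)‖
      · obtain ⟨m, hm, hxm⟩ := hm
        have h1 := m1 m hm x hxm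
        rw [dc_zero, Nat.cast_zero, sub_zero] at h1
        rw [h1]
        have hw0 : ρ ^ ((p - 1) * m * h) ≠ 0 := pow_ne_zero _ hρ0
        have hn1 : ‖x / ρ ^ ((p - 1) * m * h)‖ = 1 := by
          rw [norm_div, hxm]
          exact div_self (norm_ne_zero_iff.2 hw0)
        have hv0 : rd (x / ρ ^ ((p - 1) * m * h)) ≠ 0 := by
          intro h0
          have := (rd_eq_zero_iff hn1.le).1 h0
          rw [hn1] at this
          exact lt_irrefl _ this
        by_cases hv : ∃ v' : AlgebraicClosure k, σ v' = rd (x / ρ ^ ((p - 1) * m * h))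
        · obtain ⟨v', hv'⟩ := hv
          have hv'0 : v' ≠ 0 := by
            rintro rfl
            rw [map_zero] at hv'
            exact hv0 hv'.symm
          refine le_trans (le_of_eq ?_) (hb m hm v' hv'0)
          refine Finset.sum_congr rfl fun i _ => ?_
          rw [← hv', (hACL k (AlgebraicClosure k) (KK (PadicAlgCl p)) _ σ p D h (n i) (K i) (e i)
            E (f i) m).1 v']
        · push Not at hv
          refine le_trans (le_of_eq ?_) (Int.natCast_nonneg b)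
          refine Finset.sum_eq_zero fun i _ => ?_
          rw [(hACL k (AlgebraicClosure k) (KK (PadicAlgCl p)) _ σ p D h (n i) (K i) (e i)
            E (f i) m).2 _ hv, mul_zero, mul_zero]
      · push Not at hm
        have h1 := m2 x hx0 (by rw [hnorm]; exact hxc) hm
        rw [dc_zero, Nat.cast_zero, sub_zero] at h1
        rw [h1]
        exact Int.natCast_nonneg b
    have h3' : dc A x ≤ b := by exact_mod_cast h3
    refine le_trans ?_ h3'
    unfold dc
    have h5 : Multiset.countP (fun y => y = x) A ≤ Multiset.countP (fun y => ‖y - x‖ < ‖x‖) A := by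
      rw [Multiset.countP_eq_card_filter, Multiset.countP_eq_card_filter]
      refine Multiset.card_le_card (Multiset.monotone_filter_right A ?_)
      intro y hy
      have h6 : y = x := hy
      subst h6
      simpa using hx0
    convert h5
  · intro x hx
    have := hint x hx
    rwa [Nat.cast_pow]

end ASE
end

section
/-! # MP_b685ef_ag, ASE, module FINP (helper37): multiple eigenvalues off one level

If the residues at all levels `m ≠ m0` are separated, the `D`-th power of a multiple eigenvalue is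
`q^{m0}` times an algebraic unit. -/
set_option linter.all false

namespace ASE

open Finset ASur AST

universe u v

/-- **FINP** (from `ASQ.StmtPLACE`, `ASQ.StmtFATOU`, `ASQ.StmtUNITQ`, MAINH, ACL, `ASur.*`). As FINH,
with the bound only for the levels `m ≠ m0`: every eigenvalue `x` of multiplicity `> b` satisfies
`x^D = q^{m0} · (unit)`. `x` is integral (FATOU). For a root `y ∈ C = PadicAlgCl p` of
`minpoly ℚ (x^D)` there is an embedding `g` with `g(x^D) = y` (PLACE); `g(x)` has multiplicity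
`> b` in `g(β)`, so by MAINH it is on the circle of level `m0`: `‖y‖ = ‖q‖^{m0}`; UNITQ. The same for
`(q^{N0}/x)^D`. -/
def StmtFINP : Prop := ∀ (p : ℕ) [Fact p.Prime] (D : ℕ), 1 ≤ D → ∀ E : ℕ → ℚ, IsAHQ p E →
  ∀ (k : Type) [Field k] [Fintype k] [Algebra (ZMod p) k] (I : Type) [Fintype I] (n : I → ℕ)
    (K : ∀ i, (Fin (n i) → ℤ) → Prop) (e : ∀ i, (Fin (n i) → ℤ) → ℕ)
    (f : ∀ i, (Fin (n i) → ℤ) →₀ k) (a : I → ℤ),
  (∀ i, Wgt (K i) (e i)) → (∀ i, ∀ u ∈ (f i).support, K i u ∧ e i u ≤ D) → ∀ N0 : ℕ,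
  (∀ i, ∀ m, m ≤ D * N0 → dH p D (K i) (e i) E (f i) m ≠ 0) → ∀ b m0 : ℕ, m0 ≤ D * N0 →
  (∀ m, m ≤ D * N0 → m ≠ m0 → ∀ v : AlgebraicClosure k, v ≠ 0 → ∑ i, a i * ((-1) ^ n i *
    NH (algebraMap k (AlgebraicClosure k)) p D (Module.finrank (ZMod p) k) (K i) (e i) E (f i)
      m v) ≤ b) →
  ∀ (F : Type u) [Field F] [IsAlgClosed F] [CharZero F] (ψ' : AddChar (ZMod p) F), ψ' ≠ 1 →
  ∀ (W : Type v) [AddCommGroup W] [Module F W] [FiniteDimensional F W] (φ : W ≃ₗ[F] W),
  (∀ (E' : Type) [Field E'] [Fintype E'] [Algebra (ZMod p) E'] [Algebra k E'],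
    LinearMap.trace F W ((φ : W →ₗ[F] W) ^ Module.finrank k E') =
      ∑ i, (a i : F) * ST ψ' (f i) E') →
  (∀ x ∈ (LinearMap.charpoly (φ : W →ₗ[F] W)).roots,
    IsIntegral ℤ ((Fintype.card k : F) ^ N0 * x⁻¹)) →
  ∀ x : F, b < (LinearMap.charpoly (φ : W →ₗ[F] W)).rootMultiplicity x →
    IsIntegral ℤ (x ^ D / (Fintype.card k : F) ^ m0) ∧
    IsIntegral ℤ ((Fintype.card k : F) ^ m0 / x ^ D)

namespace FINPaux

/-- the values of the character are in the ring generated by its value at one. -/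
theorem mem_adj {p : ℕ} [Fact p.Prime] {K : Type*} [Field K] (ψ : AddChar (ZMod p) K)
    (z : ZMod p) : ψ z ∈ Algebra.adjoin ℤ {ψ 1} := by
  have h1 : ψ z = (ψ 1) ^ z.val := KLEVaux.val_pow ψ z
  rw [h1]
  exact Subalgebra.pow_mem _ (Algebra.subset_adjoin (Set.mem_singleton _)) _

theorem ST_adj {p : ℕ} [Fact p.Prime] {K : Type*} [Field K]
    (ψ : AddChar (ZMod p) K) {k : Type} [Field k] {n : ℕ} (f : (Fin n → ℤ) →₀ k)
    (E : Type) [Field E] [Fintype E] [Algebra (ZMod p) E] [Algebra k E] :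
    ST ψ f E ∈ Algebra.adjoin ℤ {ψ 1} := by
  unfold AST.ST sumT
  exact Subalgebra.sum_mem _ fun x _ => mem_adj ψ _

theorem int_char {p : ℕ} [Fact p.Prime] {K : Type*} [Field K] [CharZero K]
    (ψ : AddChar (ZMod p) K) (x : ZMod p) : IsIntegral ℤ (ψ x) := by
  have h1 : (ψ x) ^ p = 1 := by
    rw [← AddChar.map_nsmul_eq_pow]
    simp
  refine IsIntegral.of_pow (Fact.out : p.Prime).pos ?_
  rw [h1]
  exact isIntegral_one

open Classical in
/-- Transport of a solution along an embedding. -/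
theorem transP (p : ℕ) [Fact p.Prime] (k : Type) [Field k] [Fintype k]
    [Algebra (ZMod p) k] (I : Type) [Fintype I] (n : I → ℕ) (f : ∀ i, (Fin (n i) → ℤ) →₀ k)
    (a : I → ℤ) (c : ℕ) (F : Type u) [Field F] [CharZero F] (ψ' : AddChar (ZMod p) F)
    (hψ' : ψ' ≠ 1) (β : Multiset F) (hβ0 : ∀ x ∈ β, x ≠ 0)
    (hβc : ∀ x ∈ β, IsIntegral ℤ ((c : F) * x⁻¹))
    (hT : ∀ (E : Type) [Field E] [Fintype E] [Algebra (ZMod p) E] [Algebra k E],
      (β.map fun x => x ^ Module.finrank k E).sum = ∑ i, (a i : F) * ST ψ' (f i) E)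
    (A : Subfield F) (g : A →+* PadicAlgCl p) (hA : ∀ x : F, IsAlgebraic ℚ x → x ∈ A)
    (hβA : ∀ x ∈ β, x ∈ A) :
    ∃ (ψ : AddChar (ZMod p) (PadicAlgCl p)) (B : Multiset (PadicAlgCl p)), ψ ≠ 1 ∧
      (∀ x ∈ B, x ≠ 0 ∧ ‖(c : PadicAlgCl p)‖ ≤ ‖x‖) ∧
      (∀ (E : Type) [Field E] [Fintype E] [Algebra (ZMod p) E] [Algebra k E],
        ps B (Module.finrank k E) = ∑ i, (a i : PadicAlgCl p) * ST ψ (f i) E) ∧
      ∀ (x : F) (hx : x ∈ A), β.count x ≤ B.count (g ⟨x, hx⟩) := by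
  classical
  have hginj : Function.Injective g := g.injective
  have hψA : ∀ y : ZMod p, ψ' y ∈ A := fun y =>
    hA _ ((int_char ψ' y).tower_top (A := ℚ)).isAlgebraic
  have hp1 : (g ⟨ψ' 1, hψA 1⟩) ^ p = 1 := by
    rw [← map_pow, ← map_one g]
    congr 1
    apply Subtype.ext
    exact (KLEVaux.prim ψ' hψ').pow_eq_one
  set ψ : AddChar (ZMod p) (PadicAlgCl p) := AddChar.zmodChar p hp1 with hψdef
  have hψ1 : ψ 1 = g ⟨ψ' 1, hψA 1⟩ := by
    have h2 : ψ ((1 : ℕ) : ZMod p) = (g ⟨ψ' 1, hψA 1⟩) ^ 1 := AddChar.zmodChar_apply' _ _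
    rw [Nat.cast_one, pow_one] at h2
    exact h2
  have hψ : ψ ≠ 1 := by
    intro h0
    have h1 : ψ 1 = 1 := by rw [h0]; rfl
    rw [hψ1, ← map_one g] at h1
    have h2 := congrArg (fun z : A => (z : F)) (hginj h1)
    have h3 : ψ' 1 = 1 := h2
    exact (KLEVaux.prim ψ' hψ').ne_one (Fact.out : p.Prime).one_lt h3
  have hψg : ∀ y : ZMod p, g ⟨ψ' y, hψA y⟩ = ψ y := by
    intro y
    rw [KLEVaux.val_pow ψ y, hψ1, ← map_pow]
    congr 1
    apply Subtype.ext
    exact KLEVaux.val_pow ψ' y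
  obtain ⟨βA, hβA'⟩ : ∃ βA : Multiset A, βA.map (fun x : A => (x : F)) = β := by
    refine ⟨β.attach.map fun x => ⟨x.1, hβA x.1 x.2⟩, ?_⟩
    simp only [Multiset.map_map, Function.comp]
    exact Multiset.attach_map_val β
  have hSf : ∀ (i : I) (E : Type) [Field E] [Fintype E] [Algebra (ZMod p) E]
      [Algebra k E], ∃ s : A, (s : F) = ST ψ' (f i) E ∧ g s = ST ψ (f i) E := by
    intro i E _ _ _ _
    refine ⟨sumT fun x : Fin (n i) → Eˣ => ⟨ψ' (Algebra.trace (ZMod p) E (lval (f i) x)),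
      hψA _⟩, ?_, ?_⟩
    · unfold AST.ST sumT
      push_cast
      rfl
    · unfold AST.ST sumT
      rw [map_sum]
      exact Finset.sum_congr rfl fun x _ => hψg _
  have hmem : ∀ y ∈ βA, (y : F) ∈ β := by
    intro y hy
    rw [← hβA']
    exact Multiset.mem_map_of_mem _ hy
  refine ⟨ψ, βA.map g, hψ, ?_, ?_, ?_⟩
  · intro y hy
    obtain ⟨z, hz, rfl⟩ := Multiset.mem_map.1 hy
    have hz0 : z ≠ 0 := by
      intro h0
      exact hβ0 _ (hmem z hz) (by rw [h0]; rfl)
    have hgz : g z ≠ 0 := (map_ne_zero g).2 hz0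
    refine ⟨hgz, ?_⟩
    have h1 : IsIntegral ℤ ((c : A) * z⁻¹) := by
      have h2 := hβc _ (hmem z hz)
      have h3 : (c : F) * (z : F)⁻¹ = algebraMap A F ((c : A) * z⁻¹) := by
        rw [map_mul, map_inv₀, map_natCast]
        rfl
      rw [h3] at h2
      exact (isIntegral_algebraMap_iff (algebraMap A F).injective).1 h2
    have h4 : IsIntegral ℤ (g ((c : A) * z⁻¹)) := h1.map (g : A →+* PadicAlgCl p).toIntAlgHom
    have h5 := KLEVaux.norm_int h4
    rw [map_mul, map_inv₀, map_natCast, norm_mul, norm_inv, ← div_eq_mul_inv,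
      div_le_one (norm_pos_iff.2 hgz)] at h5
    exact h5
  · intro E _ _ _ _
    choose s hs1 hs2 using fun i => hSf i E
    have t1 := hT E
    have hsumA : ∀ m : Multiset A, ((m.sum : A) : F) = (m.map fun x : A => (x : F)).sum :=
      fun m => map_multiset_sum (A.subtype) m
    have e1 : (βA.map fun x => x ^ Module.finrank k E).sum = ∑ i, ((a i : ℤ) : A) * s i := by
      apply Subtype.ext
      rw [hsumA, Multiset.map_map]
      have e2 : (β.map fun x => x ^ Module.finrank k E) =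
          βA.map ((fun x : A => (x : F)) ∘ fun x => x ^ Module.finrank k E) := by
        rw [← hβA', Multiset.map_map]
        rfl
      rw [← e2, t1]
      push_cast
      exact Finset.sum_congr rfl fun i _ => by rw [hs1]
    have e3 : ps (βA.map g) (Module.finrank k E) =
        g (βA.map fun x => x ^ Module.finrank k E).sum := by
      unfold ps
      rw [map_multiset_sum, Multiset.map_map, Multiset.map_map]
      congr 1
      refine Multiset.map_congr rfl fun x _ => ?_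
      simp only [Function.comp, map_pow]
    rw [e3, e1, map_sum]
    refine Finset.sum_congr rfl fun i _ => ?_
    rw [map_mul, map_intCast, hs2]
  · intro x hx
    have h2 : (βA.map g).count (g ⟨x, hx⟩) = βA.count ⟨x, hx⟩ :=
      Multiset.count_map_eq_count' g βA hginj _
    have h3 : β.count x = βA.count ⟨x, hx⟩ := by
      have h4 := Multiset.count_map_eq_count' (fun x : A => (x : F)) βA Subtype.val_injective
        ⟨x, hx⟩
      rw [hβA'] at h4
      exact h4
    rw [h3, ← h2]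

open Classical in
/-- The level of an element of large multiplicity. -/
theorem level (hMAINH : StmtMAINH) (hACL : StmtACL)
    (hKAC : StmtKAC) (hTEMB : StmtTEMB) (hZETA : StmtZETA)
    (p : ℕ) [Fact p.Prime] (D : ℕ) (hD : 1 ≤ D) (E : ℕ → ℚ) (hE : IsAHQ p E)
    (k : Type) [Field k] [Fintype k] [Algebra (ZMod p) k] (I : Type) [Fintype I] (n : I → ℕ)
    (K : ∀ i, (Fin (n i) → ℤ) → Prop) (e : ∀ i, (Fin (n i) → ℤ) → ℕ)
    (f : ∀ i, (Fin (n i) → ℤ) →₀ k) (a : I → ℤ)
    (hW : ∀ i, Wgt (K i) (e i)) (hf : ∀ i, ∀ u ∈ (f i).support, K i u ∧ e i u ≤ D) (N0 : ℕ)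
    (hdet : ∀ i, ∀ m, m ≤ D * N0 → dH p D (K i) (e i) E (f i) m ≠ 0) (b m0 : ℕ)
    (hb : ∀ m, m ≤ D * N0 → m ≠ m0 → ∀ v : AlgebraicClosure k, v ≠ 0 →
      ∑ i, a i * ((-1) ^ n i *
        NH (algebraMap k (AlgebraicClosure k)) p D (Module.finrank (ZMod p) k) (K i) (e i) E (f i)
          m v) ≤ b)
    (ψ : AddChar (ZMod p) (PadicAlgCl p)) (hψ : ψ ≠ 1) (A : Multiset (PadicAlgCl p))
    (hA0 : ∀ x ∈ A, x ≠ 0 ∧ ‖((Fintype.card k ^ N0 : ℕ) : PadicAlgCl p)‖ ≤ ‖x‖)
    (hA : ∀ (E : Type) [Field E] [Fintype E] [Algebra (ZMod p) E] [Algebra k E],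
        ps A (Module.finrank k E) = ∑ i, (a i : PadicAlgCl p) * ST ψ (f i) E)
    (x : PadicAlgCl p) (hx : b < A.count x) :
    x ≠ 0 ∧ ‖x‖ ^ D = ‖(p : PadicAlgCl p)‖ ^ (Module.finrank (ZMod p) k * m0) := by
  classical
  have hp := FINHaux.norm_p p
  let j : ℤ_[p] →+* PadicAlgCl p := (algebraMap ℚ_[p] (PadicAlgCl p)).comp PadicInt.Coe.ringHom
  have hj : ∀ x, ‖j x‖ ≤ 1 := by
    intro x
    have h2 := PadicAlgCl.norm_extends p (x : ℚ_[p])
    exact h2.trans_le x.norm_le_one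
  have hprim := KLEVaux.prim ψ hψ
  obtain ⟨ρ, hρ⟩ := IsAlgClosed.exists_pow_nat_eq (ψ 1 - 1) (by omega : 0 < D)
  obtain ⟨z1, z2, z3, -⟩ := hZETA p (PadicAlgCl p) hp (ψ 1) hprim
  haveI : IsAlgClosed (KK (PadicAlgCl p)) := hKAC (PadicAlgCl p)
  obtain ⟨ι0⟩ := hTEMB p (PadicAlgCl p) hp k
  obtain ⟨σ⟩ : Nonempty (AlgebraicClosure k →+* KK (PadicAlgCl p)) := by
    letI : Algebra k (KK (PadicAlgCl p)) := ι0.toAlgebra
    exact ⟨(IsAlgClosed.lift : AlgebraicClosure k →ₐ[k] KK (PadicAlgCl p)).toRingHom⟩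
  set h := Module.finrank (ZMod p) k with hh'
  have hcard : Fintype.card k = p ^ h := by
    rw [Module.card_eq_pow_finrank (K := ZMod p) (V := k), ZMod.card]
  have hρ0 : ρ ≠ 0 := by
    rintro rfl
    rw [zero_pow (by omega)] at hρ
    exact z1 hρ.symm
  have hnorm : ‖ρ ^ ((p - 1) * (D * N0) * h)‖ = ‖((Fintype.card k ^ N0 : ℕ) : PadicAlgCl p)‖ := by
    have h1 : (p - 1) * (D * N0) * h = D * ((p - 1) * (h * N0)) := by ring
    rw [h1, pow_mul, hρ, pow_mul, norm_pow, norm_pow, z3, hcard]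
    push_cast
    rw [norm_pow, norm_pow, ← pow_mul]
  have hxA : x ∈ A := Multiset.count_pos.1 (by omega)
  obtain ⟨hx0, hxc⟩ := hA0 x hxA
  refine ⟨hx0, ?_⟩
  obtain ⟨m1, m2⟩ := hMAINH p D hD (PadicAlgCl p) hp j hj E hE k
    (σ.comp (algebraMap k (AlgebraicClosure k))) I n K e f a hW hf ψ hψ ρ hρ A 0
    (by
      intro E' _ _ _ _
      rw [ps_zero, sub_zero]
      exact hA E') (D * N0) hdet
  have hcd : A.count x ≤ dc A x := by
    unfold dc Multiset.count
    rw [Multiset.countP_eq_card_filter, Multiset.countP_eq_card_filter]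
    refine Multiset.card_le_card (Multiset.monotone_filter_right A ?_)
    intro y hy
    have h6 : x = y := hy
    subst h6
    simpa using hx0
  have hdb : (b : ℤ) < dc A x := by exact_mod_cast lt_of_lt_of_le hx hcd
  by_cases hm : ∃ m, m ≤ D * N0 ∧ ‖x‖ = ‖ρ ^ ((p - 1) * m * h)‖
  · obtain ⟨m, hm, hxm⟩ := hm
    by_cases hmm : m = m0
    · subst hmm
      rw [hxm, ← norm_pow, ← pow_mul]
      have h1 : (p - 1) * m * h * D = D * ((p - 1) * (h * m)) := by ring
      rw [h1, pow_mul, hρ, pow_mul, norm_pow, norm_pow, z3]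
    · exfalso
      have h1 := m1 m hm x hxm
      rw [dc_zero, Nat.cast_zero, sub_zero] at h1
      have hle : (dc A x : ℤ) ≤ b := by
        rw [h1]
        have hw0 : ρ ^ ((p - 1) * m * h) ≠ 0 := pow_ne_zero _ hρ0
        have hn1 : ‖x / ρ ^ ((p - 1) * m * h)‖ = 1 := by
          rw [norm_div, hxm]
          exact div_self (norm_ne_zero_iff.2 hw0)
        have hv0 : rd (x / ρ ^ ((p - 1) * m * h)) ≠ 0 := by
          intro h0
          have := (rd_eq_zero_iff hn1.le).1 h0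
          rw [hn1] at this
          exact lt_irrefl _ this
        by_cases hv : ∃ v' : AlgebraicClosure k, σ v' = rd (x / ρ ^ ((p - 1) * m * h))
        · obtain ⟨v', hv'⟩ := hv
          have hv'0 : v' ≠ 0 := by
            rintro rfl
            rw [map_zero] at hv'
            exact hv0 hv'.symm
          refine le_trans (le_of_eq ?_) (hb m hm hmm v' hv'0)
          refine Finset.sum_congr rfl fun i _ => ?_
          rw [← hv', (hACL k (AlgebraicClosure k) (KK (PadicAlgCl p)) _ σ p D h (n i) (K i) (e i)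
            E (f i) m).1 v']
        · push Not at hv
          refine le_trans (le_of_eq ?_) (Int.natCast_nonneg b)
          refine Finset.sum_eq_zero fun i _ => ?_
          rw [(hACL k (AlgebraicClosure k) (KK (PadicAlgCl p)) _ σ p D h (n i) (K i) (e i)
            E (f i) m).2 _ hv, mul_zero, mul_zero]
      omega
  · exfalso
    push Not at hm
    have h1 := m2 x hx0 (by rw [hnorm]; exact hxc) hm
    rw [dc_zero, Nat.cast_zero, sub_zero] at h1
    rw [h1] at hdb
    have := Int.natCast_nonneg b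
    omega

end FINPaux

open FINPaux in
theorem finp_thm (hPLACE : ASQ.StmtPLACE.{u}) (hFATOU : ASQ.StmtFATOU.{u})
    (hUNITQ : ASQ.StmtUNITQ.{u}) (hMAINH : StmtMAINH) (hACL : StmtACL)
    (hKAC : StmtKAC) (hTEMB : StmtTEMB) (hZETA : StmtZETA) (hLINALG : StmtLINALG.{u, v})
    (hEXT : StmtEXT) : StmtFINP.{u, v} := by
  classical
  intro p hpp D hD E hE k _ _ _ I _ n K e f a hW hf N0 hdet b m0 hm0 hb F _ _ _ ψ' hψ' W _ _ _ φ
    hT hint x hx
  obtain ⟨L0, L1, L2, L3, -⟩ := hLINALG F W φ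
  set β : Multiset F := (LinearMap.charpoly (φ : W →ₗ[F] W)).roots with hβ
  have hTβ : ∀ (E : Type) [Field E] [Fintype E] [Algebra (ZMod p) E] [Algebra k E],
      (β.map fun x => x ^ Module.finrank k E).sum = ∑ i, (a i : F) * ST ψ' (f i) E := by
    intro E _ _ _ _
    rw [← L2]
    exact hT E
  -- integrality of the elements
  set R : Subalgebra ℤ F := Algebra.adjoin ℤ {ψ' 1} with hR
  have hRfin : Module.Finite ℤ R := Algebra.finite_adjoin_simple_of_isIntegral (int_char ψ' 1)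
  have hsum : ∀ j, 1 ≤ j → (β.map fun x => x ^ j).sum ∈ R := by
    intro j hj
    obtain ⟨E, _, _, _, _, hE⟩ := hEXT p k j hj
    have h1 := hTβ E
    rw [hE] at h1
    rw [h1]
    refine Subalgebra.sum_mem _ fun i _ => ?_
    refine Subalgebra.mul_mem _ ?_ (ST_adj ψ' (f i) E)
    exact R.intCast_mem (a i)
  have hintβ : ∀ x ∈ β, IsIntegral ℤ x := fun x hx => hFATOU F R hRfin β hsum x hx (L0 x hx)
  have halg : ∀ j, 1 ≤ j → IsAlgebraic ℚ (β.map fun x => x ^ j).sum := by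
    intro j hj
    have h1 : IsIntegral ℤ (β.map fun x => x ^ j).sum := by
      refine IsIntegral.multiset_sum fun y hy => ?_
      obtain ⟨x, hx, rfl⟩ := Multiset.mem_map.1 hy
      exact (hintβ x hx).pow j
    exact (h1.tower_top (A := ℚ)).isAlgebraic
  set q : F := (Fintype.card k : F) with hq
  have hq0 : q ≠ 0 := by
    rw [hq]
    exact Nat.cast_ne_zero.2 Fintype.card_ne_zero
  have hcx : b < β.count x := by rw [hβ, Polynomial.count_roots]; exact hx
  have hxβ : x ∈ β := Multiset.count_pos.1 (by omega)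
  have hx0 : x ≠ 0 := L0 x hxβ
  set h := Module.finrank (ZMod p) k with hh'
  have hcard : Fintype.card k = p ^ h := by
    rw [Module.card_eq_pow_finrank (K := ZMod p) (V := k), ZMod.card]
  have hqp : q = (p : F) ^ h := by rw [hq, hcard]; push_cast; rfl
  have hp0 : (p : F) ≠ 0 := Nat.cast_ne_zero.2 hpp.out.ne_zero
  have hpn := FINHaux.norm_p p
  have hpC : (p : PadicAlgCl p) ≠ 0 := Nat.cast_ne_zero.2 hpp.out.ne_zero
  have hint' : ∀ x ∈ β, IsIntegral ℤ (((Fintype.card k ^ N0 : ℕ) : F) * x⁻¹) := by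
    intro x hx
    have := hint x hx
    rwa [Nat.cast_pow]
  -- the norm of the image of x under any embedding
  have key : ∀ (c : F) (y : PadicAlgCl p), IsAlgebraic ℚ c →
      Polynomial.aeval y (minpoly ℚ c) = 0 →
      ∃ (A : Subfield F) (g : A →+* PadicAlgCl p), (∀ x : F, IsAlgebraic ℚ x → x ∈ A) ∧
        (∀ hc : c ∈ A, g ⟨c, hc⟩ = y) ∧ ∀ hx : x ∈ A,
          ‖g ⟨x, hx⟩‖ ^ D = ‖(p : PadicAlgCl p)‖ ^ (h * m0) := by
    intro c y hc hy
    obtain ⟨A, g, hA1, hA2, hA3⟩ := hPLACE F (PadicAlgCl p) β halg c y hc hy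
    refine ⟨A, g, hA1, hA3, ?_⟩
    intro hxA
    obtain ⟨ψ, B, hψ, hB0, hB, hcnt⟩ := transP p k I n f a (Fintype.card k ^ N0) F ψ' hψ' β L0
      hint' hTβ A g hA1 hA2
    exact (level hMAINH hACL hKAC hTEMB hZETA p D hD E hE k I n K e f a hW hf N0 hdet b m0 hb ψ hψ
      B hB0 hB (g ⟨x, hxA⟩) (lt_of_lt_of_le hcx (hcnt x hxA))).2
  have hxint : IsIntegral ℤ x := hintβ x hxβ
  constructor
  · -- x^D / q^m0
    have h1 : IsIntegral ℤ (x ^ D) := hxint.pow D
    have h2 := hUNITQ p F (PadicAlgCl p) hpn (h * m0) (x ^ D) h1 (by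
      intro y hy
      obtain ⟨A, g, hA1, hA3, hn⟩ := key (x ^ D) y (h1.tower_top (A := ℚ)).isAlgebraic hy
      have hxA : x ∈ A := hA1 x (hxint.tower_top (A := ℚ)).isAlgebraic
      have hxD : x ^ D ∈ A := A.pow_mem hxA D
      have h3 : y = (g ⟨x, hxA⟩) ^ D := by
        rw [← hA3 hxD, ← map_pow]; rfl
      rw [h3, norm_pow, hn hxA])
    rw [hqp, ← pow_mul]
    exact h2
  · -- q^m0 / x^D
    set w : F := (q ^ N0 * x⁻¹) ^ D with hw
    have h1 : IsIntegral ℤ w := (hint x hxβ).pow D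
    have hle : m0 ≤ D * N0 := hm0
    have h2 := hUNITQ p F (PadicAlgCl p) hpn (h * (D * N0 - m0)) w h1 (by
      intro y hy
      obtain ⟨A, g, hA1, hA3, hn⟩ := key w y (h1.tower_top (A := ℚ)).isAlgebraic hy
      have hxA : x ∈ A := hA1 x (hxint.tower_top (A := ℚ)).isAlgebraic
      have hwA : w ∈ A := hA1 w (h1.tower_top (A := ℚ)).isAlgebraic
      have h3 : y = (((Fintype.card k : ℕ) : PadicAlgCl p) ^ N0 * (g ⟨x, hxA⟩)⁻¹) ^ D := by
        rw [← hA3 hwA]
        have h4 : (⟨w, hwA⟩ : A) = (((Fintype.card k : ℕ) : A) ^ N0 * (⟨x, hxA⟩ : A)⁻¹) ^ D := by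
          apply Subtype.ext
          show w = _
          rw [hw, hq]
          push_cast
          rfl
        rw [h4, map_pow, map_mul, map_pow, map_natCast, map_inv₀]
      have hn' := hn hxA
      have hxg : ‖g ⟨x, hxA⟩‖ ^ D ≠ 0 := by
        rw [hn']
        exact pow_ne_zero _ (norm_ne_zero_iff.2 hpC)
      apply le_of_eq
      rw [h3, norm_pow, norm_mul, norm_inv, norm_pow, hcard, mul_pow, inv_pow, hn']
      push_cast
      rw [norm_pow, ← pow_mul, ← pow_mul, ← div_eq_mul_inv, div_eq_iff (pow_ne_zero _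
        (norm_ne_zero_iff.2 hpC)), ← pow_add]
      congr 1
      have h5 : h * (D * N0 - m0) + h * m0 = h * (D * N0) := by
        rw [← mul_add]; congr 1; omega
      rw [h5]; ring)
    have h3 : w / (p : F) ^ (h * (D * N0 - m0)) = q ^ m0 / x ^ D := by
      have h5 : (p : F) ^ (h * (D * N0 - m0)) = q ^ (D * N0 - m0) := by rw [hqp, ← pow_mul]
      have h6 : q ^ (N0 * D) = q ^ m0 * q ^ (D * N0 - m0) := by
        rw [← pow_add]; congr 1
        rw [mul_comm N0 D]; omega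
      rw [h5, hw, mul_pow, inv_pow, ← pow_mul, h6]
      have h7 : q ^ (D * N0 - m0) ≠ 0 := pow_ne_zero _ hq0
      have h8 : x ^ D ≠ 0 := pow_ne_zero _ hx0
      field_simp
    rw [← h3]
    exact h2

end ASE
end
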