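import Pool.Agent.Lib.MP_b685ef_ag.ASE.Defs2

/-!
# MP_b685ef_ag, theorem LFP, part (A): statements of the modules

The residues of all eigenvalues of level `≤ M` from explicit matrices of the leading form.  Form as
in `ASE/Spec.lean`: module NAME proves `StmtNAME` in `ASE/NAME.lean` (import
`Pool.Agent.Lib.MP_b685ef_ag.ASE.Spec2`), `theorem name_thm (dependencies) : StmtNAME`.
-/

set_option linter.all false

namespace ASE

open Finset ASur AST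

universe u v

/-! ## The splitting polynomial -/

/-- **AHC** (from `AST.StmtTOPG`; copy `AST/THETA2.lean`, only the last part changes: there
`hEE : EE ζ Θ l = rd (j (G_l))`, `G_l = (coeff l F).coeff l`, for `l < J0`, and TOPG:
`l G_l = ∑ G_{l-p^i}` in `ℤ_p`, `G_0 = 1`). So `(G_l : ℚ_p) = (E l : ℚ_p)` by induction (`l ≠ 0` in
`ℚ_p`). Then with `r = E l`, `r.den * G_l = r.num` in `ℤ_p`; `p ∤ r.den` (else `p ∤ r.num`, but the
left side is divisible by `p`); apply `rd ∘ j` (`rd_natCast`, integers): `(r.den : κ) rd(j G_l) =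
(r.num : κ)`, and `(r.den : κ) ≠ 0` (`charP_KK`), so `rd (j G_l) = (r : κ)` (`Rat.cast_def`). -/
def StmtAHC : Prop := ∀ (p : ℕ) [Fact p.Prime] (C : Type) [NormedField C]
  [IsUltrametricDist C] [CharZero C] [IsAlgClosed C], ‖(p : C)‖ < 1 →
  ∀ j : ℤ_[p] →+* C, (∀ x, ‖j x‖ ≤ 1) → ∀ ζ : C, IsPrimitiveRoot ζ p → ∀ E : ℕ → ℚ, IsAHQ p E →
  ∀ ε : ℝ, 0 < ε → ∀ J0 : ℕ, ∃ Θ : Polynomial C, IsSplit p ζ ε Θ ∧
    ∀ l, l < J0 → EE ζ Θ l = ((E l : ℚ) : KK C)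

/-! ## The reduction of the matrices -/

/-- **LEADH** (from `ASX.StmtEXPX`, SUBE; compare `ASX/LEADX.lean`). Divide each term of the
expansion EXPX at `w` by `ρ^{e(w)}`: it has norm `≤ ‖ρ‖^{D ∑ l_u - e(w)}`, `< 1` unless
`e(w) = D ∑ l_u`, and then `l_u = 0` for `e(u) < D` (`e(w) ≤ ∑ l_u e(u)`). The remaining terms have
`l_u ≤ e(w) < J0`, and reduce to `∏ E_{l_u} (ι f(u))^{p^i l_u}` (`λ^l = ρ^{Dl}`, `EE`); this is
`(ι (∏ E_{l_u} f(u)^{l_u}))^{p^i}` (`E_l` is in the prime field: `x^p = x` for rational casts in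
characteristic `p`; `ι` maps casts to casts if the denominator is prime to `p`, `map_ratCast` for
fields of the same characteristic: both sides are `num/den`), and the `p^i`-th power is additive
(`sum_pow_char_pow`). The terms `l_u > deg Θ` contribute `0` on the right side as `Θ_l = 0` gives
`E_l = EE ζ Θ l = 0`. -/
def StmtLEADH : Prop := ∀ (p : ℕ) [Fact p.Prime] (D : ℕ), 1 ≤ D →
  ∀ (C : Type) [NormedField C] [IsUltrametricDist C], ‖(p : C)‖ < 1 →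
  ∀ (ζ ρ : C) (ε : ℝ) (Θ : Polynomial C) (E : ℕ → ℚ) (J0 : ℕ),
  IsSplit p ζ ε Θ → (∀ l, l < J0 → EE ζ Θ l = ((E l : ℚ) : KK C)) → ρ ^ D = ζ - 1 → ρ ≠ 0 →
  ‖ρ‖ < 1 → ∀ (k : Type) [Field k] [Algebra (ZMod p) k] (ι : k →+* KK C) (τ : k →*₀ C),
  IsTeich ι τ → ∀ (n : ℕ) (K : (Fin n → ℤ) → Prop) (e : (Fin n → ℤ) → ℕ), Wgt K e →
  ∀ (f : (Fin n → ℤ) →₀ k), (∀ u ∈ f.support, K u ∧ e u ≤ D) → ∀ (i : ℕ) (w : Fin n → ℤ), K w →
  e w < J0 → rd ((FT p τ Θ f i).coeff w / ρ ^ e w) = ι (gH D e E f w (e w)) ^ (p ^ i)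

/-- **REDH** (from WGTE, LEADH, SUBE). `Cm` as in REDE: `Cm i u v = A_i(u,v) ρ^{e(v)}/ρ^{p e(u)}`.
If `pu - v ∉ K`: `A_i(u,v) = 0`, and `gH = 0` (no `l`: all `x` are in `K`, sums are in `K`, SUBE). If
`pu - v ∈ K` and `e(pu - v) + e(v) > p e(u)`: `‖Cm‖ < 1`, and `cH = 0` (`∑ l_x x = pu - v` gives
`e(pu - v) ≤ ∑ l_x e(x) = D ∑ l_x = p e(u) - e(v)`, SUBE). If equality: LEADH (`e(v) ≤ p e(u)`,
`e(pu - v) = p e(u) - e(v) < J0`). -/
def StmtREDH : Prop := ∀ (p : ℕ) [Fact p.Prime] (D : ℕ), 1 ≤ D →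
  ∀ (C : Type) [NormedField C] [IsUltrametricDist C], ‖(p : C)‖ < 1 →
  ∀ (ζ ρ : C) (ε : ℝ) (Θ : Polynomial C) (E : ℕ → ℚ) (J0 : ℕ),
  IsSplit p ζ ε Θ → (∀ l, l < J0 → EE ζ Θ l = ((E l : ℚ) : KK C)) → ρ ^ D = ζ - 1 → ρ ≠ 0 →
  ‖ρ‖ < 1 → ∀ (k : Type) [Field k] [Algebra (ZMod p) k] (ι : k →+* KK C) (τ : k →*₀ C),
  IsTeich ι τ → ∀ (n : ℕ) (K : (Fin n → ℤ) → Prop) (e : (Fin n → ℤ) → ℕ), Wgt K e →
  ∀ (f : (Fin n → ℤ) →₀ k), (∀ u ∈ f.support, K u ∧ e u ≤ D) →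
  ∀ (S : Finset (Fin n → ℤ)), (∀ u ∈ S, K u) →
  ∃ Cm : ℕ → Matrix S S C, (∀ i u v, ‖Cm i u v‖ ≤ 1) ∧
    (∀ i (u v : S), AT p S (FT p τ Θ f i) u v * ρ ^ e v.1 = ρ ^ (p * e u.1) * Cm i u v) ∧
    ∀ i (u v : S), p * e u.1 < J0 → rd (Cm i u v) = ι (cH p D e E f u.1 v.1) ^ (p ^ i)

/-- **DEPH.** `c(u,v)` depends only on the leading form. Both sums run over the `l` which vanish
outside `{x : e(x) = D}`; there `f(x) = f'(x)` (`Pair.lead`, `Pair.mem`), so the supports meet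
`{e = D}` in the same set; the other factors are `E_0 f(x)^0 = 1`. Bijection: restrict `l` to the
common part and extend by `0` (for example `Finset.sum_nbij'`, or first write both sums as sums over
`Fintype.piFinset` on the subtype `{x // x ∈ f.support ∧ e x = D}`). -/
def StmtDEPH : Prop := ∀ (n D : ℕ) (K : (Fin n → ℤ) → Prop) (e : (Fin n → ℤ) → ℕ) (k : Type)
  [Field k] (E : ℕ → ℚ), E 0 = 1 → ∀ (f f' : (Fin n → ℤ) →₀ k), Pair D K e f f' →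
  ∀ (w : Fin n → ℤ) (a : ℕ), gH D e E f w a = gH D e E f' w a

/-! ## The edge -/

open Classical in
/-- **EDGEH** (from `ASur.StmtCYC1`, `ASur.StmtCYC3`; adapt `AST/EDGELU.lean`, which reduces to the
block `{e ≤ m}` and has the lemma `sandwich`). As in EDGELU the reduction of
`det(S)^h det(1 - (X/w) Pmat A h)` is `det (cyc h S̄ (X C̄_0, C̄_1, ...))` over `{e ≤ m}`, `S̄` = the
projection on `{e = m}`, `C̄_i = rd (Cm i)`. Multiply on the right by the block diagonal matrix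
with the blocks `[[1, -Y_j], [0, 1]]` (columns `{e < m}`, `{e = m}`), `Y_j = T_j⁻¹ C̄_j^{<,=}`,
`T_j = C̄_j^{<,<}` (determinant `1`): `S̄` does not change, `C̄_j` becomes
`[[T_j, 0], [C̄_j^{=,<}, S_j]]`, `S_j = schM e m C̄_j`. So the matrix is block lower triangular for
`{e < m}`, `{e = m}` and the determinant is
`det(cyc h 0 (X T_0, T_1, ...)) det(cyc h 1 (X S_0, S_1, ...)) =
± X^{#{e<m}} ∏ det T_j · det(1 - X S_{h-1} ⋯ S_0)` (CYC3, CYC1). Normalise by a unit. -/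
def StmtEDGEH : Prop := ∀ (C : Type) [NormedField C] [IsUltrametricDist C]
  (ι : Type) [Fintype ι] [DecidableEq ι] (e : ι → ℕ) (p h m : ℕ) (ρ : C)
  (A Cm : ℕ → Matrix ι ι C), 2 ≤ p → 1 ≤ h → ρ ≠ 0 → ‖ρ‖ < 1 →
  (∀ i u v, ‖Cm i u v‖ ≤ 1) →
  (∀ i u v, A i u v * ρ ^ e v = ρ ^ (p * e u) * Cm i u v) →
  (∀ i, i < h → (blkM e (fun j => j < m) (fun j => j < m) (fun u v => rd (Cm i u v))).det ≠ 0) →
  ∀ m0 : ℕ, Edge ((Pmat A h).charpolyRev : PowerSeries C) (ρ ^ ((p - 1) * m * h))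
    (Fintype.card {u // e u < m})
    (Pmat (fun i => schM e m (fun u v => rd (Cm i u v))) h).charpolyRev m0

open Classical in
/-- **FROBH.** Linear algebra over fields of characteristic `p`: with `Z_i(u,v) = (ι z(u,v))^{p^i}` for
a matrix `z` over `k` and `φ_i = ` (`x ↦ (ι x)^{p^i}`, a ring homomorphism `k → κ`): determinants,
inverses, products, Schur complements commute with `φ_i`
(`RingHom.mapMatrix`, `Matrix.map_nonsing_inv`-type lemmas; `(ι x)^{p^i} = ι (x^{p^i})`). So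
`det(Z_i^{<,<}) = (ι det z^{<,<})^{p^i}`, and
`Pmat (fun i => schM e m Z_i) h = (Fprod p (schM e m z) h).map ι`. -/
def StmtFROBH : Prop := ∀ (p : ℕ) [Fact p.Prime] (k κ : Type) [Field k] [CharP k p] [Field κ]
  [CharP κ p] (ι : k →+* κ) (I : Type) [Fintype I] [DecidableEq I] (e : I → ℕ) (m : ℕ)
  (z : Matrix I I k) (Z : ℕ → Matrix I I κ), (∀ i u v, Z i u v = ι (z u v) ^ (p ^ i)) →
  (∀ i, (blkM e (fun j => j < m) (fun j => j < m) (Z i)).det =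
    ι (blkM e (fun j => j < m) (fun j => j < m) z).det ^ (p ^ i)) ∧
  ∀ h, Pmat (fun i => schM e m (Z i)) h = (Fprod p (schM e m z) h).map ι

open Classical in
/-- **REIH.** Reindexing: for a level set `S ⊇ {u ∈ K : e(u) ≤ m}` (`S` the level set of `L ≥ m`) the
subtypes `{u : S // e u < m}`, `{u : S // e u = m}` are equivalent to `lset K e (· < m)`,
`lset K e (· = m)` (`Wgt.mem_lset`); so `det` of the block is `dH`, the charpoly of `Fprod p (schM ..) h`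
is that of `NmH` (`Matrix.charpoly_reindex`, `Fprod` commutes with `reindex`), and the number of the
elements is `∑_{j<m} hh K e j`. -/
def StmtREIH : Prop := ∀ (n : ℕ) (K : (Fin n → ℤ) → Prop) (e : (Fin n → ℤ) → ℕ), Wgt K e →
  ∀ (k : Type) [Field k] (p D h : ℕ) (E : ℕ → ℚ) (f : (Fin n → ℤ) →₀ k) (m L : ℕ)
    (S : Finset (Fin n → ℤ)), IsLev K e L S → m ≤ L →
  (blkM (fun u : S => e u.1) (fun j => j < m) (fun j => j < m)
    (fun u v => cH p D e E f u.1 v.1)).det = dH p D K e E f m ∧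
  (Fprod p (schM (fun u : S => e u.1) m (fun u v => cH p D e E f u.1 v.1)) h).charpoly =
    (NmH p D h K e E f m).charpoly ∧
  Fintype.card {u : S // e u.1 < m} = ∑ j ∈ range m, hh K e j

open Classical in
/-- **SCHD.** `det Z^{≤m} = det Z^{<m} · det (schM e m Z)`: `{e < m+1} ≃ {e < m} ⊕ {e = m}`,
`Matrix.det_fromBlocks₁₁`. -/
def StmtSCHD : Prop := ∀ (κ I : Type) [Field κ] [Fintype I] (e : I → ℕ) (m : ℕ)
  (z : Matrix I I κ), (blkM e (fun j => j < m) (fun j => j < m) z).det ≠ 0 →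
  (blkM e (fun j => j < m + 1) (fun j => j < m + 1) z).det =
    (blkM e (fun j => j < m) (fun j => j < m) z).det * (schM e m z).det

/-- **RESH** (from `AST.StmtEPROD`, `AST.StmtEMULT` or `em_step` as in CMP, `ASur.StmtKAC`). If
`Edge (revP γ) w0 M (charpolyRev N) m0` for all `m0`, `N` a matrix over `κ = KK C`: by EMULT and
uniqueness (E1) `gc γ ‖w0‖ = M`, `∏_{‖x‖ = ‖w0‖} (1 - rd(x/w0) X) = charpolyRev N`, the latter is
`∏ (1 - rX)` over the nonzero roots `r` of the charpoly (`nrb_charpolyRev` in `AS/NRB.lean`, `κ` is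
algebraically closed); two multisets of nonzero elements with the same product are equal
(`AST/ERES.lean`, `ASX/MSX.lean`); `‖x - w‖ < ‖w‖` iff `rd(x/w0) = rd(w/w0)` and `‖x‖ = ‖w0‖`.
`cc γ ‖w0‖` is the number of nonzero roots of the charpoly, equal to `card J` iff `0` is not a root,
iff `det N ≠ 0`. -/
def StmtRESH : Prop := ∀ (C : Type) [NormedField C] [IsUltrametricDist C] [IsAlgClosed C]
  (γ : Multiset C) (w0 : C) (M : ℕ) (J : Type) [Fintype J] [DecidableEq J]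
  (N : Matrix J J (KK C)), w0 ≠ 0 → ‖w0‖ ≤ 1 →
  (∀ m0 : ℕ, Edge (revP γ : PowerSeries C) w0 M N.charpolyRev m0) →
  gc γ ‖w0‖ = M ∧ (N.det ≠ 0 ↔ cc γ ‖w0‖ = Fintype.card J) ∧
  ∀ w : C, ‖w‖ = ‖w0‖ → dc γ w = N.charpoly.rootMultiplicity (rd (w / w0))

/-! ## One torus -/

/-- **PAIRH** (from AHC, `ASur.StmtZETA`, `ASur.StmtTEX`, TRFE, DEGE, REDH, REDET, EDGEH, FROBH, REIH,
SCHD, RESH, `nrb_charpolyRev`, `nrb_trace_pow`): as PAIR for one `f`. `J0 > p (M + 1)`, `Θ` by AHC,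
`S` the level set of `L ≥ M + 1`, `γ` the eigenvalues of `B`; `Above` from REDET (with `A' = A`). For
`m ≤ M` with `dH m ≠ 0`: EDGEH with `Z_i(u,v) = rd (Cm i u v)`; only the entries with `e(u) ≤ m`
enter, where `Z_i(u,v) = ι(cH u v)^{p^i}` (`blkM`, `schM` do not see the other entries); FROBH, REIH,
RESH. `dH (m + 1) ≠ 0` iff `det (schM ..) ≠ 0` (SCHD, REIH) iff `det (Fprod ..) ≠ 0`
(product of Frobenius twists, `h ≥ 1`) iff `cc = card {e = m} = hh` (RESH). (`KK C` has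
characteristic `p` by `charP_KK`.) -/
def StmtPAIRH : Prop := ∀ (p : ℕ) [Fact p.Prime] (D : ℕ), 1 ≤ D → ∀ (C : Type) [NormedField C]
  [IsUltrametricDist C] [CharZero C] [IsAlgClosed C], ‖(p : C)‖ < 1 →
  ∀ j : ℤ_[p] →+* C, (∀ x, ‖j x‖ ≤ 1) → ∀ E : ℕ → ℚ, IsAHQ p E →
  ∀ (k : Type) [Field k] [Fintype k] [Algebra (ZMod p) k] (ι : k →+* KK C)
    (n : ℕ) (K : (Fin n → ℤ) → Prop) (e : (Fin n → ℤ) → ℕ), Wgt K e →
  ∀ (f : (Fin n → ℤ) →₀ k), (∀ u ∈ f.support, K u ∧ e u ≤ D) →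
  ∀ (ψ : AddChar (ZMod p) C), ψ ≠ 1 → ∀ ρ : C, ρ ^ D = ψ 1 - 1 → ∀ ε : ℝ, 0 < ε → ∀ M : ℕ,
  ∃ γ : Multiset C, Above γ (‖ρ‖ ^ ((p - 1) * Module.finrank (ZMod p) k)) (hh K e) M ∧
    (∀ m, m ≤ M → dH p D K e E f m ≠ 0 →
      gc γ ‖ρ ^ ((p - 1) * m * Module.finrank (ZMod p) k)‖ = ∑ j ∈ range m, hh K e j ∧
      (dH p D K e E f (m + 1) ≠ 0 ↔
        cc γ ‖ρ ^ ((p - 1) * m * Module.finrank (ZMod p) k)‖ = hh K e m) ∧
      ∀ w : C, ‖w‖ = ‖ρ ^ ((p - 1) * m * Module.finrank (ZMod p) k)‖ →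
        dc γ w = muH ι p D (Module.finrank (ZMod p) k) K e E f m
          (rd (w / ρ ^ ((p - 1) * m * Module.finrank (ZMod p) k)))) ∧
    ∀ (E' : Type) [Field E'] [Fintype E'] [Algebra (ZMod p) E'] [Algebra k E'],
      ‖ST ψ f E' - ((Fintype.card k : C) ^ Module.finrank k E' - 1) ^ n *
        ps γ (Module.finrank k E')‖ ≤ ε

/-- **OFFC.** Counting: the elements of norm `> t^M` number `∑_{m<M} W(m) = ∑_{m<M} cc (t^m)`, so all
of them are on the circles `t^m`, `m < M` (disjoint). -/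
def StmtOFFC : Prop := ∀ (C : Type) [NormedField C] (γ : Multiset C) (t : ℝ) (W : ℕ → ℕ) (M : ℕ),
  0 < t → t < 1 → (∀ m, m < M → cc γ (t ^ m) = W m) → gc γ (t ^ M) = ∑ m ∈ range M, W m →
  ∀ x ∈ γ, t ^ M < ‖x‖ → ∃ m, m < M ∧ ‖x‖ = t ^ m

/-! ## The theorem over `C` -/

/-- **MAINH** (from PAIRH, NPB, FORM, OFFC, `AST.StmtPLAM`, `ASur.StmtZETA`, `ASur.StmtEXT`). Set
`w_m = ρ^{(p-1)mh}`, `t = ‖w_1‖`, `q = card k`, `‖q‖ = t^D`. Choose `r`, `m0`, `ε` as in MAINC, `γ_i` by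
PAIRH (with `M + 1`), bounds by NPB (1), (2). FORM at `w = z`, `a_i' = (-1)^{n_i} a_i`:
`dc A z - dc B z = ∑_i a_i (-1)^{n_i} ∑_s (-1)^s binom(n_i,s) dc γ_i (z/q^s)`.
(1) `‖z‖ = ‖w_m‖`: for `D s ≤ m`, `‖z/q^s‖ = ‖w_{m-Ds}‖` and
`(z/q^s)/w_{m-Ds} = (z/w_m) (λ^{p-1}/p)^{hs}`, `λ = ρ^D = ψ(1) - 1`; `rd(p/λ^{p-1}) = -1` (PLAM), so
its reduction is `rd(z/w_m) (-1)^{hs}`; for `D s > m`: `‖z/q^s‖ > 1`, no element.
(2) `z` off the circles, `‖z‖ ≥ ‖w_M‖`: `‖z/q^s‖ ≥ ‖z‖ > t^M` is not `t^l`, `l < M` (else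
`‖z‖ = t^{l+Ds}`; either `l + D s ≤ M`, excluded, or `‖z‖ < t^M`): all `dc` are `0` by OFFC. -/
def StmtMAINH : Prop := ∀ (p : ℕ) [Fact p.Prime] (D : ℕ), 1 ≤ D → ∀ (C : Type) [NormedField C]
  [IsUltrametricDist C] [CharZero C] [IsAlgClosed C], ‖(p : C)‖ < 1 →
  ∀ j : ℤ_[p] →+* C, (∀ x, ‖j x‖ ≤ 1) → ∀ E : ℕ → ℚ, IsAHQ p E →
  ∀ (k : Type) [Field k] [Fintype k] [Algebra (ZMod p) k] (ι : k →+* KK C) (I : Type) [Fintype I]
    (n : I → ℕ) (K : ∀ i, (Fin (n i) → ℤ) → Prop) (e : ∀ i, (Fin (n i) → ℤ) → ℕ)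
    (f : ∀ i, (Fin (n i) → ℤ) →₀ k) (a : I → ℤ),
  (∀ i, Wgt (K i) (e i)) → (∀ i, ∀ u ∈ (f i).support, K i u ∧ e i u ≤ D) →
  ∀ (ψ : AddChar (ZMod p) C), ψ ≠ 1 → ∀ ρ : C, ρ ^ D = ψ 1 - 1 → ∀ (A B : Multiset C),
  (∀ (E' : Type) [Field E'] [Fintype E'] [Algebra (ZMod p) E'] [Algebra k E'],
    ps A (Module.finrank k E') - ps B (Module.finrank k E') =
      ∑ i, (a i : C) * ST ψ (f i) E') →
  ∀ M : ℕ, (∀ i, ∀ m, m ≤ M → dH p D (K i) (e i) E (f i) m ≠ 0) →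
  (∀ m, m ≤ M → ∀ z : C, ‖z‖ = ‖ρ ^ ((p - 1) * m * Module.finrank (ZMod p) k)‖ →
    (dc A z : ℤ) - dc B z = ∑ i, a i * ((-1) ^ n i *
      NH ι p D (Module.finrank (ZMod p) k) (K i) (e i) E (f i) m
        (rd (z / ρ ^ ((p - 1) * m * Module.finrank (ZMod p) k))))) ∧
  (∀ z : C, z ≠ 0 → ‖ρ ^ ((p - 1) * M * Module.finrank (ZMod p) k)‖ ≤ ‖z‖ →
    (∀ m, m ≤ M → ‖z‖ ≠ ‖ρ ^ ((p - 1) * m * Module.finrank (ZMod p) k)‖) →
    (dc A z : ℤ) - dc B z = 0)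

/-- **ACL.** Extension of the field: for `σ : κ →+* κ'` the multiplicity does not change, and it is
`0` for elements which are not in the image, if `κ` is algebraically closed (`κ = kbar`): a root in
`κ'` of a polynomial which splits over `κ` is in `κ` (`N ≠ 0` monic; `v (-1)^{hs}` is in the image iff
`v` is). -/
def StmtACL : Prop := ∀ (k κ κ' : Type) [Field k] [Field κ] [IsAlgClosed κ] [Field κ']
  (ι : k →+* κ) (σ : κ →+* κ') (p D h n : ℕ) (K : (Fin n → ℤ) → Prop) (e : (Fin n → ℤ) → ℕ)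
  (E : ℕ → ℚ) (f : (Fin n → ℤ) →₀ k) (m : ℕ),
  (∀ v : κ, NH (σ.comp ι) p D h K e E f m (σ v) = NH ι p D h K e E f m v) ∧
  (∀ v : κ', (∀ v' : κ, σ v' ≠ v) → NH (σ.comp ι) p D h K e E f m v = 0)

/-- **EQUIVH** (from PAIRH, NPB, FORM, ORDI, HHE, `ASur.StmtZETA`, `ASur.StmtEXT`). The criterion for
ordinarity. `t = ‖w_1‖`, `w_m = ρ^{(p-1)mh}`, `‖q‖ = t^D`. `γ` by PAIRH for `M + 1`, `ε` small, FORM with
`I = Unit`, `a = (-1)^n`, at `w = w_m` for `m ≤ M` (second part; constants as in MAINC):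
`cc A (t^m) - cc B (t^m) = (-1)^n ∑_s (-1)^s binom cc γ (t^m/(t^D)^s)`.
(→) ORDI with HHE: `cc γ (t^m) = hh m` for `m ≤ M`; then `dH m ≠ 0` for `m ≤ M + 1` by induction
with the equivalence of PAIRH (`dH 0 = 1`: determinant of the empty matrix).
(←) PAIRH: `cc γ (t^l) = hh l` for `l ≤ M`; `t^m/(t^D)^s = t^{m-Ds}` or `> 1`; HHE. -/
def StmtEQUIVH : Prop := ∀ (p : ℕ) [Fact p.Prime] (D : ℕ), 1 ≤ D → ∀ (C : Type) [NormedField C]
  [IsUltrametricDist C] [CharZero C] [IsAlgClosed C], ‖(p : C)‖ < 1 →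
  ∀ j : ℤ_[p] →+* C, (∀ x, ‖j x‖ ≤ 1) → ∀ E : ℕ → ℚ, IsAHQ p E →
  ∀ (k : Type) [Field k] [Fintype k] [Algebra (ZMod p) k] (ι : k →+* KK C)
    (n : ℕ) (K : (Fin n → ℤ) → Prop) (e : (Fin n → ℤ) → ℕ), Wgt K e →
  ∀ (f : (Fin n → ℤ) →₀ k), (∀ u ∈ f.support, K u ∧ e u ≤ D) →
  ∀ (ψ : AddChar (ZMod p) C), ψ ≠ 1 → ∀ (A B : Multiset C),
  (∀ (E' : Type) [Field E'] [Fintype E'] [Algebra (ZMod p) E'] [Algebra k E'],
    ps A (Module.finrank k E') - ps B (Module.finrank k E') = ST ψ f E') →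
  ∀ M : ℕ, (∀ m, m ≤ M → ∀ r : ℝ, 0 ≤ r → r ^ D = ‖(Fintype.card k : C)‖ ^ m →
      (cc A r : ℤ) - cc B r = (-1) ^ n * HH D K e m) ↔
    ∀ m, m ≤ M + 1 → dH p D K e E f m ≠ 0

/-! ## Arbitrary fields -/

/-- **FINH** (from `klev_thm` (file `ASE/KLEV.lean`, statement `StmtKLEV`) with `c = q^{N0}`, MAINH
with `M = D N0`, ACL, `ASur.StmtKAC`, `ASur.StmtTEMB`, `ASur.StmtZETA`): for `x ∈ A`, `‖x‖ ≥ ‖q‖^{N0}`,
`z = x`: the multiplicity of `x` is `≤ dc A x`, by MAINH (with `B = 0`) it is `0`, impossible, or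
`∑_i a_i (-1)^{n_i} NH_i m (rd(x/w_m))`; `ι = σ ∘ algebraMap`, `σ : kbar → KK C`
(`IsAlgClosed.lift`); `≤ b` by ACL and the hypothesis (`rd(x/w_m) ≠ 0`; `0 ≤ b`). -/
def StmtFINH : Prop := ∀ (p : ℕ) [Fact p.Prime] (D : ℕ), 1 ≤ D → ∀ E : ℕ → ℚ, IsAHQ p E →
  ∀ (k : Type) [Field k] [Fintype k] [Algebra (ZMod p) k] (I : Type) [Fintype I] (n : I → ℕ)
    (K : ∀ i, (Fin (n i) → ℤ) → Prop) (e : ∀ i, (Fin (n i) → ℤ) → ℕ)
    (f : ∀ i, (Fin (n i) → ℤ) →₀ k) (a : I → ℤ),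
  (∀ i, Wgt (K i) (e i)) → (∀ i, ∀ u ∈ (f i).support, K i u ∧ e i u ≤ D) → ∀ N0 : ℕ,
  (∀ i, ∀ m, m ≤ D * N0 → dH p D (K i) (e i) E (f i) m ≠ 0) → ∀ b : ℕ,
  (∀ m, m ≤ D * N0 → ∀ v : AlgebraicClosure k, v ≠ 0 → ∑ i, a i * ((-1) ^ n i *
    NH (algebraMap k (AlgebraicClosure k)) p D (Module.finrank (ZMod p) k) (K i) (e i) E (f i)
      m v) ≤ b) →
  ∀ (F : Type u) [Field F] [IsAlgClosed F] [CharZero F] (ψ' : AddChar (ZMod p) F), ψ' ≠ 1 →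
  ∀ (W : Type v) [AddCommGroup W] [Module F W] [FiniteDimensional F W] (φ : W ≃ₗ[F] W),
  (∀ (E' : Type) [Field E'] [Fintype E'] [Algebra (ZMod p) E'] [Algebra k E'],
    LinearMap.trace F W ((φ : W →ₗ[F] W) ^ Module.finrank k E') =
      ∑ i, (a i : F) * ST ψ' (f i) E') →
  (∀ x ∈ (LinearMap.charpoly (φ : W →ₗ[F] W)).roots,
    IsIntegral ℤ ((Fintype.card k : F) ^ N0 * x⁻¹)) →
  (∀ x : F, (LinearMap.charpoly (φ : W →ₗ[F] W)).rootMultiplicity x ≤ b) ∧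
  (∀ x : F, Module.End.maxGenEigenspace (φ : W →ₗ[F] W) x =
    Module.End.genEigenspace (φ : W →ₗ[F] W) x b) ∧
  (b = 1 → (LinearMap.charpoly (φ : W →ₗ[F] W)).Separable ∧
    Module.End.IsSemisimple (φ : W →ₗ[F] W))

end ASE
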