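import Pool.Agent.Lib.MP_b685ef_ag.ASE.Spec2

/-!
# MP_b685ef_ag, theorem LFP, part (A): the residues with Teichmüller lifts of the algebraic closure
-/

set_option linter.all false

namespace ASE

open Finset ASur AST

/-- **TORS.** Nonzero elements of the algebraic closure of a finite field are roots of unity. -/
def StmtTORS : Prop := ∀ (k : Type) [Field k] [Fintype k] (v : AlgebraicClosure k), v ≠ 0 →
  ∃ N : ℕ, 1 ≤ N ∧ v ^ N = 1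

/-- **RESF** (from MAINH, ACL, TORS, `ASur.StmtZETA`): the residues over `C`, with the Teichmüller
lift of the algebraic closure. -/
def StmtRESF : Prop := ∀ (p : ℕ) [Fact p.Prime] (D : ℕ), 1 ≤ D → ∀ (C : Type) [NormedField C]
  [IsUltrametricDist C] [CharZero C] [IsAlgClosed C], ‖(p : C)‖ < 1 →
  ∀ j : ℤ_[p] →+* C, (∀ x, ‖j x‖ ≤ 1) → ∀ E : ℕ → ℚ, IsAHQ p E →
  ∀ (k : Type) [Field k] [Fintype k] [Algebra (ZMod p) k] (I : Type) [Fintype I]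
    (n : I → ℕ) (K : ∀ i, (Fin (n i) → ℤ) → Prop) (e : ∀ i, (Fin (n i) → ℤ) → ℕ)
    (f : ∀ i, (Fin (n i) → ℤ) →₀ k) (a : I → ℤ),
  (∀ i, Wgt (K i) (e i)) → (∀ i, ∀ u ∈ (f i).support, K i u ∧ e i u ≤ D) →
  ∀ (ψ : AddChar (ZMod p) C), ψ ≠ 1 → ∀ ρ : C, ρ ^ D = ψ 1 - 1 →
  ∀ τ : AlgebraicClosure k →*₀ C, (∀ a b, ‖τ (a + b) - (τ a + τ b)‖ < 1) → ∀ (A B : Multiset C),
  (∀ (E' : Type) [Field E'] [Fintype E'] [Algebra (ZMod p) E'] [Algebra k E'],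
    ps A (Module.finrank k E') - ps B (Module.finrank k E') =
      ∑ i, (a i : C) * ST ψ (f i) E') →
  ∀ M : ℕ, (∀ i, ∀ m, m ≤ M → dH p D (K i) (e i) E (f i) m ≠ 0) →
  (∀ m, m ≤ M → ∀ v : AlgebraicClosure k, v ≠ 0 →
    (dc A (τ v * ρ ^ ((p - 1) * m * Module.finrank (ZMod p) k)) : ℤ) -
      dc B (τ v * ρ ^ ((p - 1) * m * Module.finrank (ZMod p) k)) = ∑ i, a i * ((-1) ^ n i *
      NH (algebraMap k (AlgebraicClosure k)) p D (Module.finrank (ZMod p) k) (K i) (e i) E (f i)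
        m v)) ∧
  (∀ z : C, z ≠ 0 → ‖ρ ^ ((p - 1) * M * Module.finrank (ZMod p) k)‖ ≤ ‖z‖ →
    (∀ m, m ≤ M → ∀ v : AlgebraicClosure k, v ≠ 0 →
      ‖ρ ^ ((p - 1) * m * Module.finrank (ZMod p) k)‖ ≤
        ‖z - τ v * ρ ^ ((p - 1) * m * Module.finrank (ZMod p) k)‖) →
    (dc A z : ℤ) - dc B z = 0)

end ASE
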