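import Pool.Agent.Lib.MP_b685ef_ag.ASE.Spec
import Pool.Agent.Lib.MP_b685ef_ag.ASE.Spec2
import Pool.Agent.Lib.MP_b685ef_ag.ASE.SUBE
import Pool.Agent.Lib.MP_b685ef_ag.ASX.PATHX
import Pool.Agent.Lib.MP_b685ef_ag.AS.PRODF
import Pool.Agent.Lib.MP_b685ef_ag.ASE.Spec3

section
/-!
# MP_b685ef_ag, theorem LFP: module FORM
-/
set_option linter.all false

namespace ASE

open Finset ASur AST

namespace FORMaux

variable {C : Type} [NormedField C]

theorem ge_le_card (μ : Multiset C) (r : ℝ) : ge μ r ≤ Multiset.card μ := by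
  classical
  unfold ge
  exact Multiset.countP_le_card (p := fun x : C => r ≤ ‖x‖) μ

/-- `X + ∑_i (u_i P_i + v_i Q_i)`. -/
noncomputable def comb {I : Type} [Fintype I] (X : Multiset C) (u v : I → ℕ)
    (P Q : I → Multiset C) : Multiset C :=
  X + ∑ i, (u i • P i + v i • Q i)

variable {I : Type} [Fintype I] (X : Multiset C) (u v : I → ℕ) (P Q : I → Multiset C)

theorem comb_ps (j : ℕ) : ps (comb X u v P Q) j =
    ps X j + ∑ i, ((u i : C) * ps (P i) j + (v i : C) * ps (Q i) j) := by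
  unfold comb
  rw [ps_add, ps_sum]
  congr 1
  refine Finset.sum_congr rfl fun i _ => ?_
  rw [ps_add, ps_nsmul, ps_nsmul]

theorem comb_dc (w : C) : dc (comb X u v P Q) w =
    dc X w + ∑ i, (u i * dc (P i) w + v i * dc (Q i) w) := by
  unfold comb
  rw [dc_add, dc_sum]
  congr 1
  refine Finset.sum_congr rfl fun i _ => ?_
  rw [dc_add, dc_nsmul, dc_nsmul]

theorem comb_cc (r : ℝ) : cc (comb X u v P Q) r =
    cc X r + ∑ i, (u i * cc (P i) r + v i * cc (Q i) r) := by
  unfold comb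
  rw [cc_add, cc_sum]
  congr 1
  refine Finset.sum_congr rfl fun i _ => ?_
  rw [cc_add, cc_nsmul, cc_nsmul]

theorem comb_ge (r : ℝ) : ge (comb X u v P Q) r =
    ge X r + ∑ i, (u i * ge (P i) r + v i * ge (Q i) r) := by
  unfold comb
  rw [ge_add, ge_sum]
  congr 1
  refine Finset.sum_congr rfl fun i _ => ?_
  rw [ge_add, ge_nsmul, ge_nsmul]

theorem comb_norm (r : ℝ) (hr : 1 ≤ r) (hX : ∀ x ∈ X, ‖x‖ ≤ r) (hP : ∀ i, ∀ x ∈ P i, ‖x‖ ≤ 1)
    (hQ : ∀ i, ∀ x ∈ Q i, ‖x‖ ≤ 1) : ∀ x ∈ comb X u v P Q, ‖x‖ ≤ r := by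
  intro x hx
  unfold comb at hx
  rcases Multiset.mem_add.1 hx with hx | hx
  · exact hX x hx
  · rw [Multiset.mem_sum] at hx
    obtain ⟨i, _, hx⟩ := hx
    rcases Multiset.mem_add.1 hx with hx | hx
    · exact (hP i x (Multiset.mem_of_mem_nsmul hx)).trans hr
    · exact (hQ i x (Multiset.mem_of_mem_nsmul hx)).trans hr

theorem toNat_eq (a : ℤ) : ((a.toNat : ℤ) - ((-a).toNat : ℤ)) = a := by omega

theorem toNat_add (a : ℤ) : a.toNat + (-a).toNat = a.natAbs := by omega

end FORMaux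

open FORMaux in
theorem form_thm (hPWR : StmtPWR) (hNCLG : StmtNCLG) (hCMP : StmtCMP) : StmtFORM := by
  intro C _ _ _ I _ n a q w r ε m0 A B γ hq hq1 hw hr hε hA hB hγ hcard hfac hps
  set e : I → Multiset C := fun i => gev (n i) q (γ i) with he
  set o : I → Multiset C := fun i => god (n i) q (γ i) with ho
  set u : I → ℕ := fun i => (a i).toNat with hu
  set v : I → ℕ := fun i => (-a i).toNat with hv
  have hP := fun i => hPWR C (n i) q (γ i) hq hq1
  have he1 : ∀ i, ∀ x ∈ e i, ‖x‖ ≤ 1 := fun i => ((hP i).2.2.2.2 (hγ i)).1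
  have ho1 : ∀ i, ∀ x ∈ o i, ‖x‖ ≤ 1 := fun i => ((hP i).2.2.2.2 (hγ i)).2
  set μ := comb A u v o e with hμ
  set ν := comb B u v e o with hν
  have hμr : ∀ x ∈ μ, ‖x‖ ≤ r := comb_norm A u v o e r hr hA ho1 he1
  have hνr : ∀ x ∈ ν, ‖x‖ ≤ r := comb_norm B u v e o r hr hB he1 ho1
  have huv : ∀ i, ((u i : C) - (v i : C)) = (a i : C) := by
    intro i
    have := toNat_eq (a i)
    have h2 : (((u i : ℤ) - (v i : ℤ) : ℤ) : C) = ((a i : ℤ) : C) := by rw [← this]
    push_cast at h2
    exact h2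
  have huvZ : ∀ i, ((u i : ℤ) - (v i : ℤ)) = a i := fun i => toNat_eq (a i)
  have hdiff : ∀ j, 1 ≤ j → ‖ps μ j - ps ν j‖ ≤ ε := by
    intro j hj
    have h1 : ps μ j - ps ν j = ps A j - ps B j -
        ∑ i, (a i : C) * ((1 - q ^ j) ^ n i * ps (γ i) j) := by
      rw [hμ, hν, comb_ps, comb_ps]
      have h2 : ∑ i, (a i : C) * ((1 - q ^ j) ^ n i * ps (γ i) j) =
          ∑ i, (((u i : C) * ps (e i) j + (v i : C) * ps (o i) j) -
            ((u i : C) * ps (o i) j + (v i : C) * ps (e i) j)) := by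
        refine Finset.sum_congr rfl fun i _ => ?_
        rw [← (hP i).1 j, ← huv i]
        ring
      rw [h2, Finset.sum_sub_distrib]
      ring
    rw [h1]
    exact hps j hj
  have hcoef := hNCLG C μ ν r ε hr hε hμr hνr hdiff
  have hge : ∀ i, u i * ge (o i) ‖w‖ + v i * ge (e i) ‖w‖ ≤
      (a i).natAbs * (2 ^ n i * ge (γ i) ‖w‖) ∧
      u i * ge (e i) ‖w‖ + v i * ge (o i) ‖w‖ ≤ (a i).natAbs * (2 ^ n i * ge (γ i) ‖w‖) := by
    intro i
    have h1 := (hP i).2.2.2.1 ‖w‖
    have h2 := toNat_add (a i)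
    have h3 : ge (e i) ‖w‖ ≤ 2 ^ n i * ge (γ i) ‖w‖ := le_trans (Nat.le_add_right _ _) h1
    have h4 : ge (o i) ‖w‖ ≤ 2 ^ n i * ge (γ i) ‖w‖ := le_trans (Nat.le_add_left _ _) h1
    rw [← h2, Nat.add_mul]
    exact ⟨Nat.add_le_add (Nat.mul_le_mul_left _ h4) (Nat.mul_le_mul_left _ h3),
      Nat.add_le_add (Nat.mul_le_mul_left _ h3) (Nat.mul_le_mul_left _ h4)⟩
  have hgeμ : ge μ ‖w‖ ≤ m0 := by
    rw [hμ, comb_ge]
    have h1 := ge_le_card A ‖w‖
    have h2 := Finset.sum_le_sum fun i (_ : i ∈ Finset.univ) => (hge i).1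
    omega
  have hgeν : ge ν ‖w‖ ≤ m0 := by
    rw [hν, comb_ge]
    have h1 := ge_le_card B ‖w‖
    have h2 := Finset.sum_le_sum fun i (_ : i ∈ Finset.univ) => (hge i).2
    omega
  have h0 : (revP ν).coeff 0 = 1 := by
    rw [Polynomial.coeff_zero_eq_eval_zero]
    unfold revP
    rw [Polynomial.eval_multiset_prod, Multiset.map_map]
    apply Multiset.prod_eq_one
    intro x hx
    obtain ⟨y, _, rfl⟩ := Multiset.mem_map.1 hx
    simp
  have hcmp := hCMP C μ ν w 1 m0 0 hw one_ne_zero hgeμ hgeν (by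
    intro m hm
    rw [one_mul]
    refine lt_of_le_of_lt (hcoef m) ?_
    have hm0 : 0 < ‖(m.factorial : C)‖ := norm_pos_iff.2 (by exact_mod_cast m.factorial_ne_zero)
    rw [div_lt_iff₀ hm0]
    exact hfac m hm) (Nat.zero_le _) (by rw [h0]; simp)
  obtain ⟨_, hcc, hdc⟩ := hcmp
  constructor
  · rw [hμ, hν, comb_dc, comb_dc] at hdc
    have h1 : ∑ i, a i * ∑ s ∈ range (n i + 1),
        (-1) ^ s * ((n i).choose s : ℤ) * (dc (γ i) (w / q ^ s) : ℤ) =
        ∑ i, (((u i : ℤ) * dc (e i) w + v i * dc (o i) w) -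
          ((u i : ℤ) * dc (o i) w + v i * dc (e i) w)) := by
      refine Finset.sum_congr rfl fun i _ => ?_
      rw [← (hP i).2.1 w hw, ← huvZ i]
      ring
    rw [h1, Finset.sum_sub_distrib]
    have h2 : ((dc A w + ∑ i, (u i * dc (o i) w + v i * dc (e i) w) : ℕ) : ℤ) =
        ((dc B w + ∑ i, (u i * dc (e i) w + v i * dc (o i) w) : ℕ) : ℤ) := by rw [hdc]
    push_cast at h2
    linarith
  · rw [hμ, hν, comb_cc, comb_cc] at hcc
    have h1 : ∑ i, a i * ∑ s ∈ range (n i + 1),
        (-1) ^ s * ((n i).choose s : ℤ) * (cc (γ i) (‖w‖ / ‖q‖ ^ s) : ℤ) =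
        ∑ i, (((u i : ℤ) * cc (e i) ‖w‖ + v i * cc (o i) ‖w‖) -
          ((u i : ℤ) * cc (o i) ‖w‖ + v i * cc (e i) ‖w‖)) := by
      refine Finset.sum_congr rfl fun i _ => ?_
      rw [← (hP i).2.2.1 ‖w‖, ← huvZ i]
      ring
    rw [h1, Finset.sum_sub_distrib]
    have h2 : ((cc A ‖w‖ + ∑ i, (u i * cc (o i) ‖w‖ + v i * cc (e i) ‖w‖) : ℕ) : ℤ) =
        ((cc B ‖w‖ + ∑ i, (u i * cc (e i) ‖w‖ + v i * cc (o i) ‖w‖) : ℕ) : ℤ) := by rw [hcc]
    push_cast at h2
    linarith

end ASE
end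

section
/-!
# MP_b685ef_ag, theorem LFP: module FROBH, Frobenius twists of matrices (helper20)
-/
set_option linter.all false

namespace ASE

open Finset ASur AST

namespace FROBHaux

lemma map_inv' {J k κ : Type} [Fintype J] [DecidableEq J] [Field k] [Field κ] (φ : k →+* κ)
    (A : Matrix J J k) : (A⁻¹).map φ = (A.map φ)⁻¹ := by
  rw [Matrix.inv_def, Matrix.inv_def, Ring.inverse_eq_inv', Ring.inverse_eq_inv']
  have h1 : (A.map φ).det = φ A.det := (RingHom.map_det φ A).symm
  have h2 : (A.map φ).adjugate = A.adjugate.map φ := (RingHom.map_adjugate φ A).symm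
  rw [h1, h2, ← map_inv₀]
  ext i j
  simp [Matrix.map_apply, Matrix.smul_apply]

lemma schM_map {I k κ : Type} [Fintype I] [Field k] [Field κ] (φ : k →+* κ) (e : I → ℕ) (m : ℕ)
    (z : Matrix I I k) : schM e m (z.map φ) = (schM e m z).map φ := by
  classical
  unfold schM
  have hb : ∀ Q Q' : ℕ → Prop, blkM e Q Q' (z.map φ) = (blkM e Q Q' z).map φ := fun _ _ => rfl
  rw [hb, hb, hb, hb, ← map_inv', ← Matrix.map_mul, ← Matrix.map_mul,
    Matrix.map_sub φ (fun a b => map_sub φ a b)]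

end FROBHaux

open FROBHaux in
theorem frobh_thm : StmtFROBH := by
  intro p hp k κ _ _ _ _ ι I _ _ e m z Z hZ
  have hφ : ∀ i, Z i = z.map ((iterateFrobenius κ p i).comp ι) := by
    intro i
    ext u v
    rw [hZ i u v, Matrix.map_apply, RingHom.comp_apply, iterateFrobenius_def]
  constructor
  · intro i
    rw [hφ i]
    exact (RingHom.map_det ((iterateFrobenius κ p i).comp ι)
      (blkM e (fun j => j < m) (fun j => j < m) z)).symm
  · intro h
    induction h with
    | zero =>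
      show (1 : Matrix _ _ κ) = (1 : Matrix _ _ k).map ι
      rw [Matrix.map_one ι (map_zero ι) (map_one ι)]
    | succ h ih =>
      show schM e m (Z h) * Pmat (fun i => schM e m (Z i)) h =
        (((schM e m z).map fun x => x ^ (p ^ h)) * Fprod p (schM e m z) h).map ι
      rw [Matrix.map_mul, ih, hφ h, schM_map]
      congr 1
      ext u v
      simp only [Matrix.map_apply, RingHom.comp_apply, iterateFrobenius_def, map_pow]

end ASE
end

section
/-!
# MP_b685ef_ag, theorem LFP: module HHE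
-/
set_option linter.all false

namespace ASE

open Finset ASur AST

theorem hhe_thm : StmtHHE := by
  intro n D K e m
  unfold HH
  refine Finset.sum_congr rfl fun s _ => ?_
  congr 1
  split_ifs with h
  · unfold hh
    congr 2
    ext u
    simp only [Set.mem_setOf_eq]
    constructor
    · rintro ⟨h1, h2⟩
      exact ⟨h1, by omega⟩
    · rintro ⟨h1, h2⟩
      exact ⟨h1, by omega⟩
  · have h0 : {u : Fin n → ℤ | K u ∧ e u + D * s = m} = ∅ := by
      ext u
      simp only [Set.mem_setOf_eq, Set.mem_empty_iff_false, iff_false]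
      rintro ⟨-, h2⟩
      omega
    rw [h0]
    simp

end ASE
end

section
/-! # Module K2D: as `AS/K2C.lean`, with a prescribed primitive `p`-th root of unity. -/
set_option linter.all false

namespace ASE

open Finset ASur AST

universe u v

namespace K2Daux

theorem esymm_mem {F : Type} {K : Type*} [Field F] [Field K] [Algebra F K] [CharZero F]
    [CharZero K] (β : Multiset K)
    (h : ∀ j, 1 ≤ j → IsAlgebraic F (β.map fun x => x ^ j).sum) :
    ∀ k, β.esymm k ∈ algebraicClosure F K := by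
  classical
  intro k
  induction k using Nat.strong_induction_on with
  | _ k ih =>
  have hf : (Finset.univ.val.map (fun i : β => (i : K))) = β := Multiset.map_univ_coe β
  have hes : ∀ n, MvPolynomial.aeval (fun i : β => (i : K)) (MvPolynomial.esymm β F n) =
      β.esymm n := by
    intro n
    rw [MvPolynomial.aeval_esymm_eq_multiset_esymm, hf]
  have hps : ∀ n, MvPolynomial.aeval (fun i : β => (i : K)) (MvPolynomial.psum β F n) =
      (β.map fun x => x ^ n).sum := by
    intro n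
    rw [MvPolynomial.psum, map_sum]
    simp only [map_pow, MvPolynomial.aeval_X]
    conv_rhs => rw [← hf, Multiset.map_map]
    rfl
  rcases Nat.eq_zero_or_pos k with rfl | hk
  · simp only [Multiset.esymm, Multiset.powersetCard_zero_left, Multiset.map_singleton,
      Multiset.prod_zero, Multiset.sum_singleton]
    exact one_mem _
  · have hN := congrArg (MvPolynomial.aeval (fun i : β => (i : K)))
      (MvPolynomial.mul_esymm_eq_sum β F k)
    simp only [map_mul, map_sum, map_pow, map_neg, map_one, map_natCast, hes, hps] at hN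
    have hk0 : (k : K) ≠ 0 := by exact_mod_cast hk.ne'
    have : β.esymm k = (k : K)⁻¹ * ((-1) ^ (k + 1) *
        ∑ a ∈ (antidiagonal k).filter (fun a => a.1 < k), (-1) ^ a.1 * β.esymm a.1 *
          (β.map fun x => x ^ a.2).sum) := by
      rw [← hN, inv_mul_cancel_left₀ hk0]
    rw [this]
    refine mul_mem (inv_mem (natCast_mem _ k)) (mul_mem (pow_mem (neg_mem (one_mem _)) _)
      (sum_mem fun a ha => ?_))
    simp only [Finset.mem_filter, Finset.HasAntidiagonal.mem_antidiagonal] at ha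
    refine mul_mem (mul_mem (pow_mem (neg_mem (one_mem _)) _) (ih _ ha.2)) ?_
    exact mem_algebraicClosure_iff.2 (h _ (by omega))

theorem alg_mem {F : Type} {K : Type*} [Field F] [Field K] [Algebra F K] [CharZero F]
    [CharZero K] (β : Multiset K)
    (h : ∀ j, 1 ≤ j → IsAlgebraic F (β.map fun x => x ^ j).sum) :
    ∀ x ∈ β, x ∈ algebraicClosure F K := by
  classical
  intro x hx
  have hes := esymm_mem β h
  set P : Polynomial K := (β.map fun t => Polynomial.X - Polynomial.C t).prod with hP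
  have hmonic : P.Monic := Polynomial.monic_multiset_prod_of_monic _ _
    fun t _ => Polynomial.monic_X_sub_C t
  have hdeg : P.natDegree = Multiset.card β := by
    rw [hP, Polynomial.natDegree_multiset_prod_X_sub_C_eq_card]
  have hcoe : ∀ n, P.coeff n ∈ algebraicClosure F K := by
    intro n
    rcases le_or_gt n (Multiset.card β) with hn | hn
    · rw [hP, Multiset.prod_X_sub_C_coeff β hn]
      exact mul_mem (pow_mem (neg_mem (one_mem _)) _) (hes _)
    · rw [Polynomial.coeff_eq_zero_of_natDegree_lt (by omega)]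
      exact zero_mem _
  have hlift : P ∈ Polynomial.lifts (algebraMap (algebraicClosure F K) K) := by
    rw [Polynomial.lifts_iff_coeff_lifts]
    intro n
    exact ⟨⟨P.coeff n, hcoe n⟩, rfl⟩
  obtain ⟨q, hq⟩ := (Polynomial.mem_lifts P).1 hlift
  have hq0 : q ≠ 0 := by
    rintro rfl
    rw [Polynomial.map_zero] at hq
    exact hmonic.ne_zero hq.symm
  have hroot : Polynomial.eval x P = 0 := by
    rw [hP, Polynomial.eval_multiset_prod]
    apply Multiset.prod_eq_zero
    rw [Multiset.mem_map]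
    refine ⟨Polynomial.X - Polynomial.C x, Multiset.mem_map_of_mem _ hx, by simp⟩
  have hx' : IsAlgebraic (algebraicClosure F K) x := by
    refine ⟨q, hq0, ?_⟩
    rw [Polynomial.aeval_def, ← Polynomial.eval_map, hq, hroot]
  rw [mem_algebraicClosure_iff]
  exact hx'.restrictScalars F


theorem emb (F₀ : Type) (F : Type*) [Field F₀] [Field F] [Algebra F₀ F] (C : Type) [Field C]
    [IsAlgClosed C] [Algebra F₀ C] (x : F) (hx : x ∈ algebraicClosure F₀ F) (y : C)
    (hy : Polynomial.aeval y (minpoly F₀ x) = 0) :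
    ∃ g : algebraicClosure F₀ F →+* C, g ⟨x, hx⟩ = y := by
  have h1 : minpoly F₀ (⟨x, hx⟩ : algebraicClosure F₀ F) = minpoly F₀ x :=
    (minpoly.algebraMap_eq (B := algebraicClosure F₀ F) (B' := F)
      (algebraMap (algebraicClosure F₀ F) F).injective ⟨x, hx⟩).symm
  rw [← h1] at hy
  obtain ⟨g, hg⟩ := IntermediateField.exists_algHom_of_splits_of_aeval (F := F₀)
    (E := algebraicClosure F₀ F) (K := C) (fun s =>
      ⟨(Algebra.IsAlgebraic.isAlgebraic (R := F₀) s).isIntegral, IsAlgClosed.splits _⟩) hy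
  exact ⟨(g : algebraicClosure F₀ F →+* C), hg⟩

end K2Daux

open K2Daux in
theorem k2d_thm : StmtK2D.{u} := by
  intro F _ _ _ C _ _ _ p _ ζ ζ' h1 h2 β hβ
  have hp : 0 < p := (Fact.out : p.Prime).pos
  have hz : ζ ∈ algebraicClosure ℚ F := by
    rw [mem_algebraicClosure_iff]
    have : IsIntegral ℚ ζ := by
      refine IsIntegral.of_pow hp ?_
      rw [h1.pow_eq_one]
      exact isIntegral_one
    exact this.isAlgebraic
  obtain ⟨g, hg⟩ := emb ℚ F C ζ hz ζ' (by
    rw [← Polynomial.cyclotomic_eq_minpoly_rat h1 hp, Polynomial.aeval_def,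
      ← Polynomial.eval_map, Polynomial.map_cyclotomic]
    exact h2.isRoot_cyclotomic hp)
  refine ⟨(algebraicClosure ℚ F).toSubfield, g, hz, hg, ?_⟩
  intro x hx
  exact alg_mem β hβ x hx

end ASE
end

section
/-!
# MP_b685ef_ag, theorem LFP: everything depends on the leading form; the criterion with `‖x‖^D`
-/
set_option linter.all false

namespace ASE

open Finset ASur AST

open Classical in
theorem cH_leading (p D : ℕ) {n : ℕ} {k : Type} [Field k] (K : (Fin n → ℤ) → Prop)
    (e : (Fin n → ℤ) → ℕ) (E : ℕ → ℚ) (hE : E 0 = 1) (f : (Fin n → ℤ) →₀ k)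
    (hf : ∀ u ∈ f.support, K u ∧ e u ≤ D) (u v : Fin n → ℤ) :
    (if e v ≤ p * e u then
      ∑ l ∈ (Fintype.piFinset (fun _ : (f.filter fun u => e u = D).support =>
          range (p * e u - e v + 1))).filter
        (fun l => ∑ x, (l x : ℤ) • x.1 = p • u - v ∧ D * ∑ x, l x = p * e u - e v),
      ∏ x : (f.filter fun u => e u = D).support,
        ((E (l x) : ℚ) : k) * (f.filter fun u => e u = D) x.1 ^ l x
    else 0) = cH p D e E f u v := by
  have hP : Pair D K e f (f.filter fun u => e u = D) := by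
    refine ⟨hf, ?_, ?_⟩
    · intro x hx
      rw [Finsupp.support_filter, mem_filter] at hx
      exact hf x hx.1
    · intro x _ hx
      rw [Finsupp.filter_apply_pos (fun u => e u = D) f hx]
  have hmem : ∀ y, y ∈ (f.filter fun u => e u = D).support → e y = D := by
    intro y hy
    rw [Finsupp.support_filter, mem_filter] at hy
    exact hy.2
  unfold cH
  split_ifs with h
  · rw [deph_thm n D K e k E hE f _ hP (p • u - v) (p * e u - e v)]
    unfold gH
    refine Finset.sum_congr ?_ fun _ _ => rfl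
    ext l
    simp only [mem_filter]
    constructor
    · rintro ⟨h1, h2, h3⟩
      exact ⟨h1, fun x _ => hmem x.1 x.2, h2, h3⟩
    · rintro ⟨h1, -, h2, h3⟩
      exact ⟨h1, h2, h3⟩
  · rfl

open Classical in
/-- The criterion, with the norms of the elements instead of real roots. -/
def StmtEQUIVF : Prop :=
    ∀ (p : ℕ) [Fact p.Prime] (D : ℕ), 1 ≤ D → ∀ (C : Type) [NormedField C]
      [IsUltrametricDist C] [CharZero C] [IsAlgClosed C], ‖(p : C)‖ < 1 →
      ∀ j : ℤ_[p] →+* C, (∀ x, ‖j x‖ ≤ 1) → ∀ E : ℕ → ℚ, IsAHQ p E →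
      ∀ (k : Type) [Field k] [Fintype k] [Algebra (ZMod p) k]
        (n : ℕ) (K : (Fin n → ℤ) → Prop) (e : (Fin n → ℤ) → ℕ), Wgt K e →
      ∀ (f : (Fin n → ℤ) →₀ k), (∀ u ∈ f.support, K u ∧ e u ≤ D) →
      ∀ (ψ : AddChar (ZMod p) C), ψ ≠ 1 → ∀ (A B : Multiset C),
      (∀ (E' : Type) [Field E'] [Fintype E'] [Algebra (ZMod p) E'] [Algebra k E'],
        ps A (Module.finrank k E') - ps B (Module.finrank k E') = ST ψ f E') →
      ∀ M : ℕ, (∀ m, m ≤ M →
        (Multiset.countP (fun x => ‖x‖ ^ D = ‖(Fintype.card k : C)‖ ^ m) A : ℤ) -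
          Multiset.countP (fun x => ‖x‖ ^ D = ‖(Fintype.card k : C)‖ ^ m) B =
          (-1) ^ n * HH D K e m) ↔
        ∀ m, m ≤ M + 1 → dH p D K e E f m ≠ 0

open Classical in
theorem EQUIVF_thm (hEQ : StmtEQUIVH) (hTEMB : ASur.StmtTEMB) : StmtEQUIVF := by
  intro p _ D hD C _ _ _ _ hp j hj E hE k _ _ _ n K e hW f hf ψ hψ A B hAB M
  obtain ⟨ι⟩ := hTEMB p C hp k
  rw [← hEQ p D hD C hp j hj E hE k ι n K e hW f hf ψ hψ A B hAB M]
  have hD0 : D ≠ 0 := by omega
  have key : ∀ (m : ℕ) (r : ℝ), 0 ≤ r → r ^ D = ‖(Fintype.card k : C)‖ ^ m → ∀ A : Multiset C,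
      Multiset.countP (fun x => ‖x‖ ^ D = ‖(Fintype.card k : C)‖ ^ m) A = cc A r := by
    intro m r hr hrD A
    unfold cc
    refine Multiset.countP_congr rfl fun x _ => ?_
    rw [← hrD]
    exact propext (pow_left_inj₀ (norm_nonneg _) hr hD0)
  constructor
  · intro h m hm r hr hrD
    have := h m hm
    rw [key m r hr hrD, key m r hr hrD] at this
    exact this
  · intro h m hm
    obtain ⟨r, hr, hrD⟩ : ∃ r : ℝ, 0 ≤ r ∧ r ^ D = ‖(Fintype.card k : C)‖ ^ m := by
      refine ⟨(‖(Fintype.card k : C)‖ ^ m) ^ ((D : ℝ)⁻¹), Real.rpow_nonneg (by positivity) _, ?_⟩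
      exact Real.rpow_inv_natCast_pow (by positivity) hD0
    rw [key m r hr hrD, key m r hr hrD]
    exact h m hm r hr hrD

end ASE
end

section
/-!
# MP_b685ef_ag, theorem LFP, part (A), module LEADH (helper32)
-/
set_option linter.all false

namespace ASE

open Finset ASur AST

namespace LEADHaux

open Classical in
/-- The ring homomorphism `x ↦ (ι x)^{p^i}` applied to `gH`. -/
theorem map_gH {n : ℕ} {k κ : Type} [Field k] [Field κ] (p : ℕ) [Fact p.Prime] [CharP κ p]
    (ι : k →+* κ) (D : ℕ) (e : (Fin n → ℤ) → ℕ) (E : ℕ → ℚ) (f : (Fin n → ℤ) →₀ k)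
    (w : Fin n → ℤ) (a i : ℕ) :
    ι (gH D e E f w a) ^ (p ^ i) =
      ∑ l ∈ (Fintype.piFinset (fun _ : f.support => range (a + 1))).filter
        (fun l => (∀ x, l x ≠ 0 → e x.1 = D) ∧ ∑ x, (l x : ℤ) • x.1 = w ∧ D * ∑ x, l x = a),
      ∏ x : f.support, ((E (l x) : ℚ) : κ) * (ι (f x.1) ^ (p ^ i)) ^ l x := by
  have h : ∀ x : k, ι x ^ (p ^ i) = ((iterateFrobenius κ p i).comp ι) x := fun x => by
    rw [RingHom.comp_apply, iterateFrobenius_def]
  rw [h]
  unfold gH
  rw [map_sum]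
  refine Finset.sum_congr rfl fun l _ => ?_
  rw [map_prod]
  refine Finset.prod_congr rfl fun x _ => ?_
  rw [map_mul, map_ratCast, map_pow, ← h]

end LEADHaux

open LEADHaux in
open Classical in
theorem leadh_thm (hE : ASX.StmtEXPX) (hS : StmtSUBE) : StmtLEADH := by
  intro p _ D hD C _ _ hpC ζ ρ ε Θ E J0 hΘ hEE hlam hρ hρ1 k _ _ ι τ hτ n K e hW f hf i w hw hJ
  haveI : CharP (KK C) p := charP_KK hpC
  let c : f.support → C := fun u => τ (f u.1) ^ (p ^ i)
  have hc : ∀ u, ‖c u‖ ≤ 1 := fun u => by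
    show ‖τ (f u.1) ^ (p ^ i)‖ ≤ 1
    rw [norm_pow]
    exact pow_le_one₀ (norm_nonneg _) (hτ.norm_le _)
  have hrc : ∀ u, rd (c u) = ι (f u.1) ^ (p ^ i) := fun u => by
    show rd (τ (f u.1) ^ (p ^ i)) = _
    rw [rd_pow (hτ.norm_le _), hτ.rd_eq]
  have hle : ∀ l : f.support → ℕ, ∑ u, (l u : ℤ) • u.1 = w →
      e w ≤ ∑ u, l u * e u.1 ∧ ∑ u, l u * e u.1 ≤ D * ∑ u, l u := by
    intro l hl
    have h1 := (hS n K e hW f.support univ l (fun u => u.1) (fun u _ => (hf u.1 u.2).1)).2
    rw [hl] at h1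
    refine ⟨h1, ?_⟩
    rw [Finset.mul_sum]
    refine Finset.sum_le_sum fun u _ => ?_
    rw [Nat.mul_comm]
    exact Nat.mul_le_mul_right _ (hf u.1 u.2).2
  have hT : ∀ l : f.support → ℕ,
      ‖(if ∑ u : f.support, (l u : ℤ) • u.1 = w then
        ∏ u : f.support, Θ.coeff (l u) * c u ^ l u else 0) / ρ ^ e w‖ ≤ 1 ∧
      rd ((if ∑ u : f.support, (l u : ℤ) • u.1 = w then
        ∏ u : f.support, Θ.coeff (l u) * c u ^ l u else 0) / ρ ^ e w) =
      if ∑ u : f.support, (l u : ℤ) • u.1 = w ∧ e w = D * ∑ u, l u then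
        ∏ u : f.support, EE ζ Θ (l u) * rd (c u) ^ l u else 0 := by
    intro l
    by_cases hl : ∑ u : f.support, (l u : ℤ) • u.1 = w
    · have h1 := ASX.LEADXaux.term hΘ.bound hlam hρ hρ1 c hc l ((hle l hl).1.trans (hle l hl).2)
      rw [if_pos hl]
      refine ⟨h1.1, ?_⟩
      rw [h1.2]
      simp only [hl, true_and]
    · rw [if_neg hl, if_neg (fun h => hl h.1), zero_div, norm_zero, rd_zero]
      exact ⟨zero_le_one, rfl⟩
  -- the remaining terms
  have hU : ∀ l : f.support → ℕ, ∑ u : f.support, (l u : ℤ) • u.1 = w →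
      e w = D * ∑ u, l u → ∀ u, l u ≠ 0 → e u.1 = D := by
    intro l hl h2 u hu
    have h3 := hle l hl
    have h4 : ∑ u, l u * e u.1 = ∑ u, l u * D := by
      rw [← Finset.sum_mul, Nat.mul_comm _ D]
      omega
    have h5 := (Finset.sum_eq_sum_iff_of_le (s := univ) fun u _ =>
      Nat.mul_le_mul_left (l u) (hf u.1 u.2).2).1 h4
    exact Nat.eq_of_mul_eq_mul_left (Nat.pos_of_ne_zero hu) (h5 u (mem_univ u))
  have hlt : ∀ l : f.support → ℕ, e w = D * ∑ u, l u → ∀ u, l u ≤ e w := by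
    intro l h2 u
    have h1 : l u ≤ ∑ u, l u := Finset.single_le_sum (fun _ _ => Nat.zero_le _) (mem_univ u)
    calc l u ≤ ∑ u, l u := h1
      _ ≤ D * ∑ u, l u := Nat.le_mul_of_pos_left _ hD
      _ = e w := h2.symm
  rw [hE p C k τ Θ n f i w, Finset.sum_div, rd_sum _ fun l _ => (hT l).1]
  rw [Finset.sum_congr rfl fun l _ => (hT l).2]
  rw [map_gH p ι D e E f w (e w) i]
  set N := max Θ.natDegree (e w) with hN
  have hsubL : Fintype.piFinset (fun _ : f.support => range (Θ.natDegree + 1)) ⊆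
      Fintype.piFinset (fun _ : f.support => range (N + 1)) := by
    intro l hl
    rw [Fintype.mem_piFinset] at hl ⊢
    intro u
    have := hl u
    rw [Finset.mem_range] at this ⊢
    omega
  have hL : ∑ l ∈ Fintype.piFinset (fun _ : f.support => range (Θ.natDegree + 1)),
      (if ∑ u : f.support, (l u : ℤ) • u.1 = w ∧ e w = D * ∑ u, l u then
        ∏ u : f.support, EE ζ Θ (l u) * rd (c u) ^ l u else 0) =
      ∑ l ∈ Fintype.piFinset (fun _ : f.support => range (N + 1)),
      (if ∑ u : f.support, (l u : ℤ) • u.1 = w ∧ e w = D * ∑ u, l u then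
        ∏ u : f.support, EE ζ Θ (l u) * rd (c u) ^ l u else 0) := by
    refine Finset.sum_subset hsubL fun l _ hl => ?_
    rw [Fintype.mem_piFinset] at hl
    push Not at hl
    obtain ⟨u, hu⟩ := hl
    rw [Finset.mem_range, not_lt] at hu
    have h1 : EE ζ Θ (l u) = 0 := by
      show rd (Θ.coeff (l u) / (ζ - 1) ^ l u) = 0
      rw [Polynomial.coeff_eq_zero_of_natDegree_lt (by omega), zero_div, rd_zero]
    rw [Finset.prod_eq_zero (mem_univ u) (by rw [h1, zero_mul]), ite_self]
  rw [hL]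
  have hR : (Fintype.piFinset (fun _ : f.support => range (e w + 1))).filter
      (fun l => (∀ x, l x ≠ 0 → e x.1 = D) ∧ ∑ x, (l x : ℤ) • x.1 = w ∧ D * ∑ x, l x = e w) =
      (Fintype.piFinset (fun _ : f.support => range (N + 1))).filter
      (fun l => ∑ u : f.support, (l u : ℤ) • u.1 = w ∧ e w = D * ∑ u, l u) := by
    ext l
    rw [Finset.mem_filter, Finset.mem_filter, Fintype.mem_piFinset, Fintype.mem_piFinset]
    constructor
    · rintro ⟨h1, -, h3, h4⟩
      refine ⟨fun u => ?_, h3, h4.symm⟩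
      have := h1 u
      rw [Finset.mem_range] at this ⊢
      omega
    · rintro ⟨h1, h3, h4⟩
      refine ⟨fun u => ?_, hU l h3 h4, h3, h4.symm⟩
      have := hlt l h4 u
      rw [Finset.mem_range]
      omega
  rw [hR, Finset.sum_filter]
  refine Finset.sum_congr rfl fun l _ => ?_
  split_ifs with h
  · refine Finset.prod_congr rfl fun u _ => ?_
    rw [hEE (l u) ((hlt l h.2 u).trans_lt hJ), hrc]
  · rfl

end ASE
end

section
/-!
# MP_b685ef_ag, leading form principle, part (A): module MAINH, the residues of the eigenvalues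
-/
set_option linter.all false

namespace ASE

open Finset ASur AST

namespace MAINHaux

variable {C : Type} [NormedField C]

/-- A bound for the norms of finitely many elements. -/
theorem exists_bound (A : Multiset C) : ∃ r : ℝ, 1 ≤ r ∧ ∀ x ∈ A, ‖x‖ ≤ r := by
  induction A using Multiset.induction_on with
  | empty => exact ⟨1, le_rfl, by simp⟩
  | cons a A ih =>
    obtain ⟨r, hr, h⟩ := ih
    refine ⟨max r ‖a‖, hr.trans (le_max_left _ _), ?_⟩
    intro x hx
    rcases Multiset.mem_cons.1 hx with rfl | hx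
    · exact le_max_right _ _
    · exact (h x hx).trans (le_max_left _ _)

/-- A small `ε`. -/
theorem exists_eps (r : ℝ) (hr : 1 ≤ r) (m0 : ℕ) (g : ℕ → ℝ) (hg : ∀ m, 0 < g m) :
    ∃ ε : ℝ, 0 < ε ∧ ∀ m, m ≤ m0 → ε * r ^ m < g m := by
  induction m0 with
  | zero =>
    refine ⟨g 0 / 2, half_pos (hg 0), ?_⟩
    intro m hm
    have : m = 0 := by omega
    subst this
    rw [pow_zero, mul_one]
    exact half_lt_self (hg 0)
  | succ m0 ih =>
    obtain ⟨ε, hε, h⟩ := ih
    have hrp : 0 < r ^ (m0 + 1) := by positivity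
    refine ⟨min ε (g (m0 + 1) / r ^ (m0 + 1) / 2), lt_min hε (by
      have := hg (m0 + 1)
      positivity), ?_⟩
    intro m hm
    rcases Nat.lt_or_ge m (m0 + 1) with hlt | hge
    · refine lt_of_le_of_lt ?_ (h m (by omega))
      exact mul_le_mul_of_nonneg_right (min_le_left _ _) (by positivity)
    · have : m = m0 + 1 := by omega
      subst this
      have h1 : min ε (g (m0 + 1) / r ^ (m0 + 1) / 2) * r ^ (m0 + 1) ≤
          (g (m0 + 1) / r ^ (m0 + 1) / 2) * r ^ (m0 + 1) :=
        mul_le_mul_of_nonneg_right (min_le_right _ _) hrp.le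
      have h2 : (g (m0 + 1) / r ^ (m0 + 1) / 2) * r ^ (m0 + 1) = g (m0 + 1) / 2 := by
        field_simp
      rw [h2] at h1
      exact lt_of_le_of_lt h1 (half_lt_self (hg _))

theorem dc_eq_zero_iff (μ : Multiset C) (z : C) (h : ∀ x ∈ μ, ¬ ‖x - z‖ < ‖z‖) : dc μ z = 0 := by
  classical
  unfold dc
  rw [Multiset.countP_eq_zero]
  exact h

theorem ge_mono (μ : Multiset C) {r s : ℝ} (h : r ≤ s) : ge μ s ≤ ge μ r := by
  classical
  unfold ge
  induction μ using Multiset.induction_on with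
  | empty => simp
  | cons a μ ih =>
    by_cases h1 : s ≤ ‖a‖
    · rw [Multiset.countP_cons_of_pos (p := fun x : C => s ≤ ‖x‖) μ h1,
        Multiset.countP_cons_of_pos (p := fun x : C => r ≤ ‖x‖) μ (h.trans h1)]
      omega
    · rw [Multiset.countP_cons_of_neg (p := fun x : C => s ≤ ‖x‖) μ h1, Multiset.countP_cons]
      omega

end MAINHaux

open MAINHaux

theorem mainh_thm (hPAIRH : StmtPAIRH) (hNPB : StmtNPB) (hFORM : StmtFORM) (hOFFC : StmtOFFC)
    (hPLAM : AST.StmtPLAM) (hZETA : ASur.StmtZETA) (hEXT : ASur.StmtEXT) : StmtMAINH := by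
  classical
  intro p hpF D hD C _ _ _ _ hpC j hj E hE k _ _ _ ι I _ n K e f a hW hf ψ hψ ρ hρ A B hAB M hdH
  obtain ⟨h, hh'⟩ : ∃ h, h = Module.finrank (ZMod p) k := ⟨_, rfl⟩
  rw [← hh']
  have hp2 : 2 ≤ p := hpF.out.two_le
  have hh1 : 1 ≤ h := hh' ▸ Module.finrank_pos
  have hprim := prim_of_char ψ hψ
  obtain ⟨hz0, hz1, hz2, -⟩ := hZETA p C hpC (ψ 1) hprim
  obtain ⟨hl1, hl2⟩ := hPLAM p C hpC (ψ 1) hprim
  have hρ0 : ρ ≠ 0 := by
    rintro rfl
    rw [zero_pow (by omega)] at hρ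
    exact hz0 hρ.symm
  have hρn : 0 < ‖ρ‖ := norm_pos_iff.2 hρ0
  have hρ1 : ‖ρ‖ < 1 := by
    by_contra hc
    have : 1 ≤ ‖ρ‖ ^ D := one_le_pow₀ (not_lt.1 hc)
    rw [← norm_pow, hρ] at this
    linarith
  have hcard : Fintype.card k = p ^ h := by
    rw [Module.card_eq_pow_finrank (K := ZMod p), ZMod.card, hh']
  set t : ℝ := ‖ρ‖ ^ ((p - 1) * h) with ht
  have ht0 : 0 < t := pow_pos hρn _
  have hph : 0 < (p - 1) * h := Nat.mul_pos (by omega) (by omega)
  have ht1 : t < 1 := pow_lt_one₀ (norm_nonneg _) hρ1 (by omega)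
  set q : C := (Fintype.card k : C) with hq
  have hqp : q = (p : C) ^ h := by
    rw [hq, hcard]
    push_cast
    rfl
  have hp0 : (p : C) ≠ 0 := Nat.cast_ne_zero.2 (by omega)
  have hq0 : q ≠ 0 := by
    rw [hqp]
    exact pow_ne_zero _ hp0
  have hqt : ‖q‖ = t ^ D := by
    rw [hqp, norm_pow, ← hz2, ← hρ, norm_pow, ht, ← pow_mul, ← pow_mul, ← pow_mul]
    congr 1
    ring
  have hq1 : ‖q‖ < 1 := by
    rw [hqt]
    exact pow_lt_one₀ ht0.le ht1 (by omega)
  have hwn : ∀ m : ℕ, ‖ρ ^ ((p - 1) * m * h)‖ = t ^ m := by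
    intro m
    rw [norm_pow, ht, ← pow_mul]
    congr 1
    ring
  -- the formula with the approximate multisets
  have key : ∀ z : C, z ≠ 0 → t ^ M ≤ ‖z‖ → ∃ γ : I → Multiset C,
      (∀ i, ∀ x ∈ γ i, ‖x‖ ≤ 1) ∧
      (∀ i, gc (γ i) (t ^ M) = ∑ l ∈ range M, hh (K i) (e i) l) ∧
      (∀ i, ∀ l, l < M → cc (γ i) (t ^ l) = hh (K i) (e i) l) ∧
      (∀ i, ∀ m, m ≤ M → ∀ w : C, ‖w‖ = t ^ m → dc (γ i) w =
        muH ι p D h (K i) (e i) E (f i) m (rd (w / ρ ^ ((p - 1) * m * h)))) ∧
      (dc A z : ℤ) - dc B z = ∑ i, a i * ((-1) ^ n i * ∑ s ∈ range (n i + 1),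
        (-1) ^ s * ((n i).choose s : ℤ) * (dc (γ i) (z / q ^ s) : ℤ)) := by
    intro z hz hzM
    obtain ⟨r1, hr1, hA⟩ := exists_bound A
    obtain ⟨r2, hr2, hB⟩ := exists_bound B
    obtain ⟨r, hr⟩ : ∃ r, r = max r1 r2 := ⟨_, rfl⟩
    have hr1' : 1 ≤ r := hr ▸ hr1.trans (le_max_left _ _)
    set a' : I → ℤ := fun i => (-1) ^ n i * a i with ha'
    obtain ⟨m0, hm0⟩ : ∃ m0, m0 = Multiset.card A + Multiset.card B +
      ∑ i, (a' i).natAbs * (2 ^ n i * ss (hh (K i) (e i)) (M + 1)) := ⟨_, rfl⟩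
    have hzn : 0 < ‖z‖ := norm_pos_iff.2 hz
    obtain ⟨ε, hε, hε'⟩ := exists_eps r hr1' m0 (fun m => ‖z‖ ^ m * ‖(m.factorial : C)‖)
      (fun m => mul_pos (pow_pos hzn _) (norm_pos_iff.2 (Nat.cast_ne_zero.2
        (Nat.factorial_ne_zero m))))
    have hP := fun i => hPAIRH p D hD C hpC j hj E hE k ι (n i) (K i) (e i) (hW i) (f i) (hf i) ψ
      hψ ρ hρ ε hε (M + 1)
    rw [← hh'] at hP
    choose γ hγ1 hγ2 hγ3 using hP
    have hN := fun i => hNPB C (γ i) t (hh (K i) (e i)) (M + 1) ht0 ht1 (hγ1 i)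
    refine ⟨γ, fun i => (hN i).1, ?_, ?_, ?_, ?_⟩
    · intro i
      have h1 := (hγ2 i M (by omega) (hdH i M le_rfl)).1
      rw [hwn] at h1
      exact h1
    · intro i l hl
      have h1 := (hγ2 i l (by omega) (hdH i l hl.le)).2.1.1 (hdH i (l + 1) (by omega))
      rw [hwn] at h1
      exact h1
    · intro i m hm w hw
      have h1 := (hγ2 i m (by omega) (hdH i m hm)).2.2 w (by rw [hwn]; exact hw)
      exact h1
    · have hF := (hFORM C I n a' q z r ε m0 A B γ hq0 hq1.le hz hr1' hε.le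
        (fun x hx => (hA x hx).trans (hr ▸ le_max_left _ _))
        (fun x hx => (hB x hx).trans (hr ▸ le_max_right _ _)) (fun i => (hN i).1) ?_ hε' ?_).1
      · rw [hF]
        refine Finset.sum_congr rfl fun i _ => ?_
        simp only [ha']
        ring
      · rw [hm0]
        refine Nat.add_le_add_left (Finset.sum_le_sum fun i _ => Nat.mul_le_mul_left _
          (Nat.mul_le_mul_left _ ?_)) _
        exact (ge_mono _ hzM).trans ((hN i).2.1 M le_rfl)
      · intro d hd
        obtain ⟨E', i1, i2, i3, i4, hE'⟩ := hEXT p k d hd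
        have h1 := hAB E'
        rw [hE'] at h1
        rw [h1]
        have h2 : ∑ i, (a i : C) * ST ψ (f i) E' - ∑ i, (a' i : C) * ((1 - q ^ d) ^ n i *
            ps (γ i) d) = ∑ i, (a i : C) * (ST ψ (f i) E' - (q ^ d - 1) ^ n i * ps (γ i) d) := by
          rw [← Finset.sum_sub_distrib]
          refine Finset.sum_congr rfl fun i _ => ?_
          have h3 : (1 - q ^ d) ^ n i = (-1) ^ n i * (q ^ d - 1) ^ n i := by
            rw [← mul_pow]
            congr 1
            ring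
          have h4 : ((-1 : C) ^ n i) * (-1) ^ n i = 1 := by
            rw [← mul_pow]
            simp
          simp only [ha']
          push_cast
          rw [h3]
          linear_combination (- (a i : C) * (q ^ d - 1) ^ n i * ps (γ i) d) * h4
        rw [h2]
        refine IsUltrametricDist.norm_sum_le_of_forall_le_of_nonneg hε.le fun i _ => ?_
        rw [norm_mul]
        have h5 := hγ3 i E'
        rw [hE'] at h5
        calc ‖(a i : C)‖ * ‖ST ψ (f i) E' - (q ^ d - 1) ^ n i * ps (γ i) d‖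
            ≤ 1 * ε := mul_le_mul (IsUltrametricDist.norm_intCast_le_one C _) h5
              (norm_nonneg _) zero_le_one
          _ = ε := one_mul _
  have hdiv : ∀ (z : C) (s : ℕ), ‖z / q ^ s‖ = ‖z‖ / t ^ (D * s) := by
    intro z s
    rw [norm_div, norm_pow, hqt, ← pow_mul]
  refine ⟨?_, ?_⟩
  · intro m hm z hz
    rw [hwn] at hz
    have hz0' : z ≠ 0 := by
      rintro rfl
      rw [norm_zero] at hz
      exact (pow_pos ht0 m).ne hz
    obtain ⟨γ, g1, -, -, g4, g5⟩ := key z hz0' (by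
      rw [hz]
      exact pow_le_pow_of_le_one ht0.le ht1.le hm)
    rw [g5]
    refine Finset.sum_congr rfl fun i _ => ?_
    congr 2
    unfold NH
    refine Finset.sum_congr rfl fun s _ => ?_
    congr 1
    by_cases hs : D * s ≤ m
    · rw [if_pos hs]
      have h1 : ‖z / q ^ s‖ = t ^ (m - D * s) := by
        rw [hdiv, hz, div_eq_iff (pow_ne_zero _ ht0.ne'), ← pow_add]
        congr 1
        omega
      rw [g4 i (m - D * s) (by omega) _ h1]
      congr 2
      -- the residues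
      set u : C := (p : C) / (ψ 1 - 1) ^ (p - 1) with hu
      have hu0 : u ≠ 0 := by
        intro h0
        rw [h0, norm_zero] at hl1
        exact zero_ne_one hl1
      have hui : ‖u⁻¹‖ = 1 := by rw [norm_inv, hl1, inv_one]
      have hri : rd u⁻¹ = -1 := by
        have h2 := rd_mul (C := C) hl1.le hui.le
        rw [mul_inv_cancel₀ hu0, rd_one, hl2] at h2
        linear_combination h2
      have h3 : z / q ^ s / ρ ^ ((p - 1) * (m - D * s) * h) =
          z / ρ ^ ((p - 1) * m * h) * u⁻¹ ^ (h * s) := by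
        have h4 : ρ ^ ((p - 1) * m * h) =
            ρ ^ ((p - 1) * (m - D * s) * h) * ((ψ 1 - 1) ^ (p - 1)) ^ (h * s) := by
          rw [← hρ, ← pow_mul, ← pow_mul, ← pow_add]
          congr 1
          have h5 : m = (m - D * s) + D * s := by omega
          conv_lhs => rw [h5]
          ring
        rw [h4, hqp, hu, inv_div, div_pow]
        have h6 : ρ ^ ((p - 1) * (m - D * s) * h) ≠ 0 := pow_ne_zero _ hρ0
        have h7 : ((ψ 1 - 1) ^ (p - 1)) ^ (h * s) ≠ 0 := pow_ne_zero _ (pow_ne_zero _ hz0)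
        have h8 : (p : C) ^ (h * s) ≠ 0 := pow_ne_zero _ hp0
        rw [← pow_mul]
        field_simp
      rw [h3, rd_mul, rd_pow, hri]
      · exact hui.le
      · rw [norm_div, hwn, hz, div_self (pow_ne_zero _ ht0.ne')]
      · rw [norm_pow, hui, one_pow]
    · rw [if_neg hs]
      rw [dc_eq_zero_iff, Nat.cast_zero]
      intro x hx hlt
      have h1 := norm_eq_of_sub_lt hlt
      have h2 := g1 i x hx
      rw [h1, hdiv, hz, div_le_one (pow_pos ht0 _)] at h2
      exact absurd h2 (not_le.2 (pow_lt_pow_right_of_lt_one₀ ht0 ht1 (by omega)))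
  · intro z hz hzM hoff
    rw [hwn] at hzM
    obtain ⟨γ, g1, g2, g3, g4, g5⟩ := key z hz hzM
    rw [g5]
    refine Finset.sum_eq_zero fun i _ => ?_
    rw [Finset.sum_eq_zero, mul_zero, mul_zero]
    intro s _
    rw [dc_eq_zero_iff, Nat.cast_zero, mul_zero]
    intro x hx hlt
    have h1 := norm_eq_of_sub_lt hlt
    have hlt' : t ^ M < ‖z‖ := lt_of_le_of_ne hzM (fun h' => hoff M le_rfl (by rw [hwn]; exact h'.symm))
    have h2 : t ^ M < ‖x‖ := by
      rw [h1, hdiv]
      refine lt_of_lt_of_le hlt' ?_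
      rw [le_div_iff₀ (pow_pos ht0 _)]
      exact mul_le_of_le_one_right (norm_nonneg _) (pow_le_one₀ ht0.le ht1.le)
    obtain ⟨l, hl, hl'⟩ := hOFFC C (γ i) t (hh (K i) (e i)) M ht0 ht1 (g3 i) (g2 i) x hx h2
    rw [h1, hdiv, div_eq_iff (pow_ne_zero _ ht0.ne'), ← pow_add] at hl'
    rcases Nat.lt_or_ge M (l + D * s) with hlt2 | hge
    · have h3 : t ^ (l + D * s) < t ^ M := pow_lt_pow_right_of_lt_one₀ ht0 ht1 hlt2
      rw [← hl'] at h3
      exact absurd hzM (not_le.2 h3)
    · exact hoff (l + D * s) hge (by rw [hwn]; exact hl')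

end ASE
end

section
/-!
# ASE, module MULT: generalized eigenspaces and multiplicities
-/
set_option linter.all false

namespace ASE

universe u v

namespace MULTaux

open Module.End

theorem max_le {F : Type u} [Field F] {W : Type v} [AddCommGroup W] [Module F W]
    [FiniteDimensional F W] (φ : Module.End F W) (x : F) (b : ℕ)
    (hb : Module.finrank F (φ.maxGenEigenspace x) ≤ b) :
    φ.maxGenEigenspace x ≤ φ.genEigenspace x b := by
  intro w hw
  rw [mem_genEigenspace_nat]
  have hcomm : Commute φ (φ - x • (1 : Module.End F W)) := by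
    refine Commute.sub_right (Commute.refl φ) ?_
    exact (Commute.one_right φ).smul_right x
  have hmaps := mapsTo_maxGenEigenspace_of_comm hcomm x
  obtain ⟨k, hk⟩ := (mem_maxGenEigenspace φ x w).mp hw
  have hpow : ∀ j : ℕ, ((((φ - x • (1 : Module.End F W)).restrict hmaps) ^ j) ⟨w, hw⟩ : W) =
      ((φ - x • (1 : Module.End F W)) ^ j) w := by
    intro j
    induction j with
    | zero => simp
    | succ j ih =>
      rw [pow_succ', pow_succ', Module.End.mul_apply, Module.End.mul_apply, ← ih]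
      rfl
  have h1 : (⟨w, hw⟩ : φ.maxGenEigenspace x) ∈
      LinearMap.ker (((φ - x • (1 : Module.End F W)).restrict hmaps) ^ k) := by
    rw [LinearMap.mem_ker]
    apply Subtype.ext
    rw [hpow, hk]
    rfl
  have h2 := ker_pow_le_ker_pow_finrank _ k h1
  rw [LinearMap.mem_ker] at h2 ⊢
  have h3 : ((φ - x • (1 : Module.End F W)) ^ (Module.finrank F (φ.maxGenEigenspace x))) w = 0 := by
    rw [← hpow, h2]
    rfl
  obtain ⟨d, hd⟩ := Nat.exists_eq_add_of_le hb
  rw [hd, add_comm, pow_add, Module.End.mul_apply, h3, map_zero]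

end MULTaux

theorem mult_thm : StmtMULT.{u, v} := by
  intro F _ _ W _ _ _ φ b hb
  refine ⟨fun x => ?_, fun hb1 => ?_⟩
  · apply le_antisymm
    · apply MULTaux.max_le
      rw [LinearMap.finrank_maxGenEigenspace_eq]
      exact hb x
    · exact Module.End.genEigenspace_le_maximal φ x b
  · have hsep : (LinearMap.charpoly φ).Separable := by
      have hne : LinearMap.charpoly φ ≠ 0 := (LinearMap.charpoly_monic φ).ne_zero
      rw [← Polynomial.nodup_roots_iff_of_splits hne (IsAlgClosed.splits _)]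
      classical
      rw [Multiset.nodup_iff_count_le_one]
      intro x
      rw [Polynomial.count_roots, ← hb1]
      exact hb x
    refine ⟨hsep, ?_⟩
    exact Module.End.isSemisimple_of_squarefree_aeval_eq_zero hsep.squarefree
      (LinearMap.aeval_self_charpoly φ)

end ASE
end

section
/-!
# MP_b685ef_ag, theorem LFP, module NCLG: multisets with close power sums
-/
set_option linter.all false

namespace ASE

open Finset ASur AST

namespace NCLGaux

theorem fact {C : Type} [NormedField C] [IsUltrametricDist C] (n i : ℕ) :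
    ‖((n).factorial : C)‖ ≤ ‖((n - i).factorial : C)‖ := by
  obtain ⟨c, hc⟩ := Nat.factorial_dvd_factorial (Nat.sub_le n i)
  rw [hc, Nat.cast_mul, norm_mul]
  exact mul_le_of_le_one_right (norm_nonneg _) (norm_natCast_le c)

/-- The coefficients of `∏ (1 - xX)`, `‖x‖ ≤ r`, have norm `≤ r^m`. -/
theorem coeff_le {C : Type} [NormedField C] [IsUltrametricDist C] (r : ℝ) (hr : 0 ≤ r)
    (μ : Multiset C) (hμ : ∀ x ∈ μ, ‖x‖ ≤ r) : ∀ m, ‖(revP μ).coeff m‖ ≤ r ^ m := by
  induction μ using Multiset.induction_on with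
  | empty =>
    intro m
    have e : revP (0 : Multiset C) = 1 := by simp [revP]
    rw [e, Polynomial.coeff_one]
    split_ifs with h
    · subst h; simp
    · rw [norm_zero]; exact pow_nonneg hr _
  | cons a μ ih =>
    have ih' := ih (fun x hx => hμ x (Multiset.mem_cons_of_mem hx))
    have ha := hμ a (Multiset.mem_cons_self a μ)
    intro m
    have e : revP (a ::ₘ μ) = revP μ - Polynomial.C a * (Polynomial.X * revP μ) := by
      unfold revP
      rw [Multiset.map_cons, Multiset.prod_cons]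
      ring
    rw [e, Polynomial.coeff_sub, Polynomial.coeff_C_mul]
    cases m with
    | zero =>
      rw [Polynomial.coeff_X_mul_zero, mul_zero, sub_zero]
      exact ih' 0
    | succ m =>
      rw [Polynomial.coeff_X_mul]
      rw [sub_eq_add_neg]
      refine (IsUltrametricDist.norm_add_le_max _ _).trans (max_le (ih' _) ?_)
      rw [norm_neg, norm_mul, pow_succ, mul_comm (r ^ m)]
      exact mul_le_mul ha (ih' m) (norm_nonneg _) hr

theorem ps_le {C : Type} [NormedField C] [IsUltrametricDist C] (r : ℝ) (hr : 0 ≤ r)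
    (μ : Multiset C) (hμ : ∀ x ∈ μ, ‖x‖ ≤ r) (j : ℕ) : ‖ps μ j‖ ≤ r ^ j := by
  unfold ps
  induction μ using Multiset.induction_on with
  | empty => simp [pow_nonneg hr]
  | cons a μ ih =>
    rw [Multiset.map_cons, Multiset.sum_cons]
    refine (IsUltrametricDist.norm_add_le_max _ _).trans (max_le ?_ ?_)
    · rw [norm_pow]
      exact pow_le_pow_left₀ (norm_nonneg _) (hμ a (Multiset.mem_cons_self a μ)) _
    · exact ih (fun x hx => hμ x (Multiset.mem_cons_of_mem hx))

end NCLGaux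

theorem NCLG_thm (_ : ASur.StmtNRB) : StmtNCLG := by
  intro C _ _ _ μ ν r ε hr hε hμ hν hs m
  have hr0 : (0 : ℝ) ≤ r := zero_le_one.trans hr
  have hpos : ∀ n : ℕ, 0 < ‖((n).factorial : C)‖ := fun n =>
    norm_pos_iff.2 (Nat.cast_ne_zero.2 (Nat.factorial_ne_zero n))
  have hone : ∀ n : ℕ, ‖((n).factorial : C)‖ ≤ 1 := fun n => norm_natCast_le _
  have hP := nrb_revP μ
  have hP' := nrb_revP ν
  induction m using Nat.strong_induction_on with
  | _ m ih =>
    cases m with
    | zero =>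
      have e1 : (revP μ).coeff 0 = 1 := by
        have := hP.1
        rw [← PowerSeries.coeff_zero_eq_constantCoeff_apply, Polynomial.coeff_coe] at this
        exact this
      have e2 : (revP ν).coeff 0 = 1 := by
        have := hP'.1
        rw [← PowerSeries.coeff_zero_eq_constantCoeff_apply, Polynomial.coeff_coe] at this
        exact this
      rw [e1, e2, sub_self, norm_zero]
      exact div_nonneg (mul_nonneg hε (pow_nonneg hr0 _)) (norm_nonneg _)
    | succ n =>
      have e := hP.2 n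
      have e' := hP'.2 n
      simp only [Polynomial.coeff_coe] at e e'
      have e3 : ((n : C) + 1) * ((revP μ).coeff (n + 1) - (revP ν).coeff (n + 1)) =
          ∑ i ∈ range (n + 1), -(ps μ (i + 1) * ((revP μ).coeff (n - i) -
            (revP ν).coeff (n - i)) + (ps μ (i + 1) - ps ν (i + 1)) *
              (revP ν).coeff (n - i)) := by
        rw [mul_sub, e, e', ← Finset.sum_neg_distrib, ← Finset.sum_neg_distrib,
          ← Finset.sum_sub_distrib]
        refine Finset.sum_congr rfl fun i _ => ?_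
        unfold ps
        ring
      have hb : 0 ≤ ε * r ^ (n + 1) / ‖((n).factorial : C)‖ :=
        div_nonneg (mul_nonneg hε (pow_nonneg hr0 _)) (norm_nonneg _)
      have e4 : ‖((n : C) + 1) * ((revP μ).coeff (n + 1) - (revP ν).coeff (n + 1))‖ ≤
          ε * r ^ (n + 1) / ‖((n).factorial : C)‖ := by
        rw [e3]
        refine IsUltrametricDist.norm_sum_le_of_forall_le_of_nonneg hb fun i hi => ?_
        have hin : i ≤ n := by
          have := Finset.mem_range.1 hi
          omega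
        rw [norm_neg]
        refine (IsUltrametricDist.norm_add_le_max _ _).trans (max_le ?_ ?_)
        · rw [norm_mul]
          have h1 := NCLGaux.ps_le r hr0 μ hμ (i + 1)
          have h2 := ih (n - i) (by omega)
          calc ‖ps μ (i + 1)‖ * ‖(revP μ).coeff (n - i) - (revP ν).coeff (n - i)‖
              ≤ r ^ (i + 1) * (ε * r ^ (n - i) / ‖((n - i).factorial : C)‖) :=
                mul_le_mul h1 h2 (norm_nonneg _) (pow_nonneg hr0 _)
            _ = ε * r ^ (n + 1) / ‖((n - i).factorial : C)‖ := by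
                rw [show n + 1 = (i + 1) + (n - i) by omega, pow_add]
                ring
            _ ≤ ε * r ^ (n + 1) / ‖((n).factorial : C)‖ :=
                div_le_div_of_nonneg_left (mul_nonneg hε (pow_nonneg hr0 _)) (hpos n)
                  (NCLGaux.fact n i)
        · rw [norm_mul]
          have h1 := hs (i + 1) (by omega)
          have h2 := NCLGaux.coeff_le r hr0 ν hν (n - i)
          calc ‖ps μ (i + 1) - ps ν (i + 1)‖ * ‖(revP ν).coeff (n - i)‖
              ≤ ε * r ^ (n - i) := mul_le_mul h1 h2 (norm_nonneg _) hε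
            _ ≤ ε * r ^ (n + 1) :=
                mul_le_mul_of_nonneg_left (pow_le_pow_right₀ hr (by omega)) hε
            _ ≤ ε * r ^ (n + 1) / ‖((n).factorial : C)‖ := by
                rw [le_div_iff₀ (hpos n)]
                exact mul_le_of_le_one_right (mul_nonneg hε (pow_nonneg hr0 _)) (hone n)
      have e5 : ((n + 1).factorial : C) = ((n : C) + 1) * (n.factorial : C) := by
        rw [Nat.factorial_succ]; push_cast; ring
      rw [e5, norm_mul]
      have hn : 0 < ‖(n : C) + 1‖ := norm_pos_iff.2 (Nat.cast_add_one_ne_zero n)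
      rw [norm_mul] at e4
      rw [mul_comm ‖(n : C) + 1‖, ← div_div, le_div_iff₀ hn, mul_comm]
      exact e4

theorem nclg_thm (h : ASur.StmtNRB) : StmtNCLG := NCLG_thm h

end ASE
end

section
/-!
# MP_b685ef_ag, theorem LFP: module NPB (Newton above Hodge)
-/
set_option linter.all false

namespace ASE

open Finset ASur AST

namespace NPBaux

open Classical

variable {C : Type} [NormedField C]

/-- The product of the norms of the elements of norm `> r`. -/
noncomputable def pg (μ : Multiset C) (r : ℝ) : ℝ :=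
  ((μ.filter fun x => r < ‖x‖).map fun x => ‖x‖).prod

theorem pg_zero (r : ℝ) : pg (0 : Multiset C) r = 1 := by simp [pg]

theorem pg_cons_of (x : C) (μ : Multiset C) (r : ℝ) (h : r < ‖x‖) :
    pg (x ::ₘ μ) r = ‖x‖ * pg μ r := by
  unfold pg
  rw [Multiset.filter_cons_of_pos (p := fun y : C => r < ‖y‖) _ h, Multiset.map_cons,
    Multiset.prod_cons]

theorem pg_cons_not (x : C) (μ : Multiset C) (r : ℝ) (h : ¬ r < ‖x‖) :
    pg (x ::ₘ μ) r = pg μ r := by
  unfold pg
  rw [Multiset.filter_cons_of_neg (p := fun y : C => r < ‖y‖) _ h]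

theorem gc_cons_of (x : C) (μ : Multiset C) (r : ℝ) (h : r < ‖x‖) :
    gc (x ::ₘ μ) r = gc μ r + 1 := by
  unfold gc
  rw [Multiset.countP_cons_of_pos (p := fun y : C => r < ‖y‖) _ h]

theorem gc_cons_not (x : C) (μ : Multiset C) (r : ℝ) (h : ¬ r < ‖x‖) :
    gc (x ::ₘ μ) r = gc μ r := by
  unfold gc
  rw [Multiset.countP_cons_of_neg (p := fun y : C => r < ‖y‖) _ h]

theorem cc_cons (x : C) (μ : Multiset C) (r : ℝ) :
    cc (x ::ₘ μ) r = cc μ r + if ‖x‖ = r then 1 else 0 := by
  unfold cc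
  rw [Multiset.countP_cons]

/-- The elements of norm `> 1` : none if the product is `≤ 1`. -/
theorem le_one_of_prod (μ : Multiset C) :
    1 ≤ pg μ 1 ∧ (pg μ 1 ≤ 1 → ∀ x ∈ μ, ‖x‖ ≤ 1) := by
  induction μ using Multiset.induction_on with
  | empty => simp [pg_zero]
  | cons x μ ih =>
    by_cases h : 1 < ‖x‖
    · rw [pg_cons_of x μ 1 h]
      have h1 : 1 < ‖x‖ * pg μ 1 := by nlinarith [ih.1]
      exact ⟨h1.le, fun h2 => absurd h2 (not_le.2 h1)⟩
    · rw [pg_cons_not x μ 1 h]
      refine ⟨ih.1, fun h2 y hy => ?_⟩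
      rcases Multiset.mem_cons.1 hy with rfl | hy
      · exact not_lt.1 h
      · exact ih.2 h2 y hy

theorem pow_le_prod_ge (μ : Multiset C) (r : ℝ) (hr : 0 < r) :
    r ^ ge μ r ≤ ((μ.filter fun x => r ≤ ‖x‖).map fun x => ‖x‖).prod := by
  induction μ using Multiset.induction_on with
  | empty => simp
  | cons x μ ih =>
    by_cases h : r ≤ ‖x‖
    · rw [Multiset.filter_cons_of_pos (p := fun y : C => r ≤ ‖y‖) _ h, Multiset.map_cons,
        Multiset.prod_cons]
      have h1 : ge (x ::ₘ μ) r = ge μ r + 1 := by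
        unfold ge
        rw [Multiset.countP_cons_of_pos (p := fun y : C => r ≤ ‖y‖) _ h]
      rw [h1, pow_succ, mul_comm]
      exact mul_le_mul h ih (by positivity) (norm_nonneg _)
    · rw [Multiset.filter_cons_of_neg (p := fun y : C => r ≤ ‖y‖) _ h]
      have h1 : ge (x ::ₘ μ) r = ge μ r := by
        unfold ge
        rw [Multiset.countP_cons_of_neg (p := fun y : C => r ≤ ‖y‖) _ h]
      rw [h1]
      exact ih

/-- `∑_{j < m} (m - j) cc μ (t^j)`. -/
noncomputable def sc (μ : Multiset C) (t : ℝ) (m : ℕ) : ℕ :=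
  ∑ j ∈ range m, (m - j) * cc μ (t ^ j)

theorem main (μ : Multiset C) (t : ℝ) (ht : 0 < t) (ht1 : t < 1) (m : ℕ) :
    (gc μ (t ^ m) = ∑ j ∈ range m, cc μ (t ^ j) ∧
      pg μ (t ^ m) * t ^ sc μ t m = t ^ (m * gc μ (t ^ m))) ∨
    t ^ (m * gc μ (t ^ m)) < pg μ (t ^ m) * t ^ sc μ t m := by
  induction μ using Multiset.induction_on with
  | empty =>
    left
    simp [pg_zero, sc]
  | cons x μ ih =>
    have hinj : ∀ i j : ℕ, t ^ i = t ^ j → i = j := fun i j h =>
      (pow_right_strictAnti₀ ht ht1).injective h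
    by_cases h : t ^ m < ‖x‖
    · by_cases h0 : ∃ j0, j0 < m ∧ ‖x‖ = t ^ j0
      · obtain ⟨j0, hj0, hx⟩ := h0
        have hcc : ∀ j, cc (x ::ₘ μ) (t ^ j) = cc μ (t ^ j) + if j = j0 then 1 else 0 := by
          intro j
          rw [cc_cons, hx]
          by_cases hj : j = j0
          · subst hj; simp
          · rw [if_neg hj, if_neg (fun h' => hj (hinj _ _ h').symm)]
        have hsc : sc (x ::ₘ μ) t m = sc μ t m + (m - j0) := by
          unfold sc
          simp_rw [hcc, Nat.mul_add]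
          rw [Finset.sum_add_distrib]
          congr 1
          simp [hj0]
        have hsum : ∑ j ∈ range m, cc (x ::ₘ μ) (t ^ j) = (∑ j ∈ range m, cc μ (t ^ j)) + 1 := by
          simp_rw [hcc]
          rw [Finset.sum_add_distrib]
          congr 1
          simp [hj0]
        rw [gc_cons_of x μ _ h, pg_cons_of x μ _ h, hsc, hsum]
        have hk : ‖x‖ * pg μ (t ^ m) * t ^ (sc μ t m + (m - j0)) =
            (pg μ (t ^ m) * t ^ sc μ t m) * t ^ m := by
          rw [hx, pow_add]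
          have : t ^ j0 * t ^ (m - j0) = t ^ m := by
            rw [← pow_add]; congr 1; omega
          calc t ^ j0 * pg μ (t ^ m) * (t ^ sc μ t m * t ^ (m - j0)) =
              (pg μ (t ^ m) * t ^ sc μ t m) * (t ^ j0 * t ^ (m - j0)) := by ring
            _ = _ := by rw [this]
        rw [hk, Nat.mul_succ, pow_add]
        rcases ih with ⟨i1, i2⟩ | i
        · left
          exact ⟨by rw [i1], by rw [i2]⟩
        · right
          exact mul_lt_mul_of_pos_right i (by positivity)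
      · right
        push Not at h0
        have hcc : ∀ j, j < m → cc (x ::ₘ μ) (t ^ j) = cc μ (t ^ j) := by
          intro j hj
          rw [cc_cons, if_neg (h0 j hj), add_zero]
        have hsc : sc (x ::ₘ μ) t m = sc μ t m := by
          unfold sc
          refine Finset.sum_congr rfl fun j hj => ?_
          rw [hcc j (Finset.mem_range.1 hj)]
        rw [gc_cons_of x μ _ h, pg_cons_of x μ _ h, hsc, Nat.mul_succ, pow_add]
        have h1 : t ^ (m * gc μ (t ^ m)) ≤ pg μ (t ^ m) * t ^ sc μ t m := by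
          rcases ih with ⟨i1, i2⟩ | i
          · exact i2.ge
          · exact i.le
        have h2 : 0 < t ^ (m * gc μ (t ^ m)) := by positivity
        have h3 : 0 < t ^ m := by positivity
        calc t ^ (m * gc μ (t ^ m)) * t ^ m < t ^ (m * gc μ (t ^ m)) * ‖x‖ :=
              mul_lt_mul_of_pos_left h h2
          _ ≤ (pg μ (t ^ m) * t ^ sc μ t m) * ‖x‖ :=
              mul_le_mul_of_nonneg_right h1 (norm_nonneg _)
          _ = ‖x‖ * pg μ (t ^ m) * t ^ sc μ t m := by ring
    · have hcc : ∀ j, j < m → cc (x ::ₘ μ) (t ^ j) = cc μ (t ^ j) := by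
        intro j hj
        rw [cc_cons, if_neg, add_zero]
        intro h'
        apply h
        rw [h']
        exact pow_lt_pow_right_of_lt_one₀ ht ht1 hj
      have hsc : sc (x ::ₘ μ) t m = sc μ t m := by
        unfold sc
        refine Finset.sum_congr rfl fun j hj => ?_
        rw [hcc j (Finset.mem_range.1 hj)]
      have hsum : ∑ j ∈ range m, cc (x ::ₘ μ) (t ^ j) = ∑ j ∈ range m, cc μ (t ^ j) :=
        Finset.sum_congr rfl fun j hj => hcc j (Finset.mem_range.1 hj)
      rw [gc_cons_not x μ _ h, pg_cons_not x μ _ h, hsc, hsum]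
      exact ih

end NPBaux

open NPBaux in
theorem npb_thm (hE : StmtESYM) : StmtNPB := by
  intro C _ _ μ t W M ht ht1 hA
  refine ⟨?_, ?_, ?_⟩
  · have h1 := hA 0 (Nat.zero_le _) (gc μ 1)
    have h2 := (hE C μ 1 one_pos).1
    have h3 : ss W 0 = 0 := by simp [ss]
    rw [h3, h2, zero_mul, pow_zero, mul_one] at h1
    exact (le_one_of_prod μ).2 h1
  · intro m hm
    have h1 := hA (m + 1) hm (ge μ (t ^ m))
    have htm : 0 < t ^ m := by positivity
    have h2 := (hE C μ (t ^ m) htm).2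
    have h3 := pow_le_prod_ge μ (t ^ m) htm
    rw [h2] at h1
    have h4 : (t ^ m) ^ ge μ (t ^ m) * t ^ ss W (m + 1) ≤ t ^ ((m + 1) * ge μ (t ^ m)) :=
      le_trans (mul_le_mul_of_nonneg_right h3 (by positivity)) h1
    rw [← pow_mul, Nat.add_mul, pow_add, one_mul] at h4
    have h5 : t ^ ss W (m + 1) ≤ t ^ ge μ (t ^ m) :=
      le_of_mul_le_mul_left h4 (by positivity)
    exact (pow_le_pow_iff_right_of_lt_one₀ ht ht1).1 h5
  · intro m hm hW
    have htm : 0 < t ^ m := by positivity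
    have h1 := hA m hm (gc μ (t ^ m))
    have h2 := (hE C μ (t ^ m) htm).1
    have hsc : sc μ t m = ss W m := by
      unfold sc ss
      refine Finset.sum_congr rfl fun j hj => ?_
      rw [hW j (Finset.mem_range.1 hj)]
    have hsum : ∑ j ∈ range m, cc μ (t ^ j) = ∑ j ∈ range m, W j :=
      Finset.sum_congr rfl fun j hj => hW j (Finset.mem_range.1 hj)
    have h3 := main μ t ht ht1 m
    rw [hsc, hsum] at h3
    rw [h2] at h1
    change pg μ (t ^ m) * t ^ ss W m ≤ _ at h1
    rcases h3 with ⟨i1, i2⟩ | i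
    · refine ⟨i1, ?_⟩
      rw [← i1, h2]
      exact i2.ge
    · exact absurd h1 (not_le.2 i)

end ASE
end

section
/-!
# MP_b685ef_ag, theorem LFP, part (A), module OFFC: counting (helper77)
-/
set_option linter.all false

namespace ASE

open Finset ASur AST

namespace OFFCaux

variable {C : Type} [NormedField C]

open Classical in
theorem sum_ite {t : ℝ} (h0 : 0 < t) (h1 : t < 1) (M : ℕ) (r : ℝ) :
    (∑ m ∈ range M, if r = t ^ m then 1 else 0) = if (∃ m, m < M ∧ r = t ^ m) then 1 else 0 := by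
  by_cases h : ∃ m, m < M ∧ r = t ^ m
  · rw [if_pos h]
    obtain ⟨m, hm, hr⟩ := h
    rw [Finset.sum_eq_single m]
    · rw [if_pos hr]
    · intro b _ hb
      rw [if_neg]
      intro hrb
      exact hb (pow_right_injective₀ h0 h1.ne (hrb.symm.trans hr))
    · intro hm'
      exact absurd (Finset.mem_range.2 hm) hm'
  · rw [if_neg h]
    refine Finset.sum_eq_zero fun m hm => if_neg fun hr => h ⟨m, Finset.mem_range.1 hm, hr⟩

open Classical in
theorem key {t : ℝ} (h0 : 0 < t) (h1 : t < 1) (M : ℕ) (γ : Multiset C) :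
    (∑ m ∈ range M, cc γ (t ^ m)) +
      Multiset.countP (fun x => t ^ M < ‖x‖ ∧ ¬ ∃ m, m < M ∧ ‖x‖ = t ^ m) γ = gc γ (t ^ M) := by
  induction γ using Multiset.induction_on with
  | empty => simp [cc, gc]
  | cons a γ ih =>
    have hs := sum_ite h0 h1 M ‖a‖
    have hc : ∀ m, cc (a ::ₘ γ) (t ^ m) = cc γ (t ^ m) + if ‖a‖ = t ^ m then 1 else 0 := by
      intro m
      rw [cc, cc, Multiset.countP_cons]
    have hg : gc (a ::ₘ γ) (t ^ M) = gc γ (t ^ M) + if t ^ M < ‖a‖ then 1 else 0 := by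
      rw [gc, gc, Multiset.countP_cons]
    rw [Finset.sum_congr rfl fun m _ => hc m, Finset.sum_add_distrib, hs, hg, ← ih,
      Multiset.countP_cons]
    by_cases hP : ∃ m, m < M ∧ ‖a‖ = t ^ m
    · have hQ : t ^ M < ‖a‖ := by
        obtain ⟨m, hm, hr⟩ := hP
        rw [hr]
        exact pow_lt_pow_right_of_lt_one₀ h0 h1 hm
      rw [if_pos hP, if_pos hQ, if_neg (fun h => h.2 hP)]
      omega
    · by_cases hQ : t ^ M < ‖a‖
      · rw [if_neg hP, if_pos hQ, if_pos ⟨hQ, hP⟩]
        omega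
      · rw [if_neg hP, if_neg hQ, if_neg (fun h => hQ h.1)]
        omega

end OFFCaux

open OFFCaux in
theorem offc_thm : StmtOFFC := by
  classical
  intro C _ γ t W M h0 h1 hW hg x hx hxM
  have h := key h0 h1 M γ
  rw [hg, Finset.sum_congr rfl fun m hm => hW m (Finset.mem_range.1 hm)] at h
  have h2 := Nat.add_eq_left.1 h
  rw [Multiset.countP_eq_zero] at h2
  by_contra hc
  exact h2 x hx ⟨hxM, hc⟩

end ASE
end

section
/-!
# MP_b685ef_ag, theorem LFP, module ORDI
-/
set_option linter.all false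

namespace ASE

open Finset

namespace ORDIaux

theorem cc_big {C : Type} [NormedField C] (γ : Multiset C) (r : ℝ) (hr : 1 < r)
    (h : ∀ x ∈ γ, ‖x‖ ≤ 1) : cc γ r = 0 := by
  classical
  unfold cc
  rw [Multiset.countP_eq_zero]
  intro x hx he
  have := h x hx
  linarith

theorem quot_le {t : ℝ} (ht : 0 < t) {D s m : ℕ} (h : D * s ≤ m) :
    t ^ m / (t ^ D) ^ s = t ^ (m - D * s) := by
  rw [← pow_mul, div_eq_iff (pow_pos ht _).ne', ← pow_add, Nat.sub_add_cancel h]

theorem quot_gt {t : ℝ} (ht : 0 < t) (ht1 : t < 1) {D s m : ℕ} (h : m < D * s) :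
    1 < t ^ m / (t ^ D) ^ s := by
  rw [← pow_mul, one_lt_div (pow_pos ht _)]
  exact pow_lt_pow_right_of_lt_one₀ ht ht1 h

end ORDIaux

open ORDIaux in
theorem ordi_thm : StmtORDI := by
  intro C _ γ t D n M W ht ht1 hD hγ h m
  induction m using Nat.strong_induction_on with
  | _ m ih =>
    intro hm
    have h1 := h m hm
    rw [Finset.sum_range_succ', Finset.sum_range_succ'] at h1
    have h2 : ∀ s ∈ range n, (-1 : ℤ) ^ (s + 1) * (n.choose (s + 1) : ℤ) *
        (cc γ (t ^ m / (t ^ D) ^ (s + 1)) : ℤ) =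
        (-1 : ℤ) ^ (s + 1) * (n.choose (s + 1) : ℤ) *
        (if D * (s + 1) ≤ m then (W (m - D * (s + 1)) : ℤ) else 0) := by
      intro s _
      congr 1
      have hpos : 1 ≤ D * (s + 1) := Nat.one_le_iff_ne_zero.mpr (by positivity)
      by_cases hs : D * (s + 1) ≤ m
      · rw [if_pos hs, quot_le ht hs, ih (m - D * (s + 1)) (by omega) (by omega)]
      · rw [if_neg hs, cc_big γ _ (quot_gt ht ht1 (not_le.mp hs)) hγ]
        rfl
    rw [Finset.sum_congr rfl h2] at h1
    have h3 := add_left_cancel h1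
    simpa using h3

end ASE
end

section
/-!
# MP_b685ef_ag, theorem LFP: the pair of multisets of two polynomials with the same leading form
(PAIR)
-/
set_option linter.all false

namespace ASE

open Finset ASur AST

namespace PAIRaux

open Classical in
/-- `∑_{u ∈ S} (m - e(u)) = s(m)` for `m ≤ L`. -/
theorem sum_lev {n : ℕ} (K : (Fin n → ℤ) → Prop) (e : (Fin n → ℤ) → ℕ) (L : ℕ)
    (S : Finset (Fin n → ℤ)) (hS : IsLev K e L S) (m : ℕ) (hm : m ≤ L) :
    ∑ u : S, (m - e u.1) = ss (hh K e) m := by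
  have h1 : ∀ j ∈ range m, (m - j) * hh K e j = ∑ u ∈ S, if e u = j then (m - j) else 0 := by
    intro j hj
    have hj' : j < m := Finset.mem_range.1 hj
    have h2 : hh K e j = (S.filter fun u => e u = j).card := by
      unfold hh
      rw [← Set.ncard_coe_finset]
      congr 1
      ext u
      simp only [Set.mem_setOf_eq, Finset.coe_filter]
      constructor
      · rintro ⟨a, b⟩
        exact ⟨(hS u).2 ⟨a, by omega⟩, b⟩
      · rintro ⟨a, b⟩
        exact ⟨((hS u).1 a).1, b⟩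
    rw [h2, ← Finset.sum_filter, Finset.sum_const, smul_eq_mul, Nat.mul_comm]
  unfold ss
  rw [Finset.sum_congr rfl h1, Finset.sum_comm]
  rw [Finset.sum_coe_sort S (fun u => m - e u)]
  refine Finset.sum_congr rfl fun u _ => ?_
  by_cases h : e u < m
  · rw [Finset.sum_ite_eq, if_pos (Finset.mem_range.2 h)]
  · rw [Finset.sum_ite_eq, if_neg (fun h' => h (Finset.mem_range.1 h'))]
    omega

end PAIRaux

open PAIRaux

theorem pair_thm (hTHETA : ASur.StmtTHETA) (hZETA : ASur.StmtZETA) (hTEMB : ASur.StmtTEMB)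
    (hTEX : ASur.StmtTEX) (hTRFE : StmtTRFE) (hDEGE : StmtDEGE) (hREDE : StmtREDE)
    (hREDET : StmtREDET) : StmtPAIR := by
  intro p hpF D hD C _ _ _ _ hpC j hj k _ _ _ n K e hW f f' hP ψ hψ t ht0 htD ε hε M
  have hp2 : 2 ≤ p := hpF.out.two_le
  obtain ⟨h, hh'⟩ : ∃ h, h = Module.finrank (ZMod p) k := ⟨_, rfl⟩
  have hh1 : 1 ≤ h := hh' ▸ Module.finrank_pos
  have hprim := prim_of_char ψ hψ
  obtain ⟨hz0, hz1, hz2, -⟩ := hZETA p C hpC (ψ 1) hprim
  obtain ⟨ρ, hρ⟩ := IsAlgClosed.exists_pow_nat_eq (ψ 1 - 1) hD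
  have hρ0 : ρ ≠ 0 := by
    rintro rfl
    rw [zero_pow (by omega)] at hρ
    exact hz0 hρ.symm
  have hρ1 : ‖ρ‖ < 1 := by
    by_contra hc
    have : 1 ≤ ‖ρ‖ ^ D := one_le_pow₀ (not_lt.1 hc)
    rw [← norm_pow, hρ] at this
    linarith
  have hcard : Fintype.card k = p ^ h := by
    rw [Module.card_eq_pow_finrank (K := ZMod p), ZMod.card, hh']
  have ht : ‖ρ‖ ^ ((p - 1) * h) = t := by
    have h1 : (‖ρ‖ ^ ((p - 1) * h)) ^ D = t ^ D := by
      rw [htD, hcard]
      push_cast
      rw [norm_pow, ← hz2, ← hρ, norm_pow, ← pow_mul, ← pow_mul, ← pow_mul]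
      congr 1
      ring
    exact (pow_left_inj₀ (pow_nonneg (norm_nonneg _) _) ht0.le (by omega)).1 h1
  obtain ⟨ι⟩ := hTEMB p C hpC k
  obtain ⟨τ, hτ⟩ := hTEX p C hpC k ι
  obtain ⟨Θ, hΘ⟩ := hTHETA p C hpC j hj (ψ 1) hprim ε hε
  obtain ⟨L0, hL0⟩ := hDEGE p hp2 C k (τ : k → C) Θ n K e hW f (fun u hu => (hP.mem u hu).1)
  obtain ⟨L0', hL0'⟩ := hDEGE p hp2 C k (τ : k → C) Θ n K e hW f' (fun u hu => (hP.mem' u hu).1)
  obtain ⟨L, hL⟩ : ∃ L, L = max (max L0 L0') M := ⟨_, rfl⟩
  have hLL0 : L0 ≤ L := hL ▸ (le_max_left _ _).trans (le_max_left _ _)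
  have hLL0' : L0' ≤ L := hL ▸ (le_max_right _ _).trans (le_max_left _ _)
  have hLM : M ≤ L := hL ▸ le_max_right _ _
  obtain ⟨S, hS⟩ := hW.lev L
  obtain ⟨Cm, Cm', c1, c2, c3, c4, c5⟩ := hREDE p D hD C (ψ 1) ρ ε Θ hΘ hρ hρ0 hρ1 k ι τ hτ n K e hW
    f f' hP S (fun u hu => ((hS u).1 hu).1)
  have r1 := hREDET C S (fun u => e u.1) p h ρ (fun i => AT p S (FT p (τ : k → C) Θ f i))
    (fun i => AT p S (FT p (τ : k → C) Θ f' i)) Cm Cm' hp2 hh1 hρ0 hρ1 c1 c2 c3 c4 c5
  have c5' : ∀ i u v, ‖Cm' i u v - Cm i u v‖ < 1 := by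
    intro i u v
    rw [norm_sub_rev]
    exact c5 i u v
  have r2 := hREDET C S (fun u => e u.1) p h ρ (fun i => AT p S (FT p (τ : k → C) Θ f' i))
    (fun i => AT p S (FT p (τ : k → C) Θ f i)) Cm' Cm hp2 hh1 hρ0 hρ1 c2 c1 c4 c3 c5'
  refine ⟨(Pmat (fun i => AT p S (FT p (τ : k → C) Θ f i)) h).charpoly.roots,
    (Pmat (fun i => AT p S (FT p (τ : k → C) Θ f' i)) h).charpoly.roots, ?_, ?_, ?_, ?_⟩
  · intro m hm r
    rw [← nrb_charpolyRev, ← sum_lev K e L S hS m (hm.trans hLM), ← ht]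
    exact (r1 m r).1
  · intro m hm r
    rw [← nrb_charpolyRev, ← sum_lev K e L S hS m (hm.trans hLM), ← ht]
    exact (r2 m r).1
  · intro m hm r
    rw [← nrb_charpolyRev, ← nrb_charpolyRev, ← sum_lev K e L S hS m (hm.trans hLM), ← ht]
    exact (r1 m r).2
  · intro E _ _ _ _
    have t1 := hTRFE p C hpC ψ ε Θ hε hΘ k ι τ hτ n K e hW f L S hS (fun i => hL0 L hLL0 i) E
    have t2 := hTRFE p C hpC ψ ε Θ hε hΘ k ι τ hτ n K e hW f' L S hS (fun i => hL0' L hLL0' i) E
    rw [← hh', nrb_trace_pow] at t1 t2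
    exact ⟨t1, t2⟩

end ASE
end

section
/-!
# MP_b685ef_ag, theorem LFP, part (A): one torus (PAIRH)
-/
set_option linter.all false

namespace ASE

open Finset ASur AST

namespace PAIRHaux

/-- Blocks only depend on the rows. -/
theorem blkM_congr {I κ : Type} (e : I → ℕ) (Q Q' : ℕ → Prop) (Z Z' : Matrix I I κ)
    (h : ∀ u v, Q (e u) → Z u v = Z' u v) : blkM e Q Q' Z = blkM e Q Q' Z' := by
  ext u v
  exact h u.1 v.1 u.2

open Classical in
theorem schM_congr {I κ : Type} [Fintype I] [Field κ] (e : I → ℕ) (m : ℕ) (Z Z' : Matrix I I κ)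
    (h : ∀ u v, e u ≤ m → Z u v = Z' u v) : schM e m Z = schM e m Z' := by
  unfold schM
  rw [blkM_congr e (fun j => j = m) (fun j => j = m) Z Z' fun u v hu => h u v (le_of_eq hu),
    blkM_congr e (fun j => j = m) (fun j => j < m) Z Z' fun u v hu => h u v (le_of_eq hu),
    blkM_congr e (fun j => j < m) (fun j => j < m) Z Z' fun u v hu => h u v (le_of_lt hu),
    blkM_congr e (fun j => j < m) (fun j => j = m) Z Z' fun u v hu => h u v (le_of_lt hu)]

theorem Pmat_congr {ι C : Type} [Fintype ι] [DecidableEq ι] [CommSemiring C]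
    (A B : ℕ → Matrix ι ι C) (h : ∀ i, A i = B i) (n : ℕ) : Pmat A n = Pmat B n := by
  have : A = B := funext h
  rw [this]

/-- The determinant of `Fprod`. -/
theorem det_Fprod {p : ℕ} [Fact p.Prime] {k : Type} [Field k] [CharP k p] {J : Type} [Fintype J]
    [DecidableEq J] (M : Matrix J J k) (hM : M.det ≠ 0) (n : ℕ) : (Fprod p M n).det ≠ 0 := by
  induction n with
  | zero =>
    change (1 : Matrix J J k).det ≠ 0
    rw [Matrix.det_one]
    exact one_ne_zero
  | succ n ih =>
    change ((M.map fun x => x ^ (p ^ n)) * Fprod p M n).det ≠ 0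
    rw [Matrix.det_mul]
    refine mul_ne_zero ?_ ih
    have h1 : (M.map fun x => x ^ (p ^ n)) = (iterateFrobenius k p n).mapMatrix M := by
      ext i j
      simp [iterateFrobenius_def]
    rw [h1, ← RingHom.map_det, iterateFrobenius_def]
    exact pow_ne_zero _ hM

theorem det_Fprod_zero {p : ℕ} [Fact p.Prime] {k : Type} [Field k] [CharP k p] {J : Type}
    [Fintype J] [DecidableEq J] (M : Matrix J J k) (hM : M.det = 0) (n : ℕ) :
    (Fprod p M (n + 1)).det = 0 := by
  induction n with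
  | zero =>
    change ((M.map fun x => x ^ (p ^ 0)) * (1 : Matrix J J k)).det = 0
    have h1 : (M.map fun x => x ^ (p ^ 0)) = M := by
      ext i j
      simp
    rw [h1, mul_one, hM]
  | succ n ih =>
    change ((M.map fun x => x ^ (p ^ (n + 1))) * Fprod p M (n + 1)).det = 0
    rw [Matrix.det_mul, ih, mul_zero]

theorem det_Fprod_ne {p : ℕ} [Fact p.Prime] {k : Type} [Field k] [CharP k p] {J : Type}
    [Fintype J] [DecidableEq J] (M : Matrix J J k) (n : ℕ) (hn : 1 ≤ n) :
    (Fprod p M n).det ≠ 0 ↔ M.det ≠ 0 := by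
  constructor
  · intro h hM
    obtain ⟨n, rfl⟩ : ∃ n', n = n' + 1 := ⟨n - 1, by omega⟩
    exact h (det_Fprod_zero M hM n)
  · intro hM
    exact det_Fprod M hM n

/-- The number of the elements of level `m`. -/
theorem card_eq {n : ℕ} (K : (Fin n → ℤ) → Prop) (e : (Fin n → ℤ) → ℕ) (L : ℕ)
    (S : Finset (Fin n → ℤ)) (hS : IsLev K e L S) (m : ℕ) (hm : m ≤ L)
    [Fintype {u : S // e u.1 = m}] : Fintype.card {u : S // e u.1 = m} = hh K e m := by
  unfold hh
  rw [← Nat.card_eq_fintype_card, ← Nat.card_coe_set_eq]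
  refine Nat.card_congr ?_
  exact
    { toFun := fun u => ⟨u.1.1, ((hS u.1.1).1 u.1.2).1, u.2⟩
      invFun := fun u => ⟨⟨u.1, (hS u.1).2 ⟨u.2.1, by
        have := u.2.2
        omega⟩⟩, u.2.2⟩
      left_inv := fun u => rfl
      right_inv := fun u => rfl }

end PAIRHaux

namespace PAIRHdet

theorem det_inst {I k : Type} [CommRing k] {f1 f2 : Fintype I} {d1 d2 : DecidableEq I}
    (M : Matrix I I k) : @Matrix.det I d1 f1 k _ M = @Matrix.det I d2 f2 k _ M := by
  obtain rfl := Subsingleton.elim f1 f2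
  obtain rfl := Subsingleton.elim d1 d2
  rfl

end PAIRHdet

open PAIRaux PAIRHaux

theorem pairh_thm (hAHC : StmtAHC) (hZETA : ASur.StmtZETA) (hTEX : ASur.StmtTEX)
    (hTRFE : StmtTRFE) (hDEGE : StmtDEGE) (hREDH : StmtREDH) (hREDET : StmtREDET)
    (hEDGEH : StmtEDGEH) (hFROBH : StmtFROBH) (hREIH : StmtREIH) (hSCHD : StmtSCHD)
    (hRESH : StmtRESH) : StmtPAIRH := by
  intro p hpF D hD C _ _ _ _ hpC j hj E hE k _ _ _ ι n K e hW f hf ψ hψ ρ hρ ε hε M
  have hp2 : 2 ≤ p := hpF.out.two_le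
  obtain ⟨h, hh'⟩ : ∃ h, h = Module.finrank (ZMod p) k := ⟨_, rfl⟩
  have hh1 : 1 ≤ h := hh' ▸ Module.finrank_pos
  have hprim := prim_of_char ψ hψ
  obtain ⟨hz0, hz1, hz2, -⟩ := hZETA p C hpC (ψ 1) hprim
  have hρ0 : ρ ≠ 0 := by
    rintro rfl
    rw [zero_pow (by omega)] at hρ
    exact hz0 hρ.symm
  have hρ1 : ‖ρ‖ < 1 := by
    by_contra hc
    have : 1 ≤ ‖ρ‖ ^ D := one_le_pow₀ (not_lt.1 hc)
    rw [← norm_pow, hρ] at this
    linarith
  haveI : CharP (KK C) p := charP_KK hpC
  haveI : CharP k p := charP_of_injective_algebraMap (algebraMap (ZMod p) k).injective p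
  obtain ⟨τ, hτ⟩ := hTEX p C hpC k ι
  obtain ⟨Θ, hΘ, hEE⟩ := hAHC p C hpC j hj (ψ 1) hprim E hE ε hε (p * (M + 1) + 1)
  obtain ⟨L0, hL0⟩ := hDEGE p hp2 C k (τ : k → C) Θ n K e hW f (fun u hu => (hf u hu).1)
  obtain ⟨L, hL⟩ : ∃ L, L = max L0 (M + 1) := ⟨_, rfl⟩
  have hLL0 : L0 ≤ L := hL ▸ le_max_left _ _
  have hLM : M + 1 ≤ L := hL ▸ le_max_right _ _
  obtain ⟨S, hS⟩ := hW.lev L
  obtain ⟨Cm, c1, c3, c4⟩ := hREDH p D hD C hpC (ψ 1) ρ ε Θ E (p * (M + 1) + 1) hΘ hEE hρ hρ0 hρ1
    k ι τ hτ n K e hW f hf S (fun u hu => ((hS u).1 hu).1)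
  have c5 : ∀ i u v, ‖Cm i u v - Cm i u v‖ < 1 := by
    intro i u v
    rw [sub_self, norm_zero]
    exact one_pos
  refine ⟨(Pmat (fun i => AT p S (FT p (τ : k → C) Θ f i)) h).charpoly.roots, ?_, ?_, ?_⟩
  · intro m hm r
    have r1 := hREDET C S (fun u => e u.1) p h ρ (fun i => AT p S (FT p (τ : k → C) Θ f i))
      (fun i => AT p S (FT p (τ : k → C) Θ f i)) Cm Cm hp2 hh1 hρ0 hρ1 c1 c1 c3 c3 c5
    rw [← nrb_charpolyRev, ← sum_lev K e L S hS m (by omega), ← hh']
    exact (r1 m r).1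
  · intro m hm hdm
    rw [← hh']
    -- the matrices
    have hrows : ∀ i (u v : S), e u.1 ≤ m →
        rd (Cm i u v) = ι (cH p D e E f u.1 v.1) ^ (p ^ i) := by
      intro i u v hu
      refine c4 i u v ?_
      have : p * e u.1 ≤ p * M := Nat.mul_le_mul_left p (hu.trans hm)
      nlinarith
    obtain ⟨fr1, fr2⟩ := hFROBH p k (KK C) ι S (fun u => e u.1) m
      (fun u v => cH p D e E f u.1 v.1) (fun i u v => ι (cH p D e E f u.1 v.1) ^ (p ^ i))
      (fun i u v => rfl)
    obtain ⟨re1, re2, re3⟩ := hREIH n K e hW k p D h E f m L S hS (by omega)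
    have hblk : ∀ i, blkM (fun u : S => e u.1) (fun j => j < m) (fun j => j < m)
        (fun u v => rd (Cm i u v)) = blkM (fun u : S => e u.1) (fun j => j < m) (fun j => j < m)
        (fun u v => ι (cH p D e E f u.1 v.1) ^ (p ^ i)) := by
      intro i
      exact blkM_congr _ _ _ _ _ fun u v hu => hrows i u v (le_of_lt hu)
    have hsch : ∀ i, schM (fun u : S => e u.1) m (fun u v => rd (Cm i u v)) =
        schM (fun u : S => e u.1) m (fun u v => ι (cH p D e E f u.1 v.1) ^ (p ^ i)) := by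
      intro i
      exact schM_congr _ _ _ _ fun u v hu => hrows i u v hu
    have hedge := hEDGEH C S (fun u => e u.1) p h m ρ
      (fun i => AT p S (FT p (τ : k → C) Θ f i)) Cm hp2 hh1 hρ0 hρ1 c1 c3 (by
        intro i _
        rw [hblk i, fr1 i, re1]
        exact pow_ne_zero _ (by
          rw [map_ne_zero]
          exact hdm))
    rw [Pmat_congr _ _ hsch h, fr2 h, re3] at hedge
    have hw0 : ρ ^ ((p - 1) * m * h) ≠ 0 := pow_ne_zero _ hρ0
    have hw1 : ‖ρ ^ ((p - 1) * m * h)‖ ≤ 1 := by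
      rw [norm_pow]
      exact pow_le_one₀ (norm_nonneg _) hρ1.le
    obtain ⟨g1, g2, g3⟩ := hRESH C
      (Pmat (fun i => AT p S (FT p (τ : k → C) Θ f i)) h).charpoly.roots
      (ρ ^ ((p - 1) * m * h)) (∑ j ∈ range m, hh K e j) _
      ((Fprod p (schM (fun u : S => e u.1) m (fun u v => cH p D e E f u.1 v.1)) h).map ι)
      hw0 hw1 (fun m0 => by
        have := hedge m0
        rw [nrb_charpolyRev] at this
        exact this)
    refine ⟨g1, ?_, ?_⟩
    · rw [← card_eq K e L S hS m (by omega), ← g2]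
      obtain ⟨re1', -, -⟩ := hREIH n K e hW k p D h E f (m + 1) L S hS (by omega)
      have hd : dH p D K e E f (m + 1) = dH p D K e E f m *
          (schM (fun u : S => e u.1) m (fun u v => cH p D e E f u.1 v.1)).det := by
        have hne0 := hdm
        rw [← re1] at hne0
        have hd0 := hSCHD k S (fun u => e u.1) m (fun u v => cH p D e E f u.1 v.1)
          (fun h0 => hne0 ((PAIRHdet.det_inst _).trans h0))
        rw [← re1', ← re1]
        exact (PAIRHdet.det_inst _).trans (hd0.trans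
          (congrArg₂ (· * ·) (PAIRHdet.det_inst _) (PAIRHdet.det_inst _)))
      have h3 : ((Fprod p (schM (fun u : S => e u.1) m (fun u v => cH p D e E f u.1 v.1)) h).map
          ι).det = ι (Fprod p (schM (fun u : S => e u.1) m
            (fun u v => cH p D e E f u.1 v.1)) h).det := by
        rw [RingHom.map_det]
        rfl
      rw [h3, map_ne_zero, det_Fprod_ne (p := p) _ h hh1, hd]
      constructor
      · intro hx h0
        rw [h0, mul_zero] at hx
        exact hx rfl
      · intro h0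
        exact mul_ne_zero hdm h0
    · intro w hw
      rw [g3 w hw]
      unfold muH
      rw [← re2, Matrix.charpoly_map]
  · intro E' _ _ _ _
    have t1 := hTRFE p C hpC ψ ε Θ hε hΘ k ι τ hτ n K e hW f L S hS (fun i => hL0 L hLL0 i) E'
    rw [← hh', nrb_trace_pow] at t1
    exact t1

end ASE
end

section
/-!
# MP_b685ef_ag, theorem LFP: module PATHE (the path lemma on the torus, general cones)
-/
set_option linter.all false

namespace ASE

open Finset ASur AST

namespace PATHEaux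

variable {C : Type} [Field C] {n : ℕ}

theorem expand (q : ℕ) (A : AddMonoidAlgebra C (Fin n → ℤ)) :
    AddMonoidAlgebra.mapDomainRingHom C (nsmulAddMonoidHom (α := Fin n → ℤ) q) A =
      ∑ w ∈ A.coeff.support, AddMonoidAlgebra.single (q • w) (A.coeff w) := by
  have h : A = ∑ w ∈ A.coeff.support, AddMonoidAlgebra.single w (A.coeff w) := by
    conv_lhs => rw [← AddMonoidAlgebra.sum_coeff_single A]
    rfl
  conv_lhs => rw [h]
  rw [map_sum]
  refine Finset.sum_congr rfl fun w _ => ?_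
  rw [AddMonoidAlgebra.mapDomainRingHom_apply, AddMonoidAlgebra.mapDomain_single]
  rfl

theorem coeff_mul_map (q : ℕ) (G A : AddMonoidAlgebra C (Fin n → ℤ)) (d : Fin n → ℤ) :
    (G * AddMonoidAlgebra.mapDomainRingHom C (nsmulAddMonoidHom (α := Fin n → ℤ) q) A).coeff d =
      ∑ w ∈ A.coeff.support, A.coeff w * G.coeff (d - q • w) := by
  rw [expand, Finset.mul_sum, AddMonoidAlgebra.coeff_sum, Finsupp.finsetSum_apply]
  refine Finset.sum_congr rfl fun w _ => ?_
  rw [AddMonoidAlgebra.coeff_mul_single_apply, mul_comm, sub_eq_add_neg]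

variable {K : (Fin n → ℤ) → Prop} {e : (Fin n → ℤ) → ℕ}

theorem ee_smul (hG : Wgt K e) (m : ℕ) (u : Fin n → ℤ) (hu : K u) :
    e (m • u) = m * e u := hG.smul m u hu

theorem ee_zero (hG : Wgt K e) : e 0 = 0 := by
  have h := ee_smul hG 0 0 hG.zero
  rwa [smul_zero, zero_mul] at h

theorem cone_mul (hG : Wgt K e) {B B' q : ℕ} {G A : AddMonoidAlgebra C (Fin n → ℤ)}
    (h1 : InK K e B G) (h2 : InK K e B' A) :
    InK K e (B + q * B')
      (G * AddMonoidAlgebra.mapDomainRingHom C (nsmulAddMonoidHom (α := Fin n → ℤ) q) A) := by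
  intro u hu
  rw [coeff_mul_map] at hu
  obtain ⟨w, hw, hne⟩ := Finset.exists_ne_zero_of_sum_ne_zero hu
  obtain ⟨ha1, ha2⟩ := h2 w (left_ne_zero_of_mul hne)
  obtain ⟨hb1, hb2⟩ := h1 (u - q • w) (right_ne_zero_of_mul hne)
  have h3 : u = (u - q • w) + q • w := (sub_add_cancel _ _).symm
  have h4 := hG.smulK q w ha1
  refine ⟨by rw [h3]; exact hG.add _ _ hb1 h4, ?_⟩
  rw [h3]
  refine (hG.sub _ _ hb1 h4).trans (add_le_add hb2 ?_)
  rw [ee_smul hG q w ha1]
  exact Nat.mul_le_mul_left q ha2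

theorem GT_succ (p : ℕ) (F : ℕ → AddMonoidAlgebra C (Fin n → ℤ)) (m : ℕ) :
    GT p F (m + 1) = GT p F m *
      AddMonoidAlgebra.mapDomainRingHom C (nsmulAddMonoidHom (α := Fin n → ℤ) (p ^ m)) (F m) := by
  rw [GT, Finset.prod_range_succ, GT]

theorem GT_cone (hG : Wgt K e) {p : ℕ} (hp : 1 ≤ p) {L : ℕ}
    {F : ℕ → AddMonoidAlgebra C (Fin n → ℤ)} (hF : ∀ i, InK K e ((p - 1) * L) (F i))
    (m : ℕ) : InK K e ((p ^ m - 1) * L) (GT p F m) := by
  induction m with
  | zero =>
    intro u hu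
    have h0 : u = 0 := by
      by_contra hne
      apply hu
      rw [GT, Finset.range_zero, Finset.prod_empty, AddMonoidAlgebra.one_def,
        AddMonoidAlgebra.coeff_single_apply, if_neg (Ne.symm hne)]
    subst h0
    exact ⟨hG.zero, by rw [ee_zero hG]; exact Nat.zero_le _⟩
  | succ m ih =>
    rw [GT_succ]
    have h1 := cone_mul hG (q := p ^ m) ih (hF m)
    have h2 : (p ^ m - 1) * L + p ^ m * ((p - 1) * L) = (p ^ (m + 1) - 1) * L := by
      have h3 : p ^ (m + 1) - 1 = (p ^ m - 1) + p ^ m * (p - 1) := by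
        have h4 : 1 ≤ p ^ m := Nat.one_le_pow _ _ hp
        rw [pow_succ]
        obtain ⟨a, ha⟩ := Nat.exists_eq_add_of_le' h4
        obtain ⟨b, hb⟩ := Nat.exists_eq_add_of_le' hp
        rw [ha, hb, Nat.add_sub_cancel, Nat.add_sub_cancel]
        have : (a + 1) * (b + 1) = a + (a + 1) * b + 1 := by ring
        rw [this, Nat.add_sub_cancel]
      rw [h3]
      ring
    rwa [h2] at h1

theorem main (hG : Wgt K e) {p : ℕ} (hp : 1 ≤ p) {L : ℕ}
    {S : Finset (Fin n → ℤ)} (hS : IsLev K e L S)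
    {F : ℕ → AddMonoidAlgebra C (Fin n → ℤ)} (hF : ∀ i, InK K e ((p - 1) * L) (F i))
    (m : ℕ) (u v : S) :
    Pmat (fun i => AT p S (F i)) m u v = (GT p F m).coeff (p ^ m • u.1 - v.1) := by
  classical
  induction m generalizing u v with
  | zero =>
    rw [GT, Finset.range_zero, Finset.prod_empty, AddMonoidAlgebra.one_def,
      AddMonoidAlgebra.coeff_single_apply, pow_zero, one_smul]
    show (1 : Matrix S S C) u v = _
    by_cases huv : u = v
    · subst huv
      rw [Matrix.one_apply_eq, if_pos (sub_self _).symm]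
    · rw [Matrix.one_apply_ne huv, if_neg]
      intro h
      exact huv (Subtype.ext (sub_eq_zero.1 h.symm))
  | succ m ih =>
    have hL : Pmat (fun i => AT p S (F i)) (m + 1) u v =
        ∑ w : S, AT p S (F m) u w * Pmat (fun i => AT p S (F i)) m w v := by
      simp only [Pmat, Matrix.mul_apply]
    rw [hL, GT_succ, coeff_mul_map]
    obtain ⟨g, hg⟩ : ∃ g : (Fin n → ℤ) → C, g = fun x => (F m).coeff x *
      (GT p F m).coeff (p ^ m • (p • u.1 - x) - v.1) := ⟨_, rfl⟩
    have e1 : ∑ w : S, AT p S (F m) u w * Pmat (fun i => AT p S (F i)) m w v =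
        ∑ w ∈ S, g (p • u.1 - w) := by
      rw [← Finset.sum_coe_sort S (fun w => g (p • u.1 - w))]
      refine Finset.sum_congr rfl fun w _ => ?_
      rw [ih w v, hg]
      simp only [AT, Matrix.of_apply, sub_sub_cancel]
    have e2 : ∀ x ∈ (F m).coeff.support,
        (F m).coeff x * (GT p F m).coeff (p ^ (m + 1) • u.1 - v.1 - p ^ m • x) = g x := by
      intro x _
      rw [hg]
      have h1 : p ^ (m + 1) • u.1 - v.1 - p ^ m • x = p ^ m • (p • u.1 - x) - v.1 := by
        rw [smul_sub, smul_smul, ← pow_succ]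
        abel
      simp only [h1]
    rw [e1, Finset.sum_congr rfl e2,
      ← Finset.sum_image (s := S) (g := fun w : Fin n → ℤ => p • u.1 - w) (f := g)
        (fun w _ w' _ h => sub_right_injective h)]
    refine Finset.sum_congr_of_eq_on_inter ?_ ?_ (fun _ _ _ => rfl)
    · intro x _ hx
      rw [hg]
      simp only [Finsupp.notMem_support_iff.1 hx, zero_mul]
    · intro x hx hxS
      by_contra hne
      rw [hg] at hne
      apply hxS
      rw [Finset.mem_image]
      obtain ⟨h1, h1'⟩ := GT_cone hG hp hF m _ (right_ne_zero_of_mul hne)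
      obtain ⟨h2, h2'⟩ := (hS v.1).1 v.2
      have h4 : 1 ≤ p ^ m := Nat.one_le_pow _ _ hp
      have h3 : p ^ m • (p • u.1 - x) = (p ^ m • (p • u.1 - x) - v.1) + v.1 :=
        (sub_add_cancel _ _).symm
      have h5 : K (p ^ m • (p • u.1 - x)) := by
        rw [h3]
        exact hG.add _ _ h1 h2
      have h6 : K (p • u.1 - x) := hG.sat _ _ h4 h5
      have h7 : p ^ m * e (p • u.1 - x) ≤ (p ^ m - 1) * L + L := by
        rw [← ee_smul hG _ _ h6, h3]
        exact (hG.sub _ _ h1 h2).trans (add_le_add h1' h2')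
      have h8 : (p ^ m - 1) * L + L = p ^ m * L := by
        obtain ⟨q, hq⟩ : ∃ q : ℕ, p ^ m = q + 1 := ⟨p ^ m - 1, by omega⟩
        rw [hq, Nat.add_sub_cancel]
        ring
      rw [h8] at h7
      exact ⟨p • u.1 - x, (hS _).2 ⟨h6, Nat.le_of_mul_le_mul_left h7 (by omega)⟩,
        sub_sub_cancel _ _⟩

end PATHEaux

/-- **PATHE.** -/
theorem pathe_thm : StmtPATHE := by
  intro p hp C _ n K e hG L S hS F hF m
  refine ⟨PATHEaux.GT_cone hG hp hF m, ?_⟩
  rw [Matrix.trace, ← Finset.sum_coe_sort S (fun u => (GT p F m).coeff ((p ^ m - 1) • u))]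
  refine Finset.sum_congr rfl fun u _ => ?_
  rw [Matrix.diag_apply, PATHEaux.main hG hp hS hF m u u]
  congr 1
  have h4 : 1 ≤ p ^ m := Nat.one_le_pow _ _ hp
  obtain ⟨q, hq⟩ : ∃ q : ℕ, p ^ m = q + 1 := ⟨p ^ m - 1, by omega⟩
  rw [hq, Nat.add_sub_cancel, succ_nsmul, add_sub_cancel_right]

end ASE
end

section
/-! # Module PWR: the multisets `gev`, `god`. -/
set_option linter.all false

namespace ASE

open Finset ASur AST

universe u v

namespace PWRaux

variable {C : Type} [NormedField C]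

theorem ps_tw (q : C) (s : ℕ) (γ : Multiset C) (j : ℕ) :
    ps (tw q s γ) j = (q ^ s) ^ j * ps γ j := by
  rw [ps, ps, tw, Multiset.map_map, ← Multiset.sum_map_mul_left]
  congr 1
  refine Multiset.map_congr rfl fun x _ => ?_
  simp only [Function.comp, mul_pow]

theorem dc_tw (q : C) (hq : q ≠ 0) (s : ℕ) (γ : Multiset C) (w : C) :
    dc (tw q s γ) w = dc γ (w / q ^ s) := by
  classical
  have hs : q ^ s ≠ 0 := pow_ne_zero _ hq
  have hn : 0 < ‖q ^ s‖ := norm_pos_iff.2 hs
  rw [dc, dc, tw, Multiset.countP_map, ← Multiset.countP_eq_card_filter]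
  refine Multiset.countP_congr rfl fun x _ => ?_
  have h1 : q ^ s * x - w = q ^ s * (x - w / q ^ s) := by
    field_simp
  have h2 : w = q ^ s * (w / q ^ s) := by field_simp
  have h3 : ‖q ^ s * x - w‖ = ‖q ^ s‖ * ‖x - w / q ^ s‖ := by rw [h1, norm_mul]
  have h4 : ‖w‖ = ‖q ^ s‖ * ‖w / q ^ s‖ := by
    conv_lhs => rw [h2, norm_mul]
  rw [h3, h4]
  exact propext (mul_lt_mul_iff_right₀ hn)

theorem cc_tw (q : C) (hq : q ≠ 0) (s : ℕ) (γ : Multiset C) (r : ℝ) :
    cc (tw q s γ) r = cc γ (r / ‖q‖ ^ s) := by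
  classical
  have hn : 0 < ‖q‖ ^ s := pow_pos (norm_pos_iff.2 hq) _
  rw [cc, cc, tw, Multiset.countP_map, ← Multiset.countP_eq_card_filter]
  refine Multiset.countP_congr rfl fun x _ => ?_
  rw [norm_mul, norm_pow, eq_div_iff hn.ne', mul_comm]

theorem ge_tw (q : C) (hq1 : ‖q‖ ≤ 1) (s : ℕ) (γ : Multiset C) (r : ℝ) :
    ge (tw q s γ) r ≤ ge γ r := by
  classical
  rw [ge, ge, tw, Multiset.countP_map, Multiset.countP_eq_card_filter]
  refine Multiset.card_le_card (Multiset.monotone_filter_right γ fun x hx => ?_)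
  have h1 : ‖q ^ s * x‖ ≤ ‖x‖ := by
    rw [norm_mul, norm_pow]
    exact mul_le_of_le_one_left (norm_nonneg _) (pow_le_one₀ (norm_nonneg _) hq1)
  exact le_trans hx h1

/-- sums over the even and the odd numbers -/
theorem split {A : Type} [CommRing A] (n : ℕ) (g : ℕ → A) :
    (∑ s ∈ (range (n + 1)).filter (fun s => s % 2 = 0), g s) -
      (∑ s ∈ (range (n + 1)).filter (fun s => s % 2 = 1), g s) =
    ∑ s ∈ range (n + 1), (-1) ^ s * g s := by
  have h1 : ∑ s ∈ range (n + 1), (-1) ^ s * g s =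
      ∑ s ∈ (range (n + 1)).filter (fun s => s % 2 = 0), (-1) ^ s * g s +
      ∑ s ∈ (range (n + 1)).filter (fun s => ¬ s % 2 = 0), (-1) ^ s * g s :=
    (Finset.sum_filter_add_sum_filter_not _ _ _).symm
  have h2 : (range (n + 1)).filter (fun s => ¬ s % 2 = 0) =
      (range (n + 1)).filter (fun s => s % 2 = 1) := by
    refine Finset.filter_congr fun s _ => ?_
    omega
  rw [h1, h2, sub_eq_add_neg, ← Finset.sum_neg_distrib]
  congr 1
  · refine Finset.sum_congr rfl fun s hs => ?_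
    have := (Finset.mem_filter.1 hs).2
    have he : Even s := Nat.even_iff.2 this
    rw [he.neg_one_pow, one_mul]
  · refine Finset.sum_congr rfl fun s hs => ?_
    have := (Finset.mem_filter.1 hs).2
    have he : Odd s := Nat.odd_iff.2 this
    rw [he.neg_one_pow]
    ring

theorem mem_sum_nsmul (I : Finset ℕ) (c : ℕ → ℕ) (μ : ℕ → Multiset C) (x : C)
    (hx : x ∈ ∑ s ∈ I, c s • μ s) : ∃ s ∈ I, x ∈ μ s := by
  obtain ⟨s, hs, h⟩ := Multiset.mem_sum.1 hx
  exact ⟨s, hs, Multiset.mem_of_mem_nsmul h⟩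

theorem norm_tw (q : C) (hq1 : ‖q‖ ≤ 1) (s : ℕ) (γ : Multiset C) (hγ : ∀ x ∈ γ, ‖x‖ ≤ 1)
    (y : C) (hy : y ∈ tw q s γ) : ‖y‖ ≤ 1 := by
  obtain ⟨x, hx, rfl⟩ := Multiset.mem_map.1 hy
  rw [norm_mul, norm_pow]
  exact mul_le_one₀ (pow_le_one₀ (norm_nonneg _) hq1) (norm_nonneg _) (hγ x hx)

end PWRaux

open PWRaux in
theorem pwr_thm : StmtPWR := by
  classical
  intro C _ _ n q γ hq hq1
  refine ⟨?_, ?_, ?_, ?_, ?_⟩
  · intro j
    rw [gev, god, ps_sum, ps_sum]
    simp only [ps_nsmul, ps_tw]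
    rw [split n (fun s => (n.choose s : C) * ((q ^ s) ^ j * ps γ j))]
    have h1 : (1 - q ^ j) ^ n = ∑ s ∈ range (n + 1), (-1) ^ s * ((n.choose s : C) * (q ^ s) ^ j) := by
      have h2 : (1 - q ^ j) = (-(q ^ j) + 1) := by ring
      rw [h2, add_pow]
      refine Finset.sum_congr rfl fun s _ => ?_
      rw [one_pow, neg_pow, ← pow_mul, ← pow_mul, mul_comm j s]
      ring
    rw [h1, Finset.sum_mul]
    refine Finset.sum_congr rfl fun s _ => ?_
    ring
  · intro w hw
    rw [gev, god, dc_sum, dc_sum]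
    simp only [dc_nsmul, dc_tw q hq]
    push_cast
    rw [split n (fun s => (n.choose s : ℤ) * (dc γ (w / q ^ s) : ℤ))]
    refine Finset.sum_congr rfl fun s _ => ?_
    ring
  · intro r
    rw [gev, god, cc_sum, cc_sum]
    simp only [cc_nsmul, cc_tw q hq]
    push_cast
    rw [split n (fun s => (n.choose s : ℤ) * (cc γ (r / ‖q‖ ^ s) : ℤ))]
    refine Finset.sum_congr rfl fun s _ => ?_
    ring
  · intro r
    rw [gev, god, ge_sum, ge_sum]
    simp only [ge_nsmul]
    have h2 : (range (n + 1)).filter (fun s => s % 2 = 1) =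
        (range (n + 1)).filter (fun s => ¬ s % 2 = 0) := by
      refine Finset.filter_congr fun s _ => ?_
      omega
    rw [h2, Finset.sum_filter_add_sum_filter_not, ← Nat.sum_range_choose, Finset.sum_mul]
    exact Finset.sum_le_sum fun s _ => Nat.mul_le_mul_left _ (ge_tw q hq1 s γ r)
  · intro hγ
    refine ⟨?_, ?_⟩
    · intro x hx
      obtain ⟨s, _, h⟩ := mem_sum_nsmul _ _ _ _ hx
      exact norm_tw q hq1 s γ hγ x h
    · intro x hx
      obtain ⟨s, _, h⟩ := mem_sum_nsmul _ _ _ _ hx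
      exact norm_tw q hq1 s γ hγ x h

end ASE
end

section
/-!
# MP_b685ef_ag, theorem LFP, part (A), module REDH
-/
set_option linter.all false

namespace ASE

open Finset ASur AST

namespace REDHaux

theorem le_add {n : ℕ} {K : (Fin n → ℤ) → Prop} {e : (Fin n → ℤ) → ℕ} (hG : Wgt K e) (p : ℕ)
    (u v : Fin n → ℤ) (hu : K u) (hv : K v) (hw : K (p • u - v)) :
    p * e u ≤ e (p • u - v) + e v := by
  have h1 := hG.sub (p • u - v) v hw hv
  rw [sub_add_cancel, hG.smul p u hu] at h1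
  exact h1

/-- The scaled entries: `a = A(u,v)` bounded by `r^{e(pu-v)}`. -/
theorem bound {C : Type} [NormedField C] (ρ a : C) (x y z : ℕ) (hρ0 : ρ ≠ 0) (hρ1 : ‖ρ‖ < 1)
    (ha : ‖a‖ ≤ ‖ρ‖ ^ x) (hxy : z ≤ x + y) : ‖a * ρ ^ y / ρ ^ z‖ ≤ 1 := by
  have hρn : 0 < ‖ρ‖ := norm_pos_iff.2 hρ0
  rw [norm_div, norm_mul, norm_pow, norm_pow]
  refine div_le_one_of_le₀ ?_ (pow_nonneg hρn.le _)
  calc ‖a‖ * ‖ρ‖ ^ y ≤ ‖ρ‖ ^ x * ‖ρ‖ ^ y := mul_le_mul_of_nonneg_right ha (pow_nonneg hρn.le _)
    _ = ‖ρ‖ ^ (x + y) := (pow_add _ _ _).symm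
    _ ≤ ‖ρ‖ ^ z := pow_le_pow_of_le_one hρn.le hρ1.le hxy

theorem bound_lt {C : Type} [NormedField C] (ρ a : C) (x y z : ℕ) (hρ0 : ρ ≠ 0) (hρ1 : ‖ρ‖ < 1)
    (ha : ‖a‖ ≤ ‖ρ‖ ^ x) (hxy : z < x + y) : ‖a * ρ ^ y / ρ ^ z‖ < 1 := by
  have hρn : 0 < ‖ρ‖ := norm_pos_iff.2 hρ0
  rw [norm_div, norm_mul, norm_pow, norm_pow, div_lt_one (pow_pos hρn _)]
  calc ‖a‖ * ‖ρ‖ ^ y ≤ ‖ρ‖ ^ x * ‖ρ‖ ^ y := mul_le_mul_of_nonneg_right ha (pow_nonneg hρn.le _)
    _ = ‖ρ‖ ^ (x + y) := (pow_add _ _ _).symm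
    _ < ‖ρ‖ ^ z := pow_lt_pow_right_of_lt_one₀ hρn hρ1 hxy

theorem gH_zero {n : ℕ} {k : Type} [Field k] (D : ℕ) (e : (Fin n → ℤ) → ℕ) (E : ℕ → ℚ)
    (f : (Fin n → ℤ) →₀ k) (w : Fin n → ℤ) (a : ℕ)
    (h : ∀ l : f.support → ℕ, (∀ x, l x ≠ 0 → e x.1 = D) → ∑ x, (l x : ℤ) • x.1 = w →
      D * ∑ x, l x = a → False) : gH D e E f w a = 0 := by
  unfold gH
  refine Finset.sum_eq_zero fun l hl => ?_
  rw [Finset.mem_filter] at hl
  exact (h l hl.2.1 hl.2.2.1 hl.2.2.2).elim

theorem sum_e {n : ℕ} {k : Type} [Field k] (D : ℕ) (e : (Fin n → ℤ) → ℕ)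
    (f : (Fin n → ℤ) →₀ k) (l : f.support → ℕ) (h : ∀ x, l x ≠ 0 → e x.1 = D) :
    ∑ x, l x * e x.1 = D * ∑ x, l x := by
  rw [Finset.mul_sum]
  refine Finset.sum_congr rfl fun x _ => ?_
  by_cases hx : l x = 0
  · rw [hx]; simp
  · rw [h x hx, Nat.mul_comm]

end REDHaux

open REDHaux

theorem redh_thm (hWGTE : StmtWGTE) (hLEADH : StmtLEADH) (hSUBE : StmtSUBE) : StmtREDH := by
  intro p hpF D hD C _ _ hpC ζ ρ ε Θ E J0 hΘ hE hρ hρ0 hρ1 k _ _ ι τ hτ n K e hG f hf S hS
  have hwg := hWGTE p D C ζ ρ ε Θ hΘ hρ hρ0 hρ1 k ι τ hτ n K e hG f hf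
  have hlead := hLEADH p D hD C hpC ζ ρ ε Θ E J0 hΘ hE hρ hρ0 hρ1 k ι τ hτ n K e hG f hf
  have hsub : ∀ l : f.support → ℕ, K (∑ x, (l x : ℤ) • x.1) ∧
      e (∑ x, (l x : ℤ) • x.1) ≤ ∑ x, l x * e x.1 := fun l =>
    hSUBE n K e hG f.support Finset.univ l (fun x => x.1) (fun x _ => (hf x.1 x.2).1)
  refine ⟨fun i => Matrix.of fun u v =>
      (FT p τ Θ f i).coeff (p • u.1 - v.1) * ρ ^ e v.1 / ρ ^ (p * e u.1), ?_, ?_, ?_⟩
  · intro i u v
    change ‖(FT p τ Θ f i).coeff (p • u.1 - v.1) * ρ ^ e v.1 / ρ ^ (p * e u.1)‖ ≤ 1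
    by_cases hK : K (p • u.1 - v.1)
    · exact bound ρ _ (e (p • u.1 - v.1)) _ _ hρ0 hρ1 (hwg i _).2
        (le_add hG p u.1 v.1 (hS _ u.2) (hS _ v.2) hK)
    · rw [(hwg i _).1 hK, zero_mul, zero_div, norm_zero]
      exact zero_le_one
  · intro i u v
    change (FT p τ Θ f i).coeff (p • u.1 - v.1) * ρ ^ e v.1 = ρ ^ (p * e u.1) *
      ((FT p τ Θ f i).coeff (p • u.1 - v.1) * ρ ^ e v.1 / ρ ^ (p * e u.1))
    rw [mul_div_cancel₀ _ (pow_ne_zero _ hρ0)]
  · intro i u v hJ
    change rd ((FT p τ Θ f i).coeff (p • u.1 - v.1) * ρ ^ e v.1 / ρ ^ (p * e u.1)) = _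
    have hpi : p ^ i ≠ 0 := pow_ne_zero _ hpF.out.ne_zero
    by_cases hK : K (p • u.1 - v.1)
    · have h1 := le_add hG p u.1 v.1 (hS _ u.2) (hS _ v.2) hK
      rcases h1.lt_or_eq with h2 | h2
      · rw [rd_of_lt (bound_lt ρ _ (e (p • u.1 - v.1)) _ _ hρ0 hρ1 (hwg i _).2 h2)]
        have h3 : cH p D e E f u.1 v.1 = 0 := by
          unfold cH
          split_ifs with h4
          · refine gH_zero D e E f _ _ fun l hl hw ha => ?_
            have h5 := (hsub l).2
            rw [hw, sum_e D e f l hl, ha] at h5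
            omega
          · rfl
        rw [h3, map_zero, zero_pow hpi]
      · have h4 : e v.1 ≤ p * e u.1 := by omega
        have h5 : p * e u.1 - e v.1 = e (p • u.1 - v.1) := by omega
        have h6 : cH p D e E f u.1 v.1 = gH D e E f (p • u.1 - v.1) (e (p • u.1 - v.1)) := by
          unfold cH
          rw [if_pos h4, h5]
        rw [h6, ← hlead i _ hK (by omega)]
        congr 1
        rw [h2, pow_add, mul_div_mul_right _ _ (pow_ne_zero _ hρ0)]
    · rw [(hwg i _).1 hK, zero_mul, zero_div, rd_zero]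
      have h3 : cH p D e E f u.1 v.1 = 0 := by
        unfold cH
        split_ifs with h4
        · refine gH_zero D e E f _ _ fun l hl hw ha => ?_
          have h5 := (hsub l).1
          rw [hw] at h5
          exact hK h5
        · rfl
      rw [h3, map_zero, zero_pow hpi]

end ASE
end

section
/-!
# MP_b685ef_ag, theorem LFP, part (A): reindexing (REIH)
-/
set_option linter.all false

namespace ASE

open Finset ASur AST

namespace REIHaux

variable {n : ℕ}

/-- the level sets inside `S` -/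
def eqv {K : (Fin n → ℤ) → Prop} {e : (Fin n → ℤ) → ℕ} (hW : Wgt K e) {L : ℕ}
    {S : Finset (Fin n → ℤ)} (hS : IsLev K e L S) (Q : ℕ → Prop) (hQ : ∀ j, Q j → j ≤ L) :
    {u : S // Q (e u.1)} ≃ lset K e Q where
  toFun u := ⟨u.1.1, (hW.mem_lset Q L hQ u.1.1).2 ⟨((hS u.1.1).1 u.1.2).1, u.2⟩⟩
  invFun u := ⟨⟨u.1, (hS u.1).2 ⟨((hW.mem_lset Q L hQ u.1).1 u.2).1,
    hQ _ ((hW.mem_lset Q L hQ u.1).1 u.2).2⟩⟩, ((hW.mem_lset Q L hQ u.1).1 u.2).2⟩
  left_inv u := rfl
  right_inv u := rfl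

theorem fprod_sub {I J k : Type} [Fintype I] [DecidableEq I] [Fintype J] [DecidableEq J]
    [CommSemiring k] (p : ℕ) (M : Matrix J J k) (s : I ≃ J) (h : ℕ) :
    Fprod p (M.submatrix s s) h = (Fprod p M h).submatrix s s := by
  induction h with
  | zero =>
    simp only [Fprod]
    rw [Matrix.submatrix_one_equiv]
  | succ h ih =>
    simp only [Fprod]
    rw [ih, ← Matrix.submatrix_map, Matrix.submatrix_mul_equiv]

theorem sch_sub {I1 I2 J1 J2 k : Type} [Field k] {f1 : Fintype I1} {f2 : Fintype J1}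
    {d1 : DecidableEq I1} {d2 : DecidableEq J1} (s1 : I1 ≃ J1) (s2 : I2 ≃ J2)
    (A : Matrix J2 J2 k) (B : Matrix J2 J1 k) (Z : Matrix J1 J1 k) (D : Matrix J1 J2 k) :
    A.submatrix s2 s2 - B.submatrix s2 s1 * (Z.submatrix s1 s1)⁻¹ * D.submatrix s1 s2 =
      (A - B * Z⁻¹ * D).submatrix s2 s2 := by
  rw [Matrix.inv_submatrix_equiv, Matrix.submatrix_mul_equiv, Matrix.submatrix_mul_equiv]
  rfl

theorem det_sub {I J k : Type} [Field k] {f1 : Fintype I} {f2 : Fintype J}
    {d1 : DecidableEq I} {d2 : DecidableEq J} (s : I ≃ J) (Z : Matrix J J k) :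
    (Z.submatrix s s).det = Z.det := Matrix.det_submatrix_equiv_self s Z

theorem card_lev {K : (Fin n → ℤ) → Prop} {e : (Fin n → ℤ) → ℕ} {L m : ℕ}
    {S : Finset (Fin n → ℤ)} (hS : IsLev K e L S) (hm : m ≤ L) [Fintype {u : S // e u.1 < m}] :
    Fintype.card {u : S // e u.1 < m} = ∑ j ∈ range m, hh K e j := by
  classical
  have h1 : Fintype.card {u : S // e u.1 < m} = (S.filter fun u => e u < m).card := by
    rw [← Fintype.card_coe]
    refine Fintype.card_congr
      { toFun := fun u => ⟨u.1.1, mem_filter.2 ⟨u.1.2, u.2⟩⟩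
        invFun := fun u => ⟨⟨u.1, (mem_filter.1 u.2).1⟩, (mem_filter.1 u.2).2⟩
        left_inv := fun u => rfl
        right_inv := fun u => rfl }
  rw [h1, Finset.card_eq_sum_card_fiberwise (f := e) (t := range m)
    (fun u hu => by
      have := (mem_filter.1 hu).2
      simpa using this)]
  refine sum_congr rfl fun j hj => ?_
  rw [mem_range] at hj
  unfold hh
  have h2 : {u : Fin n → ℤ | K u ∧ e u = j} =
      ((((S.filter fun u => e u < m).filter fun u => e u = j) : Finset (Fin n → ℤ)) :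
        Set (Fin n → ℤ)) := by
    ext u
    simp only [Set.mem_setOf_eq, coe_filter, mem_filter]
    constructor
    · rintro ⟨h3, h4⟩
      exact ⟨⟨(hS u).2 ⟨h3, by omega⟩, by omega⟩, h4⟩
    · rintro ⟨⟨h3, -⟩, h4⟩
      exact ⟨((hS u).1 h3).1, h4⟩
  rw [h2, Set.ncard_coe_finset]

end REIHaux

open REIHaux

theorem reih_thm : StmtREIH := by
  classical
  intro n K e hW k _ p D h E f m L S hS hm
  have hQ1 : ∀ j, j < m → j ≤ L := fun j hj => by omega
  have hQ2 : ∀ j, j = m → j ≤ L := fun j hj => by omega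
  let e1 := eqv hW hS (fun j => j < m) hQ1
  let e2 := eqv hW hS (fun j => j = m) hQ2
  have b11 : blkM (fun u : S => e u.1) (fun j => j < m) (fun j => j < m)
      (fun u v => cH p D e E f u.1 v.1) =
      (bH p D K e E f (fun j => j < m) (fun j => j < m)).submatrix e1 e1 := by
    ext u v; rfl
  have b22 : blkM (fun u : S => e u.1) (fun j => j = m) (fun j => j = m)
      (fun u v => cH p D e E f u.1 v.1) =
      (bH p D K e E f (fun j => j = m) (fun j => j = m)).submatrix e2 e2 := by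
    ext u v; rfl
  have b21 : blkM (fun u : S => e u.1) (fun j => j = m) (fun j => j < m)
      (fun u v => cH p D e E f u.1 v.1) =
      (bH p D K e E f (fun j => j = m) (fun j => j < m)).submatrix e2 e1 := by
    ext u v; rfl
  have b12 : blkM (fun u : S => e u.1) (fun j => j < m) (fun j => j = m)
      (fun u v => cH p D e E f u.1 v.1) =
      (bH p D K e E f (fun j => j < m) (fun j => j = m)).submatrix e1 e2 := by
    ext u v; rfl
  refine ⟨?_, ?_, card_lev hS hm⟩
  · unfold dH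
    rw [b11]
    exact det_sub e1 (bH p D K e E f (fun j => j < m) (fun j => j < m))
  · have hs : schM (fun u : S => e u.1) m (fun u v => cH p D e E f u.1 v.1) =
        (sH p D K e E f m).submatrix e2 e2 := by
      unfold schM sH
      rw [b11, b22, b21, b12]
      exact sch_sub e1 e2 (bH p D K e E f (fun j => j = m) (fun j => j = m))
        (bH p D K e E f (fun j => j = m) (fun j => j < m))
        (bH p D K e E f (fun j => j < m) (fun j => j < m))
        (bH p D K e E f (fun j => j < m) (fun j => j = m))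
    rw [hs, fprod_sub]
    unfold NmH
    exact Matrix.charpoly_reindex e2.symm _

end ASE
end

section
/-!
# MP_b685ef_ag, theorem LFP, modules TORS, RESF
-/
set_option linter.all false

namespace ASE

open Finset ASur AST

theorem TORS_thm : StmtTORS := by
  intro k _ _ v hv
  have hi : IsIntegral k v := Algebra.IsIntegral.isIntegral v
  haveI : FiniteDimensional k (IntermediateField.adjoin k {v}) :=
    IntermediateField.adjoin.finiteDimensional hi
  haveI : Finite (IntermediateField.adjoin k {v}) := Module.finite_of_finite k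
  haveI : Fintype (IntermediateField.adjoin k {v}) := Fintype.ofFinite _
  set x : IntermediateField.adjoin k {v} := ⟨v, IntermediateField.mem_adjoin_simple_self k v⟩ with hx
  have hx0 : x ≠ 0 := by
    intro h
    exact hv (congrArg Subtype.val h)
  refine ⟨Fintype.card (IntermediateField.adjoin k {v}) - 1, ?_, ?_⟩
  · have := Fintype.one_lt_card (α := IntermediateField.adjoin k {v})
    omega
  · have h := FiniteField.pow_card_sub_one_eq_one x hx0
    exact congrArg Subtype.val h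

theorem RESF_thm (hM : StmtMAINH) (hA : StmtACL) (hZ : ASur.StmtZETA) : StmtRESF := by
  classical
  intro p hpf D hD C _ _ _ _ hp j hj E hE k _ _ _ I _ n K e f a hW hf ψ hψ ρ hρ τ hτ A B hAB M hd
  haveI := hpf
  -- the embedding of the algebraic closure in the residue field
  have hn1 : ∀ v : AlgebraicClosure k, v ≠ 0 → ‖τ v‖ = 1 := by
    intro v hv
    obtain ⟨N, hN, h⟩ := TORS_thm k v hv
    have h1 : ‖τ v‖ ^ N = 1 := by rw [← norm_pow, ← map_pow, h, map_one, norm_one]
    exact (pow_eq_one_iff_of_nonneg (norm_nonneg _) (by omega)).1 h1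
  have hle : ∀ v : AlgebraicClosure k, ‖τ v‖ ≤ 1 := by
    intro v
    by_cases hv : v = 0
    · rw [hv, map_zero, norm_zero]; exact zero_le_one
    · exact (hn1 v hv).le
  let σ : AlgebraicClosure k →+* KK C :=
    { toFun := fun x => rd (τ x)
      map_one' := by simp
      map_mul' := fun a b => by rw [map_mul, rd_mul (hle a) (hle b)]
      map_zero' := by simp
      map_add' := fun a b => by
        rw [← rd_add (hle a) (hle b)]
        refine (rd_eq_iff (hle _) ?_).2 (hτ a b)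
        exact (IsUltrametricDist.norm_add_le_max _ _).trans (max_le (hle a) (hle b)) }
  have hσ : ∀ v, σ v = rd (τ v) := fun _ => rfl
  set h := Module.finrank (ZMod p) k with hh
  have hζ : IsPrimitiveRoot (ψ 1) p := by
    have hpp : (ψ 1) ^ p = 1 := by
      rw [← AddChar.map_nsmul_eq_pow]
      simp
    refine IsPrimitiveRoot.iff_orderOf.2 (orderOf_eq_prime hpp ?_)
    intro h1
    apply hψ
    ext x
    have : x = x.val • (1 : ZMod p) := by simp
    rw [this, AddChar.map_nsmul_eq_pow, h1, one_pow]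
    simp
  obtain ⟨hz0, hz1, -, -⟩ := hZ p C hp (ψ 1) hζ
  have hρ0 : ρ ≠ 0 := by
    rintro rfl
    rw [zero_pow (by omega)] at hρ
    exact hz0 hρ.symm
  have hw0 : ∀ m, ρ ^ ((p - 1) * m * h) ≠ 0 := fun m => pow_ne_zero _ hρ0
  obtain ⟨h1, h2⟩ := hM p D hD C hp j hj E hE k (σ.comp (algebraMap k (AlgebraicClosure k))) I n K e
    f a hW hf ψ hψ ρ hρ A B hAB M hd
  refine ⟨?_, ?_⟩
  · intro m hm v hv
    have e1 : τ v * ρ ^ ((p - 1) * m * h) / ρ ^ ((p - 1) * m * h) = τ v :=
      mul_div_cancel_right₀ _ (hw0 m)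
    rw [h1 m hm _ (by rw [norm_mul, hn1 v hv, one_mul])]
    refine Finset.sum_congr rfl fun i _ => ?_
    rw [e1, ← hσ, (hA k (AlgebraicClosure k) (KK C) (algebraMap k _) σ p D h (n i) (K i) (e i) E
      (f i) m).1 v]
  · intro z hz hzM hoff
    by_cases hc : ∃ m, m ≤ M ∧ ‖z‖ = ‖ρ ^ ((p - 1) * m * h)‖
    · obtain ⟨m, hm, hzm⟩ := hc
      rw [h1 m hm z hzm]
      refine Finset.sum_eq_zero fun i _ => ?_
      have hzw : ‖z / ρ ^ ((p - 1) * m * h)‖ = 1 := by
        rw [norm_div, hzm, div_self (norm_ne_zero_iff.2 (hw0 m))]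
      rw [(hA k (AlgebraicClosure k) (KK C) (algebraMap k _) σ p D h (n i) (K i) (e i) E
        (f i) m).2 _ ?_, mul_zero, mul_zero]
      intro v hv
      have hv0 : v ≠ 0 := by
        rintro rfl
        rw [map_zero] at hv
        have := (rd_eq_zero_iff hzw.le).1 hv.symm
        rw [hzw] at this
        exact lt_irrefl _ this
      have h3 := hoff m hm v hv0
      rw [hσ] at hv
      have h4 := (rd_eq_iff (hle v) hzw.le).1 hv
      have h5 : z - τ v * ρ ^ ((p - 1) * m * h) =
          -((τ v - z / ρ ^ ((p - 1) * m * h)) * ρ ^ ((p - 1) * m * h)) := by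
        rw [sub_mul, div_mul_cancel₀ _ (hw0 m)]
        ring
      rw [h5, norm_neg, norm_mul] at h3
      have h6 : 0 < ‖ρ ^ ((p - 1) * m * h)‖ := norm_pos_iff.2 (hw0 m)
      nlinarith
    · push Not at hc
      exact h2 z hz hzM hc

end ASE
end

section
/-!
# MP_b685ef_ag, theorem LFP, part (A): the edge gives the residues (RESH)
-/
set_option linter.all false

namespace ASE

open Finset ASur AST

namespace RESHaux

open CMPaux

variable {κ : Type} [Field κ]

open Classical in
/-- only the nonzero elements matter -/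
theorem rh_filter (R : Multiset κ) :
    revP R = (((R.filter fun r => r ≠ 0).map fun r =>
      (1 - Polynomial.C r * Polynomial.X : Polynomial κ)).prod) := by
  unfold revP
  induction R using Multiset.induction_on with
  | empty => simp
  | cons r R ih =>
    rw [Multiset.map_cons, Multiset.prod_cons, ih]
    by_cases hr : r = 0
    · rw [Multiset.filter_cons_of_neg (p := fun r : κ => r ≠ 0) _ (fun h => h hr), hr]
      simp
    · rw [Multiset.filter_cons_of_pos (p := fun r : κ => r ≠ 0) _ hr, Multiset.map_cons,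
        Multiset.prod_cons]

variable {C : Type} [NormedField C] [IsUltrametricDist C]

open Classical in
theorem rh_count (w0 : C) (hw0 : w0 ≠ 0) (w : C) (hw : ‖w‖ = ‖w0‖) (β : Multiset C) :
    Multiset.countP (fun r => r = rd (w / w0)) (TT w0 β) = dc β w := by
  have hwn : 0 < ‖w0‖ := norm_pos_iff.2 hw0
  unfold TT dc
  rw [Multiset.countP_map, ← Multiset.countP_eq_card_filter, Multiset.countP_filter]
  refine Multiset.countP_congr rfl fun x _ => ?_
  have hwn' : ‖w / w0‖ = 1 := by rw [norm_div, hw, div_self hwn.ne']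
  have key : (rd (x / w0) = rd (w / w0) ∧ ‖x‖ = ‖w0‖) ↔ ‖x - w‖ < ‖w‖ := by
    have hiff : ‖x‖ = ‖w0‖ → (rd (x / w0) = rd (w / w0) ↔ ‖x - w‖ < ‖w‖) := by
      intro hx
      have hn : ‖x / w0‖ = 1 := by
        rw [norm_div, hx, div_self hwn.ne']
      have e1 : x / w0 - w / w0 = (x - w) / w0 := by field_simp
      rw [rd_eq_iff hn.le hwn'.le, e1, norm_div, div_lt_one hwn, hw]
    constructor
    · rintro ⟨a, b⟩
      exact (hiff b).1 a
    · intro h
      have hx := (norm_eq_of_sub_lt h).trans hw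
      exact ⟨(hiff hx).2 h, hx⟩
  simpa using key

end RESHaux

open RESHaux CMPaux

theorem resh_thm (hEPROD : AST.StmtEPROD) (hKAC : ASur.StmtKAC) : StmtRESH := by
  classical
  intro C _ _ _ γ w0 M J _ _ N hw0 hw1 hedge
  haveI : IsAlgClosed (KK C) := hKAC C
  have hN : N.charpolyRev = ((N.charpoly.roots.filter fun r => r ≠ 0).map fun r =>
      (1 - Polynomial.C r * Polynomial.X : Polynomial (KK C))).prod := by
    rw [nrb_charpolyRev, rh_filter]
  obtain ⟨c, hc0, hc1, hc⟩ := cm_edge w0 hw0 γ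
  have hT : ∀ m0, Edge (revP γ : PowerSeries C) w0 (gc γ ‖w0‖)
      ((TT w0 γ).map fun r => (1 - Polynomial.C r * Polynomial.X : Polynomial (KK C))).prod m0 := by
    intro m0
    refine ⟨c, hc0, hc1, fun n _ => ?_⟩
    rw [Polynomial.coeff_coe]
    exact hc n
  obtain ⟨m0, hm0⟩ : ∃ m0, m0 = M + N.charpolyRev.natDegree + (gc γ ‖w0‖ +
      (((TT w0 γ).map fun r =>
        (1 - Polynomial.C r * Polynomial.X : Polynomial (KK C))).prod).natDegree) := ⟨_, rfl⟩
  have hz : N.charpolyRev.coeff 0 = 1 := by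
    rw [hN, cm_zero]
  obtain ⟨f1, f2⟩ := (hEPROD C (revP γ : PowerSeries C) (revP γ : PowerSeries C) w0
    (gc γ ‖w0‖) M _ _ m0 hw0).2 (hT m0) (hedge m0) (cm_zero _) hz (by omega) (by omega)
  rw [hN] at f2
  have f3 : TT w0 γ = N.charpoly.roots.filter fun r => r ≠ 0 :=
    cm_inj _ _ (cm_T_ne w0 hw0 γ) (fun r hr => (Multiset.mem_filter.1 hr).2) f2
  have hcard : Multiset.card N.charpoly.roots = Fintype.card J := by
    rw [← N.charpoly_natDegree_eq_dim]
    exact ((Polynomial.splits_iff_card_roots).1 (IsAlgClosed.splits N.charpoly))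
  have hdet : N.det ≠ 0 ↔ (0 : KK C) ∉ N.charpoly.roots := by
    rw [Polynomial.mem_roots N.charpoly_monic.ne_zero, Polynomial.IsRoot.def,
      ← Polynomial.coeff_zero_eq_eval_zero, Matrix.det_eq_sign_charpoly_coeff]
    constructor
    · intro h h0
      exact h (by rw [h0, mul_zero])
    · intro h h0
      rcases mul_eq_zero.1 h0 with h1 | h1
      · exact absurd h1 (pow_ne_zero _ (neg_ne_zero.2 one_ne_zero))
      · exact h h1
  refine ⟨f1, ?_, ?_⟩
  · rw [← cm_T_card, f3, hdet, ← hcard]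
    constructor
    · intro h
      rw [Multiset.filter_eq_self.2]
      intro r hr h0
      exact h (h0 ▸ hr)
    · intro h h0
      have h1 := Multiset.eq_of_le_of_card_le (Multiset.filter_le (fun r : KK C => r ≠ 0)
        N.charpoly.roots) h.ge
      rw [Multiset.filter_eq_self] at h1
      exact h1 0 h0 rfl
  · intro w hw
    rw [← rh_count w0 hw0 w hw γ, f3, ← Polynomial.count_roots]
    have hr0 : rd (w / w0) ≠ 0 := by
      have hn : ‖w / w0‖ = 1 := by
        rw [norm_div, hw, div_self (norm_ne_zero_iff.2 hw0)]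
      rw [Ne, rd_eq_zero_iff hn.le]
      intro h; linarith
    rw [Multiset.countP_filter]
    unfold Multiset.count
    refine Multiset.countP_congr rfl fun r _ => propext ?_
    constructor
    · rintro ⟨h, -⟩
      exact h.symm
    · intro h
      exact ⟨h.symm, fun h0 => hr0 (by rw [h, h0])⟩

end ASE
end

section
/-!
# MP_b685ef_ag, theorem LFP, part (A): module SCHD
-/
set_option linter.all false

namespace ASE

namespace SCHDaux

open Classical in
/-- the index set `{e < m + 1}` is the disjoint union of `{e < m}` and `{e = m}`. -/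
noncomputable def eq1 {I : Type} (e : I → ℕ) (m : ℕ) :
    {u : I // e u < m} ⊕ {u : I // e u = m} ≃ {u : I // e u < m + 1} where
  toFun := Sum.elim (fun u => ⟨u.1, Nat.lt_succ_of_lt u.2⟩)
    (fun u => ⟨u.1, by rw [u.2]; exact Nat.lt_succ_self m⟩)
  invFun := fun u => if h : e u.1 < m then Sum.inl ⟨u.1, h⟩ else
    Sum.inr ⟨u.1, le_antisymm (Nat.le_of_lt_succ u.2) (not_lt.1 h)⟩
  left_inv := by
    rintro (u | u)
    · have h : e u.1 < m := u.2
      simp [h]
    · have h : ¬ e u.1 < m := by rw [u.2]; exact lt_irrefl m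
      simp [h]
  right_inv := by
    intro u
    by_cases h : e u.1 < m
    · simp [h]
    · simp [h]

end SCHDaux

open Classical in
theorem schd_thm : StmtSCHD := by
  intro κ I _ _ e m z h0
  have hA : IsUnit (blkM e (fun j => j < m) (fun j => j < m) z).det := isUnit_iff_ne_zero.2 h0
  letI : Invertible (blkM e (fun j => j < m) (fun j => j < m) z) :=
    Matrix.invertibleOfIsUnitDet _ hA
  have h1 := Matrix.det_fromBlocks₁₁ (blkM e (fun j => j < m) (fun j => j < m) z)
    (blkM e (fun j => j < m) (fun j => j = m) z) (blkM e (fun j => j = m) (fun j => j < m) z)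
    (blkM e (fun j => j = m) (fun j => j = m) z)
  have h2 : (blkM e (fun j => j < m + 1) (fun j => j < m + 1) z).submatrix
      (SCHDaux.eq1 e m) (SCHDaux.eq1 e m) = Matrix.fromBlocks
        (blkM e (fun j => j < m) (fun j => j < m) z)
        (blkM e (fun j => j < m) (fun j => j = m) z)
        (blkM e (fun j => j = m) (fun j => j < m) z)
        (blkM e (fun j => j = m) (fun j => j = m) z) := by
    ext (u | u) (v | v) <;> rfl
  have h3 := Matrix.det_submatrix_equiv_self (SCHDaux.eq1 e m)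
    (blkM e (fun j => j < m + 1) (fun j => j < m + 1) z)
  rw [h2] at h3
  rw [← h3, h1, schM, Matrix.invOf_eq_nonsing_inv]

end ASE
end

section
/-!
# MP_b685ef_ag, theorem LFP: module SUME

The sum of `G(τ x)` over the points of the torus.
-/
set_option linter.all false

namespace ASE

open Finset ASur AST

open Classical in
theorem sume_thm : StmtSUME := by
  intro C _ _ E _ _ ι τ hτ n K e hK L S hS G hG
  have hQ : 1 < Fintype.card E := Fintype.one_lt_card
  obtain ⟨Q, hQ1⟩ : ∃ Q : ℕ, Q = Fintype.card E - 1 := ⟨_, rfl⟩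
  have hQ0 : 1 ≤ Q := by omega
  have hinj : Function.Injective fun u : Fin n → ℤ => Q • u := by
    intro u v huv
    funext i
    have h1 := congrFun huv i
    simp only [Pi.smul_apply, nsmul_eq_mul] at h1
    exact mul_left_cancel₀ (by exact_mod_cast (by omega : Q ≠ 0)) h1
  unfold sumT evC
  rw [Finset.sum_comm]
  have e1 : ∀ u ∈ G.coeff.support, ∑ x : Fin n → Eˣ, G.coeff u * τ ((mono x u : Eˣ) : E) =
      if ∀ i, (Q : ℤ) ∣ u i then ((Fintype.card E : C) - 1) ^ n * G.coeff u else 0 := by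
    intro u _
    rw [← Finset.mul_sum, ASX.SUMXaux.st_mono hτ, hQ1]
    split_ifs with hu
    · ring
    · ring
  rw [Finset.sum_congr rfl e1, ← Finset.sum_filter, ← Finset.mul_sum, ← hQ1]
  congr 1
  rw [← Finset.sum_image (s := S) (g := fun u : Fin n → ℤ => Q • u) (f := fun v => G.coeff v)
    (fun u _ v _ h => hinj h)]
  apply Finset.sum_subset
  · intro u hu
    obtain ⟨hu1, hu2⟩ := Finset.mem_filter.1 hu
    choose w hw using hu2
    have hw' : u = Q • w := by
      funext i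
      rw [hw i]
      simp
    rw [Finset.mem_image]
    obtain ⟨h1, h2⟩ := hG u (Finsupp.mem_support_iff.1 hu1)
    rw [hw'] at h1 h2
    have h3 : K w := hK.sat Q w hQ0 h1
    rw [← hQ1, hK.smul Q w h3] at h2
    exact ⟨w, (hS w).2 ⟨h3, Nat.le_of_mul_le_mul_left h2 hQ0⟩, hw'.symm⟩
  · intro u hu hu'
    obtain ⟨w, hw, rfl⟩ := Finset.mem_image.1 hu
    by_contra hne
    apply hu'
    rw [Finset.mem_filter]
    refine ⟨Finsupp.mem_support_iff.2 hne, fun i => ?_⟩
    simp only [Pi.smul_apply, nsmul_eq_mul]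
    exact Dvd.intro _ rfl

end ASE
end
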