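import Pool.Agent.Lib.MP_b685ef_ag.ASE.Spec
import Pool.Agent.Lib.MP_b685ef_ag.ASE.SUBE
import Pool.Agent.Lib.MP_b685ef_ag.ASE.SUME
import Pool.Agent.Lib.MP_b685ef_ag.ASE.FINP
import Pool.Agent.Lib.MP_b685ef_ag.ASX.Main
import Pool.Agent.Lib.MP_b685ef_ag.ASQ.QALL

section
/-!
# MP_b685ef_ag, theorem LFP, module TRFE: the trace formula on the torus
-/
set_option linter.all false

namespace ASE

open Finset ASur AST

private theorem trfe_period {p : ℕ} [Fact p.Prime] {C : Type} [NormedField C]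
    [IsUltrametricDist C] (Θ : Polynomial C) {k : Type} [Field k] [Fintype k] [Algebra (ZMod p) k]
    (τ : k →*₀ C) {n : ℕ} (f : (Fin n → ℤ) →₀ k) (i : ℕ) :
    FT p τ Θ f (i + Module.finrank (ZMod p) k) = FT p τ Θ f i := by
  unfold FT
  refine Finset.prod_congr rfl fun m _ => ?_
  have hc : Fintype.card k = p ^ Module.finrank (ZMod p) k := by
    have := Module.card_eq_pow_finrank (K := ZMod p) (V := k)
    rwa [ZMod.card] at this
  have h : τ (f m) ^ p ^ (i + Module.finrank (ZMod p) k) = τ (f m) ^ p ^ i := by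
    rw [add_comm i, pow_add, pow_mul, ← hc, ← map_pow, FiniteField.pow_card]
  rw [h]

theorem trfe_thm (hTEXT : ASur.StmtTEXT) (hCHST : AST.StmtCHST) (hSUME : StmtSUME)
    (hPATHE : StmtPATHE) (hPER : ASur.StmtPER) : StmtTRFE := by
  intro p _ C _ _ _ _ hp ψ ε Θ hε hΘ k _ _ _ ι τ hτ n K e hG f L S hS hF E _ _ _ _
  have hp1 : 1 ≤ p := (Fact.out : p.Prime).one_lt.le
  obtain ⟨ιE, τE, hτE, hext⟩ := hTEXT p C hp k ι τ hτ E
  have hT : IsScalarTower (ZMod p) k E := by
    refine IsScalarTower.of_algebraMap_eq' ?_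
    exact Subsingleton.elim _ _
  have hcardk : Fintype.card k = p ^ Module.finrank (ZMod p) k := by
    have := Module.card_eq_pow_finrank (K := ZMod p) (V := k)
    rwa [ZMod.card] at this
  have hn : Module.finrank (ZMod p) E = Module.finrank (ZMod p) k * Module.finrank k E :=
    (Module.finrank_mul_finrank (ZMod p) k E).symm
  have hcardE : Fintype.card E = p ^ (Module.finrank (ZMod p) k * Module.finrank k E) := by
    have := Module.card_eq_pow_finrank (K := ZMod p) (V := E)
    rw [ZMod.card, hn] at this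
    exact this
  have hQ : (Fintype.card E : C) = (Fintype.card k : C) ^ Module.finrank k E := by
    rw [hcardE, pow_mul, ← hcardk]
    push_cast
    rfl
  have hchs := hCHST p C hp ψ ε Θ hε hΘ k τ E ιE τE hτE hext n f
  rw [hn] at hchs
  obtain ⟨hdeg, htr⟩ := hPATHE p hp1 C n K e hG L S hS (FT p τ Θ f) hF
    (Module.finrank (ZMod p) k * Module.finrank k E)
  have hsum := hSUME C E ιE τE hτE n K e hG L S hS
    (GT p (FT p τ Θ f) (Module.finrank (ZMod p) k * Module.finrank k E))
    (by rw [hcardE]; exact hdeg)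
  rw [hcardE, ← htr, hPER S C (fun i => AT p S (FT p τ Θ f i)) (Module.finrank (ZMod p) k) (by
      intro i
      simp only [trfe_period]) (Module.finrank k E)] at hsum
  have hQ' : ((p ^ (Module.finrank (ZMod p) k * Module.finrank k E) : ℕ) : C) =
      (Fintype.card k : C) ^ Module.finrank k E := by rw [← hcardE, hQ]
  rw [hQ'] at hsum
  rw [← hsum]
  exact hchs

end ASE
end

section
/-!
# MP_b685ef_ag, theorem LFP: module WGTE, the weight bound for the coefficients of `F_i`
(adapted from ASX/WGTX.lean of helper20)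
-/
set_option linter.all false

namespace ASE

open Finset ASur AST

theorem wgte_thm (hE : ASX.StmtEXPX) (hS : StmtSUBE) : StmtWGTE := by
  classical
  intro p hp D C _ _ ζ ρ ε Θ hΘ hlam hρ hρ1 k _ ι τ hτ n K e hgeo f hf i w
  have hsub : ∀ l : f.support → ℕ, ∑ u : f.support, (l u : ℤ) • u.1 = w →
      K w ∧ e w ≤ D * ∑ u : f.support, l u := by
    intro l hl
    obtain ⟨h1, h2⟩ := hS n K e hgeo f.support univ l (fun u => u.1)
      (fun u _ => (hf u.1 u.2).1)
    rw [hl] at h1 h2
    refine ⟨h1, h2.trans ?_⟩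
    rw [Finset.mul_sum]
    refine Finset.sum_le_sum fun u _ => ?_
    rw [mul_comm]
    exact Nat.mul_le_mul_right _ (hf u.1 u.2).2
  rw [hE p C k τ Θ n f i w]
  constructor
  · intro hw
    refine Finset.sum_eq_zero fun l _ => ?_
    exact if_neg fun h => hw (hsub l h).1
  · refine IsUltrametricDist.norm_sum_le_of_forall_le_of_nonneg (by positivity) fun l _ => ?_
    by_cases hl : ∑ u : f.support, (l u : ℤ) • u.1 = w
    · rw [if_pos hl, norm_prod]
      have h1 : ∀ u ∈ (univ : Finset f.support),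
          ‖Θ.coeff (l u) * (τ (f u.1) ^ (p ^ i)) ^ (l u)‖ ≤ (‖ρ‖ ^ D) ^ (l u) := by
        intro u _
        rw [norm_mul, norm_pow, norm_pow]
        have h2 : ‖Θ.coeff (l u)‖ ≤ (‖ρ‖ ^ D) ^ (l u) := by
          have := hΘ.bound (l u)
          rwa [← hlam, norm_pow] at this
        have h3 : (‖τ (f u.1)‖ ^ (p ^ i)) ^ (l u) ≤ 1 :=
          pow_le_one₀ (by positivity) (pow_le_one₀ (norm_nonneg _) (hτ.norm_le _))
        calc ‖Θ.coeff (l u)‖ * (‖τ (f u.1)‖ ^ (p ^ i)) ^ (l u)
            ≤ (‖ρ‖ ^ D) ^ (l u) * 1 :=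
              mul_le_mul h2 h3 (by positivity) (by positivity)
          _ = _ := mul_one _
      refine (Finset.prod_le_prod (fun u _ => norm_nonneg _) h1).trans ?_
      rw [Finset.prod_pow_eq_pow_sum, ← pow_mul]
      exact pow_le_pow_of_le_one (norm_nonneg _) hρ1.le (hsub l hl).2
    · rw [if_neg hl, norm_zero]
      positivity

end ASE
end

section
/-!
# MP_b685ef_ag, theorem LFP: assembly of the modules
-/
set_option linter.all false

namespace ASE

open ASur AST

universe u v

theorem main_TRFE : StmtTRFE :=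
  trfe_thm (TEXT_thm KAC_thm TUN_thm (TEX_thm TUN_thm)) (chst_thm ttr_thm) sume_thm pathe_thm
    PER_thm

theorem main_WGTE : StmtWGTE := wgte_thm ASX.EXPX_thm sube_thm

theorem main_FORM : StmtFORM :=
  form_thm pwr_thm (nclg_thm nrb_thm) (cmp_thm eprod_thm)

theorem main_EDGEH : StmtEDGEH := edgeh_thm CYC1_thm CYC3_thm
theorem main_REIH : StmtREIH := reih_thm
theorem main_RESH : StmtRESH := resh_thm eprod_thm KAC_thm

theorem main_PAIRH : StmtPAIRH :=
  pairh_thm (ahc_thm topg_thm) zeta_thm (TEX_thm TUN_thm) main_TRFE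
    (dege_thm ASX.EXPX_thm sube_thm)
    (redh_thm main_WGTE (leadh_thm ASX.EXPX_thm sube_thm) sube_thm)
    (redet_thm CYC1_thm) main_EDGEH frobh_thm main_REIH schd_thm main_RESH

theorem main_MAINH : StmtMAINH :=
  mainh_thm main_PAIRH (npb_thm esym_thm) main_FORM offc_thm plam_thm zeta_thm ext_thm

theorem main_EQUIVH : StmtEQUIVH :=
  equivh_thm main_PAIRH (npb_thm esym_thm) main_FORM ordi_thm hhe_thm zeta_thm ext_thm

theorem main_RESF : StmtRESF := RESF_thm main_MAINH acl_thm zeta_thm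

theorem main_EQUIVF : StmtEQUIVF := EQUIVF_thm main_EQUIVH (TEMB_thm KAC_thm)

theorem main_FINH : StmtFINH.{u, v} :=
  finh_thm (klev_thm k2d_thm mult_thm linalg_thm ext_thm) main_MAINH acl_thm KAC_thm
    (TEMB_thm KAC_thm) zeta_thm

theorem main_FINP : StmtFINP.{u, v} :=
  finp_thm ASQ.place_thm ASQ.fatou_thm ASQ.unitq_thm main_MAINH acl_thm KAC_thm
    (TEMB_thm KAC_thm) zeta_thm linalg_thm ext_thm

end ASE
end
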